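import Pool.Agent.LAV.CDefs

set_option autoImplicit false

/-!
# Project LAV: sparse forbidden triples, balance of the reservoir
-/

namespace Pool.Agent.LAV

open Finset

variable {α : Type*} [DecidableEq α]

/-- at most `b |W|` forbidden third vertices in `W` for every pair of vertices of `V` -/
def Spa (A : Tri α → Prop) [DecidablePred A] (V W : Finset α) (b : ℝ) : Prop :=
  ∀ a c : Fin 3, a ≠ c → ∀ x ∈ V, ∀ y ∈ V,
    ((W.filter fun u => ¬ A (tr a c x y u)).card : ℝ) ≤ b * W.card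

/-- at most `m` neighbours in `U` of every class at every vertex of `U` -/
def Deg (Z : Gr α) (U : Finset α) (m : ℝ) : Prop :=
  ∀ a b : Fin 3, a ≠ b → ∀ v ∈ U, ((U.filter fun w => Adj Z a b v w).card : ℝ) ≤ m

/-- the imbalance of `R` is at most `D` at every vertex of `U` -/
def Imb (R : Gr α) (U : Finset α) (D : ℝ) : Prop :=
  ∀ a b c : Fin 3, a ≠ b → a ≠ c → b ≠ c → ∀ v ∈ U,
    |((nbr R a b v).card : ℝ) - (nbr R a c v).card| ≤ D

/-- a robust fractional decomposition into the allowed triples inside `U` -/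
structure Frac {α : Type} (A : Tri α → Prop) (U : Finset α) (w0 : Tri α → ℝ) (c0 C0 : ℝ) :
    Prop where
  lo : ∀ r ∈ U, ∀ c ∈ U, ∀ k ∈ U, A (r, c, k) → c0 / U.card ≤ w0 (r, c, k)
  up : ∀ r ∈ U, ∀ c ∈ U, ∀ k ∈ U, w0 (r, c, k) ≤ C0 / U.card
  nn : ∀ r ∈ U, ∀ c ∈ U, ∀ k ∈ U, 0 ≤ w0 (r, c, k)
  z : ∀ r ∈ U, ∀ c ∈ U, ∀ k ∈ U, ¬ A (r, c, k) → w0 (r, c, k) = 0
  line : ∀ x ∈ U, ∀ y ∈ U, ∑ u ∈ U, w0 (x, y, u) = 1 ∧ ∑ u ∈ U, w0 (x, u, y) = 1 ∧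
      ∑ u ∈ U, w0 (u, x, y) = 1

/-- the fractional statement at density `b` -/
def LPOK (b : ℝ) : Prop :=
  ∃ c0 C0 : ℝ, 0 < c0 ∧ 0 < C0 ∧ ∃ N0 : ℕ, ∀ {α : Type} [Fintype α] [DecidableEq α]
    (A : Tri α → Prop) [DecidablePred A] (U : Finset α), N0 ≤ U.card → Spa A U U b →
    ∃ w0 : Tri α → ℝ, Frac A U w0 c0 C0

end Pool.Agent.LAV
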