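/-
LAV (MP_ba4857_co).  LP duality: the fractional statement from the cube lemma.
-/
import Pool.Agent.LAV.VDefs

set_option autoImplicit false

namespace Pool.LAV

open Finset Pool.Agent.LAV

/-- Separation in finite dimension: a linear system has a solution in a box if no functional
separates. -/
theorem box_sep {ι κ : Type*} [Fintype ι] [Fintype κ] (lo hi : κ → ℝ)
    (M : κ → ι → ℝ) (t : ι → ℝ)
    (h : ∀ u : ι → ℝ, ∃ w : κ → ℝ, (∀ k, lo k ≤ w k) ∧ (∀ k, w k ≤ hi k) ∧
      ∑ i, t i * u i ≤ ∑ k, w k * ∑ i, M k i * u i) :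
    ∃ w : κ → ℝ, (∀ k, lo k ≤ w k) ∧ (∀ k, w k ≤ hi k) ∧ ∀ i, ∑ k, w k * M k i = t i := by
  classical
  obtain ⟨L, hL⟩ : ∃ L : (κ → ℝ) →ₗ[ℝ] (ι → ℝ), ∀ w i, L w i = ∑ k, w k * M k i := by
    refine ⟨{ toFun := fun w i => ∑ k, w k * M k i, map_add' := ?_, map_smul' := ?_ },
      fun w i => rfl⟩
    · intro a b
      funext i
      simp only [Pi.add_apply, add_mul, Finset.sum_add_distrib]
    · intro c a
      funext i
      simp only [Pi.smul_apply, smul_eq_mul, RingHom.id_apply, Finset.mul_sum, mul_assoc]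
  have hcont : Continuous L := LinearMap.continuous_of_finiteDimensional L
  have hcomp : IsCompact (L '' Set.Icc lo hi) := isCompact_Icc.image hcont
  have hconv : Convex ℝ (L '' Set.Icc lo hi) := (convex_Icc lo hi).linear_image L
  by_contra hcon
  have ht : t ∉ L '' Set.Icc lo hi := by
    rintro ⟨w, hw, hwt⟩
    refine hcon ⟨w, fun k => hw.1 k, fun k => hw.2 k, fun i => ?_⟩
    rw [← hL, hwt]
  obtain ⟨f, u0, hf1, hf2⟩ := geometric_hahn_banach_closed_point hconv hcomp.isClosed ht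
  obtain ⟨u, hu⟩ : ∃ u : ι → ℝ, u = fun i => f (Pi.single i 1) := ⟨_, rfl⟩
  have hfv : ∀ v : ι → ℝ, f v = ∑ i, v i * u i := by
    intro v
    have h1 := LinearMap.pi_apply_eq_sum_univ (f : (ι → ℝ) →ₗ[ℝ] ℝ) v
    rw [ContinuousLinearMap.coe_coe] at h1
    rw [h1, hu]
    refine Finset.sum_congr rfl fun i _ => ?_
    rw [smul_eq_mul]
    change v i * f _ = v i * f (Pi.single i 1)
    congr 2
    funext j
    rw [Pi.single_apply]
    by_cases hij : i = j
    · rw [if_pos hij, if_pos hij.symm]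
    · rw [if_neg hij, if_neg (fun h => hij h.symm)]
  obtain ⟨w, hw1, hw2, hw3⟩ := h u
  have h1 : f (L w) < u0 := hf1 _ ⟨w, ⟨fun k => hw1 k, fun k => hw2 k⟩, rfl⟩
  rw [hfv] at h1 hf2
  have h2 : ∑ i, L w i * u i = ∑ k, w k * ∑ i, M k i * u i := by
    simp_rw [hL, Finset.sum_mul, Finset.mul_sum]
    rw [Finset.sum_comm]
    refine Finset.sum_congr rfl fun k _ => Finset.sum_congr rfl fun i _ => ?_
    ring
  rw [h2] at h1
  linarith

/-- The cube lemma: for every set `F` of triples with at most a quarter of every line there is a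
function with line sums `0` which is at most `-1` on `F` and at least `-s` off `F`. -/
def CUBE : Prop :=
  ∃ C s : ℝ, s < 1 ∧ ∀ {α : Type} [Fintype α] [DecidableEq α] (F : Finset (Tri α)),
    (∀ x y : α, 4 * (univ.filter fun u => (x, y, u) ∈ F).card ≤ Fintype.card α) →
    (∀ x y : α, 4 * (univ.filter fun u => (x, u, y) ∈ F).card ≤ Fintype.card α) →
    (∀ x y : α, 4 * (univ.filter fun u => (u, x, y) ∈ F).card ≤ Fintype.card α) →
    ∃ G : Tri α → ℝ, (∀ x y, ∑ u, G (x, y, u) = 0) ∧ (∀ x y, ∑ u, G (x, u, y) = 0) ∧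
      (∀ x y, ∑ u, G (u, x, y) = 0) ∧ (∀ T, |G T| ≤ C) ∧ (∀ T ∈ F, G T ≤ -1) ∧
      ∀ T, T ∉ F → -s ≤ G T

section

variable {α : Type} [Fintype α] [DecidableEq α]

theorem sum_pr_mul_two (w : Tri α → ℝ) (x y : α) :
    ∑ T : Tri α, w T * (if pr 2 T = (x, y) then 1 else 0) = ∑ u, w (x, y, u) := by
  rw [Fintype.sum_prod_type, Finset.sum_eq_single x]
  · rw [Fintype.sum_prod_type, Finset.sum_eq_single y]
    · refine Finset.sum_congr rfl fun k _ => ?_
      rw [pr_two, if_pos rfl, mul_one]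
    · intro b _ hb
      refine Finset.sum_eq_zero fun k _ => ?_
      rw [pr_two, if_neg (fun h => hb (Prod.mk.inj h).2), mul_zero]
    · intro h; exact absurd (Finset.mem_univ _) h
  · intro b _ hb
    rw [Fintype.sum_prod_type]
    refine Finset.sum_eq_zero fun x _ => Finset.sum_eq_zero fun k _ => ?_
    rw [pr_two, if_neg (fun h => hb (Prod.mk.inj h).1), mul_zero]
  · intro h; exact absurd (Finset.mem_univ _) h

theorem sum_pr_mul_one (w : Tri α → ℝ) (x y : α) :
    ∑ T : Tri α, w T * (if pr 1 T = (x, y) then 1 else 0) = ∑ u, w (x, u, y) := by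
  rw [Fintype.sum_prod_type, Finset.sum_eq_single x]
  · rw [Fintype.sum_prod_type]
    refine Finset.sum_congr rfl fun c _ => ?_
    rw [Finset.sum_eq_single y]
    · rw [pr_one, if_pos rfl, mul_one]
    · intro b _ hb
      rw [pr_one, if_neg (fun h => hb (Prod.mk.inj h).2), mul_zero]
    · intro h; exact absurd (Finset.mem_univ _) h
  · intro b _ hb
    rw [Fintype.sum_prod_type]
    refine Finset.sum_eq_zero fun x _ => Finset.sum_eq_zero fun k _ => ?_
    rw [pr_one, if_neg (fun h => hb (Prod.mk.inj h).1), mul_zero]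
  · intro h; exact absurd (Finset.mem_univ _) h

theorem sum_pr_mul_zero (w : Tri α → ℝ) (x y : α) :
    ∑ T : Tri α, w T * (if pr 0 T = (x, y) then 1 else 0) = ∑ u, w (u, x, y) := by
  rw [Fintype.sum_prod_type]
  refine Finset.sum_congr rfl fun r _ => ?_
  rw [Fintype.sum_prod_type, Finset.sum_eq_single x]
  · rw [Finset.sum_eq_single y]
    · rw [pr_zero, if_pos rfl, mul_one]
    · intro b _ hb
      rw [pr_zero, if_neg (fun h => hb (Prod.mk.inj h).2), mul_zero]
    · intro h; exact absurd (Finset.mem_univ _) h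
  · intro b _ hb
    refine Finset.sum_eq_zero fun k _ => ?_
    rw [pr_zero, if_neg (fun h => hb (Prod.mk.inj h).1), mul_zero]
  · intro h; exact absurd (Finset.mem_univ _) h

/-- The fractional Latin square on all of `α`. -/
theorem frac_all {C s : ℝ} (hs : s < 1) (hN : 0 < Fintype.card α) (A : Tri α → Prop)
    (hG : ∀ F : Finset (Tri α), (∀ T ∈ F, ¬ A T) →
      ∃ G : Tri α → ℝ, (∀ x y, ∑ u, G (x, y, u) = 0) ∧ (∀ x y, ∑ u, G (x, u, y) = 0) ∧
      (∀ x y, ∑ u, G (u, x, y) = 0) ∧ (∀ T, |G T| ≤ C) ∧ (∀ T ∈ F, G T ≤ -1) ∧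
      ∀ T, T ∉ F → -s ≤ G T) :
    ∃ w : Tri α → ℝ, (∀ T, A T → (1 - s) / Fintype.card α ≤ w T) ∧
      (∀ T, A T → w T ≤ (1 + C) / Fintype.card α) ∧ (∀ T, ¬ A T → w T = 0) ∧
      (∀ x y, ∑ u, w (x, y, u) = 1) ∧ (∀ x y, ∑ u, w (x, u, y) = 1) ∧
      (∀ x y, ∑ u, w (u, x, y) = 1) := by
  classical
  have hNr : (0 : ℝ) < Fintype.card α := by exact_mod_cast hN
  obtain ⟨N, hNe⟩ : ∃ N : ℝ, N = Fintype.card α := ⟨_, rfl⟩
  rw [← hNe] at hNr
  obtain ⟨w, w1, w2, w3⟩ := box_sep (ι := Fin 3 × (α × α)) (κ := Tri α)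
    (fun T => if A T then (1 - s) / N else 0) (fun T => if A T then (1 + C) / N else 0)
    (fun T i => if pr i.1 T = i.2 then 1 else 0) (fun _ => 1) (by
      intro u
      obtain ⟨V, hV⟩ : ∃ V : Tri α → ℝ, V = fun T => ∑ i : Fin 3 × (α × α),
        (if pr i.1 T = i.2 then (1 : ℝ) else 0) * u i := ⟨_, rfl⟩
      obtain ⟨G, G1, G2, G3, G4, G5, G6⟩ := hG (univ.filter fun T => ¬ A T ∧ 0 < V T)
        (fun T hT => (Finset.mem_filter.mp hT).2.1)
      refine ⟨fun T => if A T then (1 + G T) / N else 0, ?_, ?_, ?_⟩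
      · intro T
        by_cases hA : A T
        · simp only [if_pos hA]
          refine div_le_div_of_nonneg_right ?_ hNr.le
          have := G6 T (fun h => (Finset.mem_filter.mp h).2.1 hA)
          linarith
        · simp only [if_neg hA]; exact le_refl _
      · intro T
        by_cases hA : A T
        · simp only [if_pos hA]
          refine div_le_div_of_nonneg_right ?_ hNr.le
          have := (abs_le.mp (G4 T)).2
          linarith
        · simp only [if_neg hA]; exact le_refl _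
      · -- total of the functional
        have hline : ∀ i : Fin 3 × (α × α),
            ∑ T : Tri α, (1 + G T) / N * (if pr i.1 T = i.2 then 1 else 0) = 1 := by
          rintro ⟨t, x, y⟩
          have hc : ∑ _u : α, (1 : ℝ) = N := by
            rw [Finset.sum_const, nsmul_eq_mul, mul_one, Finset.card_univ, hNe]
          fin_cases t
          · change ∑ T : Tri α, (1 + G T) / N * (if pr 0 T = (x, y) then 1 else 0) = 1
            rw [sum_pr_mul_zero (fun T => (1 + G T) / N), ← Finset.sum_div,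
              Finset.sum_add_distrib, hc, G3, add_zero, div_self hNr.ne']
          · change ∑ T : Tri α, (1 + G T) / N * (if pr 1 T = (x, y) then 1 else 0) = 1
            rw [sum_pr_mul_one (fun T => (1 + G T) / N), ← Finset.sum_div,
              Finset.sum_add_distrib, hc, G2, add_zero, div_self hNr.ne']
          · change ∑ T : Tri α, (1 + G T) / N * (if pr 2 T = (x, y) then 1 else 0) = 1
            rw [sum_pr_mul_two (fun T => (1 + G T) / N), ← Finset.sum_div,
              Finset.sum_add_distrib, hc, G1, add_zero, div_self hNr.ne']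
        have htot : ∑ i : Fin 3 × (α × α), (1 : ℝ) * u i = ∑ T : Tri α, (1 + G T) / N * V T := by
          simp only [hV, Finset.mul_sum]
          rw [Finset.sum_comm]
          refine Finset.sum_congr rfl fun i _ => ?_
          calc (1 : ℝ) * u i = (∑ T : Tri α, (1 + G T) / N * (if pr i.1 T = i.2 then 1 else 0)) *
                u i := by rw [hline i]
            _ = _ := by
                rw [Finset.sum_mul]
                refine Finset.sum_congr rfl fun T _ => ?_
                ring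
        rw [htot]
        have hVT : ∀ T, ∑ i : Fin 3 × (α × α), (if pr i.1 T = i.2 then (1 : ℝ) else 0) * u i
            = V T := fun T => by rw [hV]
        simp_rw [hVT]
        refine Finset.sum_le_sum fun T _ => ?_
        by_cases hA : A T
        · rw [if_pos hA]
        · rw [if_neg hA, zero_mul]
          by_cases hpos : 0 < V T
          · have h1 := G5 T (Finset.mem_filter.mpr ⟨Finset.mem_univ _, hA, hpos⟩)
            have h2 : (1 + G T) / N ≤ 0 := div_nonpos_of_nonpos_of_nonneg (by linarith) hNr.le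
            exact mul_nonpos_of_nonpos_of_nonneg h2 hpos.le
          · push Not at hpos
            have h1 := G6 T (fun h => absurd (Finset.mem_filter.mp h).2.2 (not_lt.mpr hpos))
            have h2 : 0 ≤ (1 + G T) / N := div_nonneg (by linarith) hNr.le
            exact mul_nonpos_of_nonneg_of_nonpos h2 hpos)
  rw [← hNe]
  refine ⟨w, ?_, ?_, ?_, ?_, ?_, ?_⟩
  · intro T hA
    have := w1 T
    simp only [if_pos hA] at this
    exact this
  · intro T hA
    have := w2 T
    simp only [if_pos hA] at this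
    exact this
  · intro T hA
    have h1 := w1 T
    have h2 := w2 T
    simp only [if_neg hA] at h1 h2
    exact le_antisymm h2 h1
  · intro x y
    rw [← sum_pr_mul_two]; exact w3 (2, (x, y))
  · intro x y
    rw [← sum_pr_mul_one]; exact w3 (1, (x, y))
  · intro x y
    rw [← sum_pr_mul_zero]; exact w3 (0, (x, y))

end

/-- **The fractional statement from the cube lemma.** -/
theorem lpok_of_cube (h : CUBE) {b : ℝ} (hb : b ≤ 1 / 4) : LPOK b := by
  obtain ⟨C, s, hs, hC⟩ := h
  obtain ⟨C', hC'⟩ : ∃ C' : ℝ, C' = max C 0 := ⟨_, rfl⟩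
  have hC0 : 0 ≤ C' := by rw [hC']; exact le_max_right _ _
  have hCC : C ≤ C' := by rw [hC']; exact le_max_left _ _
  refine ⟨1 - s, 1 + C', by linarith, by linarith, 1, ?_⟩
  intro α _ _ A _ U hU hspa
  classical
  have hcard : Fintype.card {x // x ∈ U} = U.card := Fintype.card_coe U
  have hUpos : (0 : ℝ) < U.card := by exact_mod_cast (by omega : 0 < U.card)
  -- lines
  have hline : ∀ (f : α → Tri α) (g : {x // x ∈ U} → Tri {x // x ∈ U})
      (F : Finset (Tri {x // x ∈ U})),
      (∀ T ∈ F, ¬ A (T.1.1, T.2.1.1, T.2.2.1)) →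
      (∀ u, ((g u).1.1, (g u).2.1.1, (g u).2.2.1) = f u.1) →
      (((U.filter fun u => ¬ A (f u)).card : ℝ) ≤ b * U.card) →
      4 * (univ.filter fun u => g u ∈ F).card ≤ Fintype.card {x // x ∈ U} := by
    intro f g F hF hfg hle
    have h1 : (univ.filter fun u => g u ∈ F).card ≤ (U.filter fun u => ¬ A (f u)).card := by
      refine Finset.card_le_card_of_injOn (fun u => u.1) ?_ ?_
      · intro u hu
        have h2 := hF _ (Finset.mem_filter.mp (Finset.mem_coe.mp hu)).2
        rw [hfg] at h2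
        exact Finset.mem_coe.mpr (Finset.mem_filter.mpr ⟨u.2, h2⟩)
      · intro u _ v _ huv
        exact Subtype.ext huv
    have h2 : (4 : ℝ) * ((univ.filter fun u => g u ∈ F).card : ℝ) ≤ U.card := by
      have h3 : ((univ.filter fun u => g u ∈ F).card : ℝ) ≤ b * U.card :=
        le_trans (by exact_mod_cast h1) hle
      nlinarith
    rw [hcard]
    exact_mod_cast h2
  obtain ⟨w, w1, w2, w3, w4, w5, w6⟩ := frac_all (α := {x // x ∈ U}) (C := C') hs
    (by rw [hcard]; omega) (fun T => A (T.1.1, T.2.1.1, T.2.2.1)) (by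
      intro F hF
      obtain ⟨G, G1, G2, G3, G4, G5, G6⟩ := hC F
        (fun x y => hline (fun u => (x.1, y.1, u)) (fun u => (x, y, u)) F hF (fun u => rfl)
          (hspa 0 1 (by decide) x.1 x.2 y.1 y.2))
        (fun x y => hline (fun u => (x.1, u, y.1)) (fun u => (x, u, y)) F hF (fun u => rfl)
          (hspa 0 2 (by decide) x.1 x.2 y.1 y.2))
        (fun x y => hline (fun u => (u, x.1, y.1)) (fun u => (u, x, y)) F hF (fun u => rfl)
          (hspa 1 2 (by decide) x.1 x.2 y.1 y.2))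
      exact ⟨G, G1, G2, G3, fun T => (G4 T).trans hCC, G5, G6⟩)
  rw [hcard] at w1 w2
  obtain ⟨w0, hw0⟩ : ∃ w0 : Tri α → ℝ, w0 = fun T =>
      if h : T.1 ∈ U ∧ T.2.1 ∈ U ∧ T.2.2 ∈ U then w (⟨T.1, h.1⟩, ⟨T.2.1, h.2.1⟩, ⟨T.2.2, h.2.2⟩)
      else 0 := ⟨_, rfl⟩
  have hin : ∀ (r c k : α) (hr : r ∈ U) (hc : c ∈ U) (hk : k ∈ U),
      w0 (r, c, k) = w (⟨r, hr⟩, ⟨c, hc⟩, ⟨k, hk⟩) := by
    intro r c k hr hc hk
    rw [hw0]
    simp only
    rw [dif_pos ⟨hr, hc, hk⟩]
  have hsum : ∀ f : {x // x ∈ U} → ℝ, ∀ g : α → ℝ, (∀ u : {x // x ∈ U}, g u.1 = f u) →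
      ∑ u ∈ U, g u = ∑ u, f u := by
    intro f g hfg
    rw [← Finset.sum_coe_sort U g]
    exact Finset.sum_congr rfl fun u _ => hfg u
  refine ⟨w0, ?_, ?_, ?_, ?_, ?_⟩
  · intro r hr c hc k hk hA
    rw [hin r c k hr hc hk]
    exact w1 _ hA
  · intro r hr c hc k hk
    rw [hin r c k hr hc hk]
    by_cases hA : A (r, c, k)
    · exact w2 (⟨r, hr⟩, ⟨c, hc⟩, ⟨k, hk⟩) hA
    · rw [w3 (⟨r, hr⟩, ⟨c, hc⟩, ⟨k, hk⟩) hA]
      positivity
  · intro r hr c hc k hk
    rw [hin r c k hr hc hk]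
    by_cases hA : A (r, c, k)
    · refine le_trans ?_ (w1 (⟨r, hr⟩, ⟨c, hc⟩, ⟨k, hk⟩) hA)
      exact div_nonneg (by linarith) hUpos.le
    · rw [w3 (⟨r, hr⟩, ⟨c, hc⟩, ⟨k, hk⟩) hA]
  · intro r hr c hc k hk hA
    rw [hin r c k hr hc hk]
    exact w3 _ hA
  · intro x hx y hy
    refine ⟨?_, ?_, ?_⟩
    · rw [hsum (fun u => w (⟨x, hx⟩, ⟨y, hy⟩, u)) (fun u => w0 (x, y, u))
        (fun u => hin x y u.1 hx hy u.2)]
      exact w4 _ _
    · rw [hsum (fun u => w (⟨x, hx⟩, u, ⟨y, hy⟩)) (fun u => w0 (x, u, y))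
        (fun u => hin x u.1 y hx u.2 hy)]
      exact w5 _ _
    · rw [hsum (fun u => w (u, ⟨x, hx⟩, ⟨y, hy⟩)) (fun u => w0 (u, x, y))
        (fun u => hin u.1 x y u.2 hx hy)]
      exact w6 _ _

end Pool.LAV
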