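import Pool.Agent.LAV.Defs

set_option autoImplicit false

/-!
# Project LAV: iteration of the level steps
-/

namespace Pool.Agent.LAV

open Finset

variable {α : Type*} [DecidableEq α]

/-- at most `m` missing edges of every type at every vertex of `U` -/
def Near (G : Gr α) (U : Finset α) (m : ℝ) : Prop :=
  ∀ t, ∀ v ∈ U, (U.card : ℝ) - m ≤ rowD G t v ∧ (U.card : ℝ) - m ≤ colD G t v

/-- One level of the vortex: every divisible graph `G` inside `U` which contains the protected
graph `Z` and has few missing edges has a packing into triples from `A` which covers everything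
outside `U'`, avoids the protected graph `Z'` and uses few edges inside `U'`. -/
def StepOK (A : Tri α → Prop) (U U' : Finset α) (Z Z' : Gr α) (θ : ℝ) : Prop :=
  ∀ G : Gr α, (∀ t, G t ⊆ U ×ˢ U) → Divisible G → (∀ t, Z t ⊆ G t) →
    Near G U (θ * U.card) →
    ∃ P : Finset (Tri α), (∀ T ∈ P, A T) ∧ Packing P ∧ (∀ t, cov P t ⊆ G t) ∧
      (∀ t, G t \ cov P t ⊆ U' ×ˢ U') ∧ (∀ t, Disjoint (Z' t) (cov P t)) ∧
      Near (fun t => G t \ cov P t) U' (θ * U'.card)

/-! ### degrees -/

theorem rowD_cov {P : Finset (Tri α)} (hP : Packing P) (t : Fin 3) (v : α) :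
    rowD (cov P) t v = (P.filter fun T => (pr t T).1 = v).card := by
  unfold rowD cov
  rw [filter_image]
  exact card_image_of_injOn fun x hx y hy h => hP t (filter_subset _ _ hx) (filter_subset _ _ hy) h

theorem colD_cov {P : Finset (Tri α)} (hP : Packing P) (t : Fin 3) (v : α) :
    colD (cov P) t v = (P.filter fun T => (pr t T).2 = v).card := by
  unfold colD cov
  rw [filter_image]
  exact card_image_of_injOn fun x hx y hy h => hP t (filter_subset _ _ hx) (filter_subset _ _ hy) h

theorem divisible_cov {P : Finset (Tri α)} (hP : Packing P) : Divisible (cov P) := by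
  refine ⟨fun v => ?_, fun v => ?_, fun v => ?_⟩
  · rw [rowD_cov hP, rowD_cov hP]; rfl
  · rw [colD_cov hP, rowD_cov hP]; rfl
  · rw [colD_cov hP, colD_cov hP]; rfl

theorem rowD_sdiff {G H : Gr α} (h : ∀ t, H t ⊆ G t) (t : Fin 3) (v : α) :
    rowD (fun t => G t \ H t) t v + rowD H t v = rowD G t v := by
  unfold rowD
  rw [← card_union_of_disjoint]
  · congr 1
    ext p
    simp only [mem_union, mem_filter, mem_sdiff]
    constructor
    · rintro (⟨⟨h1, -⟩, h2⟩ | ⟨h1, h2⟩)
      · exact ⟨h1, h2⟩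
      · exact ⟨h t h1, h2⟩
    · rintro ⟨h1, h2⟩
      by_cases h3 : p ∈ H t
      · exact Or.inr ⟨h3, h2⟩
      · exact Or.inl ⟨⟨h1, h3⟩, h2⟩
  · rw [disjoint_left]
    intro p h1 h2
    exact (mem_sdiff.1 (mem_filter.1 h1).1).2 (mem_filter.1 h2).1

theorem colD_sdiff {G H : Gr α} (h : ∀ t, H t ⊆ G t) (t : Fin 3) (v : α) :
    colD (fun t => G t \ H t) t v + colD H t v = colD G t v := by
  unfold colD
  rw [← card_union_of_disjoint]
  · congr 1
    ext p
    simp only [mem_union, mem_filter, mem_sdiff]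
    constructor
    · rintro (⟨⟨h1, -⟩, h2⟩ | ⟨h1, h2⟩)
      · exact ⟨h1, h2⟩
      · exact ⟨h t h1, h2⟩
    · rintro ⟨h1, h2⟩
      by_cases h3 : p ∈ H t
      · exact Or.inr ⟨h3, h2⟩
      · exact Or.inl ⟨⟨h1, h3⟩, h2⟩
  · rw [disjoint_left]
    intro p h1 h2
    exact (mem_sdiff.1 (mem_filter.1 h1).1).2 (mem_filter.1 h2).1

theorem divisible_sdiff {G H : Gr α} (h : ∀ t, H t ⊆ G t) (hG : Divisible G)
    (hH : Divisible H) : Divisible (fun t => G t \ H t) := by
  obtain ⟨g1, g2, g3⟩ := hG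
  obtain ⟨h1, h2, h3⟩ := hH
  refine ⟨fun v => ?_, fun v => ?_, fun v => ?_⟩
  · have a1 := rowD_sdiff h 2 v
    have a2 := rowD_sdiff h 1 v
    have a3 := g1 v
    have a4 := h1 v
    omega
  · have a1 := colD_sdiff h 2 v
    have a2 := rowD_sdiff h 0 v
    have a3 := g2 v
    have a4 := h2 v
    omega
  · have a1 := colD_sdiff h 1 v
    have a2 := colD_sdiff h 0 v
    have a3 := g3 v
    have a4 := h3 v
    omega

/-! ### unions of packings -/

theorem cov_union (P Q : Finset (Tri α)) (t : Fin 3) : cov (P ∪ Q) t = cov P t ∪ cov Q t := by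
  unfold cov
  exact image_union _ _

theorem cov_empty (t : Fin 3) : cov (∅ : Finset (Tri α)) t = ∅ := rfl

omit [DecidableEq α] in
theorem packing_empty : Packing (∅ : Finset (Tri α)) := by
  intro t x hx
  simp at hx

theorem packing_union {P Q : Finset (Tri α)} (hP : Packing P) (hQ : Packing Q)
    (h : ∀ t, Disjoint (cov P t) (cov Q t)) : Packing (P ∪ Q) := by
  intro t x hx y hy hxy
  rw [mem_coe, mem_union] at hx hy
  rcases hx with hx | hx <;> rcases hy with hy | hy
  · exact hP t hx hy hxy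
  · exact absurd (hxy ▸ mem_image_of_mem (pr t) hy) (disjoint_left.1 (h t)
      (mem_image_of_mem (pr t) hx))
  · exact absurd (hxy ▸ mem_image_of_mem (pr t) hx) (disjoint_left.1 (h t)
      (mem_image_of_mem (pr t) hy))
  · exact hQ t hx hy hxy

/-- **Iteration of the level steps.** -/
theorem iterate {A : Tri α → Prop} {θ : ℝ} (U : ℕ → Finset α) (Z : ℕ → Gr α) (l : ℕ)
    (hstep : ∀ i < l, StepOK A (U i) (U (i + 1)) (Z i) (Z (i + 1)) θ)
    (hZ : ∀ i < l, ∀ t, Z (i + 1) t ⊆ U (i + 1) ×ˢ U (i + 1))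
    (hUZ : ∀ i < l, ∀ t, U (i + 1) ×ˢ U (i + 1) ⊆ Z i t)
    (G : Gr α) (hGU : ∀ t, G t ⊆ U 0 ×ˢ U 0) (hdiv : Divisible G) (hGZ : ∀ t, Z 0 t ⊆ G t)
    (hnear : Near G (U 0) (θ * (U 0).card)) :
    ∃ P : Finset (Tri α), (∀ T ∈ P, A T) ∧ Packing P ∧ (∀ t, cov P t ⊆ G t) ∧
      ∀ t, G t \ cov P t ⊆ U l ×ˢ U l := by
  have key : ∀ i ≤ l, ∃ P : Finset (Tri α), (∀ T ∈ P, A T) ∧ Packing P ∧
      (∀ t, cov P t ⊆ G t) ∧ (∀ t, G t \ cov P t ⊆ U i ×ˢ U i) ∧
      (∀ t, Z i t ⊆ G t \ cov P t) ∧
      Near (fun t => G t \ cov P t) (U i) (θ * (U i).card) := by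
    intro i
    induction i with
    | zero =>
      intro _
      refine ⟨∅, by simp, packing_empty, fun t => by simp [cov_empty], fun t => ?_, fun t => ?_,
        ?_⟩
      · rw [cov_empty, sdiff_empty]
        exact hGU t
      · rw [cov_empty, sdiff_empty]
        exact hGZ t
      · have h1 : (fun t => G t \ cov (∅ : Finset (Tri α)) t) = G := by
          funext t
          rw [cov_empty, sdiff_empty]
        rw [h1]
        exact hnear
    | succ i ih =>
      intro hi
      obtain ⟨P, p1, p2, p3, p4, p5, p6⟩ := ih (by omega)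
      obtain ⟨Q, q1, q2, q3, q4, q5, q6⟩ := hstep i (by omega) (fun t => G t \ cov P t) p4
        (divisible_sdiff p3 hdiv (divisible_cov p2)) p5 p6
      have hd : ∀ t, Disjoint (cov P t) (cov Q t) := fun t => by
        rw [disjoint_right]
        intro p hp
        exact (mem_sdiff.1 (q3 t hp)).2
      have he : (fun t => G t \ cov (P ∪ Q) t) = fun t => (G t \ cov P t) \ cov Q t := by
        funext t
        rw [cov_union, sdiff_sdiff_left]
        rfl
      have he' : ∀ t, G t \ cov (P ∪ Q) t = (G t \ cov P t) \ cov Q t := fun t =>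
        congrFun he t
      refine ⟨P ∪ Q, ?_, packing_union p2 q2 hd, fun t => ?_, fun t => ?_, fun t => ?_, ?_⟩
      · intro T hT
        rcases mem_union.1 hT with h | h
        · exact p1 T h
        · exact q1 T h
      · rw [cov_union]
        exact union_subset (p3 t) ((q3 t).trans sdiff_subset)
      · rw [he']
        exact q4 t
      · rw [he']
        intro p hp
        exact mem_sdiff.2 ⟨p5 t (hUZ i (by omega) t (hZ i (by omega) t hp)),
          disjoint_left.1 (q5 t) hp⟩
      · rw [he]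
        exact q6
  obtain ⟨P, p1, p2, p3, p4, -, -⟩ := key l le_rfl
  exact ⟨P, p1, p2, p3, p4⟩

end Pool.Agent.LAV
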