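import Pool.Agent.LAV.ABS
import Pool.Agent.LAV.ITR

set_option autoImplicit false

/-!
# Project LAV: absorbers for all divisible graphs inside a small set

`absorb_family` is in the form of the hypotheses of `assemble`.
-/

namespace Pool.Agent.LAV

open Finset

variable {α : Type*} [DecidableEq α]

theorem rich_sdiff {A : Tri α → Prop} [DecidablePred A] {W : Finset α} {M : ℕ}
    (hM : Rich A W M) (X : Finset α) : Rich A (W \ X) (M - X.card) := by
  have key : ∀ (P : α → Prop) [DecidablePred P], M ≤ (W.filter P).card →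
      M - X.card ≤ ((W \ X).filter P).card := by
    intro P _ h
    have h1 : W.filter P ⊆ (W \ X).filter P ∪ X := by
      intro w hw
      rw [mem_filter] at hw
      by_cases hx : w ∈ X
      · exact mem_union_right _ hx
      · exact mem_union_left _ (mem_filter.2 ⟨mem_sdiff.2 ⟨hw.1, hx⟩, hw.2⟩)
    have h2 := (card_le_card h1).trans (card_union_le _ _)
    omega
  obtain ⟨h1, h2, h3⟩ := hM
  exact ⟨fun p => key _ (h1 p), fun p => key _ (h2 p), fun p => key _ (h3 p)⟩

theorem rich_mono {A : Tri α → Prop} [DecidablePred A] {W : Finset α} {M M' : ℕ}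
    (hM : Rich A W M) (h : M' ≤ M) : Rich A W M' :=
  ⟨fun p => h.trans (hM.1 p), fun p => h.trans (hM.2.1 p), fun p => h.trans (hM.2.2 p)⟩

/-- the graphs inside `U` -/
noncomputable def graphsIn (U : Finset α) : Finset (Gr α) :=
  Fintype.piFinset fun _ : Fin 3 => (U ×ˢ U).powerset

theorem mem_graphsIn {U : Finset α} {H : Gr α} : H ∈ graphsIn U ↔ ∀ t, H t ⊆ U ×ˢ U := by
  unfold graphsIn
  rw [Fintype.mem_piFinset]
  simp only [mem_powerset]

theorem card_graphsIn (U : Finset α) : (graphsIn U).card = 2 ^ (3 * U.card ^ 2) := by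
  unfold graphsIn
  rw [Fintype.card_piFinset]
  simp only [card_powerset, card_product, prod_const, card_univ, Fintype.card_fin]
  rw [← pow_mul]
  congr 1
  ring

/-- **Absorbers for a family of divisible graphs** inside `U`, with pairwise disjoint sets of new
vertices in `W`. -/
theorem absorb_all [Nonempty α] (A : Tri α → Prop) [DecidablePred A] {U W : Finset α}
    (hUW : Disjoint U W) {M : ℕ} (hM : Rich A W M) (HH : Finset (Gr α))
    (hHH : ∀ H ∈ HH, (∀ t, H t ⊆ U ×ˢ U) ∧ Divisible H)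
    (hbig : HH.card * (4 * U.card ^ 2 + 1) + 3 * U.card ^ 2 + 1 ≤ M) :
    ∃ (V : Gr α → Finset α) (B : Gr α → Gr α),
      (∀ H ∈ HH, V H ⊆ W ∧ (V H).card ≤ 4 * U.card ^ 2 + 1 ∧
        (∀ t, ∀ p ∈ B H t, (p.1 ∈ V H ∨ p.2 ∈ V H) ∧ p.1 ∈ U ∪ V H ∧ p.2 ∈ U ∪ V H) ∧
        Dec A (B H) ∧ Dec A (fun t => H t ∪ B H t)) ∧
      (∀ H ∈ HH, ∀ H' ∈ HH, H ≠ H' → Disjoint (V H) (V H')) := by
  classical
  induction HH using Finset.induction_on with
  | empty => exact ⟨fun _ => ∅, fun _ _ => ∅, by simp, by simp⟩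
  | insert H0 s hs ih =>
    rw [card_insert_of_notMem hs] at hbig
    have hb1 : s.card * (4 * U.card ^ 2 + 1) + (4 * U.card ^ 2 + 1) =
        (s.card + 1) * (4 * U.card ^ 2 + 1) := by ring
    obtain ⟨V, B, h1, h2⟩ := ih (fun H hH => hHH H (mem_insert_of_mem hH)) (by omega)
    set X : Finset α := s.biUnion V with hX
    have hXc : X.card ≤ s.card * (4 * U.card ^ 2 + 1) :=
      card_biUnion_le_card_mul _ _ _ fun H hH => (h1 H hH).2.1
    have hR := rich_sdiff hM X
    obtain ⟨hH0a, hH0b⟩ := hHH H0 (mem_insert_self _ _)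
    have hcard : ∀ t, (H0 t).card ≤ U.card ^ 2 := by
      intro t
      refine (card_le_card (hH0a t)).trans (le_of_eq ?_)
      rw [card_product]; ring
    obtain ⟨V0, B0, v1, v2, v3, v4, v5⟩ := absorber A (U := U) (W := W \ X)
      (disjoint_of_subset_right sdiff_subset hUW)
      (H := H0) (fun t p hp => mem_product.1 (hH0a t hp)) hH0b hR (by
        have e0 := hcard 0
        have e1 := hcard 1
        have e2 := hcard 2
        omega)
    refine ⟨fun H => if H = H0 then V0 else V H, fun H => if H = H0 then B0 else B H, ?_, ?_⟩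
    · intro H hH
      by_cases hh : H = H0
      · subst hh
        simp only [if_true]
        refine ⟨v1.trans sdiff_subset, ?_, v3, v4, v5⟩
        have e0 := hcard 0
        have e1 := hcard 1
        have e2 := hcard 2
        omega
      · simp only [if_neg hh]
        exact h1 H ((mem_insert.1 hH).resolve_left hh)
    · have hdis : ∀ H ∈ s, Disjoint (V H) V0 := by
        intro H hH
        rw [disjoint_left]
        intro x hx hx0
        exact (mem_sdiff.1 (v1 hx0)).2 (mem_biUnion.2 ⟨H, hH, hx⟩)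
      intro H hH H' hH' hne
      by_cases hh : H = H0
      · subst hh
        have hh' : H' ≠ H := fun h => hne h.symm
        simp only [if_true, if_neg hh']
        exact (hdis H' ((mem_insert.1 hH').resolve_left hh')).symm
      · simp only [if_neg hh]
        by_cases hh' : H' = H0
        · subst hh'
          simp only [if_true]
          exact hdis H ((mem_insert.1 hH).resolve_left hh)
        · simp only [if_neg hh']
          exact h2 H ((mem_insert.1 hH).resolve_left hh) H' ((mem_insert.1 hH').resolve_left hh')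
            hne

/-- **The absorbers in the form needed for `assemble`.** -/
theorem absorb_family [Nonempty α] (A : Tri α → Prop) [DecidablePred A] {U₀ U W : Finset α}
    (hUW : Disjoint U W) (hU : U ⊆ U₀) (hW : W ⊆ U₀) {M : ℕ} (hM : Rich A W M)
    (hbig : 2 ^ (3 * U.card ^ 2) * (4 * U.card ^ 2 + 1) + 3 * U.card ^ 2 + 1 ≤ M) :
    ∃ (HH : Finset (Gr α)) (B : Gr α → Gr α),
      (∀ H : Gr α, (∀ t, H t ⊆ U ×ˢ U) → Divisible H → H ∈ HH) ∧
      (∀ H ∈ HH, Dec A (B H)) ∧
      (∀ H ∈ HH, Divisible H → Dec A (fun t => H t ∪ B H t)) ∧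
      (∀ H ∈ HH, ∀ H' ∈ HH, H ≠ H' → ∀ t, Disjoint (B H t) (B H' t)) ∧
      (∀ H ∈ HH, ∀ t, B H t ⊆ U₀ ×ˢ U₀) ∧
      (∀ H ∈ HH, ∀ t, Disjoint (B H t) (U ×ˢ U)) ∧
      (∀ H ∈ HH, ∀ t, ∀ p ∈ B H t,
        (p.1 ∈ W ∧ p.2 ∈ U ∪ W) ∨ (p.2 ∈ W ∧ p.1 ∈ U ∪ W)) ∧
      Near (fun t => (U₀ ×ˢ U₀) \ HH.biUnion fun H => B H t) U₀
        (U.card + 2 ^ (3 * U.card ^ 2) * (4 * U.card ^ 2 + 1)) := by
  classical
  set HH : Finset (Gr α) := (graphsIn U).filter Divisible with hHH
  have hcard : HH.card ≤ 2 ^ (3 * U.card ^ 2) := by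
    rw [← card_graphsIn U]
    exact card_filter_le _ _
  have hbig' : HH.card * (4 * U.card ^ 2 + 1) + 3 * U.card ^ 2 + 1 ≤ M := by
    have := Nat.mul_le_mul_right (4 * U.card ^ 2 + 1) hcard
    omega
  have hmem : ∀ H ∈ HH, (∀ t, H t ⊆ U ×ˢ U) ∧ Divisible H := by
    intro H hH
    rw [hHH, mem_filter, mem_graphsIn] at hH
    exact hH
  obtain ⟨V, B, h1, h2⟩ := absorb_all A hUW hM HH hmem hbig'
  set X : Finset α := HH.biUnion V with hX
  have hXc : X.card ≤ 2 ^ (3 * U.card ^ 2) * (4 * U.card ^ 2 + 1) :=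
    (card_biUnion_le_card_mul _ _ _ fun H hH => (h1 H hH).2.1).trans
      (Nat.mul_le_mul_right _ hcard)
  have hsub : ∀ H ∈ HH, ∀ t, ∀ p ∈ B H t, p.1 ∈ U ∪ X ∧ p.2 ∈ U ∪ X := by
    intro H hH t p hp
    obtain ⟨-, h3, h4⟩ := (h1 H hH).2.2.1 t p hp
    have h5 : U ∪ V H ⊆ U ∪ X := union_subset_union_right (subset_biUnion_of_mem V hH)
    exact ⟨h5 h3, h5 h4⟩
  have hVW : ∀ H ∈ HH, V H ⊆ W := fun H hH => (h1 H hH).1
  have hVU : ∀ H ∈ HH, ∀ x ∈ V H, x ∉ U := fun H hH x hx hxU =>
    disjoint_left.1 hUW hxU (hVW H hH hx)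
  refine ⟨HH, B, ?_, ?_, ?_, ?_, ?_, ?_, ?_, ?_⟩
  · intro H hH hd
    rw [hHH, mem_filter, mem_graphsIn]
    exact ⟨hH, hd⟩
  · exact fun H hH => (h1 H hH).2.2.2.1
  · exact fun H hH _ => (h1 H hH).2.2.2.2
  · intro H hH H' hH' hne t
    rw [disjoint_left]
    intro p hp hp'
    have h3 := (h1 H hH).2.2.1 t p hp
    have h4 := (h1 H' hH').2.2.1 t p hp'
    have h5 := h2 H hH H' hH' hne
    have key : ∀ x, x ∈ V H → x ∈ U ∪ V H' → False := by
      intro x hx hx'
      rcases mem_union.1 hx' with h | h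
      · exact hVU H hH x hx h
      · exact disjoint_left.1 h5 hx h
    rcases h3.1 with h | h
    · exact key _ h h4.2.1
    · exact key _ h h4.2.2
  · intro H hH t p hp
    have h3 : U ∪ V H ⊆ U₀ := union_subset hU ((hVW H hH).trans hW)
    obtain ⟨-, h4, h5⟩ := (h1 H hH).2.2.1 t p hp
    exact mem_product.2 ⟨h3 h4, h3 h5⟩
  · intro H hH t
    rw [disjoint_left]
    intro p hp hpU
    rw [mem_product] at hpU
    rcases ((h1 H hH).2.2.1 t p hp).1 with h | h
    · exact hVU H hH _ h hpU.1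
    · exact hVU H hH _ h hpU.2
  · intro H hH t p hp
    obtain ⟨h3, h4, h5⟩ := (h1 H hH).2.2.1 t p hp
    have h6 : U ∪ V H ⊆ U ∪ W := union_subset_union_right (hVW H hH)
    rcases h3 with h | h
    · exact Or.inl ⟨hVW H hH h, h6 h5⟩
    · exact Or.inr ⟨hVW H hH h, h6 h4⟩
  · intro t v hv
    have hUX : ((U ∪ X).card : ℝ) ≤
        U.card + 2 ^ (3 * U.card ^ 2) * (4 * U.card ^ 2 + 1) := by
      have h3 : (U ∪ X).card ≤ U.card + 2 ^ (3 * U.card ^ 2) * (4 * U.card ^ 2 + 1) :=
        (card_union_le _ _).trans (Nat.add_le_add_left hXc _)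
      exact_mod_cast h3
    constructor
    · have h3 : U₀.card ≤ rowD (fun t => (U₀ ×ˢ U₀) \ HH.biUnion fun H => B H t) t v +
          (U ∪ X).card := by
        unfold rowD
        have h4 : U₀ ⊆ (((U₀ ×ˢ U₀) \ HH.biUnion fun H => B H t).filter
            fun p => p.1 = v).image Prod.snd ∪ (U ∪ X) := by
          intro y hy
          by_cases hB : (v, y) ∈ HH.biUnion fun H => B H t
          · obtain ⟨H, hH, hp⟩ := mem_biUnion.1 hB
            exact mem_union_right _ (hsub H hH t _ hp).2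
          · exact mem_union_left _ (mem_image.2 ⟨(v, y), mem_filter.2
              ⟨mem_sdiff.2 ⟨mem_product.2 ⟨hv, hy⟩, hB⟩, rfl⟩, rfl⟩)
        exact (card_le_card h4).trans ((card_union_le _ _).trans
          (Nat.add_le_add_right card_image_le _))
      have h4 : (U₀.card : ℝ) ≤ rowD (fun t => (U₀ ×ˢ U₀) \ HH.biUnion fun H => B H t) t v +
          (U ∪ X).card := by exact_mod_cast h3
      linarith
    · have h3 : U₀.card ≤ colD (fun t => (U₀ ×ˢ U₀) \ HH.biUnion fun H => B H t) t v +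
          (U ∪ X).card := by
        unfold colD
        have h4 : U₀ ⊆ (((U₀ ×ˢ U₀) \ HH.biUnion fun H => B H t).filter
            fun p => p.2 = v).image Prod.fst ∪ (U ∪ X) := by
          intro y hy
          by_cases hB : (y, v) ∈ HH.biUnion fun H => B H t
          · obtain ⟨H, hH, hp⟩ := mem_biUnion.1 hB
            exact mem_union_right _ (hsub H hH t _ hp).1
          · exact mem_union_left _ (mem_image.2 ⟨(y, v), mem_filter.2
              ⟨mem_sdiff.2 ⟨mem_product.2 ⟨hy, hv⟩, hB⟩, rfl⟩, rfl⟩)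
        exact (card_le_card h4).trans ((card_union_le _ _).trans
          (Nat.add_le_add_right card_image_le _))
      have h4 : (U₀.card : ℝ) ≤ colD (fun t => (U₀ ×ˢ U₀) \ HH.biUnion fun H => B H t) t v +
          (U ∪ X).card := by exact_mod_cast h3
      linarith

end Pool.Agent.LAV
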