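import Pool.Agent.LAV.ITR

set_option autoImplicit false

/-!
# Project LAV: final assembly (absorbers + iteration of the level steps give a Latin square)
-/

namespace Pool.Agent.LAV

open Finset

variable {α : Type*} [DecidableEq α]

theorem divisible_prod (U : Finset α) : Divisible (fun _ : Fin 3 => U ×ˢ U) := by
  have h1 : ∀ v, ((U ×ˢ U).filter fun p : α × α => p.1 = v).card =
      ((U ×ˢ U).filter fun p : α × α => p.2 = v).card := by
    intro v
    refine card_bij (fun p _ => (p.2, p.1)) ?_ ?_ ?_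
    · intro p hp
      rw [mem_filter, mem_product] at hp ⊢
      exact ⟨⟨hp.1.2, hp.1.1⟩, hp.2⟩
    · rintro ⟨a, b⟩ _ ⟨c, d⟩ _ h
      simp only [Prod.mk.injEq] at h ⊢
      exact ⟨h.2, h.1⟩
    · rintro ⟨a, b⟩ hp
      rw [mem_filter, mem_product] at hp
      exact ⟨(b, a), by rw [mem_filter, mem_product]; exact ⟨⟨hp.1.2, hp.1.1⟩, hp.2⟩, rfl⟩
  exact ⟨fun v => rfl, fun v => (h1 v).symm, fun v => rfl⟩

/-- unions of packings with disjoint edge sets -/
theorem packing_biUnion {ι : Type*} [DecidableEq ι] {s : Finset ι} {P : ι → Finset (Tri α)}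
    (hP : ∀ i ∈ s, Packing (P i))
    (h : ∀ i ∈ s, ∀ j ∈ s, i ≠ j → ∀ t, Disjoint (cov (P i) t) (cov (P j) t)) :
    Packing (s.biUnion P) := by
  intro t x hx y hy hxy
  rw [mem_coe, mem_biUnion] at hx hy
  obtain ⟨i, hi, hx⟩ := hx
  obtain ⟨j, hj, hy⟩ := hy
  have hij : i = j := by
    by_contra hne
    exact disjoint_left.1 (h i hi j hj hne t) (mem_image_of_mem (pr t) hx)
      (hxy ▸ mem_image_of_mem (pr t) hy)
  subst hij
  exact hP i hi t hx hy hxy

theorem cov_biUnion {ι : Type*} [DecidableEq ι] (s : Finset ι) (P : ι → Finset (Tri α))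
    (t : Fin 3) : cov (s.biUnion P) t = s.biUnion fun i => cov (P i) t := by
  unfold cov
  exact biUnion_image

/-- **Assembly.**  Absorbers for all divisible graphs inside the last set and the level steps give
a decomposition of the complete tripartite graph into triples from `A`. -/
theorem assemble {A : Tri α → Prop} {θ : ℝ} (U : ℕ → Finset α) (Z : ℕ → Gr α) (l : ℕ)
    (hstep : ∀ i < l, StepOK A (U i) (U (i + 1)) (Z i) (Z (i + 1)) θ)
    (hZ : ∀ i < l, ∀ t, Z (i + 1) t ⊆ U (i + 1) ×ˢ U (i + 1))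
    (hUZ : ∀ i < l, ∀ t, U (i + 1) ×ˢ U (i + 1) ⊆ Z i t)
    (hZ0 : ∀ t, Z 0 t ⊆ U 0 ×ˢ U 0)
    (HH : Finset (Gr α)) (hHH : ∀ H : Gr α, (∀ t, H t ⊆ U l ×ˢ U l) → Divisible H → H ∈ HH)
    (B : Gr α → Gr α) (hB1 : ∀ H ∈ HH, Dec A (B H))
    (hB2 : ∀ H ∈ HH, Divisible H → Dec A (fun t => H t ∪ B H t))
    (hdisj : ∀ H ∈ HH, ∀ H' ∈ HH, H ≠ H' → ∀ t, Disjoint (B H t) (B H' t))
    (hBU : ∀ H ∈ HH, ∀ t, B H t ⊆ U 0 ×ˢ U 0)
    (hBl : ∀ H ∈ HH, ∀ t, Disjoint (B H t) (U l ×ˢ U l))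
    (hBZ : ∀ H ∈ HH, ∀ t, Disjoint (Z 0 t) (B H t))
    (hnear : Near (fun t => (U 0 ×ˢ U 0) \ HH.biUnion fun H => B H t) (U 0)
      (θ * (U 0).card)) :
    Dec A (fun _ => U 0 ×ˢ U 0) := by
  classical
  choose! PB b1 b2 b3 using hB1
  set G : Gr α := fun t => (U 0 ×ˢ U 0) \ HH.biUnion fun H => B H t with hG
  have hcov : ∀ t, cov (HH.biUnion PB) t = HH.biUnion fun H => B H t := by
    intro t
    rw [cov_biUnion]
    exact biUnion_congr rfl fun H hH => by rw [b3 H hH]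
  have hpk : Packing (HH.biUnion PB) := packing_biUnion b2 fun H hH H' hH' hne t => by
    rw [b3 H hH, b3 H' hH']
    exact hdisj H hH H' hH' hne t
  have hGdiv : Divisible G := by
    have h1 : G = fun t => (U 0 ×ˢ U 0) \ cov (HH.biUnion PB) t := by
      funext t
      rw [hcov t]
    rw [h1]
    refine divisible_sdiff (G := fun _ => U 0 ×ˢ U 0) (fun t => ?_) (divisible_prod _)
      (divisible_cov hpk)
    rw [hcov t]
    exact biUnion_subset.2 fun H hH => hBU H hH t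
  obtain ⟨P, p1, p2, p3, p4⟩ := iterate U Z l hstep hZ hUZ G (fun t => sdiff_subset) hGdiv
    (fun t p hp => mem_sdiff.2 ⟨hZ0 t hp, fun h => by
      obtain ⟨H, hH, h2⟩ := mem_biUnion.1 h
      exact disjoint_left.1 (hBZ H hH t) hp h2⟩) hnear
  set H0 : Gr α := fun t => G t \ cov P t with hH0
  have hH0div : Divisible H0 := divisible_sdiff p3 hGdiv (divisible_cov p2)
  have hH0m : H0 ∈ HH := hHH H0 p4 hH0div
  obtain ⟨Q, q1, q2, q3⟩ := hB2 H0 hH0m hH0div
  have q3' : ∀ t, cov Q t = H0 t ∪ B H0 t := fun t => by rw [q3]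
  set E : Finset (Gr α) := HH.erase H0 with hE
  have hEpk : Packing (E.biUnion PB) := packing_biUnion
    (fun H hH => b2 H (mem_of_mem_erase hH)) fun H hH H' hH' hne t => by
      rw [b3 H (mem_of_mem_erase hH), b3 H' (mem_of_mem_erase hH')]
      exact hdisj H (mem_of_mem_erase hH) H' (mem_of_mem_erase hH') hne t
  have hEcov : ∀ t, cov (E.biUnion PB) t = E.biUnion fun H => B H t := by
    intro t
    rw [cov_biUnion]
    exact biUnion_congr rfl fun H hH => by rw [b3 H (mem_of_mem_erase hH)]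
  have hPB : ∀ H ∈ HH, ∀ t, ∀ p ∈ B H t, p ∉ cov P t := fun H hH t p hp h =>
    (mem_sdiff.1 (p3 t h)).2 (mem_biUnion.2 ⟨H, hH, hp⟩)
  have hH0B : ∀ H ∈ HH, ∀ t, ∀ p ∈ B H t, p ∉ H0 t := fun H hH t p hp h =>
    disjoint_left.1 (hBl H hH t) hp (p4 t h)
  have hPQ : Packing (P ∪ Q) := packing_union p2 q2 fun t => by
    rw [q3' t, disjoint_left]
    intro p hp h
    rcases mem_union.1 h with h | h
    · exact (mem_sdiff.1 h).2 hp
    · exact hPB H0 hH0m t p h hp
  refine ⟨P ∪ Q ∪ E.biUnion PB, ?_, packing_union hPQ hEpk fun t => ?_, ?_⟩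
  · intro T hT
    rcases mem_union.1 hT with hT | hT
    · rcases mem_union.1 hT with hT | hT
      · exact p1 T hT
      · exact q1 T hT
    · obtain ⟨H, hH, hT⟩ := mem_biUnion.1 hT
      exact b1 H (mem_of_mem_erase hH) T hT
  · rw [cov_union, q3' t, hEcov t, disjoint_right]
    intro p hp
    obtain ⟨H, hH, hp⟩ := mem_biUnion.1 hp
    have hHm := mem_of_mem_erase hH
    intro h
    rcases mem_union.1 h with h | h
    · exact hPB H hHm t p hp h
    · rcases mem_union.1 h with h | h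
      · exact hH0B H hHm t p hp h
      · exact disjoint_left.1 (hdisj H hHm H0 hH0m (ne_of_mem_erase hH) t) hp h
  · funext t
    rw [cov_union, cov_union, q3' t, hEcov t]
    ext p
    simp only [mem_union, mem_biUnion]
    constructor
    · rintro ((h | h | h) | ⟨H, hH, h⟩)
      · exact (mem_sdiff.1 (p3 t h)).1
      · exact (mem_sdiff.1 (mem_sdiff.1 h).1).1
      · exact hBU H0 hH0m t h
      · exact hBU H (mem_of_mem_erase hH) t h
    · intro hp
      by_cases h1 : p ∈ G t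
      · by_cases h2 : p ∈ cov P t
        · exact Or.inl (Or.inl h2)
        · exact Or.inl (Or.inr (Or.inl (mem_sdiff.2 ⟨h1, h2⟩)))
      · have h3 : p ∈ HH.biUnion fun H => B H t := by
          by_contra h4
          exact h1 (mem_sdiff.2 ⟨hp, h4⟩)
        obtain ⟨H, hH, h4⟩ := mem_biUnion.1 h3
        by_cases h5 : H = H0
        · subst h5
          exact Or.inl (Or.inr (Or.inr h4))
        · exact Or.inr ⟨H, mem_erase.2 ⟨h5, hH⟩, h4⟩

/-- A decomposition of the complete tripartite graph into triples from `A` is a Latin square. -/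
theorem latin_of_dec {n : ℕ} {A : Tri (Fin n) → Prop}
    (h : Dec A (fun _ => (univ : Finset (Fin n)) ×ˢ (univ : Finset (Fin n)))) :
    ∃ f : Fin n → Fin n → Fin n, (∀ i j j', j ≠ j' → f i j ≠ f i j') ∧
      (∀ j i i', i ≠ i' → f i j ≠ f i' j) ∧ ∀ i j, A (i, j, f i j) := by
  obtain ⟨P, h1, h2, h3⟩ := h
  have key : ∀ i j, ∃ k, (i, j, k) ∈ P := by
    intro i j
    have h4 : (i, j) ∈ cov P 2 := by
      rw [h3]
      simp
    obtain ⟨⟨a, b, k⟩, hT, h5⟩ := mem_image.1 h4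
    rw [pr_two, Prod.mk.injEq] at h5
    obtain ⟨rfl, rfl⟩ := h5
    exact ⟨k, hT⟩
  choose f hf using key
  refine ⟨f, ?_, ?_, fun i j => h1 _ (hf i j)⟩
  · intro i j j' hne he
    have h4 := h2 1 (mem_coe.2 (hf i j)) (mem_coe.2 (hf i j')) (by
      rw [pr_one, pr_one, he])
    rw [Prod.mk.injEq, Prod.mk.injEq] at h4
    exact hne h4.2.1
  · intro j i i' hne he
    have h4 := h2 0 (mem_coe.2 (hf i j)) (mem_coe.2 (hf i' j)) (by
      rw [pr_zero, pr_zero, he])
    rw [Prod.mk.injEq, Prod.mk.injEq] at h4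
    exact hne h4.1

end Pool.Agent.LAV
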