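import Pool.Agent.LAV.VTX
import Pool.Agent.LAV.FNL
import Pool.Agent.LAV.ABSALL

set_option autoImplicit false

/-!
# Project LAV: the decomposition theorem from the fractional statement
-/

namespace Pool.Agent.LAV

open Finset

theorem Near.mono {α : Type} [DecidableEq α] {G : Gr α} {U : Finset α} {m m' : ℝ}
    (h : Near G U m) (hm : m ≤ m') : Near G U m' := fun t v hv =>
  ⟨(sub_le_sub_left hm _).trans (h t v hv).1, (sub_le_sub_left hm _).trans (h t v hv).2⟩

theorem tr01 {α : Type} (x y z : α) : tr 0 1 x y z = (x, y, z) := by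
  simp [tr]

theorem tr02 {α : Type} (x y z : α) : tr 0 2 x y z = (x, z, y) := by
  simp [tr]

theorem tr12 {α : Type} (x y z : α) : tr 1 2 x y z = (z, x, y) := by
  simp [tr]

/-- four lines have many common allowed vertices outside a small set -/
theorem rich_aux {n : ℕ} {β : ℝ} {W : Finset (Fin n)} {M : ℕ} (P : Fin 4 → Fin n → Prop)
    [∀ i, DecidablePred (P i)]
    (h : ∀ i, ((univ.filter fun w => ¬ P i w).card : ℝ) ≤ β * n)
    (hM : (M : ℝ) + 4 * (β * n) ≤ W.card) : M ≤ (W.filter fun w => ∀ i, P i w).card := by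
  have h1 : W ⊆ (W.filter fun w => ∀ i, P i w) ∪ univ.biUnion fun i : Fin 4 =>
      univ.filter fun w => ¬ P i w := by
    intro w hw
    rw [mem_union, mem_filter, mem_biUnion]
    by_cases h2 : ∀ i, P i w
    · exact Or.inl ⟨hw, h2⟩
    · push Not at h2
      obtain ⟨i, hi⟩ := h2
      exact Or.inr ⟨i, mem_univ _, mem_filter.2 ⟨mem_univ _, hi⟩⟩
  have h2 := (card_le_card h1).trans (card_union_le _ _)
  have h3 : ((univ.biUnion fun i : Fin 4 => univ.filter fun w => ¬ P i w).card : ℝ) ≤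
      4 * (β * n) := by
    have h4 : (univ.biUnion fun i : Fin 4 => univ.filter fun w => ¬ P i w).card ≤
        ∑ i : Fin 4, (univ.filter fun w => ¬ P i w).card := card_biUnion_le
    have h5 : ((univ.biUnion fun i : Fin 4 => univ.filter fun w => ¬ P i w).card : ℝ) ≤
        ∑ i : Fin 4, ((univ.filter fun w => ¬ P i w).card : ℝ) := by exact_mod_cast h4
    refine h5.trans ((sum_le_sum fun i _ => h i).trans ?_)
    rw [sum_const, card_univ, Fintype.card_fin, nsmul_eq_mul]
    norm_num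
  have h4 : (W.card : ℝ) ≤ (W.filter fun w => ∀ i, P i w).card +
      (univ.biUnion fun i : Fin 4 => univ.filter fun w => ¬ P i w).card := by exact_mod_cast h2
  have h5 : (M : ℝ) ≤ (W.filter fun w => ∀ i, P i w).card := by linarith
  exact_mod_cast h5

theorem rich_of_spa {n : ℕ} {β : ℝ} (A : Tri (Fin n) → Prop) [DecidablePred A]
    (hA : Spa A univ univ β) {W : Finset (Fin n)} {M : ℕ}
    (hM : (M : ℝ) + 4 * (β * n) ≤ W.card) : Rich A W M := by
  refine ⟨fun p => ?_, fun p => ?_, fun p => ?_⟩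
  · refine rich_aux (β := β) (fun i w => A ((p i).1, (p i).2, w)) (fun i => ?_) hM
    have := hA 0 1 (by decide) (p i).1 (mem_univ _) (p i).2 (mem_univ _)
    simpa only [tr01, card_univ, Fintype.card_fin] using this
  · refine rich_aux (β := β) (fun i w => A ((p i).1, w, (p i).2)) (fun i => ?_) hM
    have := hA 0 2 (by decide) (p i).1 (mem_univ _) (p i).2 (mem_univ _)
    simpa only [tr02, card_univ, Fintype.card_fin] using this
  · refine rich_aux (β := β) (fun i w => A (w, (p i).1, (p i).2)) (fun i => ?_) hM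
    have := hA 1 2 (by decide) (p i).1 (mem_univ _) (p i).2 (mem_univ _)
    simpa only [tr12, card_univ, Fintype.card_fin] using this

/-- **The decomposition theorem.** -/
theorem dec_all {b : ℝ} (hb : b < 1 / 4) (hlp : ∀ b' : ℝ, b' < 1 / 4 → LPOK b') :
    ∃ n0 : ℕ, ∀ n : ℕ, n0 ≤ n → ∀ (A : Tri (Fin n) → Prop) [DecidablePred A],
      Spa A univ univ b → Dec A (fun _ => univ ×ˢ univ) := by
  set β : ℝ := max b 0 with hβ
  have hβ0 : 0 ≤ β := le_max_right _ _
  have hβ4 : β < 1 / 4 := max_lt hb (by norm_num)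
  have hbβ : b ≤ β := le_max_left _ _
  clear_value β
  set b1 : ℝ := (β + 1 / 4) / 2 with hb1
  have hb1a : β < b1 := by linarith
  have hb1b : b1 < 1 / 4 := by linarith
  clear_value b1
  set g : ℝ := 1 - 4 * β with hg
  have hg0 : 0 < g := by linarith
  obtain ⟨t0, ht0⟩ := exists_nat_ge (8 / g)
  obtain ⟨t, θ, ζ, ε, N2, hta, ht32, hθ, hζ, hε, hstep⟩ := one_step (b := b1) (by linarith) hb1b
    (hlp b1 hb1b) t0
  have hstep' : StepProp b1 θ ζ ε t N2 := @hstep
  obtain ⟨N3, hvor⟩ := vortex (β := β) (b := b1) hb1a (by linarith) ht32 hζ hε hstep'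
  obtain ⟨NE, hNE⟩ := exists_next t (by omega)
  have htpos : (0 : ℝ) < t := by
    have : (32 : ℝ) ≤ t := by exact_mod_cast ht32
    linarith
  have htg : 8 ≤ g * t := by
    have h1 : (t0 : ℝ) ≤ t := by exact_mod_cast hta
    have h2 : 8 / g ≤ t := ht0.trans h1
    rw [div_le_iff₀ hg0] at h2
    linarith
  obtain ⟨M, hM⟩ : ∃ M : ℕ, M = 2 ^ (3 * N3 ^ 2) * (4 * N3 ^ 2 + 1) + 3 * N3 ^ 2 + 1 := ⟨_, rfl⟩
  have hev1 : ∀ᶠ n : ℕ in Filter.atTop, 3 * t / (b1 - β) ≤ rt n :=
    tendsto_rt.eventually_ge_atTop _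
  have hev2 : ∀ᶠ n : ℕ in Filter.atTop, 2 * t * (N3 / ε) ≤ (n : ℝ) :=
    tendsto_natCast_atTop_atTop.eventually_ge_atTop _
  have hev3 : ∀ᶠ n : ℕ in Filter.atTop, 2 * (M : ℝ) / g ≤ (n : ℝ) :=
    tendsto_natCast_atTop_atTop.eventually_ge_atTop _
  have hev4 : ∀ᶠ n : ℕ in Filter.atTop, ((N3 : ℝ) + M) / θ ≤ (n : ℝ) :=
    tendsto_natCast_atTop_atTop.eventually_ge_atTop _
  obtain ⟨n0, hn0⟩ := Filter.eventually_atTop.1 (hev1.and (hev2.and (hev3.and (hev4.and
    ((Filter.eventually_ge_atTop N2).and ((Filter.eventually_ge_atTop NE).and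
    (Filter.eventually_ge_atTop 1)))))))
  refine ⟨n0, ?_⟩
  intro n hn A _ hA
  obtain ⟨e1, e2, e3, e4, e5, e6, e7⟩ := hn0 n hn
  have hnpos : (0 : ℝ) < n := by exact_mod_cast e7
  have hcard : (univ : Finset (Fin n)).card = n := by rw [card_univ, Fintype.card_fin]
  have hAβ : Spa A univ univ β := hA.mono subset_rfl hbβ
  -- the first set
  obtain ⟨U', hU', u1, u2, u3⟩ := hNE A univ β (by linarith) (by rw [hcard]; exact e6) hAβ
  rw [hcard] at u1 u2 u3
  have hU'pos : (0 : ℝ) < U'.card := by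
    by_contra hcon
    push Not at hcon
    have : 2 * t * (U'.card : ℝ) ≤ 0 := mul_nonpos_of_nonneg_of_nonpos (by positivity) hcon
    linarith
  have hrtn : 0 < rt n := rt_pos hnpos
  have hu3b : β + 3 * t / rt n ≤ b1 := by
    have h3 : 0 < b1 - β := by linarith
    have h4 : 3 * t / rt n ≤ b1 - β := by
      rw [div_le_iff₀ hrtn]
      rw [div_le_iff₀ h3] at e1
      linarith
    linarith
  have hU'n : (U'.card : ℝ) ≤ n := by
    have : U'.card ≤ n := (card_le_univ U').trans (by rw [Fintype.card_fin])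
    exact_mod_cast this
  have hspa' : Spa A univ U' (β + 3 * t / rt U'.card) := by
    refine u3.mono subset_rfl ?_
    have h1 : 3 * t / rt n ≤ 3 * t / rt U'.card :=
      div_le_div_of_nonneg_left (by positivity) (rt_pos hU'pos) (rt_mono hU'n)
    linarith
  -- the rest of the vortex
  obtain ⟨l, V, Z, v0, v1, v2, v3, v4, v5, v6, v7⟩ := hvor A U' (hspa'.mono (subset_univ _) le_rfl)
  have hE : ((V l).card : ℝ) ≤ ε * U'.card := by
    have h1 : ((V l).card : ℝ) ≤ N3 := by exact_mod_cast v5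
    have h2 : (N3 : ℝ) / ε ≤ U'.card := by
      refine le_of_mul_le_mul_left (e2.trans u1) (by positivity)
    rw [div_le_iff₀ hε] at h2
    linarith
  obtain ⟨R, r1, r2, r3⟩ := hstep A univ U' (V l) (Z 0) (by rw [hcard]; exact e5) hU'
    (by rw [hcard]; exact u1) (by rw [hcard]; exact u2) v6 hE (hAβ.mono subset_rfl hb1a.le)
    (u3.mono subset_rfl hu3b) (fun i => by rw [← v0]; exact v4 i) v7
  obtain ⟨V', Z', w0, w1, w2, w3, w4, w5, w6, w7, w8, w9⟩ := Vortex.cons (ζ := ζ) hU' v0 v1 v2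
    v3 v4 v5 v6 r1 (fun t => subset_union_left) (fun t => union_res_sub hU' r2 t) r3
  -- absorbers
  have hWcard : ((univ \ U' : Finset (Fin n)).card : ℝ) = n - U'.card := by
    rw [card_sdiff_of_subset hU', hcard, Nat.cast_sub]
    have : U'.card ≤ n := (card_le_univ U').trans (by rw [Fintype.card_fin])
    exact this
  have hrich : Rich A (univ \ U') M := by
    refine rich_of_spa (β := β) A hAβ ?_
    rw [hWcard]
    have h1 : (U'.card : ℝ) ≤ g / 4 * n := by
      have h2 : (8 : ℝ) * U'.card ≤ g * t * U'.card := mul_le_mul_of_nonneg_right htg hU'pos.le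
      have h3 : g * (t * U'.card) ≤ g * (2 * n) := mul_le_mul_of_nonneg_left u2 hg0.le
      linarith
    rw [div_le_iff₀ hg0] at e3
    have h4 : 0 < g * n := by positivity
    have h5 : g * n = n - 4 * (β * n) := by rw [hg]; ring
    linarith
  have : Nonempty (Fin n) := ⟨⟨0, e7⟩⟩
  have hVl : (V l).card ≤ N3 := v5
  have hbig : 2 ^ (3 * (V l).card ^ 2) * (4 * (V l).card ^ 2 + 1) + 3 * (V l).card ^ 2 + 1 ≤ M := by
    rw [hM]
    gcongr
    · norm_num
  obtain ⟨HH, B, a1, a2, a3, a4, a5, a6, a7, a8⟩ := absorb_family A (U₀ := univ) (U := V l)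
    (W := univ \ U') (disjoint_left.2 fun x hx hx' => (mem_sdiff.1 hx').2 (v6 hx))
    (subset_univ _) (subset_univ _) hrich hbig
  rw [← w0]
  refine assemble V' Z' (l + 1) w3 w4 w5 w6 HH (fun H hH hdiv => ?_) B a2 a3 a4 ?_ ?_ ?_ ?_
  · rw [w2] at hH
    exact a1 H hH hdiv
  · intro H hH t
    rw [w0]
    exact a5 H hH t
  · intro H hH t
    rw [w2]
    exact a6 H hH t
  · intro H hH t
    rw [w1, disjoint_left]
    rintro ⟨x, y⟩ hp hq
    have h7 := a7 H hH t _ hq
    rcases mem_union.1 hp with hp | hp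
    · rw [mem_product] at hp
      rcases h7 with ⟨h8, -⟩ | ⟨h8, -⟩
      · exact (mem_sdiff.1 h8).2 hp.1
      · exact (mem_sdiff.1 h8).2 hp.2
    · have h9 : (x ∈ univ \ U' ∧ y ∈ U' \ V l) ∨ (x ∈ U' \ V l ∧ y ∈ univ \ U') := by
        fin_cases t
        · exact r2 1 2 (by decide) x y hp
        · exact r2 0 2 (by decide) x y hp
        · exact r2 0 1 (by decide) x y hp
      rcases h9 with ⟨h10, h11⟩ | ⟨h10, h11⟩
      · rcases h7 with ⟨-, h8⟩ | ⟨h8, -⟩
        · rcases mem_union.1 h8 with h8 | h8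
          · exact (mem_sdiff.1 h11).2 h8
          · exact (mem_sdiff.1 h8).2 (mem_sdiff.1 h11).1
        · exact (mem_sdiff.1 h8).2 (mem_sdiff.1 h11).1
      · rcases h7 with ⟨h8, -⟩ | ⟨-, h8⟩
        · exact (mem_sdiff.1 h8).2 (mem_sdiff.1 h10).1
        · rcases mem_union.1 h8 with h8 | h8
          · exact (mem_sdiff.1 h10).2 h8
          · exact (mem_sdiff.1 h8).2 (mem_sdiff.1 h10).1
  · rw [w0]
    refine a8.mono ?_
    rw [hcard]
    rw [div_le_iff₀ hθ] at e4
    have h1 : ((V l).card : ℝ) ≤ N3 := by exact_mod_cast hVl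
    have h2 : ((2 : ℝ) ^ (3 * (V l).card ^ 2) * (4 * ((V l).card : ℝ) ^ 2 + 1)) ≤ M := by
      have h3 : 2 ^ (3 * (V l).card ^ 2) * (4 * (V l).card ^ 2 + 1) ≤ M := by omega
      exact_mod_cast h3
    linarith

end Pool.Agent.LAV
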