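import Pool.Agent.LAV.Defs

set_option autoImplicit false
set_option linter.unusedSimpArgs false
set_option linter.unusedSectionVars false
set_option linter.unreachableTactic false
set_option linter.unusedTactic false

/-!
# Project LAV: absorbers

`absorber`: a divisible graph `H` inside `U` has an absorber with new vertices in `W`, if every
four lines of one class have many common allowed vertices in `W`.
-/

namespace Pool.Agent.LAV

open Finset

/-- greedy choice of distinct elements -/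
theorem exists_inj {ι β : Type*} [Fintype ι] [DecidableEq β] (S : ι → Finset β)
    (h : ∀ i, Fintype.card ι ≤ (S i).card) :
    ∃ f : ι → β, Function.Injective f ∧ ∀ i, f i ∈ S i := by
  classical
  refine (Finset.all_card_le_biUnion_card_iff_exists_injective S).1 ?_
  intro s
  rcases s.eq_empty_or_nonempty with rfl | ⟨i, hi⟩
  · simp
  · calc s.card ≤ Fintype.card ι := s.card_le_univ
      _ ≤ (S i).card := h i
      _ ≤ _ := card_le_card (subset_biUnion_of_mem S hi)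

variable {α : Type*} [DecidableEq α]

/-- every four lines of one class have at least `M` common allowed vertices in `W` -/
def Rich (A : Tri α → Prop) [DecidablePred A] (W : Finset α) (M : ℕ) : Prop :=
  (∀ p : Fin 4 → α × α, M ≤ (W.filter fun w => ∀ i, A ((p i).1, (p i).2, w)).card) ∧
  (∀ p : Fin 4 → α × α, M ≤ (W.filter fun w => ∀ i, A ((p i).1, w, (p i).2)).card) ∧
  (∀ p : Fin 4 → α × α, M ≤ (W.filter fun w => ∀ i, A (w, (p i).1, (p i).2)).card)

section abstract_part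

variable {H : Gr α}
  (s1 : {p // p ∈ H 2} ≃ {p // p ∈ H 1}) (s2 : {p // p ∈ H 2} ≃ {p // p ∈ H 0})
  (s3 : {p // p ∈ H 1} ≃ {p // p ∈ H 0})
  (a : {p // p ∈ H 2} → α) (b : {p // p ∈ H 1} → α) (s : {p // p ∈ H 0} → α) (k0 : α)
  (z : {p // p ∈ H 2} → α)

/-- the permutation of the edges of type 2 -/
def tau : {p // p ∈ H 2} ≃ {p // p ∈ H 2} := s1.trans (s3.trans s2.symm)

theorem s2_tau (e : {p // p ∈ H 2}) : s2 (tau s1 s2 s3 e) = s3 (s1 e) := by
  simp [tau]

/-- index type for the triples which cover `H` and the absorber -/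
abbrev IP : Type _ :=
  {p // p ∈ H 2} ⊕ {p // p ∈ H 1} ⊕ {p // p ∈ H 0} ⊕ {p // p ∈ H 2} ⊕
    {e : {p // p ∈ H 2} // tau s1 s2 s3 e ≠ e} ⊕ {e : {p // p ∈ H 2} // tau s1 s2 s3 e ≠ e}

/-- index type for the triples which cover the absorber -/
abbrev IN : Type _ :=
  {p // p ∈ H 2} ⊕ {p // p ∈ H 2} ⊕ {p // p ∈ H 1} ⊕
    {e : {p // p ∈ H 2} // tau s1 s2 s3 e ≠ e} ⊕ {e : {p // p ∈ H 2} // tau s1 s2 s3 e ≠ e}

/-- the triples which cover `H` and the absorber -/
def FP : IP s1 s2 s3 → Tri α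
  | .inl e => (e.1.1, e.1.2, a e)
  | .inr (.inl f) => (f.1.1, b f, f.1.2)
  | .inr (.inr (.inl g)) => (s g, g.1.1, g.1.2)
  | .inr (.inr (.inr (.inl e))) => (s (s3 (s1 e)), b (s1 e), a e)
  | .inr (.inr (.inr (.inr (.inl e)))) => (s (s2 e.1), z e.1, a e.1)
  | .inr (.inr (.inr (.inr (.inr e)))) => (s (s3 (s1 e.1)), z e.1, k0)

/-- the triples which cover the absorber -/
def FN : IN s1 s2 s3 → Tri α
  | .inl e => (e.1.1, b (s1 e), a e)
  | .inr (.inl e) => (s (s2 e), e.1.2, a e)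
  | .inr (.inr (.inl f)) => (s (s3 f), b f, f.1.2)
  | .inr (.inr (.inr (.inl e))) => (s (s3 (s1 e.1)), z e.1, a e.1)
  | .inr (.inr (.inr (.inr e))) => (s (s2 e.1), z e.1, k0)

variable {s1 s2 s3 a b s k0 z}

theorem cov_eq (h1 : ∀ e, (s1 e).1.1 = e.1.1) (h2 : ∀ e, (s2 e).1.1 = e.1.2)
    (h3 : ∀ f, (s3 f).1.2 = f.1.2) (t : Fin 3) (x : α × α) :
    (∃ i, pr t (FP s1 s2 s3 a b s k0 z i) = x) ↔
      x ∈ H t ∨ ∃ j, pr t (FN s1 s2 s3 a b s k0 z j) = x := by
  have h1' : ∀ f, (s1.symm f).1.1 = f.1.1 := fun f => by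
    rw [← h1 (s1.symm f), s1.apply_symm_apply]
  have h2' : ∀ g, (s2.symm g).1.2 = g.1.1 := fun g => by
    rw [← h2 (s2.symm g), s2.apply_symm_apply]
  have h3' : ∀ g, (s3.symm g).1.2 = g.1.2 := fun g => by
    rw [← h3 (s3.symm g), s3.apply_symm_apply]
  constructor
  · rintro ⟨i, hi⟩
    subst hi
    fin_cases t
    · -- type 0: (column, colour)
      rcases i with e | f | g | e | e | e
      · exact Or.inr ⟨.inr (.inl e), rfl⟩
      · exact Or.inr ⟨.inr (.inr (.inl f)), rfl⟩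
      · exact Or.inl g.2
      · exact Or.inr ⟨.inl e, rfl⟩
      · exact Or.inr ⟨.inr (.inr (.inr (.inl e))), rfl⟩
      · exact Or.inr ⟨.inr (.inr (.inr (.inr e))), rfl⟩
    · -- type 1: (row, colour)
      rcases i with e | f | g | e | e | e
      · exact Or.inr ⟨.inl e, rfl⟩
      · exact Or.inl f.2
      · refine Or.inr ⟨.inr (.inr (.inl (s3.symm g))), ?_⟩
        simp [FP, FN, pr, h3']
      · by_cases he : tau s1 s2 s3 e = e
        · refine Or.inr ⟨.inr (.inl e), ?_⟩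
          have := s2_tau s1 s2 s3 e
          rw [he] at this
          simp [FP, FN, pr, this]
        · exact Or.inr ⟨.inr (.inr (.inr (.inl ⟨e, he⟩))), rfl⟩
      · exact Or.inr ⟨.inr (.inl e.1), rfl⟩
      · refine Or.inr ⟨.inr (.inr (.inr (.inr ⟨tau s1 s2 s3 e.1, fun h => e.2 ?_⟩))), ?_⟩
        · exact (tau s1 s2 s3).injective h
        · simp [FP, FN, pr, s2_tau]
    · -- type 2: (row, column)
      rcases i with e | f | g | e | e | e
      · exact Or.inl e.2
      · refine Or.inr ⟨.inl (s1.symm f), ?_⟩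
        simp [FP, FN, pr, h1']
      · refine Or.inr ⟨.inr (.inl (s2.symm g)), ?_⟩
        simp [FP, FN, pr, h2']
      · exact Or.inr ⟨.inr (.inr (.inl (s1 e))), rfl⟩
      · exact Or.inr ⟨.inr (.inr (.inr (.inr e))), rfl⟩
      · exact Or.inr ⟨.inr (.inr (.inr (.inl e))), rfl⟩
  · rintro (hx | ⟨j, hj⟩)
    · fin_cases t
      · exact ⟨.inr (.inr (.inl ⟨x, hx⟩)), rfl⟩
      · exact ⟨.inr (.inl ⟨x, hx⟩), rfl⟩
      · exact ⟨.inl ⟨x, hx⟩, rfl⟩
    · subst hj
      fin_cases t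
      · rcases j with e | e | f | e | e
        · exact ⟨.inr (.inr (.inr (.inl e))), rfl⟩
        · exact ⟨.inl e, rfl⟩
        · exact ⟨.inr (.inl f), rfl⟩
        · exact ⟨.inr (.inr (.inr (.inr (.inl e)))), rfl⟩
        · exact ⟨.inr (.inr (.inr (.inr (.inr e)))), rfl⟩
      · rcases j with e | e | f | e | e
        · exact ⟨.inl e, rfl⟩
        · by_cases he : tau s1 s2 s3 e = e
          · refine ⟨.inr (.inr (.inr (.inl e))), ?_⟩
            have := s2_tau s1 s2 s3 e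
            rw [he] at this
            simp [FP, FN, pr, this]
          · exact ⟨.inr (.inr (.inr (.inr (.inl ⟨e, he⟩)))), rfl⟩
        · refine ⟨.inr (.inr (.inl (s3 f))), ?_⟩
          simp [FP, FN, pr, h3]
        · exact ⟨.inr (.inr (.inr (.inl e.1))), rfl⟩
        · refine ⟨.inr (.inr (.inr (.inr (.inr
            ⟨(tau s1 s2 s3).symm e.1, fun h => e.2 ?_⟩)))), ?_⟩
          · have := congrArg (tau s1 s2 s3) h
            simpa using this
          · have := s2_tau s1 s2 s3 ((tau s1 s2 s3).symm e.1)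
            rw [(tau s1 s2 s3).apply_symm_apply] at this
            simp [FP, FN, pr, this]
      · rcases j with e | e | f | e | e
        · refine ⟨.inr (.inl (s1 e)), ?_⟩
          simp [FP, FN, pr, h1]
        · refine ⟨.inr (.inr (.inl (s2 e))), ?_⟩
          simp [FP, FN, pr, h2]
        · refine ⟨.inr (.inr (.inr (.inl (s1.symm f)))), ?_⟩
          simp [FP, FN, pr]
        · exact ⟨.inr (.inr (.inr (.inr (.inr e)))), rfl⟩
        · exact ⟨.inr (.inr (.inr (.inr (.inl e)))), rfl⟩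

theorem injP {U : Finset α} (hU : ∀ t, ∀ p ∈ H t, p.1 ∈ U ∧ p.2 ∈ U)
    (ha : ∀ e, a e ∉ U) (hb : ∀ f, b f ∉ U) (hs : ∀ g, s g ∉ U) (hk : k0 ∉ U) (hz : ∀ e, z e ∉ U)
    (ia : Function.Injective a) (ib : Function.Injective b) (is : Function.Injective s)
    (iz : Function.Injective z) (hak : ∀ e, a e ≠ k0) (hbz : ∀ f e, b f ≠ z e) (t : Fin 3) :
    Function.Injective fun i => pr t (FP s1 s2 s3 a b s k0 z i) := by
  have u2 : ∀ e : {p // p ∈ H 2}, e.1.1 ∈ U ∧ e.1.2 ∈ U := fun e => hU 2 _ e.2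
  have u1 : ∀ e : {p // p ∈ H 1}, e.1.1 ∈ U ∧ e.1.2 ∈ U := fun e => hU 1 _ e.2
  have u0 : ∀ e : {p // p ∈ H 0}, e.1.1 ∈ U ∧ e.1.2 ∈ U := fun e => hU 0 _ e.2
  have A1 : ∀ (e : {p // p ∈ H 2}) g, ¬ (e.1.1 = s g) := fun e g h => hs g (h ▸ (u2 e).1)
  have A1' : ∀ (e : {p // p ∈ H 2}) g, ¬ (s g = e.1.1) := fun e g h => A1 e g h.symm
  have A2 : ∀ (e : {p // p ∈ H 1}) g, ¬ (e.1.1 = s g) := fun e g h => hs g (h ▸ (u1 e).1)
  have A2' : ∀ (e : {p // p ∈ H 1}) g, ¬ (s g = e.1.1) := fun e g h => A2 e g h.symm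
  have B1 : ∀ (e : {p // p ∈ H 2}) g, ¬ (e.1.2 = b g) := fun e g h => hb g (h ▸ (u2 e).2)
  have B1' : ∀ (e : {p // p ∈ H 2}) g, ¬ (b g = e.1.2) := fun e g h => B1 e g h.symm
  have B2 : ∀ (e : {p // p ∈ H 0}) g, ¬ (e.1.1 = b g) := fun e g h => hb g (h ▸ (u0 e).1)
  have B2' : ∀ (e : {p // p ∈ H 0}) g, ¬ (b g = e.1.1) := fun e g h => B2 e g h.symm
  have B3 : ∀ (e : {p // p ∈ H 2}) g, ¬ (e.1.2 = z g) := fun e g h => hz g (h ▸ (u2 e).2)
  have B3' : ∀ (e : {p // p ∈ H 2}) g, ¬ (z g = e.1.2) := fun e g h => B3 e g h.symm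
  have B4 : ∀ (e : {p // p ∈ H 0}) g, ¬ (e.1.1 = z g) := fun e g h => hz g (h ▸ (u0 e).1)
  have B4' : ∀ (e : {p // p ∈ H 0}) g, ¬ (z g = e.1.1) := fun e g h => B4 e g h.symm
  have B5 : ∀ f e, ¬ (b f = z e) := hbz
  have B5' : ∀ f e, ¬ (z e = b f) := fun f e h => hbz f e h.symm
  have C1 : ∀ (e : {p // p ∈ H 1}) g, ¬ (e.1.2 = a g) := fun e g h => ha g (h ▸ (u1 e).2)
  have C1' : ∀ (e : {p // p ∈ H 1}) g, ¬ (a g = e.1.2) := fun e g h => C1 e g h.symm
  have C2 : ∀ (e : {p // p ∈ H 0}) g, ¬ (e.1.2 = a g) := fun e g h => ha g (h ▸ (u0 e).2)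
  have C2' : ∀ (e : {p // p ∈ H 0}) g, ¬ (a g = e.1.2) := fun e g h => C2 e g h.symm
  have C3 : ∀ (e : {p // p ∈ H 1}), ¬ (e.1.2 = k0) := fun e h => hk (h ▸ (u1 e).2)
  have C3' : ∀ (e : {p // p ∈ H 1}), ¬ (k0 = e.1.2) := fun e h => C3 e h.symm
  have C4 : ∀ (e : {p // p ∈ H 0}), ¬ (e.1.2 = k0) := fun e h => hk (h ▸ (u0 e).2)
  have C4' : ∀ (e : {p // p ∈ H 0}), ¬ (k0 = e.1.2) := fun e h => C4 e h.symm
  have C5 : ∀ e, ¬ (a e = k0) := hak
  have C5' : ∀ e, ¬ (k0 = a e) := fun e h => hak e h.symm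
  have ts : ∀ e : {e : {p // p ∈ H 2} // tau s1 s2 s3 e ≠ e}, ¬ (s3 (s1 e.1) = s2 e.1) := by
    intro e h
    refine e.2 (s2.injective ?_)
    rw [s2_tau, h]
  have ts' : ∀ e : {e : {p // p ∈ H 2} // tau s1 s2 s3 e ≠ e}, ¬ (s2 e.1 = s3 (s1 e.1)) :=
    fun e h => ts e h.symm
  have i13 : ∀ e e' : {p // p ∈ H 2}, s3 (s1 e) = s3 (s1 e') → e = e' :=
    fun e e' h => s1.injective (s3.injective h)
  intro x y h
  fin_cases t
  · rcases x with x | x | x | x | x | x <;> rcases y with y | y | y | y | y | y <;>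
    simp only [FP, Fin.zero_eta, pr_zero, Prod.mk.injEq, A1, A1', A2, A2', B1, B1', B2, B2', B3,
      B3', B4, B4', B5, B5', C1, C1', C2, C2', C3, C3', C4, C4', C5, C5', false_and, and_false,
      ia.eq_iff, ib.eq_iff, is.eq_iff, iz.eq_iff] at h <;>
    first
    | (rw [h.2]; done)
    | (rw [h.1]; done)
    | (rw [Subtype.ext (Prod.ext h.1 h.2)]; done)
    | (rw [Subtype.ext h.2]; done)
    | (rw [Subtype.ext h.1]; done)
    | (rw [Subtype.ext (i13 _ _ h.1)]; done)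
    | (rw [s1.injective h.2]; done)
    | (rw [s3.injective h.1]; done)
    | (rw [s2.injective h.1]; done)
    | (rw [Subtype.ext (s2.injective h.1)]; done)
    | (obtain ⟨p, q⟩ := h; rw [q] at p; exact absurd p (ts _))
    | (obtain ⟨p, q⟩ := h; rw [q] at p; exact absurd p (ts' _))
    | (obtain ⟨p, q⟩ := h; rw [← q] at p; exact absurd p (ts _))
    | (obtain ⟨p, q⟩ := h; rw [← q] at p; exact absurd p (ts' _))
  · rcases x with x | x | x | x | x | x <;> rcases y with y | y | y | y | y | y <;>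
    simp only [FP, Fin.mk_one, pr_one, Prod.mk.injEq, A1, A1', A2, A2', B1, B1', B2, B2', B3,
      B3', B4, B4', B5, B5', C1, C1', C2, C2', C3, C3', C4, C4', C5, C5', false_and, and_false,
      ia.eq_iff, ib.eq_iff, is.eq_iff, iz.eq_iff] at h <;>
    first
    | (rw [h.2]; done)
    | (rw [h.1]; done)
    | (rw [Subtype.ext (Prod.ext h.1 h.2)]; done)
    | (rw [Subtype.ext h.2]; done)
    | (rw [Subtype.ext h.1]; done)
    | (rw [Subtype.ext (i13 _ _ h.1)]; done)
    | (rw [s1.injective h.2]; done)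
    | (rw [s3.injective h.1]; done)
    | (rw [s2.injective h.1]; done)
    | (rw [Subtype.ext (s2.injective h.1)]; done)
    | (obtain ⟨p, q⟩ := h; rw [q] at p; exact absurd p (ts _))
    | (obtain ⟨p, q⟩ := h; rw [q] at p; exact absurd p (ts' _))
    | (obtain ⟨p, q⟩ := h; rw [← q] at p; exact absurd p (ts _))
    | (obtain ⟨p, q⟩ := h; rw [← q] at p; exact absurd p (ts' _))
  · rcases x with x | x | x | x | x | x <;> rcases y with y | y | y | y | y | y <;>
    simp only [FP, Fin.reduceFinMk, pr_two, Prod.mk.injEq, A1, A1', A2, A2', B1, B1', B2, B2', B3,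
      B3', B4, B4', B5, B5', C1, C1', C2, C2', C3, C3', C4, C4', C5, C5', false_and, and_false,
      ia.eq_iff, ib.eq_iff, is.eq_iff, iz.eq_iff] at h <;>
    first
    | (rw [h.2]; done)
    | (rw [h.1]; done)
    | (rw [Subtype.ext (Prod.ext h.1 h.2)]; done)
    | (rw [Subtype.ext h.2]; done)
    | (rw [Subtype.ext h.1]; done)
    | (rw [Subtype.ext (i13 _ _ h.1)]; done)
    | (rw [s1.injective h.2]; done)
    | (rw [s3.injective h.1]; done)
    | (rw [s2.injective h.1]; done)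
    | (rw [Subtype.ext (s2.injective h.1)]; done)
    | (obtain ⟨p, q⟩ := h; rw [q] at p; exact absurd p (ts _))
    | (obtain ⟨p, q⟩ := h; rw [q] at p; exact absurd p (ts' _))
    | (obtain ⟨p, q⟩ := h; rw [← q] at p; exact absurd p (ts _))
    | (obtain ⟨p, q⟩ := h; rw [← q] at p; exact absurd p (ts' _))

theorem injN {U : Finset α} (hU : ∀ t, ∀ p ∈ H t, p.1 ∈ U ∧ p.2 ∈ U)
    (ha : ∀ e, a e ∉ U) (hb : ∀ f, b f ∉ U) (hs : ∀ g, s g ∉ U) (hk : k0 ∉ U) (hz : ∀ e, z e ∉ U)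
    (ia : Function.Injective a) (ib : Function.Injective b) (is : Function.Injective s)
    (iz : Function.Injective z) (hak : ∀ e, a e ≠ k0) (hbz : ∀ f e, b f ≠ z e) (t : Fin 3) :
    Function.Injective fun i => pr t (FN s1 s2 s3 a b s k0 z i) := by
  have u2 : ∀ e : {p // p ∈ H 2}, e.1.1 ∈ U ∧ e.1.2 ∈ U := fun e => hU 2 _ e.2
  have u1 : ∀ e : {p // p ∈ H 1}, e.1.1 ∈ U ∧ e.1.2 ∈ U := fun e => hU 1 _ e.2
  have u0 : ∀ e : {p // p ∈ H 0}, e.1.1 ∈ U ∧ e.1.2 ∈ U := fun e => hU 0 _ e.2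
  have A1 : ∀ (e : {p // p ∈ H 2}) g, ¬ (e.1.1 = s g) := fun e g h => hs g (h ▸ (u2 e).1)
  have A1' : ∀ (e : {p // p ∈ H 2}) g, ¬ (s g = e.1.1) := fun e g h => A1 e g h.symm
  have A2 : ∀ (e : {p // p ∈ H 1}) g, ¬ (e.1.1 = s g) := fun e g h => hs g (h ▸ (u1 e).1)
  have A2' : ∀ (e : {p // p ∈ H 1}) g, ¬ (s g = e.1.1) := fun e g h => A2 e g h.symm
  have B1 : ∀ (e : {p // p ∈ H 2}) g, ¬ (e.1.2 = b g) := fun e g h => hb g (h ▸ (u2 e).2)
  have B1' : ∀ (e : {p // p ∈ H 2}) g, ¬ (b g = e.1.2) := fun e g h => B1 e g h.symm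
  have B2 : ∀ (e : {p // p ∈ H 0}) g, ¬ (e.1.1 = b g) := fun e g h => hb g (h ▸ (u0 e).1)
  have B2' : ∀ (e : {p // p ∈ H 0}) g, ¬ (b g = e.1.1) := fun e g h => B2 e g h.symm
  have B3 : ∀ (e : {p // p ∈ H 2}) g, ¬ (e.1.2 = z g) := fun e g h => hz g (h ▸ (u2 e).2)
  have B3' : ∀ (e : {p // p ∈ H 2}) g, ¬ (z g = e.1.2) := fun e g h => B3 e g h.symm
  have B4 : ∀ (e : {p // p ∈ H 0}) g, ¬ (e.1.1 = z g) := fun e g h => hz g (h ▸ (u0 e).1)
  have B4' : ∀ (e : {p // p ∈ H 0}) g, ¬ (z g = e.1.1) := fun e g h => B4 e g h.symm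
  have B5 : ∀ f e, ¬ (b f = z e) := hbz
  have B5' : ∀ f e, ¬ (z e = b f) := fun f e h => hbz f e h.symm
  have C1 : ∀ (e : {p // p ∈ H 1}) g, ¬ (e.1.2 = a g) := fun e g h => ha g (h ▸ (u1 e).2)
  have C1' : ∀ (e : {p // p ∈ H 1}) g, ¬ (a g = e.1.2) := fun e g h => C1 e g h.symm
  have C2 : ∀ (e : {p // p ∈ H 0}) g, ¬ (e.1.2 = a g) := fun e g h => ha g (h ▸ (u0 e).2)
  have C2' : ∀ (e : {p // p ∈ H 0}) g, ¬ (a g = e.1.2) := fun e g h => C2 e g h.symm
  have C3 : ∀ (e : {p // p ∈ H 1}), ¬ (e.1.2 = k0) := fun e h => hk (h ▸ (u1 e).2)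
  have C3' : ∀ (e : {p // p ∈ H 1}), ¬ (k0 = e.1.2) := fun e h => C3 e h.symm
  have C4 : ∀ (e : {p // p ∈ H 0}), ¬ (e.1.2 = k0) := fun e h => hk (h ▸ (u0 e).2)
  have C4' : ∀ (e : {p // p ∈ H 0}), ¬ (k0 = e.1.2) := fun e h => C4 e h.symm
  have C5 : ∀ e, ¬ (a e = k0) := hak
  have C5' : ∀ e, ¬ (k0 = a e) := fun e h => hak e h.symm
  have ts : ∀ e : {e : {p // p ∈ H 2} // tau s1 s2 s3 e ≠ e}, ¬ (s3 (s1 e.1) = s2 e.1) := by
    intro e h
    refine e.2 (s2.injective ?_)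
    rw [s2_tau, h]
  have ts' : ∀ e : {e : {p // p ∈ H 2} // tau s1 s2 s3 e ≠ e}, ¬ (s2 e.1 = s3 (s1 e.1)) :=
    fun e h => ts e h.symm
  have i13 : ∀ e e' : {p // p ∈ H 2}, s3 (s1 e) = s3 (s1 e') → e = e' :=
    fun e e' h => s1.injective (s3.injective h)
  intro x y h
  fin_cases t
  · rcases x with x | x | x | x | x <;> rcases y with y | y | y | y | y <;>
    simp only [FN, Fin.zero_eta, pr_zero, Prod.mk.injEq, A1, A1', A2, A2', B1, B1', B2, B2', B3,
      B3', B4, B4', B5, B5', C1, C1', C2, C2', C3, C3', C4, C4', C5, C5', false_and, and_false,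
      ia.eq_iff, ib.eq_iff, is.eq_iff, iz.eq_iff] at h <;>
    first
    | (rw [h.2]; done)
    | (rw [h.1]; done)
    | (rw [Subtype.ext (Prod.ext h.1 h.2)]; done)
    | (rw [Subtype.ext h.2]; done)
    | (rw [Subtype.ext h.1]; done)
    | (rw [Subtype.ext (i13 _ _ h.1)]; done)
    | (rw [s1.injective h.2]; done)
    | (rw [s3.injective h.1]; done)
    | (rw [s2.injective h.1]; done)
    | (rw [Subtype.ext (s2.injective h.1)]; done)
    | (obtain ⟨p, q⟩ := h; rw [q] at p; exact absurd p (ts _))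
    | (obtain ⟨p, q⟩ := h; rw [q] at p; exact absurd p (ts' _))
    | (obtain ⟨p, q⟩ := h; rw [← q] at p; exact absurd p (ts _))
    | (obtain ⟨p, q⟩ := h; rw [← q] at p; exact absurd p (ts' _))
  · rcases x with x | x | x | x | x <;> rcases y with y | y | y | y | y <;>
    simp only [FN, Fin.mk_one, pr_one, Prod.mk.injEq, A1, A1', A2, A2', B1, B1', B2, B2', B3,
      B3', B4, B4', B5, B5', C1, C1', C2, C2', C3, C3', C4, C4', C5, C5', false_and, and_false,
      ia.eq_iff, ib.eq_iff, is.eq_iff, iz.eq_iff] at h <;>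
    first
    | (rw [h.2]; done)
    | (rw [h.1]; done)
    | (rw [Subtype.ext (Prod.ext h.1 h.2)]; done)
    | (rw [Subtype.ext h.2]; done)
    | (rw [Subtype.ext h.1]; done)
    | (rw [Subtype.ext (i13 _ _ h.1)]; done)
    | (rw [s1.injective h.2]; done)
    | (rw [s3.injective h.1]; done)
    | (rw [s2.injective h.1]; done)
    | (rw [Subtype.ext (s2.injective h.1)]; done)
    | (obtain ⟨p, q⟩ := h; rw [q] at p; exact absurd p (ts _))
    | (obtain ⟨p, q⟩ := h; rw [q] at p; exact absurd p (ts' _))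
    | (obtain ⟨p, q⟩ := h; rw [← q] at p; exact absurd p (ts _))
    | (obtain ⟨p, q⟩ := h; rw [← q] at p; exact absurd p (ts' _))
  · rcases x with x | x | x | x | x <;> rcases y with y | y | y | y | y <;>
    simp only [FN, Fin.reduceFinMk, pr_two, Prod.mk.injEq, A1, A1', A2, A2', B1, B1', B2, B2', B3,
      B3', B4, B4', B5, B5', C1, C1', C2, C2', C3, C3', C4, C4', C5, C5', false_and, and_false,
      ia.eq_iff, ib.eq_iff, is.eq_iff, iz.eq_iff] at h <;>
    first
    | (rw [h.2]; done)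
    | (rw [h.1]; done)
    | (rw [Subtype.ext (Prod.ext h.1 h.2)]; done)
    | (rw [Subtype.ext h.2]; done)
    | (rw [Subtype.ext h.1]; done)
    | (rw [Subtype.ext (i13 _ _ h.1)]; done)
    | (rw [s1.injective h.2]; done)
    | (rw [s3.injective h.1]; done)
    | (rw [s2.injective h.1]; done)
    | (rw [Subtype.ext (s2.injective h.1)]; done)
    | (obtain ⟨p, q⟩ := h; rw [q] at p; exact absurd p (ts _))
    | (obtain ⟨p, q⟩ := h; rw [q] at p; exact absurd p (ts' _))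
    | (obtain ⟨p, q⟩ := h; rw [← q] at p; exact absurd p (ts _))
    | (obtain ⟨p, q⟩ := h; rw [← q] at p; exact absurd p (ts' _))

end abstract_part

/-- fibres as filters -/
def fibEquiv {β γ : Type*} [DecidableEq γ] (s : Finset β) (f : β → γ) (c : γ) :
    {x : {p // p ∈ s} // f x.1 = c} ≃ {p // p ∈ s.filter fun p => f p = c} where
  toFun x := ⟨x.1.1, mem_filter.2 ⟨x.1.2, x.2⟩⟩
  invFun y := ⟨⟨y.1, (mem_filter.1 y.2).1⟩, (mem_filter.1 y.2).2⟩
  left_inv _ := rfl
  right_inv _ := rfl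

/-- bijection between two sets with equal fibres -/
theorem exists_equiv {β γ : Type*} [DecidableEq γ] {s : Finset β} {r : Finset β} (f g : β → γ)
    (h : ∀ c, (s.filter fun p => f p = c).card = (r.filter fun p => g p = c).card) :
    ∃ e : {p // p ∈ s} ≃ {p // p ∈ r}, ∀ x, g (e x).1 = f x.1 := by
  classical
  have key : ∀ c, Nonempty ({x : {p // p ∈ s} // f x.1 = c} ≃ {x : {p // p ∈ r} // g x.1 = c}) := by
    intro c
    have h1 : Nonempty ({p // p ∈ s.filter fun p => f p = c} ≃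
        {p // p ∈ r.filter fun p => g p = c}) := by
      refine Fintype.card_eq.1 ?_
      rw [Fintype.card_coe, Fintype.card_coe, h c]
    obtain ⟨e⟩ := h1
    exact ⟨(fibEquiv s f c).trans (e.trans (fibEquiv r g c).symm)⟩
  refine ⟨Equiv.ofFiberEquiv fun c => Classical.choice (key c), fun x => ?_⟩
  exact Equiv.ofFiberEquiv_map (f := fun x : {p // p ∈ s} => f x.1)
    (g := fun x : {p // p ∈ r} => g x.1) (fun c => Classical.choice (key c)) x

/-- **Absorber lemma.**  A divisible graph `H` inside `U` has an absorber `B` with new vertices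
`V ⊆ W`: both `B` and `H ∪ B` decompose into triples from `A`, and every edge of `B` has an
end in `V`. -/
theorem absorber [Nonempty α] (A : Tri α → Prop) [DecidablePred A] {U W : Finset α} (hUW : Disjoint U W)
    {H : Gr α} (hU : ∀ t, ∀ p ∈ H t, p.1 ∈ U ∧ p.2 ∈ U) (hdiv : Divisible H) {M : ℕ}
    (hM : Rich A W M) (hcard : (H 0).card + (H 1).card + (H 2).card + 1 ≤ M) :
    ∃ (V : Finset α) (B : Gr α), V ⊆ W ∧
      V.card ≤ (H 0).card + (H 1).card + 2 * (H 2).card + 1 ∧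
      (∀ t, ∀ p ∈ B t, (p.1 ∈ V ∨ p.2 ∈ V) ∧ p.1 ∈ U ∪ V ∧ p.2 ∈ U ∪ V) ∧
      Dec A B ∧ Dec A (fun t => H t ∪ B t) := by
  classical
  obtain ⟨hM0, hM1, hM2⟩ := hM
  obtain ⟨d1, d2, d3⟩ := hdiv
  obtain ⟨s1, h1⟩ := exists_equiv (s := H 2) (r := H 1) (fun p => p.1) (fun p => p.1) d1
  obtain ⟨s2, h2⟩ := exists_equiv (s := H 2) (r := H 0) (fun p => p.2) (fun p => p.1) d2
  obtain ⟨s3, h3⟩ := exists_equiv (s := H 1) (r := H 0) (fun p => p.2) (fun p => p.2) d3
  have c2 : Fintype.card {p // p ∈ H 2} = (H 2).card := Fintype.card_coe _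
  have c1 : Fintype.card {p // p ∈ H 1} = (H 1).card := Fintype.card_coe _
  have c0 : Fintype.card {p // p ∈ H 0} = (H 0).card := Fintype.card_coe _
  -- colours `a`
  obtain ⟨a, ia, ha⟩ := exists_inj (ι := {p // p ∈ H 2})
    (fun e => W.filter fun w => ∀ i : Fin 4, A ((![e.1, e.1, e.1, e.1] i).1,
      (![e.1, e.1, e.1, e.1] i).2, w)) (fun e => by
        refine le_trans ?_ (hM0 _); omega)
  -- columns `b`
  obtain ⟨b, ib, hb⟩ := exists_inj (ι := {p // p ∈ H 1})
    (fun f => W.filter fun w => ∀ i : Fin 4,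
      A ((![f.1, (f.1.1, a (s1.symm f)), f.1, f.1] i).1, w,
      (![f.1, (f.1.1, a (s1.symm f)), f.1, f.1] i).2)) (fun e => by
        refine le_trans ?_ (hM1 _); omega)
  -- rows `s`
  obtain ⟨s, is, hs⟩ := exists_inj (ι := {p // p ∈ H 0})
    (fun g => W.filter fun w => ∀ i : Fin 4,
      A (w, (![g.1, (g.1.1, a (s2.symm g)), (b (s3.symm g), g.1.2),
          (b (s3.symm g), a (s1.symm (s3.symm g)))] i).1,
        (![g.1, (g.1.1, a (s2.symm g)), (b (s3.symm g), g.1.2),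
          (b (s3.symm g), a (s1.symm (s3.symm g)))] i).2)) (fun e => by
        refine le_trans ?_ (hM2 _); omega)
  have hka : (univ.image a).card = (H 2).card := by
    rw [card_image_of_injective _ ia, card_univ, c2]
  have hkb : (univ.image b).card = (H 1).card := by
    rw [card_image_of_injective _ ib, card_univ, c1]
  -- colour `k0`
  obtain ⟨k0, hk0⟩ : ∃ k0, k0 ∈ W \ univ.image a := by
    refine card_pos.1 ?_
    obtain ⟨x⟩ := (inferInstance : Nonempty α)
    have h5 : M ≤ W.card := (hM0 fun _ => (x, x)).trans (card_filter_le _ _)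
    have h6 := le_card_sdiff (univ.image a) W
    omega
  -- columns `z`
  obtain ⟨z, iz, hz⟩ := exists_inj (ι := {p // p ∈ H 2})
    (fun e => (W.filter fun w => ∀ i : Fin 4,
      A ((![(s (s2 e), a e), (s (s3 (s1 e)), a e), (s (s2 e), k0), (s (s3 (s1 e)), k0)] i).1, w,
      (![(s (s2 e), a e), (s (s3 (s1 e)), a e), (s (s2 e), k0), (s (s3 (s1 e)), k0)] i).2))
      \ univ.image b) (fun e => by
        have h5 := le_card_sdiff (univ.image b) (W.filter fun w => ∀ i : Fin 4,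
          A ((![(s (s2 e), a e), (s (s3 (s1 e)), a e), (s (s2 e), k0),
            (s (s3 (s1 e)), k0)] i).1, w,
          (![(s (s2 e), a e), (s (s3 (s1 e)), a e), (s (s2 e), k0), (s (s3 (s1 e)), k0)] i).2))
        have h6 := hM1 ![(s (s2 e), a e), (s (s3 (s1 e)), a e), (s (s2 e), k0),
            (s (s3 (s1 e)), k0)]
        omega)
  -- unpack
  have aW : ∀ e, a e ∈ W := fun e => (mem_filter.1 (ha e)).1
  have bW : ∀ e, b e ∈ W := fun e => (mem_filter.1 (hb e)).1
  have sW : ∀ e, s e ∈ W := fun e => (mem_filter.1 (hs e)).1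
  have kW : k0 ∈ W := (mem_sdiff.1 hk0).1
  have zW : ∀ e, z e ∈ W := fun e => (mem_filter.1 (mem_sdiff.1 (hz e)).1).1
  have nU : ∀ {w}, w ∈ W → w ∉ U := fun hw hu => disjoint_left.1 hUW hu hw
  have hak : ∀ e, a e ≠ k0 := fun e h => (mem_sdiff.1 hk0).2 (h ▸ mem_image_of_mem a (mem_univ e))
  have hbz : ∀ f e, b f ≠ z e := fun f e h =>
    (mem_sdiff.1 (hz e)).2 (h ▸ mem_image_of_mem b (mem_univ f))
  have a0 : ∀ e, A (e.1.1, e.1.2, a e) := fun e => (mem_filter.1 (ha e)).2 0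
  have b0 : ∀ f, A (f.1.1, b f, f.1.2) := fun f => (mem_filter.1 (hb f)).2 0
  have b1 : ∀ e, A (e.1.1, b (s1 e), a e) := fun e => by
    have := (mem_filter.1 (hb (s1 e))).2 1
    simpa [h1] using this
  have s0 : ∀ g, A (s g, g.1.1, g.1.2) := fun g => (mem_filter.1 (hs g)).2 0
  have s1' : ∀ e, A (s (s2 e), e.1.2, a e) := fun e => by
    have := (mem_filter.1 (hs (s2 e))).2 1
    simpa [h2] using this
  have s2' : ∀ f, A (s (s3 f), b f, f.1.2) := fun f => by
    have := (mem_filter.1 (hs (s3 f))).2 2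
    simpa [h3] using this
  have s3' : ∀ e, A (s (s3 (s1 e)), b (s1 e), a e) := fun e => by
    have := (mem_filter.1 (hs (s3 (s1 e)))).2 3
    simpa using this
  have z0 : ∀ e, A (s (s2 e), z e, a e) := fun e =>
    (mem_filter.1 (mem_sdiff.1 (hz e)).1).2 0
  have z1 : ∀ e, A (s (s3 (s1 e)), z e, a e) := fun e =>
    (mem_filter.1 (mem_sdiff.1 (hz e)).1).2 1
  have z2 : ∀ e, A (s (s2 e), z e, k0) := fun e =>
    (mem_filter.1 (mem_sdiff.1 (hz e)).1).2 2
  have z3 : ∀ e, A (s (s3 (s1 e)), z e, k0) := fun e =>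
    (mem_filter.1 (mem_sdiff.1 (hz e)).1).2 3
  have iP := injP (s1 := s1) (s2 := s2) (s3 := s3) hU (fun e => nU (aW e)) (fun e => nU (bW e))
    (fun e => nU (sW e)) (nU kW) (fun e => nU (zW e)) ia ib is iz hak hbz
  have iN := injN (s1 := s1) (s2 := s2) (s3 := s3) hU (fun e => nU (aW e)) (fun e => nU (bW e))
    (fun e => nU (sW e)) (nU kW) (fun e => nU (zW e)) ia ib is iz hak hbz
  refine ⟨univ.image a ∪ univ.image b ∪ univ.image s ∪ {k0} ∪ univ.image z,
    fun t => (univ : Finset (IN s1 s2 s3)).image fun j => pr t (FN s1 s2 s3 a b s k0 z j),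
    ?_, ?_, ?_, ?_, ?_⟩
  · intro x hx
    simp only [mem_union, mem_image, mem_univ, true_and, mem_singleton] at hx
    rcases hx with (((⟨e, rfl⟩ | ⟨e, rfl⟩) | ⟨e, rfl⟩) | rfl) | ⟨e, rfl⟩
    · exact aW e
    · exact bW e
    · exact sW e
    · exact kW
    · exact zW e
  · have k1 : (univ.image s).card ≤ (H 0).card := card_image_le.trans (by rw [card_univ, c0])
    have k2 : (univ.image z).card ≤ (H 2).card := card_image_le.trans (by rw [card_univ, c2])
    have k3 := card_union_le (univ.image a) (univ.image b)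
    have k4 := card_union_le (univ.image a ∪ univ.image b) (univ.image s)
    have k5 := card_union_le (univ.image a ∪ univ.image b ∪ univ.image s) {k0}
    have k6 := card_union_le (univ.image a ∪ univ.image b ∪ univ.image s ∪ {k0}) (univ.image z)
    rw [card_singleton] at k5
    omega
  · intro t p hp
    obtain ⟨j, -, rfl⟩ := mem_image.1 hp
    set V := univ.image a ∪ univ.image b ∪ univ.image s ∪ {k0} ∪ univ.image z with hV
    have aV : ∀ e, a e ∈ V := fun e => by simp [hV]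
    have bV : ∀ e, b e ∈ V := fun e => by simp [hV]
    have sV : ∀ e, s e ∈ V := fun e => by simp [hV]
    have kV : k0 ∈ V := by simp [hV]
    have zV : ∀ e, z e ∈ V := fun e => by simp [hV]
    have u2 : ∀ e : {p // p ∈ H 2}, e.1.1 ∈ U ∧ e.1.2 ∈ U := fun e => hU 2 _ e.2
    have u1 : ∀ e : {p // p ∈ H 1}, e.1.1 ∈ U ∧ e.1.2 ∈ U := fun e => hU 1 _ e.2
    fin_cases t <;> rcases j with j | j | j | j | j <;>
      simp [FN, aV, bV, sV, kV, zV, u1, u2]
  · refine ⟨(univ : Finset (IN s1 s2 s3)).image (FN s1 s2 s3 a b s k0 z), ?_, ?_, ?_⟩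
    · intro T hT
      obtain ⟨j, -, rfl⟩ := mem_image.1 hT
      rcases j with j | j | j | j | j
      · exact b1 j
      · exact s1' j
      · exact s2' j
      · exact z1 j.1
      · exact z2 j.1
    · intro t x hx y hy h
      obtain ⟨i, -, rfl⟩ := mem_image.1 (mem_coe.1 hx)
      obtain ⟨j, -, rfl⟩ := mem_image.1 (mem_coe.1 hy)
      rw [iN t h]
    · funext t
      rw [cov, image_image]
      rfl
  · refine ⟨(univ : Finset (IP s1 s2 s3)).image (FP s1 s2 s3 a b s k0 z), ?_, ?_, ?_⟩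
    · intro T hT
      obtain ⟨j, -, rfl⟩ := mem_image.1 hT
      rcases j with j | j | j | j | j | j
      · exact a0 j
      · exact b0 j
      · exact s0 j
      · exact s3' j
      · exact z0 j.1
      · exact z3 j.1
    · intro t x hx y hy h
      obtain ⟨i, -, rfl⟩ := mem_image.1 (mem_coe.1 hx)
      obtain ⟨j, -, rfl⟩ := mem_image.1 (mem_coe.1 hy)
      rw [iP t h]
    · funext t
      rw [cov, image_image]
      ext x
      have := cov_eq (s1 := s1) (s2 := s2) (s3 := s3) (a := a) (b := b) (s := s) (k0 := k0)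
        (z := z) h1 h2 h3 t x
      simpa only [mem_image, mem_univ, true_and, mem_union, Function.comp] using this

end Pool.Agent.LAV
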