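import Pool.Agent.LAV.Defs

set_option autoImplicit false

/-!
# Project LAV: symmetric notation for the three classes

`vt T a` is the vertex of class `a` of the triple `T`; `Adj G a b x y`: the class `a` vertex `x` and
the class `b` vertex `y` are adjacent in `G` (`a ≠ b`); `nbr G a b x` is the set of neighbours;
`tr a b x y z` is the triple with class `a` vertex `x`, class `b` vertex `y`, third vertex `z`.
-/

namespace Pool.Agent.LAV

open Finset

variable {α : Type*}

/-- the vertex of class `a` -/
def vt (T : Tri α) : Fin 3 → α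
  | 0 => T.1
  | 1 => T.2.1
  | 2 => T.2.2

@[simp] theorem vt_zero (i j k : α) : vt (i, j, k) 0 = i := rfl
@[simp] theorem vt_one (i j k : α) : vt (i, j, k) 1 = j := rfl
@[simp] theorem vt_two (i j k : α) : vt (i, j, k) 2 = k := rfl

theorem vt_inj {T T' : Tri α} (h : ∀ a, vt T a = vt T' a) : T = T' := by
  obtain ⟨i, j, k⟩ := T
  obtain ⟨i', j', k'⟩ := T'
  have h0 := h 0; have h1 := h 1; have h2 := h 2
  simp only [vt_zero, vt_one, vt_two] at h0 h1 h2
  rw [h0, h1, h2]

/-- the triple with class `a` vertex `x`, class `b` vertex `y`, third vertex `z` -/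
def tr (a b : Fin 3) (x y z : α) : Tri α :=
  (if 0 = a then x else if 0 = b then y else z, if 1 = a then x else if 1 = b then y else z,
    if 2 = a then x else if 2 = b then y else z)

theorem vt_tr (a b : Fin 3) (x y z : α) (i : Fin 3) :
    vt (tr a b x y z) i = if i = a then x else if i = b then y else z := by
  fin_cases i <;> rfl

@[simp] theorem vt_tr_fst (a b : Fin 3) (x y z : α) : vt (tr a b x y z) a = x := by
  rw [vt_tr, if_pos rfl]

theorem vt_tr_snd {a b : Fin 3} (h : a ≠ b) (x y z : α) : vt (tr a b x y z) b = y := by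
  rw [vt_tr, if_neg h.symm, if_pos rfl]

theorem vt_tr_trd {a b c : Fin 3} (hac : a ≠ c) (hbc : b ≠ c) (x y z : α) :
    vt (tr a b x y z) c = z := by
  rw [vt_tr, if_neg hac.symm, if_neg hbc.symm]

theorem class_cases {a b c : Fin 3} (hab : a ≠ b) (hac : a ≠ c) (hbc : b ≠ c) (i : Fin 3) :
    i = a ∨ i = b ∨ i = c := by
  revert a b c i; decide

theorem tr_eq {a b c : Fin 3} (hab : a ≠ b) (hac : a ≠ c) (hbc : b ≠ c) (T : Tri α) :
    tr a b (vt T a) (vt T b) (vt T c) = T := by
  refine vt_inj fun i => ?_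
  rcases class_cases hab hac hbc i with rfl | rfl | rfl
  · rw [vt_tr_fst]
  · rw [vt_tr_snd hab]
  · rw [vt_tr_trd hac hbc]

theorem tr_swap {a b : Fin 3} (hab : a ≠ b) (x y z : α) : tr a b x y z = tr b a y x z := by
  refine vt_inj fun i => ?_
  rw [vt_tr, vt_tr]
  by_cases h1 : i = a
  · rw [if_pos h1, if_neg (fun h => hab (h1 ▸ h)), if_pos h1]
  · rw [if_neg h1]
    by_cases h2 : i = b
    · rw [if_pos h2, if_pos h2]
    · rw [if_neg h2, if_neg h2, if_neg h1]

theorem tr_rot {a b c : Fin 3} (hab : a ≠ b) (hac : a ≠ c) (hbc : b ≠ c) (x y z : α) :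
    tr a b x y z = tr a c x z y := by
  refine vt_inj fun i => ?_
  rcases class_cases hab hac hbc i with rfl | rfl | rfl
  · rw [vt_tr_fst, vt_tr_fst]
  · rw [vt_tr_snd hab, vt_tr_trd hab hbc.symm]
  · rw [vt_tr_trd hac hbc, vt_tr_snd hac]

/-- adjacency of the class `a` vertex `x` and the class `b` vertex `y` -/
def Adj (G : Gr α) (a b : Fin 3) (x y : α) : Prop :=
  if a < b then (x, y) ∈ G (-(a + b)) else (y, x) ∈ G (-(a + b))

theorem Adj_comm (G : Gr α) {a b : Fin 3} (hab : a ≠ b) (x y : α) :
    Adj G a b x y ↔ Adj G b a y x := by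
  unfold Adj
  rw [add_comm b a]
  rcases lt_or_gt_of_ne hab with h | h
  · rw [if_pos h, if_neg (not_lt.2 h.le)]
  · rw [if_pos h, if_neg (not_lt.2 h.le)]

theorem Adj_union (G H : Gr α) [DecidableEq α] (a b : Fin 3) (x y : α) :
    Adj (fun t => G t ∪ H t) a b x y ↔ Adj G a b x y ∨ Adj H a b x y := by
  unfold Adj
  split_ifs <;> rw [mem_union]

theorem Adj_sdiff (G H : Gr α) [DecidableEq α] (a b : Fin 3) (x y : α) :
    Adj (fun t => G t \ H t) a b x y ↔ Adj G a b x y ∧ ¬ Adj H a b x y := by
  unfold Adj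
  split_ifs <;> rw [mem_sdiff]

instance (G : Gr α) [DecidableEq α] (a b : Fin 3) (x y : α) : Decidable (Adj G a b x y) := by
  unfold Adj; infer_instance

/-- two graphs with the same adjacencies are equal -/
theorem gr_ext {G H : Gr α} (h : ∀ a b : Fin 3, a ≠ b → ∀ x y, Adj G a b x y ↔ Adj H a b x y) :
    G = H := by
  funext t
  ext ⟨x, y⟩
  fin_cases t
  · exact h 1 2 (by decide) x y
  · exact h 0 2 (by decide) x y
  · exact h 0 1 (by decide) x y

section
variable [DecidableEq α]

/-- the set of class `b` neighbours of the class `a` vertex `x` -/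
def nbr (G : Gr α) (a b : Fin 3) (x : α) : Finset α :=
  if a < b then ((G (-(a + b))).filter fun p => p.1 = x).image Prod.snd
  else ((G (-(a + b))).filter fun p => p.2 = x).image Prod.fst

theorem mem_nbr (G : Gr α) (a b : Fin 3) (x y : α) : y ∈ nbr G a b x ↔ Adj G a b x y := by
  unfold nbr Adj
  split_ifs with h
  · simp only [mem_image, mem_filter, Prod.exists, exists_eq_right]
  · simp only [mem_image, mem_filter, Prod.exists]
    constructor
    · rintro ⟨u, w, ⟨hu, rfl⟩, rfl⟩; exact hu
    · intro hu; exact ⟨y, x, ⟨hu, rfl⟩, rfl⟩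

theorem card_nbr (G : Gr α) (a b : Fin 3) (x : α) :
    (nbr G a b x).card = if a < b then rowD G (-(a + b)) x else colD G (-(a + b)) x := by
  unfold nbr rowD colD
  split_ifs with h
  · refine card_image_of_injOn ?_
    rintro ⟨u, v⟩ hp ⟨u', v'⟩ hq hpq
    have h1 := (mem_filter.1 (mem_coe.1 hp)).2
    have h2 := (mem_filter.1 (mem_coe.1 hq)).2
    simp only at h1 h2 hpq
    rw [h1, h2, hpq]
  · refine card_image_of_injOn ?_
    rintro ⟨u, v⟩ hp ⟨u', v'⟩ hq hpq
    have h1 := (mem_filter.1 (mem_coe.1 hp)).2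
    have h2 := (mem_filter.1 (mem_coe.1 hq)).2
    simp only at h1 h2 hpq
    rw [h1, h2, hpq]

theorem divisible_iff (G : Gr α) : Divisible G ↔
    ∀ a b c : Fin 3, a ≠ b → a ≠ c → b ≠ c → ∀ x, (nbr G a b x).card = (nbr G a c x).card := by
  constructor
  · rintro ⟨h0, h1, h2⟩ a b c hab hac hbc x
    rw [card_nbr, card_nbr]
    have e0 := h0 x; have e1 := h1 x; have e2 := h2 x
    fin_cases a <;> fin_cases b <;> fin_cases c <;>
      first
      | exact absurd rfl hab
      | exact absurd rfl hac
      | exact absurd rfl hbc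
      | exact e0
      | exact e0.symm
      | exact e1
      | exact e1.symm
      | exact e2
      | exact e2.symm
  · intro h
    refine ⟨fun v => ?_, fun v => ?_, fun v => ?_⟩
    · have := h 0 1 2 (by decide) (by decide) (by decide) v
      rw [card_nbr, card_nbr] at this
      exact this
    · have := h 1 0 2 (by decide) (by decide) (by decide) v
      rw [card_nbr, card_nbr] at this
      exact this
    · have := h 2 0 1 (by decide) (by decide) (by decide) v
      rw [card_nbr, card_nbr] at this
      exact this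

theorem adj_cov (P : Finset (Tri α)) {a b : Fin 3} (hab : a ≠ b) (x y : α) :
    Adj (cov P) a b x y ↔ ∃ T ∈ P, vt T a = x ∧ vt T b = y := by
  have key : ∀ (t : Fin 3) (u v : α), (u, v) ∈ cov P t ↔ ∃ T ∈ P, pr t T = (u, v) := by
    intro t u v
    simp only [cov, mem_image]
  fin_cases a <;> fin_cases b <;> first
    | exact absurd rfl hab
    | skip
  · refine (key 2 x y).trans (exists_congr fun T => and_congr_right fun _ => ?_)
    obtain ⟨i, j, k⟩ := T
    simp
  · refine (key 1 x y).trans (exists_congr fun T => and_congr_right fun _ => ?_)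
    obtain ⟨i, j, k⟩ := T
    simp
  · refine (key 2 y x).trans (exists_congr fun T => and_congr_right fun _ => ?_)
    obtain ⟨i, j, k⟩ := T
    simp [and_comm]
  · refine (key 0 x y).trans (exists_congr fun T => and_congr_right fun _ => ?_)
    obtain ⟨i, j, k⟩ := T
    simp
  · refine (key 1 y x).trans (exists_congr fun T => and_congr_right fun _ => ?_)
    obtain ⟨i, j, k⟩ := T
    simp [and_comm]
  · refine (key 0 y x).trans (exists_congr fun T => and_congr_right fun _ => ?_)
    obtain ⟨i, j, k⟩ := T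
    simp [and_comm]

omit [DecidableEq α] in
theorem packing_iff (P : Finset (Tri α)) : Packing P ↔
    ∀ a b : Fin 3, a ≠ b → ∀ T ∈ P, ∀ T' ∈ P, vt T a = vt T' a → vt T b = vt T' b → T = T' := by
  constructor
  · intro h a b hab T hT T' hT' h1 h2
    obtain ⟨i, j, k⟩ := T
    obtain ⟨i', j', k'⟩ := T'
    fin_cases a <;> fin_cases b <;> first
      | exact absurd rfl hab
      | skip
    · exact h 2 hT hT' (by simp only [pr_two]; exact Prod.ext h1 h2)
    · exact h 1 hT hT' (by simp only [pr_one]; exact Prod.ext h1 h2)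
    · exact h 2 hT hT' (by simp only [pr_two]; exact Prod.ext h2 h1)
    · exact h 0 hT hT' (by simp only [pr_zero]; exact Prod.ext h1 h2)
    · exact h 1 hT hT' (by simp only [pr_one]; exact Prod.ext h2 h1)
    · exact h 0 hT hT' (by simp only [pr_zero]; exact Prod.ext h2 h1)
  · intro h t T hT T' hT' he
    obtain ⟨i, j, k⟩ := T
    obtain ⟨i', j', k'⟩ := T'
    fin_cases t
    · have := Prod.mk.inj he
      exact h 1 2 (by decide) _ hT _ hT' this.1 this.2
    · have := Prod.mk.inj he
      exact h 0 2 (by decide) _ hT _ hT' this.1 this.2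
    · have := Prod.mk.inj he
      exact h 0 1 (by decide) _ hT _ hT' this.1 this.2

end

end Pool.Agent.LAV
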