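import Mathlib

set_option autoImplicit false

/-!
# Project LAV: random bits

`bits`: for a finite coordinate set `K`, `ρ ∈ [0,1]` and a finite family of statistics, each the
number of blocks (pairwise disjoint subsets of `K`) contained in the random set, there is a set
`S ⊆ K` for which every statistic is within `ε m` of its mean, if `2 |J| exp(-2 ε² m) < 1`
(`m` at least the number of blocks of every statistic).
-/

namespace Pool.Agent.LAV

open MeasureTheory ProbabilityTheory
open scoped ENNReal NNReal

variable {K : Type*} [Fintype K] [DecidableEq K] {ι : Type*}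

/-- the product measure -/
private noncomputable def bmu (K : Type*) [Fintype K] (p : unitInterval) : Measure (K → Bool) :=
  Measure.pi fun _ => bernoulliMeasure true false p

private instance (p : unitInterval) : IsProbabilityMeasure (bmu K p) := by
  unfold bmu; infer_instance

/-- the indicator of a block -/
private noncomputable def bX (b : Finset K) (ω : K → Bool) : ℝ :=
  if ∀ i ∈ b, ω i = true then 1 else 0


private theorem bX_mem (b : Finset K) (ω : K → Bool) : bX b ω ∈ Set.Icc (0 : ℝ) 1 := by
  unfold bX; split_ifs <;> simp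

private theorem bX_meas (b : Finset K) : Measurable (bX b) := Measurable.of_discrete

private theorem bits_mean (p : unitInterval) (b : Finset K) :
    ∫ ω, bX b ω ∂(bmu K p) = (p : ℝ) ^ b.card := by
  have h1 : bX b = Set.indicator {ω : K → Bool | ∀ i ∈ b, ω i = true} (fun _ => (1 : ℝ)) := by
    funext ω
    unfold bX
    by_cases h : ∀ i ∈ b, ω i = true
    · rw [if_pos h, Set.indicator_of_mem (show ω ∈ {ω : K → Bool | ∀ i ∈ b, ω i = true} from h)]
    · rw [if_neg h, Set.indicator_of_notMem (show ω ∉ {ω : K → Bool | ∀ i ∈ b, ω i = true} from h)]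
  rw [h1, integral_indicator_const _ (MeasurableSet.of_discrete), smul_eq_mul, mul_one]
  have h2 : {ω : K → Bool | ∀ i ∈ b, ω i = true} =
      Set.pi Set.univ (fun i => if i ∈ b then ({true} : Set Bool) else Set.univ) := by
    ext ω
    rw [Set.mem_univ_pi]
    constructor
    · intro h i
      by_cases hi : i ∈ b
      · rw [if_pos hi]; exact h i hi
      · rw [if_neg hi]; exact Set.mem_univ _
    · intro h i hi
      have := h i
      rw [if_pos hi] at this
      exact this
  rw [h2, measureReal_def]
  unfold bmu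
  rw [Measure.pi_pi, ENNReal.toReal_prod]
  have h3 : ∀ i : K, (bernoulliMeasure true false p
      (if i ∈ b then ({true} : Set Bool) else Set.univ)).toReal = if i ∈ b then (p : ℝ) else 1 := by
    intro i
    by_cases hi : i ∈ b
    · rw [if_pos hi, if_pos hi]
      rw [bernoulliMeasure_apply_of_mem_of_notMem p (MeasurableSet.of_discrete) (by simp) (by simp)]
      simp
    · rw [if_neg hi, if_neg hi]
      simp
  rw [Finset.prod_congr rfl (fun i _ => h3 i), Finset.prod_ite_mem, Finset.univ_inter,
    Finset.prod_const]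

private theorem bits_indep (p : unitInterval) {s t : Finset K} (hst : Disjoint s t)
    {g : (s → Bool) → ℝ} {h : (t → Bool) → ℝ} :
    IndepFun (fun ω : K → Bool => g (fun i => ω i)) (fun ω : K → Bool => h (fun i => ω i))
      (bmu K p) := by
  have h1 : iIndepFun (fun (i : K) (ω : K → Bool) => ω i) (bmu K p) := by
    unfold bmu
    exact iIndepFun_pi (X := fun _ x => x) (fun i => aemeasurable_id)
  have h2 := h1.indepFun_finset s t hst (fun i => measurable_pi_apply i)
  exact h2.comp (φ := g) (ψ := h) Measurable.of_discrete Measurable.of_discrete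

private theorem bits_subG (p : unitInterval) (b : ι → Finset K) (T : Finset ι)
    (hd : (T : Set ι).PairwiseDisjoint b) :
    HasSubgaussianMGF (fun ω => ∑ u ∈ T, (bX (b u) ω - (p : ℝ) ^ (b u).card))
      ((T.card : ℝ≥0) * (1 / 4)) (bmu K p) := by
  classical
  induction T using Finset.induction_on with
  | empty => simp
  | insert u T hu ih =>
    have hd' : (T : Set ι).PairwiseDisjoint b := hd.subset (by
      intro x hx; exact Finset.mem_coe.2 (Finset.mem_insert_of_mem (Finset.mem_coe.1 hx)))
    have h1 := ih hd'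
    have h2 : HasSubgaussianMGF (fun ω => bX (b u) ω - (p : ℝ) ^ (b u).card) (1 / 4)
        (bmu K p) := by
      have h3 := hasSubgaussianMGF_of_mem_Icc (μ := bmu K p) (X := bX (b u)) (a := 0) (b := 1)
        (bX_meas _).aemeasurable (Filter.Eventually.of_forall (bX_mem _))
      rw [bits_mean] at h3
      convert h3 using 1
      simp
      norm_num
    have hdis : Disjoint (b u) (T.biUnion b) := by
      rw [Finset.disjoint_biUnion_right]
      intro v hv
      exact hd (Finset.mem_coe.2 (Finset.mem_insert_self _ _))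
        (Finset.mem_coe.2 (Finset.mem_insert_of_mem hv)) (fun h => hu (h ▸ hv))
    have hind := bits_indep p hdis
      (g := fun x => (if ∀ i : b u, x i = true then (1 : ℝ) else 0) - (p : ℝ) ^ (b u).card)
      (h := fun x => ∑ v ∈ T, ((if ∀ i : T.biUnion b, (i : K) ∈ b v → x i = true then (1 : ℝ) else 0)
        - (p : ℝ) ^ (b v).card))
    have e1 : (fun ω : K → Bool => (if ∀ i : b u, ω i = true then (1 : ℝ) else 0) -
        (p : ℝ) ^ (b u).card) = fun ω => bX (b u) ω - (p : ℝ) ^ (b u).card := by
      funext ω
      unfold bX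
      congr 1
      simp only [Subtype.forall]
    have e2 : (fun ω : K → Bool => ∑ v ∈ T, ((if ∀ i : T.biUnion b, (i : K) ∈ b v →
        ω i = true then (1 : ℝ) else 0) - (p : ℝ) ^ (b v).card)) =
        fun ω => ∑ v ∈ T, (bX (b v) ω - (p : ℝ) ^ (b v).card) := by
      funext ω
      refine Finset.sum_congr rfl fun v hv => ?_
      unfold bX
      congr 1
      refine if_congr ?_ rfl rfl
      constructor
      · intro h i hi
        exact h ⟨i, Finset.mem_biUnion.2 ⟨v, hv, hi⟩⟩ hi
      · intro h i hi
        exact h i hi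
    rw [e1, e2] at hind
    have h4 := h2.add_of_indepFun h1 hind
    rw [Finset.card_insert_of_notMem hu]
    have e3 : (1 / 4 : ℝ≥0) + (T.card : ℝ≥0) * (1 / 4) = ((T.card + 1 : ℕ) : ℝ≥0) * (1 / 4) := by
      push_cast; ring
    rw [← e3]
    refine h4.congr (Filter.Eventually.of_forall fun ω => ?_)
    simp only [Finset.sum_insert hu]

/-- **Random bits** (derandomised). -/
theorem bits {J : Type*} [Fintype J] {ρ : ℝ} (h0 : 0 ≤ ρ) (h1 : ρ ≤ 1)
    (T : J → Finset ι) (b : J → ι → Finset K)
    (hd : ∀ j, (T j : Set ι).PairwiseDisjoint (b j)) {m ε : ℝ} (hε : 0 < ε)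
    (hm : ∀ j, ((T j).card : ℝ) ≤ m)
    (hJ : 2 * (Fintype.card J : ℝ) * Real.exp (-(2 * ε ^ 2 * m)) < 1) :
    ∃ S : Finset K, ∀ j, |(((T j).filter fun u => b j u ⊆ S).card : ℝ) -
      ∑ u ∈ T j, ρ ^ (b j u).card| ≤ ε * m := by
  classical
  set p : unitInterval := ⟨ρ, h0, h1⟩ with hp
  have hpρ : (p : ℝ) = ρ := rfl
  set F : J → (K → Bool) → ℝ := fun j ω => ∑ u ∈ T j, (bX (b j u) ω - (p : ℝ) ^ (b j u).card) with hF
  set Bad : J → Set (K → Bool) := fun j => {ω | ε * m < |F j ω|} with hBad
  have hbad : ∀ j, (bmu K p).real (Bad j) ≤ 2 * Real.exp (-(2 * ε ^ 2 * m)) := by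
    intro j
    rcases Nat.eq_zero_or_pos (T j).card with hT | hT
    · have hT0 : T j = ∅ := Finset.card_eq_zero.1 hT
      have hm0 : 0 ≤ m := by
        have := hm j
        rw [hT] at this
        simpa using this
      have : Bad j = ∅ := by
        rw [hBad]
        ext ω
        simp only [hF, hT0, Finset.sum_empty, abs_zero, Set.mem_setOf_eq, Set.mem_empty_iff_false,
          iff_false, not_lt]
        positivity
      rw [this, measureReal_empty]
      positivity
    · have hTr : (0 : ℝ) < (T j).card := by exact_mod_cast hT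
      have hm0 : 0 < m := lt_of_lt_of_le hTr (hm j)
      have hεm : 0 ≤ ε * m := by positivity
      have hs := bits_subG p (b j) (T j) (hd j)
      have hn := hs.neg
      have e : Real.exp (-(ε * m) ^ 2 / (2 * (((T j).card : ℝ≥0) * (1 / 4) : ℝ≥0))) ≤
          Real.exp (-(2 * ε ^ 2 * m)) := by
        apply Real.exp_le_exp.2
        push_cast
        rw [neg_div, neg_le_neg_iff, le_div_iff₀ (by positivity)]
        have h5 := hm j
        have h6 : 0 ≤ ε ^ 2 * m := by positivity
        nlinarith
      have u1 := (hs.measure_ge_le hεm).trans e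
      have u2 := (hn.measure_ge_le hεm).trans e
      have hsub : Bad j ⊆ {ω | ε * m ≤ ∑ u ∈ T j, (bX (b j u) ω - (p : ℝ) ^ (b j u).card)} ∪
          {ω | ε * m ≤ (-fun ω => ∑ u ∈ T j, (bX (b j u) ω - (p : ℝ) ^ (b j u).card)) ω} := by
        intro ω hω
        rw [hBad] at hω
        have hω' : ε * m < |F j ω| := hω
        rcases lt_abs.1 hω' with h | h
        · left; exact h.le
        · right; exact h.le
      calc (bmu K p).real (Bad j) ≤ _ := measureReal_mono hsub
        _ ≤ _ := measureReal_union_le _ _
        _ ≤ 2 * Real.exp (-(2 * ε ^ 2 * m)) := by linarith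
  have hU : (bmu K p).real (⋃ j, Bad j) < 1 := by
    calc (bmu K p).real (⋃ j, Bad j) ≤ ∑ j, (bmu K p).real (Bad j) :=
          measureReal_iUnion_fintype_le _
      _ ≤ ∑ _j : J, 2 * Real.exp (-(2 * ε ^ 2 * m)) := Finset.sum_le_sum fun j _ => hbad j
      _ = 2 * (Fintype.card J : ℝ) * Real.exp (-(2 * ε ^ 2 * m)) := by
          rw [Finset.sum_const, Finset.card_univ, nsmul_eq_mul]; ring
      _ < 1 := hJ
  obtain ⟨ω, hω⟩ : ∃ ω, ω ∉ ⋃ j, Bad j := by
    by_contra hcon
    push Not at hcon
    have : (⋃ j, Bad j) = Set.univ := Set.eq_univ_of_forall hcon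
    rw [this] at hU
    simp at hU
  refine ⟨Finset.univ.filter fun i => ω i = true, fun j => ?_⟩
  have h2 : ¬ (ε * m < |F j ω|) := fun h => hω (Set.mem_iUnion.2 ⟨j, h⟩)
  have h3 : F j ω = (((T j).filter fun u => b j u ⊆ Finset.univ.filter fun i => ω i = true).card : ℝ)
      - ∑ u ∈ T j, ρ ^ (b j u).card := by
    rw [hF]
    simp only
    rw [Finset.sum_sub_distrib]
    congr 1
    rw [Finset.card_filter]
    push_cast
    refine Finset.sum_congr rfl fun u _ => ?_
    unfold bX
    refine if_congr ?_ rfl rfl
    constructor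
    · intro h i hi
      exact Finset.mem_filter.2 ⟨Finset.mem_univ _, h i hi⟩
    · intro h i hi
      exact (Finset.mem_filter.1 (h hi)).2
  rw [← h3]
  exact not_lt.1 h2

end Pool.Agent.LAV
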