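import Pool.Agent.LAV.ADJ

set_option autoImplicit false

/-!
# Project LAV: hypotheses of the covering step
-/

namespace Pool.Agent.LAV

open Finset

variable {α : Type*} [DecidableEq α]

/-- The reservoir `R` between the outer vertices `O` and the inner set `U'` (labels; the same sets
for the three classes), allowed triples `A`, pairs `Z` inside `U'` which may not be used. -/
structure Res (A : Tri α → Prop) [DecidablePred A] (O U' : Finset α) (R Z : Gr α)
    (s0 s1 a1 c0 f e1 : ℕ) : Prop where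
  /-- every reserved pair has one end in `O` and one in `U'` -/
  mem : ∀ a b : Fin 3, a ≠ b → ∀ x y, Adj R a b x y → (x ∈ O ∧ y ∈ U') ∨ (x ∈ U' ∧ y ∈ O)
  /-- degrees of outer vertices -/
  degO : ∀ a b : Fin 3, a ≠ b → ∀ x ∈ O, s0 ≤ (nbr R a b x).card ∧ (nbr R a b x).card ≤ s1
  /-- degrees of inner vertices -/
  degU : ∀ a b : Fin 3, a ≠ b → ∀ v ∈ U', (nbr R a b v).card ≤ a1
  /-- common allowed reserved neighbours of two outer vertices of different classes -/
  com : ∀ a b c : Fin 3, a ≠ b → a ≠ c → b ≠ c → ∀ x ∈ O, ∀ y ∈ O,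
    c0 ≤ (U'.filter fun u => Adj R a c x u ∧ Adj R b c y u ∧ A (tr a b x y u)).card
  /-- bad reserved neighbours of `x ∈ O`, `v ∈ U'` -/
  bad : ∀ a b c : Fin 3, a ≠ b → a ≠ c → b ≠ c → ∀ x ∈ O, ∀ v ∈ U',
    (U'.filter fun w => Adj R a c x w ∧ (¬ A (tr a b x v w) ∨ Adj Z b c v w)).card ≤ f
  /-- common reserved neighbours of two outer vertices of the same class -/
  cod : ∀ a b : Fin 3, a ≠ b → ∀ x ∈ O, ∀ x' ∈ O, x ≠ x' →
    (U'.filter fun u => Adj R a b x u ∧ Adj R a b x' u).card ≤ e1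

/-- The leftover `L` of the approximate decomposition: pairs with at least one end in `O`, the other
in `O ∪ U'`, all degrees at most `Δ`, disjoint from the reservoir; together with the reservoir it
is balanced at the outer vertices. -/
structure Left (O U' : Finset α) (R L : Gr α) (Δ : ℕ) : Prop where
  mem : ∀ a b : Fin 3, a ≠ b → ∀ x y, Adj L a b x y → (x ∈ O ∧ (y ∈ O ∨ y ∈ U')) ∨ (x ∈ U' ∧ y ∈ O)
  deg : ∀ a b : Fin 3, a ≠ b → ∀ x, (nbr L a b x).card ≤ Δ
  disj : ∀ a b : Fin 3, a ≠ b → ∀ x y, Adj L a b x y → ¬ Adj R a b x y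
  bal : ∀ a b c : Fin 3, a ≠ b → a ≠ c → b ≠ c → ∀ x ∈ O,
    (nbr L a b x).card + (nbr R a b x).card = (nbr L a c x).card + (nbr R a c x).card

end Pool.Agent.LAV
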