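/-
LAV (MP_ba4857_co).  Signed octahedra: moving a weight off the non-allowed triples.
-/
import Mathlib

namespace Pool.LAV

open Finset

/-- Indicator of a proposition. -/
noncomputable def ind (p : Prop) : ℝ := by
  classical exact if p then 1 else 0

theorem ind_true {p : Prop} (h : p) : ind p = 1 := by
  unfold ind; rw [if_pos h]

theorem ind_false {p : Prop} (h : ¬ p) : ind p = 0 := by
  unfold ind; rw [if_neg h]

theorem ind_nonneg (p : Prop) : 0 ≤ ind p := by
  by_cases h : p
  · rw [ind_true h]; norm_num
  · rw [ind_false h]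

theorem ind_le_one (p : Prop) : ind p ≤ 1 := by
  by_cases h : p
  · rw [ind_true h]
  · rw [ind_false h]; norm_num

theorem ind_not (p : Prop) : ind (¬ p) = 1 - ind p := by
  by_cases h : p
  · rw [ind_true h, ind_false (by simpa using h)]; norm_num
  · rw [ind_false h, ind_true h]; norm_num

theorem ind_and (p q : Prop) : ind (p ∧ q) = ind p * ind q := by
  by_cases h : p
  · by_cases h' : q
    · rw [ind_true h, ind_true h', ind_true ⟨h, h'⟩]; norm_num
    · rw [ind_true h, ind_false h', ind_false (fun h2 => h' h2.2)]; norm_num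
  · rw [ind_false h, ind_false (fun h2 => h h2.1)]; norm_num

theorem ind_and_ge (p q : Prop) : 1 - ind (¬ p) - ind (¬ q) ≤ ind (p ∧ q) := by
  rw [ind_and, ind_not, ind_not]
  nlinarith [ind_nonneg p, ind_nonneg q, ind_le_one p, ind_le_one q,
    mul_nonneg (sub_nonneg.mpr (ind_le_one p)) (sub_nonneg.mpr (ind_le_one q))]

theorem ind_and4_ge (p q s t : Prop) :
    1 - ind (¬ p) - ind (¬ q) - ind (¬ s) - ind (¬ t) ≤ ind (p ∧ q ∧ s ∧ t) := by
  by_cases hp : p
  · by_cases hq : q
    · by_cases hs : s
      · by_cases ht : t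
        · rw [ind_true (p := p ∧ q ∧ s ∧ t) ⟨hp, hq, hs, ht⟩]
          linarith [ind_nonneg (¬ p), ind_nonneg (¬ q), ind_nonneg (¬ s), ind_nonneg (¬ t)]
        · linarith [ind_nonneg (¬ p), ind_nonneg (¬ q), ind_nonneg (¬ s), ind_true ht,
            ind_nonneg (p ∧ q ∧ s ∧ t)]
      · linarith [ind_nonneg (¬ p), ind_nonneg (¬ q), ind_true hs, ind_nonneg (¬ t),
            ind_nonneg (p ∧ q ∧ s ∧ t)]
    · linarith [ind_nonneg (¬ p), ind_true hq, ind_nonneg (¬ s), ind_nonneg (¬ t),
            ind_nonneg (p ∧ q ∧ s ∧ t)]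
  · linarith [ind_true hp, ind_nonneg (¬ q), ind_nonneg (¬ s), ind_nonneg (¬ t),
            ind_nonneg (p ∧ q ∧ s ∧ t)]

/-- Difference of two unit vectors. -/
noncomputable def dif {X : Type*} (u : X × X) (x : X) : ℝ := ind (x = u.1) - ind (x = u.2)

section

variable {X : Type*} [Fintype X]

theorem sum_ind_eq (a : X) : ∑ x, ind (x = a) = 1 := by
  classical
  rw [Finset.sum_eq_single a]
  · exact ind_true rfl
  · intro b _ hb; exact ind_false hb
  · intro h; exact absurd (Finset.mem_univ a) h

theorem sum_ind_eq' (a : X) : ∑ x, ind (a = x) = 1 := by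
  have : ∀ x, ind (a = x) = ind (x = a) := fun x => by
    by_cases h : a = x
    · rw [ind_true h, ind_true h.symm]
    · rw [ind_false h, ind_false (fun h' => h h'.symm)]
  simp_rw [this]
  exact sum_ind_eq a

theorem sum_dif (u : X × X) : ∑ x, dif u x = 0 := by
  simp only [dif, Finset.sum_sub_distrib, sum_ind_eq, sub_self]

theorem abs_dif_le (u : X × X) (x : X) : |dif u x| ≤ ind (x = u.1) + ind (x = u.2) := by
  unfold dif
  rw [abs_le]
  constructor <;> linarith [ind_nonneg (x = u.1), ind_nonneg (x = u.2)]

theorem sum_abs_dif (x : X) : ∑ u : X × X, |dif u x| ≤ 2 * (Fintype.card X : ℝ) := by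
  calc ∑ u : X × X, |dif u x| ≤ ∑ u : X × X, (ind (x = u.1) + ind (x = u.2)) :=
        Finset.sum_le_sum fun u _ => abs_dif_le u x
    _ = 2 * (Fintype.card X : ℝ) := by
        rw [Fintype.sum_prod_type]
        simp only [Finset.sum_add_distrib, Finset.sum_const, sum_ind_eq', Finset.card_univ,
          nsmul_eq_mul]
        rw [← Finset.mul_sum, sum_ind_eq']
        ring

end

section

variable {R C K : Type*} [Fintype R] [Fintype C] [Fintype K]

/-- The seven other corners of the cube are allowed. -/
def Good (A : R → C → K → Prop) (u : R × R) (v : C × C) (w : K × K) : Prop :=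
  A u.1 v.2 w.1 ∧ (A u.1 v.1 w.2 ∧ A u.1 v.2 w.2) ∧
    (A u.2 v.1 w.1 ∧ A u.2 v.2 w.1 ∧ A u.2 v.1 w.2 ∧ A u.2 v.2 w.2)

/-- Number of good octahedra at a triple. -/
noncomputable def nn (A : R → C → K → Prop) (r : R) (c : C) (k : K) : ℝ :=
  ∑ c', ∑ k', ∑ r', ind (Good A (r, r') (c, c') (k, k'))

/-- Line density condition: on every line at most `b` non-allowed triples. -/
structure Lines (A : R → C → K → Prop) (b : ℝ) : Prop where
  r : ∀ c k, ∑ r, ind (¬ A r c k) ≤ b
  c : ∀ r k, ∑ c, ind (¬ A r c k) ≤ b
  k : ∀ r c, ∑ k, ind (¬ A r c k) ≤ b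

theorem nn_ge {A : R → C → K → Prop} {b N : ℝ} (hA : Lines A b) (hR : (Fintype.card R : ℝ) = N)
    (hC : (Fintype.card C : ℝ) = N) (hK : (Fintype.card K : ℝ) = N) (hb : 0 ≤ b) (hb4 : 4 * b ≤ N)
    (r : R) (c : C) (k : K) :
    (N - b) * (N - 2 * b) * (N - 4 * b) ≤ nn A r c k := by
  have h1 : ∀ c' k', ind (A r c' k) * ind (A r c k' ∧ A r c' k') * (N - 4 * b) ≤
      ∑ r', ind (Good A (r, r') (c, c') (k, k')) := by
    intro c' k'
    have h2 : ∀ r', ind (Good A (r, r') (c, c') (k, k')) =
        ind (A r c' k) * ind (A r c k' ∧ A r c' k') *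
          ind (A r' c k ∧ A r' c' k ∧ A r' c k' ∧ A r' c' k') := by
      intro r'
      unfold Good
      rw [ind_and, ind_and, mul_assoc]
    simp_rw [h2]
    rw [← Finset.mul_sum]
    refine mul_le_mul_of_nonneg_left ?_ (mul_nonneg (ind_nonneg _) (ind_nonneg _))
    calc N - 4 * b ≤ ∑ r', (1 - ind (¬ A r' c k) - ind (¬ A r' c' k) - ind (¬ A r' c k') -
            ind (¬ A r' c' k')) := by
          simp only [Finset.sum_sub_distrib, Finset.sum_const, Finset.card_univ, nsmul_eq_mul,
            mul_one, hR]
          linarith [hA.r c k, hA.r c' k, hA.r c k', hA.r c' k']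
      _ ≤ _ := Finset.sum_le_sum fun r' _ => ind_and4_ge _ _ _ _
  have h3 : ∀ c', ind (A r c' k) * (N - 2 * b) * (N - 4 * b) ≤
      ∑ k', ∑ r', ind (Good A (r, r') (c, c') (k, k')) := by
    intro c'
    calc ind (A r c' k) * (N - 2 * b) * (N - 4 * b)
        ≤ ∑ k', ind (A r c' k) * ind (A r c k' ∧ A r c' k') * (N - 4 * b) := by
          rw [← Finset.sum_mul, ← Finset.mul_sum]
          refine mul_le_mul_of_nonneg_right ?_ (by linarith)
          refine mul_le_mul_of_nonneg_left ?_ (ind_nonneg _)
          calc N - 2 * b ≤ ∑ k', (1 - ind (¬ A r c k') - ind (¬ A r c' k')) := by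
                simp only [Finset.sum_sub_distrib, Finset.sum_const, Finset.card_univ,
                  nsmul_eq_mul, mul_one, hK]
                linarith [hA.k r c, hA.k r c']
            _ ≤ _ := Finset.sum_le_sum fun k' _ => ind_and_ge _ _
      _ ≤ _ := Finset.sum_le_sum fun k' _ => h1 c' k'
  calc (N - b) * (N - 2 * b) * (N - 4 * b)
      ≤ ∑ c', ind (A r c' k) * (N - 2 * b) * (N - 4 * b) := by
        rw [← Finset.sum_mul, ← Finset.sum_mul]
        refine mul_le_mul_of_nonneg_right ?_ (by linarith)
        refine mul_le_mul_of_nonneg_right ?_ (by linarith)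
        calc N - b ≤ ∑ c', (1 - ind (¬ A r c' k)) := by
              simp only [Finset.sum_sub_distrib, Finset.sum_const, Finset.card_univ,
                nsmul_eq_mul, mul_one, hC]
              linarith [hA.c r k]
          _ = ∑ c', ind (A r c' k) := by
              refine Finset.sum_congr rfl fun c' _ => ?_
              rw [ind_not]; ring
    _ ≤ _ := Finset.sum_le_sum fun c' _ => h3 c'

/-- Coefficient of one octahedron. -/
noncomputable def kap (A : R → C → K → Prop) (g : R → C → K → ℝ) (u : R × R) (v : C × C)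
    (w : K × K) : ℝ :=
  ind (¬ A u.1 v.1 w.1) * (g u.1 v.1 w.1 / nn A u.1 v.1 w.1) * ind (Good A u v w)

/-- The corrected weight. -/
noncomputable def octa (A : R → C → K → Prop) (g : R → C → K → ℝ) (x : R) (y : C) (z : K) : ℝ :=
  g x y z - ∑ u : R × R, ∑ v : C × C, ∑ w : K × K, kap A g u v w * (dif u x * dif v y * dif w z)

theorem octa_sum_k (A : R → C → K → Prop) (g : R → C → K → ℝ) (x : R) (y : C) :
    ∑ z, octa A g x y z = ∑ z, g x y z := by
  unfold octa
  rw [Finset.sum_sub_distrib, sub_eq_self, Finset.sum_comm]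
  refine Finset.sum_eq_zero fun u _ => ?_
  rw [Finset.sum_comm]
  refine Finset.sum_eq_zero fun v _ => ?_
  rw [Finset.sum_comm]
  refine Finset.sum_eq_zero fun w _ => ?_
  rw [← Finset.mul_sum, ← Finset.mul_sum, sum_dif]
  ring

theorem octa_sum_c (A : R → C → K → Prop) (g : R → C → K → ℝ) (x : R) (z : K) :
    ∑ y, octa A g x y z = ∑ y, g x y z := by
  unfold octa
  rw [Finset.sum_sub_distrib, sub_eq_self, Finset.sum_comm]
  refine Finset.sum_eq_zero fun u _ => ?_
  rw [Finset.sum_comm]
  refine Finset.sum_eq_zero fun v _ => ?_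
  rw [Finset.sum_comm]
  refine Finset.sum_eq_zero fun w _ => ?_
  rw [← Finset.mul_sum, ← Finset.sum_mul, ← Finset.mul_sum, sum_dif]
  ring

theorem octa_sum_r (A : R → C → K → Prop) (g : R → C → K → ℝ) (y : C) (z : K) :
    ∑ x, octa A g x y z = ∑ x, g x y z := by
  unfold octa
  rw [Finset.sum_sub_distrib, sub_eq_self, Finset.sum_comm]
  refine Finset.sum_eq_zero fun u _ => ?_
  rw [Finset.sum_comm]
  refine Finset.sum_eq_zero fun v _ => ?_
  rw [Finset.sum_comm]
  refine Finset.sum_eq_zero fun w _ => ?_
  rw [← Finset.mul_sum, ← Finset.sum_mul, ← Finset.sum_mul, sum_dif]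
  ring

theorem kap_dif {A : R → C → K → Prop} {g : R → C → K → ℝ} {x : R} {y : C} {z : K}
    (h : ¬ A x y z) (u : R × R) (v : C × C) (w : K × K) :
    kap A g u v w * (dif u x * dif v y * dif w z) =
      ind (u.1 = x) * (ind (v.1 = y) * (ind (w.1 = z) * kap A g u v w)) := by
  by_cases hA : A u.1 v.1 w.1
  · have : kap A g u v w = 0 := by
      unfold kap; rw [ind_false (by simpa using hA)]; ring
    rw [this]; ring
  by_cases hg : Good A u v w
  swap
  · have : kap A g u v w = 0 := by
      unfold kap; rw [ind_false hg]; ring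
    rw [this]; ring
  obtain ⟨g1, ⟨g2, g3⟩, g4, g5, g6, g7⟩ := hg
  have h1 : u.1 ≠ u.2 := fun e => hA (by rw [e]; exact g4)
  have h2 : v.1 ≠ v.2 := fun e => hA (by rw [e]; exact g1)
  have h3 : w.1 ≠ w.2 := fun e => hA (by rw [e]; exact g2)
  -- either the point is the first corner, or the product of differences vanishes
  by_cases hx : u.1 = x
  · by_cases hy : v.1 = y
    · by_cases hz : w.1 = z
      · have e1 : dif u x = 1 := by
          unfold dif; rw [ind_true hx.symm, ind_false (fun e => h1 (hx.trans e))]; ring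
        have e2 : dif v y = 1 := by
          unfold dif; rw [ind_true hy.symm, ind_false (fun e => h2 (hy.trans e))]; ring
        have e3 : dif w z = 1 := by
          unfold dif; rw [ind_true hz.symm, ind_false (fun e => h3 (hz.trans e))]; ring
        rw [e1, e2, e3, ind_true hx, ind_true hy, ind_true hz]; ring
      · rw [ind_false hz]
        have e3 : dif w z = 0 := by
          unfold dif
          rw [ind_false (fun e => hz e.symm), ind_false]
          · ring
          · intro e
            apply h
            rw [← hx, ← hy, e]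
            exact g2
        rw [e3]; ring
    · rw [ind_false hy]
      by_cases hy2 : y = v.2
      · by_cases hz : w.1 = z
        · exfalso; apply h; rw [← hx, hy2, ← hz]; exact g1
        · have e3 : dif w z = 0 := by
            unfold dif
            rw [ind_false (fun e => hz e.symm), ind_false]
            · ring
            · intro e
              apply h
              rw [← hx, hy2, e]
              exact g3
          rw [e3]; ring
      · have e2 : dif v y = 0 := by
          unfold dif
          rw [ind_false (fun e => hy e.symm), ind_false hy2]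
          ring
        rw [e2]; ring
  · rw [ind_false hx]
    by_cases hx2 : x = u.2
    · by_cases hy : v.1 = y
      · by_cases hz : w.1 = z
        · exfalso; apply h; rw [hx2, ← hy, ← hz]; exact g4
        · have e3 : dif w z = 0 := by
            unfold dif
            rw [ind_false (fun e => hz e.symm), ind_false]
            · ring
            · intro e
              apply h
              rw [hx2, ← hy, e]
              exact g6
          rw [e3]; ring
      · by_cases hy2 : y = v.2
        · by_cases hz : w.1 = z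
          · exfalso; apply h; rw [hx2, hy2, ← hz]; exact g5
          · have e3 : dif w z = 0 := by
              unfold dif
              rw [ind_false (fun e => hz e.symm), ind_false]
              · ring
              · intro e
                apply h
                rw [hx2, hy2, e]
                exact g7
            rw [e3]; ring
        · have e2 : dif v y = 0 := by
            unfold dif
            rw [ind_false (fun e => hy e.symm), ind_false hy2]
            ring
          rw [e2]; ring
    · have e1 : dif u x = 0 := by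
        unfold dif
        rw [ind_false (fun e => hx e.symm), ind_false hx2]
        ring
      rw [e1]; ring

theorem sum_ind_mul {X : Type*} [Fintype X] (x : X) (F : X → ℝ) :
    ∑ y, ind (y = x) * F y = F x := by
  classical
  rw [Finset.sum_eq_single x]
  · rw [ind_true rfl, one_mul]
  · intro b _ hb; rw [ind_false hb, zero_mul]
  · intro h; exact absurd (Finset.mem_univ x) h

theorem octa_zero {A : R → C → K → Prop} {g : R → C → K → ℝ} {x : R} {y : C} {z : K}
    (h : ¬ A x y z) (hn : nn A x y z ≠ 0) : octa A g x y z = 0 := by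
  unfold octa
  rw [sub_eq_zero]
  symm
  calc ∑ u : R × R, ∑ v : C × C, ∑ w : K × K, kap A g u v w * (dif u x * dif v y * dif w z)
      = ∑ u : R × R, ∑ v : C × C, ∑ w : K × K,
          ind (u.1 = x) * (ind (v.1 = y) * (ind (w.1 = z) * kap A g u v w)) := by
        refine Finset.sum_congr rfl fun u _ => Finset.sum_congr rfl fun v _ =>
          Finset.sum_congr rfl fun w _ => kap_dif h u v w
    _ = ∑ r', ∑ c', ∑ k', kap A g (x, r') (y, c') (z, k') := by
        simp_rw [← Finset.mul_sum]
        rw [Fintype.sum_prod_type_right]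
        refine Finset.sum_congr rfl fun r' _ => ?_
        rw [sum_ind_mul x (fun r => ∑ v : C × C, ind (v.1 = y) * ∑ w : K × K,
          ind (w.1 = z) * kap A g (r, r') v w), Fintype.sum_prod_type_right]
        refine Finset.sum_congr rfl fun c' _ => ?_
        rw [sum_ind_mul y (fun c => ∑ w : K × K, ind (w.1 = z) * kap A g (x, r') (c, c') w),
          Fintype.sum_prod_type_right]
        refine Finset.sum_congr rfl fun k' _ => ?_
        rw [sum_ind_mul z (fun k => kap A g (x, r') (y, c') (k, k'))]
    _ = ∑ r', ∑ c', ∑ k', (g x y z / nn A x y z) * ind (Good A (x, r') (y, c') (z, k')) := by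
        refine Finset.sum_congr rfl fun r' _ => Finset.sum_congr rfl fun c' _ =>
          Finset.sum_congr rfl fun k' _ => ?_
        unfold kap
        rw [ind_true h, one_mul]
    _ = (g x y z / nn A x y z) * nn A x y z := by
        simp_rw [← Finset.mul_sum]
        congr 1
        unfold nn
        rw [Finset.sum_comm]
        refine Finset.sum_congr rfl fun c' _ => ?_
        rw [Finset.sum_comm]
    _ = g x y z := by field_simp

theorem octa_bound {A : R → C → K → Prop} {g : R → C → K → ℝ} {M n0 N : ℝ}
    (hR : (Fintype.card R : ℝ) = N)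
    (hC : (Fintype.card C : ℝ) = N) (hK : (Fintype.card K : ℝ) = N)
    (hM : ∀ x y z, |g x y z| ≤ M) (hM0 : 0 ≤ M) (hn0 : 0 < n0) (hn : ∀ x y z, n0 ≤ nn A x y z)
    (x : R) (y : C) (z : K) : |octa A g x y z| ≤ M * (1 + 8 * N ^ 3 / n0) := by
  have hN : 0 ≤ N := by rw [← hR]; positivity
  have hk : ∀ u v w, |kap A g u v w| ≤ M / n0 := by
    intro u v w
    unfold kap
    rw [abs_mul, abs_mul, abs_div, abs_of_nonneg (ind_nonneg _), abs_of_nonneg (ind_nonneg (Good A u v w))]
    have h1 : |g u.1 v.1 w.1| / |nn A u.1 v.1 w.1| ≤ M / n0 := by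
      have h2 := hn u.1 v.1 w.1
      rw [abs_of_pos (lt_of_lt_of_le hn0 h2)]
      exact div_le_div₀ hM0 (hM _ _ _) hn0 h2
    calc ind (¬ A u.1 v.1 w.1) * (|g u.1 v.1 w.1| / |nn A u.1 v.1 w.1|) * ind (Good A u v w)
        ≤ 1 * (M / n0) * 1 := by
          refine mul_le_mul (mul_le_mul (ind_le_one _) h1 (by positivity) (by norm_num))
            (ind_le_one _) (ind_nonneg _) (by positivity)
      _ = M / n0 := by ring
  have h3 : |∑ u : R × R, ∑ v : C × C, ∑ w : K × K,
      kap A g u v w * (dif u x * dif v y * dif w z)| ≤ M / n0 * (8 * N ^ 3) := by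
    calc |∑ u : R × R, ∑ v : C × C, ∑ w : K × K, kap A g u v w * (dif u x * dif v y * dif w z)|
        ≤ ∑ u : R × R, ∑ v : C × C, ∑ w : K × K,
            |kap A g u v w * (dif u x * dif v y * dif w z)| := by
          refine (Finset.abs_sum_le_sum_abs _ _).trans (Finset.sum_le_sum fun u _ => ?_)
          refine (Finset.abs_sum_le_sum_abs _ _).trans (Finset.sum_le_sum fun v _ => ?_)
          exact Finset.abs_sum_le_sum_abs _ _
      _ ≤ ∑ u : R × R, ∑ v : C × C, ∑ w : K × K,
            (M / n0) * (|dif u x| * (|dif v y| * |dif w z|)) := by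
          refine Finset.sum_le_sum fun u _ => Finset.sum_le_sum fun v _ =>
            Finset.sum_le_sum fun w _ => ?_
          rw [abs_mul, abs_mul, abs_mul, mul_assoc |dif u x|]
          exact mul_le_mul_of_nonneg_right (hk u v w) (by positivity)
      _ = (M / n0) * ((∑ u : R × R, |dif u x|) * ((∑ v : C × C, |dif v y|) *
            ∑ w : K × K, |dif w z|)) := by
          simp_rw [← Finset.mul_sum, ← Finset.sum_mul]
      _ ≤ (M / n0) * ((2 * N) * ((2 * N) * (2 * N))) := by
          refine mul_le_mul_of_nonneg_left ?_ (by positivity)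
          have a1 := sum_abs_dif x
          have a2 := sum_abs_dif y
          have a3 := sum_abs_dif z
          rw [hR] at a1; rw [hC] at a2; rw [hK] at a3
          have b3 : 0 ≤ ∑ w : K × K, |dif w z| := Finset.sum_nonneg fun _ _ => abs_nonneg _
          have b2 : 0 ≤ ∑ v : C × C, |dif v y| := Finset.sum_nonneg fun _ _ => abs_nonneg _
          exact mul_le_mul a1 (mul_le_mul a2 a3 b3 (by positivity)) (by positivity) (by positivity)
      _ = M / n0 * (8 * N ^ 3) := by ring
  unfold octa
  calc |g x y z - _| ≤ |g x y z| + |∑ u : R × R, ∑ v : C × C, ∑ w : K × K,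
        kap A g u v w * (dif u x * dif v y * dif w z)| := abs_sub _ _
    _ ≤ M + M / n0 * (8 * N ^ 3) := add_le_add (hM x y z) h3
    _ = M * (1 + 8 * N ^ 3 / n0) := by ring

end

end Pool.LAV
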