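/-
LAV (MP_ba4857_co).  The explicit right inverse of the line sum map, and one round of the
correction.
-/
import Pool.Agent.LAV.COR1

namespace Pool.LAV

open Finset

section

variable {R C K : Type*} [Fintype R] [Fintype C] [Fintype K]

/-- Functions on the three kinds of pairs. -/
structure EF (R C K : Type*) where
  rc : R → C → ℝ
  rk : R → K → ℝ
  ck : C → K → ℝ

/-- Line sums of a triple weight. -/
noncomputable def ls (g : R → C → K → ℝ) : EF R C K where
  rc := fun r c => ∑ k, g r c k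
  rk := fun r k => ∑ c, g r c k
  ck := fun c k => ∑ r, g r c k

/-- All values of an edge function are at most `F` in absolute value. -/
structure EF.Bd (f : EF R C K) (F : ℝ) : Prop where
  rc : ∀ r c, |f.rc r c| ≤ F
  rk : ∀ r k, |f.rk r k| ≤ F
  ck : ∀ c k, |f.ck c k| ≤ F

/-- The two sums at every vertex differ by at most `D`. -/
structure EF.Bal (f : EF R C K) (D : ℝ) : Prop where
  r : ∀ r, |∑ k, f.rk r k - ∑ c, f.rc r c| ≤ D
  c : ∀ c, |∑ k, f.ck c k - ∑ r, f.rc r c| ≤ D
  k : ∀ k, |∑ c, f.ck c k - ∑ r, f.rk r k| ≤ D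

instance : Sub (EF R C K) where
  sub f g := ⟨fun r c => f.rc r c - g.rc r c, fun r k => f.rk r k - g.rk r k,
    fun c k => f.ck c k - g.ck c k⟩

theorem sub_rc (f g : EF R C K) (r : R) (c : C) : (f - g).rc r c = f.rc r c - g.rc r c := rfl
theorem sub_rk (f g : EF R C K) (r : R) (k : K) : (f - g).rk r k = f.rk r k - g.rk r k := rfl
theorem sub_ck (f g : EF R C K) (c : C) (k : K) : (f - g).ck c k = f.ck c k - g.ck c k := rfl

/-- Subtracting line sums does not change the balance. -/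
theorem bal_sub_ls {f : EF R C K} {D : ℝ} (h : f.Bal D) (g : R → C → K → ℝ) :
    (f - ls g).Bal D := by
  refine ⟨fun r => ?_, fun c => ?_, fun k => ?_⟩
  · have e : ∑ k, (f - ls g).rk r k - ∑ c, (f - ls g).rc r c =
        ∑ k, f.rk r k - ∑ c, f.rc r c := by
      simp only [sub_rk, sub_rc, ls, Finset.sum_sub_distrib]
      rw [Finset.sum_comm (f := fun k c => g r c k)]
      ring
    rw [e]; exact h.r r
  · have e : ∑ k, (f - ls g).ck c k - ∑ r, (f - ls g).rc r c =
        ∑ k, f.ck c k - ∑ r, f.rc r c := by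
      simp only [sub_ck, sub_rc, ls, Finset.sum_sub_distrib]
      rw [Finset.sum_comm (f := fun k r => g r c k)]
      ring
    rw [e]; exact h.c c
  · have e : ∑ c, (f - ls g).ck c k - ∑ r, (f - ls g).rk r k =
        ∑ c, f.ck c k - ∑ r, f.rk r k := by
      simp only [sub_ck, sub_rk, ls, Finset.sum_sub_distrib]
      rw [Finset.sum_comm (f := fun c r => g r c k)]
      ring
    rw [e]; exact h.k k

/-- The explicit right inverse. -/
noncomputable def inv3 (N : ℝ) (f : EF R C K) (r : R) (c : C) (k : K) : ℝ :=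
  (f.rc r c + f.rk r k + f.ck c k) / N -
    ((∑ c', f.rc r c') + (∑ r', f.rc r' c) + ∑ r', f.rk r' k) / N ^ 2 +
    (∑ r', ∑ c', f.rc r' c') / N ^ 3

variable {N : ℝ}

theorem inv3_bound (hR : (Fintype.card R : ℝ) = N) (hC : (Fintype.card C : ℝ) = N) (hN : 0 < N)
    {f : EF R C K} {F : ℝ} (hf : f.Bd F) (r : R) (c : C) (k : K) :
    |inv3 N f r c k| ≤ 7 * F / N := by
  have h1 : |∑ c', f.rc r c'| ≤ N * F := by
    refine (Finset.abs_sum_le_sum_abs _ _).trans ((Finset.sum_le_sum fun c' _ => hf.rc r c').trans ?_)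
    simp only [Finset.sum_const, Finset.card_univ, nsmul_eq_mul, hC, le_refl]
  have h2 : |∑ r', f.rc r' c| ≤ N * F := by
    refine (Finset.abs_sum_le_sum_abs _ _).trans ((Finset.sum_le_sum fun r' _ => hf.rc r' c).trans ?_)
    simp only [Finset.sum_const, Finset.card_univ, nsmul_eq_mul, hR, le_refl]
  have h3 : |∑ r', f.rk r' k| ≤ N * F := by
    refine (Finset.abs_sum_le_sum_abs _ _).trans ((Finset.sum_le_sum fun r' _ => hf.rk r' k).trans ?_)
    simp only [Finset.sum_const, Finset.card_univ, nsmul_eq_mul, hR, le_refl]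
  have h4 : |∑ r', ∑ c', f.rc r' c'| ≤ N * (N * F) := by
    refine (Finset.abs_sum_le_sum_abs _ _).trans ?_
    have : ∀ r', |∑ c', f.rc r' c'| ≤ N * F := by
      intro r'
      refine (Finset.abs_sum_le_sum_abs _ _).trans
        ((Finset.sum_le_sum fun c' _ => hf.rc r' c').trans ?_)
      simp only [Finset.sum_const, Finset.card_univ, nsmul_eq_mul, hC, le_refl]
    refine (Finset.sum_le_sum fun r' _ => this r').trans ?_
    simp only [Finset.sum_const, Finset.card_univ, nsmul_eq_mul, hR, le_refl]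
  have e1 : |(f.rc r c + f.rk r k + f.ck c k) / N| ≤ 3 * F / N := by
    rw [abs_div, abs_of_pos hN]
    refine div_le_div_of_nonneg_right ?_ hN.le
    have a1 := abs_le.mp (hf.rc r c)
    have a2 := abs_le.mp (hf.rk r k)
    have a3 := abs_le.mp (hf.ck c k)
    rw [abs_le]; constructor <;> linarith
  have e2 : |((∑ c', f.rc r c') + (∑ r', f.rc r' c) + ∑ r', f.rk r' k) / N ^ 2| ≤ 3 * F / N := by
    rw [abs_div, abs_of_pos (pow_pos hN 2), div_le_div_iff₀ (pow_pos hN 2) hN]
    have a1 := abs_le.mp h1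
    have a2 := abs_le.mp h2
    have a3 := abs_le.mp h3
    have : |(∑ c', f.rc r c') + (∑ r', f.rc r' c) + ∑ r', f.rk r' k| ≤ 3 * (N * F) := by
      rw [abs_le]; constructor <;> linarith
    calc _ ≤ 3 * (N * F) * N := mul_le_mul_of_nonneg_right this hN.le
      _ = 3 * F * N ^ 2 := by ring
  have e3 : |(∑ r', ∑ c', f.rc r' c') / N ^ 3| ≤ F / N := by
    rw [abs_div, abs_of_pos (pow_pos hN 3), div_le_div_iff₀ (pow_pos hN 3) hN]
    calc _ ≤ N * (N * F) * N := mul_le_mul_of_nonneg_right h4 hN.le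
      _ = F * N ^ 3 := by ring
  unfold inv3
  have a1 := abs_le.mp e1
  have a2 := abs_le.mp e2
  have a3 := abs_le.mp e3
  have e : 7 * F / N = 3 * F / N + 3 * F / N + F / N := by ring
  rw [e, abs_le]
  constructor <;> linarith

theorem inv3_rc (hR : (Fintype.card R : ℝ) = N) (hK : (Fintype.card K : ℝ) = N)
    (hN : 0 < N) {f : EF R C K} {D : ℝ} (hf : f.Bal D) (r : R) (c : C) :
    |∑ k, inv3 N f r c k - f.rc r c| ≤ 3 * D / N := by
  have hR0 : (∑ _r : R, (1 : ℝ)) = N := by
    simp only [Finset.sum_const, Finset.card_univ, nsmul_eq_mul, mul_one, hR]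
  have e : ∑ k, inv3 N f r c k - f.rc r c =
      (∑ k, f.rk r k - ∑ c', f.rc r c') / N + (∑ k, f.ck c k - ∑ r', f.rc r' c) / N -
        (∑ r', (∑ k, f.rk r' k - ∑ c', f.rc r' c')) / N ^ 2 := by
    unfold inv3
    simp only [Finset.sum_add_distrib, Finset.sum_sub_distrib, ← Finset.sum_div, Finset.sum_const,
      Finset.card_univ, nsmul_eq_mul, hK]
    rw [Finset.sum_comm (f := fun k r' => f.rk r' k)]
    field_simp
    ring
  have h1 := hf.r r
  have h2 := hf.c c
  have h3 : |∑ r', (∑ k, f.rk r' k - ∑ c', f.rc r' c')| ≤ N * D := by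
    refine (Finset.abs_sum_le_sum_abs _ _).trans ((Finset.sum_le_sum fun r' _ => hf.r r').trans ?_)
    simp only [Finset.sum_const, Finset.card_univ, nsmul_eq_mul, hR, le_refl]
  rw [e]
  have a1 : |(∑ k, f.rk r k - ∑ c', f.rc r c') / N| ≤ D / N := by
    rw [abs_div, abs_of_pos hN]; exact div_le_div_of_nonneg_right h1 hN.le
  have a2 : |(∑ k, f.ck c k - ∑ r', f.rc r' c) / N| ≤ D / N := by
    rw [abs_div, abs_of_pos hN]; exact div_le_div_of_nonneg_right h2 hN.le
  have a3 : |(∑ r', (∑ k, f.rk r' k - ∑ c', f.rc r' c')) / N ^ 2| ≤ D / N := by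
    rw [abs_div, abs_of_pos (pow_pos hN 2), div_le_div_iff₀ (pow_pos hN 2) hN]
    calc _ ≤ N * D * N := mul_le_mul_of_nonneg_right h3 hN.le
      _ = D * N ^ 2 := by ring
  have b1 := abs_le.mp a1
  have b2 := abs_le.mp a2
  have b3 := abs_le.mp a3
  have e' : 3 * D / N = D / N + D / N + D / N := by ring
  rw [e', abs_le]
  constructor <;> linarith

theorem inv3_rk (hC : (Fintype.card C : ℝ) = N)
    (hN : 0 < N) {f : EF R C K} {D : ℝ} (hD : 0 ≤ D) (hf : f.Bal D) (r : R) (k : K) :
    |∑ c, inv3 N f r c k - f.rk r k| ≤ 3 * D / N := by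
  have e : ∑ c, inv3 N f r c k - f.rk r k =
      (∑ c, f.ck c k - ∑ r', f.rk r' k) / N := by
    unfold inv3
    simp only [Finset.sum_add_distrib, Finset.sum_sub_distrib, ← Finset.sum_div, Finset.sum_const,
      Finset.card_univ, nsmul_eq_mul, hC]
    rw [Finset.sum_comm (f := fun r' c' => f.rc r' c')]
    field_simp
    ring
  rw [e, abs_div, abs_of_pos hN]
  refine div_le_div_of_nonneg_right ?_ hN.le
  linarith [hf.k k]

theorem inv3_ck (hR : (Fintype.card R : ℝ) = N)
    (hN : 0 < N) {f : EF R C K} {D : ℝ} (hD : 0 ≤ D) (c : C) (k : K) :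
    |∑ r, inv3 N f r c k - f.ck c k| ≤ 3 * D / N := by
  have e : ∑ r, inv3 N f r c k - f.ck c k = 0 := by
    unfold inv3
    simp only [Finset.sum_add_distrib, Finset.sum_sub_distrib, ← Finset.sum_div, Finset.sum_const,
      Finset.card_univ, nsmul_eq_mul, hR]
    field_simp
    ring
  rw [e, abs_zero]
  positivity

/-- Line sums of the right inverse. -/
theorem inv3_ls (hR : (Fintype.card R : ℝ) = N) (hC : (Fintype.card C : ℝ) = N)
    (hK : (Fintype.card K : ℝ) = N) (hN : 0 < N) {f : EF R C K} {D : ℝ} (hD : 0 ≤ D)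
    (hf : f.Bal D) : (ls (inv3 N f) - f).Bd (3 * D / N) :=
  ⟨fun r c => inv3_rc hR hK hN hf r c, fun r k => inv3_rk hC hN hD hf r k,
    fun c k => inv3_ck hR hN hD c k⟩

end

end Pool.LAV
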