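/-
LAV (MP_ba4857_co).  Correction lemma: rounds and iteration.
-/
import Pool.Agent.LAV.COR2

namespace Pool.LAV

open Finset

/-- A tripartite graph on the classes `R`, `C`, `K`. -/
structure Gr (R C K : Type*) where
  rc : R → C → Prop
  rk : R → K → Prop
  ck : C → K → Prop

/-- Triples inside the graph. -/
def Gr.tri {R C K : Type*} (G : Gr R C K) (r : R) (c : C) (k : K) : Prop :=
  G.rc r c ∧ G.rk r k ∧ G.ck c k

section

variable {R C K : Type*} [Fintype R] [Fintype C] [Fintype K]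

/-- At every vertex at most `m` pairs to each of the other two classes are missing. -/
structure Gr.Miss (G : Gr R C K) (m : ℝ) : Prop where
  rc : ∀ r, ∑ c, ind (¬ G.rc r c) ≤ m
  rk : ∀ r, ∑ k, ind (¬ G.rk r k) ≤ m
  cr : ∀ c, ∑ r, ind (¬ G.rc r c) ≤ m
  ck : ∀ c, ∑ k, ind (¬ G.ck c k) ≤ m
  kr : ∀ k, ∑ r, ind (¬ G.rk r k) ≤ m
  kc : ∀ k, ∑ c, ind (¬ G.ck c k) ≤ m

/-- The edge function of the graph. -/
noncomputable def Gr.ef (G : Gr R C K) : EF R C K :=
  ⟨fun r c => ind (G.rc r c), fun r k => ind (G.rk r k), fun c k => ind (G.ck c k)⟩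

/-- The edge function vanishes off the graph. -/
structure EF.Off (f : EF R C K) (G : Gr R C K) : Prop where
  rc : ∀ r c, ¬ G.rc r c → f.rc r c = 0
  rk : ∀ r k, ¬ G.rk r k → f.rk r k = 0
  ck : ∀ c k, ¬ G.ck c k → f.ck c k = 0

/-- Restriction of a triple weight to the triples of the graph. -/
noncomputable def cut (G : Gr R C K) (g : R → C → K → ℝ) (r : R) (c : C) (k : K) : ℝ :=
  ind (G.tri r c k) * g r c k

theorem cut_zero {G : Gr R C K} {g : R → C → K → ℝ} {r : R} {c : C} {k : K}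
    (h : ¬ G.tri r c k) : cut G g r c k = 0 := by
  unfold cut; rw [ind_false h, zero_mul]

theorem cut_abs (G : Gr R C K) (g : R → C → K → ℝ) (r : R) (c : C) (k : K) :
    |cut G g r c k| ≤ |g r c k| := by
  unfold cut
  rw [abs_mul, abs_of_nonneg (ind_nonneg _)]
  exact mul_le_of_le_one_left (abs_nonneg _) (ind_le_one _)

theorem cut_sub (G : Gr R C K) (g : R → C → K → ℝ) (r : R) (c : C) (k : K) :
    g r c k - cut G g r c k = ind (¬ G.tri r c k) * g r c k := by
  unfold cut; rw [ind_not]; ring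

theorem ind_tri_rc {G : Gr R C K} {r : R} {c : C} (h : G.rc r c) (k : K) :
    ind (¬ G.tri r c k) ≤ ind (¬ G.rk r k) + ind (¬ G.ck c k) := by
  by_cases h1 : G.rk r k
  · by_cases h2 : G.ck c k
    · rw [ind_false (p := ¬ G.tri r c k) (not_not.mpr ⟨h, h1, h2⟩)]
      linarith [ind_nonneg (¬ G.rk r k), ind_nonneg (¬ G.ck c k)]
    · rw [ind_true h2]
      linarith [ind_nonneg (¬ G.rk r k), ind_le_one (¬ G.tri r c k)]
  · rw [ind_true h1]
    linarith [ind_nonneg (¬ G.ck c k), ind_le_one (¬ G.tri r c k)]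

theorem ind_tri_rk {G : Gr R C K} {r : R} {k : K} (h : G.rk r k) (c : C) :
    ind (¬ G.tri r c k) ≤ ind (¬ G.rc r c) + ind (¬ G.ck c k) := by
  by_cases h1 : G.rc r c
  · by_cases h2 : G.ck c k
    · rw [ind_false (p := ¬ G.tri r c k) (not_not.mpr ⟨h1, h, h2⟩)]
      linarith [ind_nonneg (¬ G.rc r c), ind_nonneg (¬ G.ck c k)]
    · rw [ind_true h2]
      linarith [ind_nonneg (¬ G.rc r c), ind_le_one (¬ G.tri r c k)]
  · rw [ind_true h1]
    linarith [ind_nonneg (¬ G.ck c k), ind_le_one (¬ G.tri r c k)]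

theorem ind_tri_ck {G : Gr R C K} {c : C} {k : K} (h : G.ck c k) (r : R) :
    ind (¬ G.tri r c k) ≤ ind (¬ G.rc r c) + ind (¬ G.rk r k) := by
  by_cases h1 : G.rc r c
  · by_cases h2 : G.rk r k
    · rw [ind_false (p := ¬ G.tri r c k) (not_not.mpr ⟨h1, h2, h⟩)]
      linarith [ind_nonneg (¬ G.rc r c), ind_nonneg (¬ G.rk r k)]
    · rw [ind_true h2]
      linarith [ind_nonneg (¬ G.rc r c), ind_le_one (¬ G.tri r c k)]
  · rw [ind_true h1]
    linarith [ind_nonneg (¬ G.rk r k), ind_le_one (¬ G.tri r c k)]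

theorem sum_bad_le {X : Type*} [Fintype X] {t p q : X → ℝ} {g : X → ℝ} {m M : ℝ} (hM : 0 ≤ M)
    (ht0 : ∀ x, 0 ≤ t x)
    (ht : ∀ x, t x ≤ p x + q x) (hp : ∑ x, p x ≤ m) (hq : ∑ x, q x ≤ m) (hg : ∀ x, |g x| ≤ M) :
    |∑ x, t x * g x| ≤ 2 * m * M := by
  calc |∑ x, t x * g x| ≤ ∑ x, |t x * g x| := Finset.abs_sum_le_sum_abs _ _
    _ ≤ ∑ x, (p x + q x) * M := by
        refine Finset.sum_le_sum fun x _ => ?_
        rw [abs_mul, abs_of_nonneg (ht0 x)]
        exact mul_le_mul (ht x) (hg x) (abs_nonneg _) ((ht0 x).trans (ht x))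
    _ = (∑ x, p x + ∑ x, q x) * M := by rw [← Finset.sum_mul, Finset.sum_add_distrib]
    _ ≤ (m + m) * M := mul_le_mul_of_nonneg_right (add_le_add hp hq) hM
    _ = 2 * m * M := by ring

/-- Line sums of a weight minus those of its restriction, on the pairs of the graph. -/
theorem cut_ls {G : Gr R C K} {m M : ℝ} (hG : G.Miss m) (hM : 0 ≤ M) {g : R → C → K → ℝ}
    (hg : ∀ r c k, |g r c k| ≤ M) :
    (∀ r c, G.rc r c → |∑ k, g r c k - ∑ k, cut G g r c k| ≤ 2 * m * M) ∧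
    (∀ r k, G.rk r k → |∑ c, g r c k - ∑ c, cut G g r c k| ≤ 2 * m * M) ∧
    (∀ c k, G.ck c k → |∑ r, g r c k - ∑ r, cut G g r c k| ≤ 2 * m * M) := by
  refine ⟨fun r c h => ?_, fun r k h => ?_, fun c k h => ?_⟩
  · rw [← Finset.sum_sub_distrib]
    simp_rw [cut_sub]
    exact sum_bad_le hM (fun _ => ind_nonneg _) (fun k => ind_tri_rc h k) (hG.rk r) (hG.ck c)
      (fun k => hg r c k)
  · rw [← Finset.sum_sub_distrib]
    simp_rw [cut_sub]
    exact sum_bad_le hM (fun _ => ind_nonneg _) (fun c => ind_tri_rk h c) (hG.rc r) (hG.kc k)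
      (fun c => hg r c k)
  · rw [← Finset.sum_sub_distrib]
    simp_rw [cut_sub]
    exact sum_bad_le hM (fun _ => ind_nonneg _) (fun r => ind_tri_ck h r) (hG.cr c) (hG.kr k)
      (fun r => hg r c k)

theorem off_sub_cut {G : Gr R C K} {f : EF R C K} (hf : f.Off G) (g : R → C → K → ℝ) :
    (f - ls (cut G g)).Off G := by
  refine ⟨fun r c h => ?_, fun r k h => ?_, fun c k h => ?_⟩
  · rw [sub_rc, hf.rc r c h, zero_sub, neg_eq_zero]
    exact Finset.sum_eq_zero fun k _ => cut_zero (fun h' => h h'.1)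
  · rw [sub_rk, hf.rk r k h, zero_sub, neg_eq_zero]
    exact Finset.sum_eq_zero fun c _ => cut_zero (fun h' => h h'.2.1)
  · rw [sub_ck, hf.ck c k h, zero_sub, neg_eq_zero]
    exact Finset.sum_eq_zero fun r _ => cut_zero (fun h' => h h'.2.2)

/-- The data of the correction lemma. -/
structure Dat (A : R → C → K → Prop) (G : Gr R C K) (N b n0 m : ℝ) : Prop where
  cR : (Fintype.card R : ℝ) = N
  cC : (Fintype.card C : ℝ) = N
  cK : (Fintype.card K : ℝ) = N
  N0 : 0 < N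
  b0 : 0 ≤ b
  b4 : 4 * b ≤ N
  m0 : 0 ≤ m
  n0pos : 0 < n0
  n0le : n0 ≤ (N - b) * (N - 2 * b) * (N - 4 * b)
  lin : Lines A b
  mis : G.Miss m

/-- One round. -/
theorem round {A : R → C → K → Prop} {G : Gr R C K} {N b n0 m : ℝ} (h : Dat A G N b n0 m)
    {f : EF R C K} {F D : ℝ} (hF0 : 0 ≤ F) (hD : 0 ≤ D) (hF : f.Bd F) (hB : f.Bal D)
    (hO : f.Off G) :
    ∃ g : R → C → K → ℝ, (∀ r c k, ¬ (A r c k ∧ G.tri r c k) → g r c k = 0) ∧
      (∀ r c k, |g r c k| ≤ 7 * (1 + 8 * N ^ 3 / n0) * F / N) ∧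
      (f - ls g).Bal D ∧ (f - ls g).Off G ∧
      (f - ls g).Bd (3 * D / N + 2 * m * (7 * (1 + 8 * N ^ 3 / n0) * F / N)) := by
  have hN := h.N0
  have hn0 := h.n0pos
  have hnn : ∀ x y z, n0 ≤ nn A x y z := fun x y z =>
    h.n0le.trans (nn_ge h.lin h.cR h.cC h.cK h.b0 h.b4 x y z)
  have hM0 : (0 : ℝ) ≤ 7 * F / N := by positivity
  have h1 : ∀ r c k, |inv3 N f r c k| ≤ 7 * F / N := inv3_bound h.cR h.cC hN hF
  have h2 : ∀ r c k, |octa A (inv3 N f) r c k| ≤ 7 * (1 + 8 * N ^ 3 / n0) * F / N := by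
    intro r c k
    have := octa_bound (A := A) h.cR h.cC h.cK h1 hM0 hn0 hnn r c k
    calc _ ≤ _ := this
      _ = _ := by ring
  have hM1 : (0 : ℝ) ≤ 7 * (1 + 8 * N ^ 3 / n0) * F / N := by positivity
  refine ⟨cut G (octa A (inv3 N f)), ?_, ?_, bal_sub_ls hB _, off_sub_cut hO _, ?_⟩
  · intro r c k hne
    by_cases hA : A r c k
    · exact cut_zero (fun h' => hne ⟨hA, h'⟩)
    · unfold cut
      rw [octa_zero hA (ne_of_gt (lt_of_lt_of_le hn0 (hnn r c k))), mul_zero]
  · intro r c k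
    exact (cut_abs _ _ _ _ _).trans (h2 r c k)
  · obtain ⟨c1, c2, c3⟩ := cut_ls h.mis hM1 h2
    have hL := inv3_ls h.cR h.cC h.cK hN hD hB
    have hO' := off_sub_cut hO (octa A (inv3 N f))
    have hpos : 0 ≤ 3 * D / N + 2 * m * (7 * (1 + 8 * N ^ 3 / n0) * F / N) := by
      have := h.m0
      positivity
    refine ⟨fun r c => ?_, fun r k => ?_, fun c k => ?_⟩
    · by_cases hG : G.rc r c
      · have a1 := abs_le.mp (c1 r c hG)
        have a2 := abs_le.mp (hL.rc r c)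
        rw [sub_rc] at a2
        simp only [ls] at a2
        rw [octa_sum_k] at a1
        rw [sub_rc]
        simp only [ls]
        rw [abs_le]
        constructor <;> linarith [a1.1, a1.2, a2.1, a2.2]
      · rw [hO'.rc r c hG, abs_zero]; exact hpos
    · by_cases hG : G.rk r k
      · have a1 := abs_le.mp (c2 r k hG)
        have a2 := abs_le.mp (hL.rk r k)
        rw [sub_rk] at a2
        simp only [ls] at a2
        rw [octa_sum_c] at a1
        rw [sub_rk]
        simp only [ls]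
        rw [abs_le]
        constructor <;> linarith [a1.1, a1.2, a2.1, a2.2]
      · rw [hO'.rk r k hG, abs_zero]; exact hpos
    · by_cases hG : G.ck c k
      · have a1 := abs_le.mp (c3 c k hG)
        have a2 := abs_le.mp (hL.ck c k)
        rw [sub_ck] at a2
        simp only [ls] at a2
        rw [octa_sum_r] at a1
        rw [sub_ck]
        simp only [ls]
        rw [abs_le]
        constructor <;> linarith [a1.1, a1.2, a2.1, a2.2]
      · rw [hO'.ck c k hG, abs_zero]; exact hpos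

theorem ls_add (g g' : R → C → K → ℝ) (f : EF R C K) :
    f - ls (fun r c k => g r c k + g' r c k) = (f - ls g) - ls g' := by
  have e1 : (f - ls (fun r c k => g r c k + g' r c k)).rc = ((f - ls g) - ls g').rc := by
    funext r c; simp only [sub_rc, ls, Finset.sum_add_distrib]; ring
  have e2 : (f - ls (fun r c k => g r c k + g' r c k)).rk = ((f - ls g) - ls g').rk := by
    funext r c; simp only [sub_rk, ls, Finset.sum_add_distrib]; ring
  have e3 : (f - ls (fun r c k => g r c k + g' r c k)).ck = ((f - ls g) - ls g').ck := by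
    funext r c; simp only [sub_ck, ls, Finset.sum_add_distrib]; ring
  cases h : (f - ls (fun r c k => g r c k + g' r c k))
  cases h' : ((f - ls g) - ls g')
  rw [h, h'] at e1 e2 e3
  simp only at e1 e2 e3
  rw [e1, e2, e3]

theorem ls_zero (f : EF R C K) : f - ls (fun _ _ _ => 0) = f := by
  cases f with
  | mk a b c =>
    have e1 : ((⟨a, b, c⟩ : EF R C K) - ls (fun _ _ _ => 0)).rc = a := by
      funext r c; simp [sub_rc, ls]
    have e2 : ((⟨a, b, c⟩ : EF R C K) - ls (fun _ _ _ => 0)).rk = b := by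
      funext r c; simp [sub_rk, ls]
    have e3 : ((⟨a, b, c⟩ : EF R C K) - ls (fun _ _ _ => 0)).ck = c := by
      funext r c; simp [sub_ck, ls]
    cases h : ((⟨a, b, c⟩ : EF R C K) - ls (fun _ _ _ => 0))
    rw [h] at e1 e2 e3
    simp only at e1 e2 e3
    rw [e1, e2, e3]

theorem EF.Bd.mono {f : EF R C K} {F F' : ℝ} (h : f.Bd F) (hF : F ≤ F') : f.Bd F' :=
  ⟨fun r c => (h.rc r c).trans hF, fun r k => (h.rk r k).trans hF, fun c k => (h.ck c k).trans hF⟩

/-- `j` rounds. -/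
theorem rounds {A : R → C → K → Prop} {G : Gr R C K} {N b n0 m : ℝ} (h : Dat A G N b n0 m)
    {f : EF R C K} {F D : ℝ} (hF0 : 0 ≤ F) (hD : 0 ≤ D) (hF : f.Bd F) (hB : f.Bal D)
    (hO : f.Off G) (hq : 4 * m * (7 * (1 + 8 * N ^ 3 / n0)) ≤ N) (j : ℕ) :
    ∃ g : R → C → K → ℝ, (∀ r c k, ¬ (A r c k ∧ G.tri r c k) → g r c k = 0) ∧
      (∀ r c k, |g r c k| ≤
        7 * (1 + 8 * N ^ 3 / n0) * (2 * F * (1 - (1 / 2) ^ j) + 6 * D / N * j) / N) ∧
      (f - ls g).Bal D ∧ (f - ls g).Off G ∧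
      (f - ls g).Bd (F * (1 / 2) ^ j + 6 * D / N) := by
  have hN := h.N0
  have hn0 := h.n0pos
  have hm := h.m0
  induction j with
  | zero =>
    refine ⟨fun _ _ _ => 0, fun _ _ _ _ => rfl, ?_, ?_, ?_, ?_⟩
    · intro r c k; simp
    · rw [ls_zero]; exact hB
    · rw [ls_zero]; exact hO
    · rw [ls_zero]
      refine EF.Bd.mono hF ?_
      have : 0 ≤ 6 * D / N := by positivity
      simpa using this
  | succ j ih =>
    obtain ⟨g, g1, g2, g3, g4, g5⟩ := ih
    have hFj : 0 ≤ F * (1 / 2) ^ j + 6 * D / N := by positivity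
    obtain ⟨g', g1', g2', g3', g4', g5'⟩ := round h hFj hD g5 g3 g4
    refine ⟨fun r c k => g r c k + g' r c k, ?_, ?_, ?_, ?_, ?_⟩
    · intro r c k hne
      simp only
      rw [g1 r c k hne, g1' r c k hne, add_zero]
    · intro r c k
      calc |g r c k + g' r c k| ≤ |g r c k| + |g' r c k| := abs_add_le _ _
        _ ≤ _ := add_le_add (g2 r c k) (g2' r c k)
        _ = _ := by push_cast; ring
    · rw [ls_add]; exact g3'
    · rw [ls_add]; exact g4'
    · rw [ls_add]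
      refine EF.Bd.mono g5' ?_
      obtain ⟨L, hL⟩ : ∃ L, L = 7 * (1 + 8 * N ^ 3 / n0) := ⟨_, rfl⟩
      rw [← hL] at hq ⊢
      have h3 : 2 * m * (L * (F * (1 / 2) ^ j + 6 * D / N) / N) ≤
          (1 / 2) * (F * (1 / 2) ^ j + 6 * D / N) := by
        have h4 : 2 * m * (L * (F * (1 / 2) ^ j + 6 * D / N) / N) =
            (4 * m * L) / N * (1 / 2) * (F * (1 / 2) ^ j + 6 * D / N) := by ring
        rw [h4]
        refine mul_le_mul_of_nonneg_right ?_ hFj
        have h5 : 4 * m * L / N ≤ 1 := (div_le_one hN).mpr hq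
        linarith
      calc 3 * D / N + 2 * m * (L * (F * (1 / 2) ^ j + 6 * D / N) / N)
          ≤ 3 * D / N + (1 / 2) * (F * (1 / 2) ^ j + 6 * D / N) := by linarith
        _ = F * (1 / 2) ^ (j + 1) + 6 * D / N := by ring

end

end Pool.LAV
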