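/-
LAV (MP_ba4857_co).  CORRECTION LEMMA: from a fractional Latin square on all allowed triples to an
almost exact fractional decomposition of a nearly complete graph.
-/
import Pool.Agent.LAV.COR3

namespace Pool.LAV

open Finset

section

variable {R C K : Type*} [Fintype R] [Fintype C] [Fintype K]

/-- Correction lemma with all constants.  `b` bounds the number of non-allowed triples per line,
`m` the number of missing pairs per vertex and class, `D` the imbalance of the graph. -/
theorem correction {A : R → C → K → Prop} {G : Gr R C K} {N b n0 m D c0 C0 : ℝ}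
    (h : Dat A G N b n0 m) (hD : 0 ≤ D) (hB : G.ef.Bal D) (hC0 : 0 ≤ C0)
    {w0 : R → C → K → ℝ} (hlo : ∀ r c k, A r c k → c0 / N ≤ w0 r c k)
    (hup : ∀ r c k, w0 r c k ≤ C0 / N) (hnn : ∀ r c k, 0 ≤ w0 r c k)
    (hz : ∀ r c k, ¬ A r c k → w0 r c k = 0)
    (hrc : ∀ r c, ∑ k, w0 r c k = 1) (hrk : ∀ r k, ∑ c, w0 r c k = 1)
    (hck : ∀ c k, ∑ r, w0 r c k = 1) (j : ℕ)
    (hq : 4 * m * (7 * (1 + 8 * N ^ 3 / n0)) ≤ N)
    (hs : 7 * (1 + 8 * N ^ 3 / n0) * (4 * m * C0 / N + 6 * D / N * j) ≤ c0 / 2) :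
    ∃ w : R → C → K → ℝ, (∀ r c k, ¬ (A r c k ∧ G.tri r c k) → w r c k = 0) ∧
      (∀ r c k, A r c k → G.tri r c k → c0 / (2 * N) ≤ w r c k) ∧
      (∀ r c k, w r c k ≤ (C0 + c0 / 2) / N) ∧
      (∀ r c, G.rc r c → |∑ k, w r c k - 1| ≤ 2 * m * C0 / N * (1 / 2) ^ j + 6 * D / N) ∧
      (∀ r k, G.rk r k → |∑ c, w r c k - 1| ≤ 2 * m * C0 / N * (1 / 2) ^ j + 6 * D / N) ∧
      (∀ c k, G.ck c k → |∑ r, w r c k - 1| ≤ 2 * m * C0 / N * (1 / 2) ^ j + 6 * D / N) := by
  have hN := h.N0
  have hn0 := h.n0pos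
  have hm := h.m0
  have hM0 : 0 ≤ C0 / N := by positivity
  have habs : ∀ r c k, |w0 r c k| ≤ C0 / N := fun r c k => by
    rw [abs_of_nonneg (hnn r c k)]; exact hup r c k
  obtain ⟨c1, c2, c3⟩ := cut_ls h.mis hM0 habs
  have hF0 : 0 ≤ 2 * m * C0 / N := by positivity
  -- the first residual
  have hO : (G.ef - ls (cut G w0)).Off G := by
    refine off_sub_cut ⟨fun r c hh => ind_false hh, fun r k hh => ind_false hh,
      fun c k hh => ind_false hh⟩ _
  have hBal : (G.ef - ls (cut G w0)).Bal D := bal_sub_ls hB _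
  have hBd : (G.ef - ls (cut G w0)).Bd (2 * m * C0 / N) := by
    have e0 : 2 * m * (C0 / N) = 2 * m * C0 / N := by ring
    refine ⟨fun r c => ?_, fun r k => ?_, fun c k => ?_⟩
    · by_cases hG : G.rc r c
      · have a1 := c1 r c hG
        rw [hrc, e0] at a1
        have e1 : (G.ef - ls (cut G w0)).rc r c = 1 - ∑ k, cut G w0 r c k := by
          rw [sub_rc]; simp only [ls, Gr.ef]; rw [ind_true hG]
        rw [e1]; exact a1
      · rw [hO.rc r c hG, abs_zero]; exact hF0
    · by_cases hG : G.rk r k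
      · have a1 := c2 r k hG
        rw [hrk, e0] at a1
        have e1 : (G.ef - ls (cut G w0)).rk r k = 1 - ∑ c, cut G w0 r c k := by
          rw [sub_rk]; simp only [ls, Gr.ef]; rw [ind_true hG]
        rw [e1]; exact a1
      · rw [hO.rk r k hG, abs_zero]; exact hF0
    · by_cases hG : G.ck c k
      · have a1 := c3 c k hG
        rw [hck, e0] at a1
        have e1 : (G.ef - ls (cut G w0)).ck c k = 1 - ∑ r, cut G w0 r c k := by
          rw [sub_ck]; simp only [ls, Gr.ef]; rw [ind_true hG]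
        rw [e1]; exact a1
      · rw [hO.ck c k hG, abs_zero]; exact hF0
  obtain ⟨g, g1, g2, g3, g4, g5⟩ := rounds h hF0 hD hBd hBal hO hq j
  have hgs : ∀ r c k, |g r c k| ≤ c0 / (2 * N) := by
    intro r c k
    refine (g2 r c k).trans ?_
    have h1 : 2 * (2 * m * C0 / N) * (1 - (1 / 2) ^ j) + 6 * D / N * j ≤
        4 * m * C0 / N + 6 * D / N * j := by
      have h2 : (0 : ℝ) ≤ (1 / 2) ^ j := by positivity
      have h3 : 2 * (2 * m * C0 / N) * (1 - (1 / 2) ^ j) ≤ 2 * (2 * m * C0 / N) * 1 :=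
        mul_le_mul_of_nonneg_left (by linarith) (by positivity)
      have h4 : 2 * (2 * m * C0 / N) * 1 = 4 * m * C0 / N := by ring
      linarith
    calc 7 * (1 + 8 * N ^ 3 / n0) *
          (2 * (2 * m * C0 / N) * (1 - (1 / 2) ^ j) + 6 * D / N * j) / N
        ≤ (c0 / 2) / N := by
          refine div_le_div_of_nonneg_right ?_ hN.le
          exact (mul_le_mul_of_nonneg_left h1 (by positivity)).trans hs
      _ = c0 / (2 * N) := by ring
  refine ⟨fun r c k => cut G w0 r c k + g r c k, ?_, ?_, ?_, ?_, ?_, ?_⟩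
  · intro r c k hne
    simp only
    rw [g1 r c k hne, add_zero]
    by_cases hA : A r c k
    · exact cut_zero (fun hh => hne ⟨hA, hh⟩)
    · unfold cut; rw [hz r c k hA, mul_zero]
  · intro r c k hA hT
    have h1 := (abs_le.mp (hgs r c k)).1
    have h2 := hlo r c k hA
    have h3 : c0 / N = 2 * (c0 / (2 * N)) := by field_simp
    simp only [cut]
    rw [ind_true hT, one_mul]
    linarith
  · intro r c k
    have h1 := (abs_le.mp (hgs r c k)).2
    have h2 : cut G w0 r c k ≤ C0 / N :=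
      (le_abs_self _).trans ((cut_abs _ _ _ _ _).trans (habs r c k))
    have h3 : (C0 + c0 / 2) / N = C0 / N + c0 / (2 * N) := by field_simp
    linarith
  · intro r c hG
    have h1 := g5.rc r c
    rw [sub_rc, sub_rc] at h1
    simp only [ls, Gr.ef] at h1
    rw [ind_true hG] at h1
    rw [Finset.sum_add_distrib, ← abs_neg]
    have e : -(∑ k, cut G w0 r c k + ∑ k, g r c k - 1) =
        1 - ∑ k, cut G w0 r c k - ∑ k, g r c k := by ring
    rw [e]; exact h1
  · intro r k hG
    have h1 := g5.rk r k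
    rw [sub_rk, sub_rk] at h1
    simp only [ls, Gr.ef] at h1
    rw [ind_true hG] at h1
    rw [Finset.sum_add_distrib, ← abs_neg]
    have e : -(∑ c, cut G w0 r c k + ∑ c, g r c k - 1) =
        1 - ∑ c, cut G w0 r c k - ∑ c, g r c k := by ring
    rw [e]; exact h1
  · intro c k hG
    have h1 := g5.ck c k
    rw [sub_ck, sub_ck] at h1
    simp only [ls, Gr.ef] at h1
    rw [ind_true hG] at h1
    rw [Finset.sum_add_distrib, ← abs_neg]
    have e : -(∑ r, cut G w0 r c k + ∑ r, g r c k - 1) =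
        1 - ∑ r, cut G w0 r c k - ∑ r, g r c k := by ring
    rw [e]; exact h1

end

end Pool.LAV
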