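import Mathlib

set_option autoImplicit false

/-!
# Project LAV (MP_ba4857_co): triples, edges, packings, divisible graphs

A triple `(i, j, k)` is row `i`, column `j`, colour `k`.  Edges of type `2` are (row, column),
of type `1` (row, colour), of type `0` (column, colour).
-/

namespace Pool.Agent.LAV

open Finset

variable {α : Type*}

/-- a triple (row, column, colour) -/
abbrev Tri (α : Type*) := α × α × α

/-- the edge of type `t` of a triple (the type is the class which is left out) -/
def pr : Fin 3 → Tri α → α × α
  | 0, T => (T.2.1, T.2.2)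
  | 1, T => (T.1, T.2.2)
  | 2, T => (T.1, T.2.1)

@[simp] theorem pr_zero (i j k : α) : pr 0 (i, j, k) = (j, k) := rfl
@[simp] theorem pr_one (i j k : α) : pr 1 (i, j, k) = (i, k) := rfl
@[simp] theorem pr_two (i j k : α) : pr 2 (i, j, k) = (i, j) := rfl

/-- tripartite graphs: a finite set of edges of every type -/
abbrev Gr (α : Type*) := Fin 3 → Finset (α × α)

/-- edge-disjoint set of triples -/
def Packing (P : Finset (Tri α)) : Prop := ∀ t : Fin 3, Set.InjOn (pr t) (P : Set (Tri α))

variable [DecidableEq α]

/-- the edges covered by a set of triples -/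
def cov (P : Finset (Tri α)) : Gr α := fun t => P.image (pr t)

/-- `G` has a decomposition into triples from `A` -/
def Dec (A : Tri α → Prop) (G : Gr α) : Prop :=
  ∃ P : Finset (Tri α), (∀ T ∈ P, A T) ∧ Packing P ∧ cov P = G

/-- degrees: `dg G t c v` for the two types of edges at a vertex -/
def rowD (G : Gr α) (t : Fin 3) (v : α) : ℕ := ((G t).filter fun p => p.1 = v).card

/-- degree in the second coordinate -/
def colD (G : Gr α) (t : Fin 3) (v : α) : ℕ := ((G t).filter fun p => p.2 = v).card

/-- every vertex has equal degrees to the two other classes -/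
def Divisible (G : Gr α) : Prop :=
  (∀ v, rowD G 2 v = rowD G 1 v) ∧ (∀ v, colD G 2 v = rowD G 0 v) ∧ ∀ v, colD G 1 v = colD G 0 v

end Pool.Agent.LAV
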