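/-
LAV (MP_ba4857_co).  The correction lemma for triples of labels.
-/
import Pool.Agent.LAV.COR4
import Pool.Agent.LAV.Defs

namespace Pool.LAV

open Finset Pool.Agent.LAV

section

variable {α : Type*} [DecidableEq α]

theorem sum_sub_ind (U : Finset α) (P : α → Prop) [DecidablePred P] :
    ∑ x : {x // x ∈ U}, ind (P x) = ((U.filter P).card : ℝ) := by
  rw [Finset.sum_coe_sort U (fun x => ind (P x))]
  rw [Finset.card_filter, Nat.cast_sum]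
  refine Finset.sum_congr rfl fun x _ => ?_
  by_cases h : P x
  · rw [ind_true h, if_pos h]; simp
  · rw [ind_false h, if_neg h]; simp

theorem sum_pr_two [Fintype α] (w : Tri α → ℝ) (r c : α) :
    ∑ T : Tri α, (if pr 2 T = (r, c) then w T else 0) = ∑ k, w (r, c, k) := by
  rw [Fintype.sum_prod_type, Finset.sum_eq_single r]
  · rw [Fintype.sum_prod_type, Finset.sum_eq_single c]
    · refine Finset.sum_congr rfl fun k _ => ?_
      rw [pr_two, if_pos rfl]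
    · intro b _ hb
      refine Finset.sum_eq_zero fun k _ => ?_
      rw [pr_two, if_neg (fun h => hb (Prod.mk.inj h).2)]
    · intro h; exact absurd (Finset.mem_univ _) h
  · intro b _ hb
    rw [Fintype.sum_prod_type]
    refine Finset.sum_eq_zero fun x _ => Finset.sum_eq_zero fun k _ => ?_
    rw [pr_two, if_neg (fun h => hb (Prod.mk.inj h).1)]
  · intro h; exact absurd (Finset.mem_univ _) h

theorem sum_pr_one [Fintype α] (w : Tri α → ℝ) (r k : α) :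
    ∑ T : Tri α, (if pr 1 T = (r, k) then w T else 0) = ∑ c, w (r, c, k) := by
  rw [Fintype.sum_prod_type, Finset.sum_eq_single r]
  · rw [Fintype.sum_prod_type]
    refine Finset.sum_congr rfl fun c _ => ?_
    rw [Finset.sum_eq_single k]
    · rw [pr_one, if_pos rfl]
    · intro b _ hb
      rw [pr_one, if_neg (fun h => hb (Prod.mk.inj h).2)]
    · intro h; exact absurd (Finset.mem_univ _) h
  · intro b _ hb
    rw [Fintype.sum_prod_type]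
    refine Finset.sum_eq_zero fun x _ => Finset.sum_eq_zero fun k _ => ?_
    rw [pr_one, if_neg (fun h => hb (Prod.mk.inj h).1)]
  · intro h; exact absurd (Finset.mem_univ _) h

theorem sum_pr_zero [Fintype α] (w : Tri α → ℝ) (c k : α) :
    ∑ T : Tri α, (if pr 0 T = (c, k) then w T else 0) = ∑ r, w (r, c, k) := by
  rw [Fintype.sum_prod_type]
  refine Finset.sum_congr rfl fun r _ => ?_
  rw [Fintype.sum_prod_type, Finset.sum_eq_single c]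
  · rw [Finset.sum_eq_single k]
    · rw [pr_zero, if_pos rfl]
    · intro b _ hb
      rw [pr_zero, if_neg (fun h => hb (Prod.mk.inj h).2)]
    · intro h; exact absurd (Finset.mem_univ _) h
  · intro b _ hb
    refine Finset.sum_eq_zero fun k _ => ?_
    rw [pr_zero, if_neg (fun h => hb (Prod.mk.inj h).1)]
  · intro h; exact absurd (Finset.mem_univ _) h

/-- Sum over the labels of a function which vanishes off `U`. -/
theorem sum_U [Fintype α] (U : Finset α) (f : α → ℝ) (hf : ∀ x, x ∉ U → f x = 0) :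
    ∑ x, f x = ∑ x : {x // x ∈ U}, f x := by
  rw [Finset.sum_coe_sort U f]
  symm
  refine Finset.sum_subset (Finset.subset_univ U) fun x _ hx => hf x hx

/-- **Correction lemma** for triples of labels in `U`. -/
theorem cor_tri [Fintype α] {A : Tri α → Prop} {G : Pool.Agent.LAV.Gr α} {U : Finset α}
    {N b n0 m D c0 C0 : ℝ}
    (hUN : (U.card : ℝ) = N) (hN : 0 < N) (hb0 : 0 ≤ b) (hb4 : 4 * b ≤ N) (hm0 : 0 ≤ m)
    (hn0 : 0 < n0) (hn0le : n0 ≤ (N - b) * (N - 2 * b) * (N - 4 * b)) (hD : 0 ≤ D)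
    (hc0 : 0 ≤ c0) (hC0 : 0 ≤ C0)
    (hGU : ∀ t, G t ⊆ U ×ˢ U)
    -- forbidden triples on the lines
    (hA : ∀ x ∈ U, ∀ y ∈ U, ∑ u : {u // u ∈ U}, ind (¬ A (u.1, x, y)) ≤ b ∧
      ∑ u : {u // u ∈ U}, ind (¬ A (x, u.1, y)) ≤ b ∧
      ∑ u : {u // u ∈ U}, ind (¬ A (x, y, u.1)) ≤ b)
    -- missing pairs
    (hM : ∀ t, ∀ v ∈ U, ((U.filter fun u => (v, u) ∉ G t).card : ℝ) ≤ m ∧
      ((U.filter fun u => (u, v) ∉ G t).card : ℝ) ≤ m)
    -- imbalance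
    (hB : ∀ v ∈ U, |(rowD G 1 v : ℝ) - rowD G 2 v| ≤ D ∧ |(rowD G 0 v : ℝ) - colD G 2 v| ≤ D ∧
      |(colD G 0 v : ℝ) - colD G 1 v| ≤ D)
    {w0 : Tri α → ℝ} (hlo : ∀ r ∈ U, ∀ c ∈ U, ∀ k ∈ U, A (r, c, k) → c0 / N ≤ w0 (r, c, k))
    (hup : ∀ r ∈ U, ∀ c ∈ U, ∀ k ∈ U, w0 (r, c, k) ≤ C0 / N)
    (hnn : ∀ r ∈ U, ∀ c ∈ U, ∀ k ∈ U, 0 ≤ w0 (r, c, k))
    (hz : ∀ r ∈ U, ∀ c ∈ U, ∀ k ∈ U, ¬ A (r, c, k) → w0 (r, c, k) = 0)
    (hline : ∀ x ∈ U, ∀ y ∈ U, ∑ u ∈ U, w0 (x, y, u) = 1 ∧ ∑ u ∈ U, w0 (x, u, y) = 1 ∧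
      ∑ u ∈ U, w0 (u, x, y) = 1) (j : ℕ)
    (hq : 4 * m * (7 * (1 + 8 * N ^ 3 / n0)) ≤ N)
    (hs : 7 * (1 + 8 * N ^ 3 / n0) * (4 * m * C0 / N + 6 * D / N * j) ≤ c0 / 2) :
    ∃ w : Tri α → ℝ, (∀ T, 0 ≤ w T) ∧ (∀ T, w T ≤ (C0 + c0 / 2) / N) ∧
      (∀ T, w T ≠ 0 → A T ∧ ∀ t, pr t T ∈ G t) ∧
      ∀ t, ∀ e ∈ G t, |∑ T : Tri α, (if pr t T = e then w T else 0) - 1| ≤
        2 * m * C0 / N * (1 / 2) ^ j + 6 * D / N := by
  classical
  obtain ⟨G', hG'⟩ : ∃ G' : Gr {x // x ∈ U} {x // x ∈ U} {x // x ∈ U},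
      G' = ⟨fun r c => (r.1, c.1) ∈ G 2, fun r k => (r.1, k.1) ∈ G 1,
        fun c k => (c.1, k.1) ∈ G 0⟩ := ⟨_, rfl⟩
  have hcard : (Fintype.card {x // x ∈ U} : ℝ) = N := by rw [Fintype.card_coe]; exact hUN
  have hrow : ∀ t, ∀ v ∈ U, ∑ u : {u // u ∈ U}, ind ((v, u.1) ∈ G t) = (rowD G t v : ℝ) := by
    intro t v hv
    rw [sum_sub_ind U (fun u => (v, u) ∈ G t)]
    unfold rowD
    congr 1
    refine Finset.card_bij (fun u _ => (v, u)) ?_ ?_ ?_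
    · intro u hu
      exact Finset.mem_filter.mpr ⟨(Finset.mem_filter.mp hu).2, rfl⟩
    · intro a _ b _ h; exact (Prod.mk.inj h).2
    · intro p hp
      obtain ⟨h1, h2⟩ := Finset.mem_filter.mp hp
      have h3 := (Finset.mem_product.mp (hGU t h1)).2
      refine ⟨p.2, Finset.mem_filter.mpr ⟨h3, ?_⟩, ?_⟩
      · rw [← h2]; exact h1
      · rw [← h2]
  have hcol : ∀ t, ∀ v ∈ U, ∑ u : {u // u ∈ U}, ind ((u.1, v) ∈ G t) = (colD G t v : ℝ) := by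
    intro t v hv
    rw [sum_sub_ind U (fun u => (u, v) ∈ G t)]
    unfold colD
    congr 1
    refine Finset.card_bij (fun u _ => (u, v)) ?_ ?_ ?_
    · intro u hu
      exact Finset.mem_filter.mpr ⟨(Finset.mem_filter.mp hu).2, rfl⟩
    · intro a _ b _ h; exact (Prod.mk.inj h).1
    · intro p hp
      obtain ⟨h1, h2⟩ := Finset.mem_filter.mp hp
      have h3 := (Finset.mem_product.mp (hGU t h1)).1
      refine ⟨p.1, Finset.mem_filter.mpr ⟨h3, ?_⟩, ?_⟩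
      · rw [← h2]; exact h1
      · rw [← h2]
  have hdat : Dat (fun r c k : {x // x ∈ U} => A (r.1, c.1, k.1)) G' N b n0 m := by
    refine ⟨hcard, hcard, hcard, hN, hb0, hb4, hm0, hn0, hn0le, ?_, ?_⟩
    · refine ⟨fun c k => ?_, fun r k => ?_, fun r c => ?_⟩
      · exact (hA c.1 c.2 k.1 k.2).1
      · exact (hA r.1 r.2 k.1 k.2).2.1
      · exact (hA r.1 r.2 c.1 c.2).2.2
    · rw [hG']
      refine ⟨fun r => ?_, fun r => ?_, fun c => ?_, fun c => ?_, fun k => ?_, fun k => ?_⟩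
      · rw [sum_sub_ind U (fun u => (r.1, u) ∉ G 2)]; exact (hM 2 r.1 r.2).1
      · rw [sum_sub_ind U (fun u => (r.1, u) ∉ G 1)]; exact (hM 1 r.1 r.2).1
      · rw [sum_sub_ind U (fun u => (u, c.1) ∉ G 2)]; exact (hM 2 c.1 c.2).2
      · rw [sum_sub_ind U (fun u => (c.1, u) ∉ G 0)]; exact (hM 0 c.1 c.2).1
      · rw [sum_sub_ind U (fun u => (u, k.1) ∉ G 1)]; exact (hM 1 k.1 k.2).2
      · rw [sum_sub_ind U (fun u => (u, k.1) ∉ G 0)]; exact (hM 0 k.1 k.2).2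
  have hBal : G'.ef.Bal D := by
    rw [hG']
    refine ⟨fun r => ?_, fun c => ?_, fun k => ?_⟩
    · simp only [Gr.ef]
      rw [hrow 1 r.1 r.2, hrow 2 r.1 r.2]
      exact (hB r.1 r.2).1
    · simp only [Gr.ef]
      rw [hrow 0 c.1 c.2, hcol 2 c.1 c.2]
      exact (hB c.1 c.2).2.1
    · simp only [Gr.ef]
      rw [hcol 0 k.1 k.2, hcol 1 k.1 k.2]
      exact (hB k.1 k.2).2.2
  have hsum : ∀ f : α → ℝ, ∑ u : {x // x ∈ U}, f u.1 = ∑ u ∈ U, f u :=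
    fun f => Finset.sum_coe_sort U f
  obtain ⟨w', w1, w2, w3, w4, w5, w6⟩ := correction hdat hD hBal hC0
    (w0 := fun r c k : {x // x ∈ U} => w0 (r.1, c.1, k.1))
    (fun r c k h => hlo r.1 r.2 c.1 c.2 k.1 k.2 h)
    (fun r c k => hup r.1 r.2 c.1 c.2 k.1 k.2)
    (fun r c k => hnn r.1 r.2 c.1 c.2 k.1 k.2)
    (fun r c k h => hz r.1 r.2 c.1 c.2 k.1 k.2 h)
    (fun r c => by rw [hsum (fun u => w0 (r.1, c.1, u))]; exact (hline r.1 r.2 c.1 c.2).1)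
    (fun r k => by rw [hsum (fun u => w0 (r.1, u, k.1))]; exact (hline r.1 r.2 k.1 k.2).2.1)
    (fun c k => by rw [hsum (fun u => w0 (u, c.1, k.1))]; exact (hline c.1 c.2 k.1 k.2).2.2)
    j hq hs
  obtain ⟨w, hw⟩ : ∃ w : Tri α → ℝ, w = fun T =>
      if h : T.1 ∈ U ∧ T.2.1 ∈ U ∧ T.2.2 ∈ U then w' ⟨T.1, h.1⟩ ⟨T.2.1, h.2.1⟩ ⟨T.2.2, h.2.2⟩
      else 0 := ⟨_, rfl⟩
  have hin : ∀ (r c k : α) (hr : r ∈ U) (hc : c ∈ U) (hk : k ∈ U),
      w (r, c, k) = w' ⟨r, hr⟩ ⟨c, hc⟩ ⟨k, hk⟩ := by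
    intro r c k hr hc hk
    rw [hw]
    simp only
    rw [dif_pos ⟨hr, hc, hk⟩]
  have hout : ∀ r c k, ¬ (r ∈ U ∧ c ∈ U ∧ k ∈ U) → w (r, c, k) = 0 := by
    intro r c k h
    rw [hw]
    simp only
    rw [dif_neg h]
  have hnneg : ∀ r c k, 0 ≤ w' r c k := by
    intro r c k
    by_cases hA' : A (r.1, c.1, k.1)
    · by_cases hT : G'.tri r c k
      · exact le_trans (by positivity) (w2 r c k hA' hT)
      · rw [w1 r c k (fun h => hT h.2)]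
    · rw [w1 r c k (fun h => hA' h.1)]
  refine ⟨w, ?_, ?_, ?_, ?_⟩
  · rintro ⟨r, c, k⟩
    by_cases h : r ∈ U ∧ c ∈ U ∧ k ∈ U
    · rw [hin r c k h.1 h.2.1 h.2.2]; exact hnneg _ _ _
    · rw [hout r c k h]
  · rintro ⟨r, c, k⟩
    by_cases h : r ∈ U ∧ c ∈ U ∧ k ∈ U
    · rw [hin r c k h.1 h.2.1 h.2.2]; exact w3 _ _ _
    · rw [hout r c k h]; positivity
  · rintro ⟨r, c, k⟩ hne
    by_cases h : r ∈ U ∧ c ∈ U ∧ k ∈ U
    swap
    · exact absurd (hout r c k h) hne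
    rw [hin r c k h.1 h.2.1 h.2.2] at hne
    have h1 : A (r, c, k) ∧ G'.tri ⟨r, h.1⟩ ⟨c, h.2.1⟩ ⟨k, h.2.2⟩ := by
      by_contra hcon
      exact hne (w1 _ _ _ hcon)
    refine ⟨h1.1, fun t => ?_⟩
    obtain ⟨g1, g2, g3⟩ := h1.2
    rw [hG'] at g1 g2 g3
    fin_cases t
    · exact g3
    · exact g2
    · exact g1
  · intro t e he
    obtain ⟨x, y⟩ := e
    have hxy := Finset.mem_product.mp (hGU t he)
    have hx : x ∈ U := hxy.1
    have hy : y ∈ U := hxy.2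
    fin_cases t
    · change |∑ T : Tri α, (if pr 0 T = (x, y) then w T else 0) - 1| ≤ _
      rw [sum_pr_zero, sum_U U _ (fun u hu => hout u x y (fun h => hu h.1))]
      have h1 := w6 ⟨x, hx⟩ ⟨y, hy⟩ (by rw [hG']; exact he)
      have e1 : ∑ u : {u // u ∈ U}, w (u.1, x, y) = ∑ r, w' r ⟨x, hx⟩ ⟨y, hy⟩ :=
        Finset.sum_congr rfl fun u _ => hin u.1 x y u.2 hx hy
      rw [e1]; exact h1
    · change |∑ T : Tri α, (if pr 1 T = (x, y) then w T else 0) - 1| ≤ _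
      rw [sum_pr_one, sum_U U _ (fun u hu => hout x u y (fun h => hu h.2.1))]
      have h1 := w5 ⟨x, hx⟩ ⟨y, hy⟩ (by rw [hG']; exact he)
      have e1 : ∑ u : {u // u ∈ U}, w (x, u.1, y) = ∑ c, w' ⟨x, hx⟩ c ⟨y, hy⟩ :=
        Finset.sum_congr rfl fun u _ => hin x u.1 y hx u.2 hy
      rw [e1]; exact h1
    · change |∑ T : Tri α, (if pr 2 T = (x, y) then w T else 0) - 1| ≤ _
      rw [sum_pr_two, sum_U U _ (fun u hu => hout x y u (fun h => hu h.2.2))]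
      have h1 := w4 ⟨x, hx⟩ ⟨y, hy⟩ (by rw [hG']; exact he)
      have e1 : ∑ u : {u // u ∈ U}, w (x, y, u.1) = ∑ k, w' ⟨x, hx⟩ ⟨y, hy⟩ k :=
        Finset.sum_congr rfl fun u _ => hin x y u.1 hx hy u.2
      rw [e1]; exact h1

end

end Pool.LAV
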