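import Pool.Agent.LAV.CVI

set_option autoImplicit false

/-!
# Project LAV: the covering step
-/

namespace Pool.Agent.LAV

open Finset

variable {α : Type*} [DecidableEq α]

/-- **Covering step.**  All pairs of the leftover `L` and of the reservoir `R` are covered by
edge-disjoint allowed triples, which use in addition only pairs `D` inside `U'`, outside `Z`. -/
theorem cover (A : Tri α → Prop) [DecidablePred A] {O U' : Finset α} {R Z L : Gr α}
    {s0 s1 a1 c0 f e1 Δ d B : ℕ} {μ : ℝ} (hOU : Disjoint O U')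
    (hR : Res A O U' R Z s0 s1 a1 c0 f e1) (hL : Left O U' R L Δ)
    (hd : 0 < d) (hc : 2 * Δ < c0) (hs : 2 * d + 2 * B + 2 * f + 4 * Δ ≤ s0)
    (hμ : ((a1 + Δ : ℕ) : ℝ) * (e1 + 2 * Δ : ℕ) + (s1 + Δ : ℕ) ≤ μ * d)
    (hB : (O.card : ℝ) * (2 * (s1 + Δ : ℕ)) * Real.exp μ < 2 ^ (B + 1)) :
    ∃ (P : Finset (Tri α)) (D : Gr α), (∀ T ∈ P, A T) ∧ Packing P ∧
      cov P = (fun t => L t ∪ R t ∪ D t) ∧
      (∀ a b : Fin 3, a ≠ b → ∀ x y, Adj D a b x y → x ∈ U' ∧ y ∈ U' ∧ ¬ Adj Z a b x y) ∧
      ∀ a b : Fin 3, a ≠ b → ∀ x, (nbr D a b x).card ≤ a1 + Δ := by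
  classical
  have hno : ∀ {u : α}, u ∈ O → u ∈ U' → False := fun h h' => disjoint_left.1 hOU h h'
  rcases isEmpty_or_nonempty α with hα | hα
  · have hG : ∀ (G G' : Gr α), G = G' := fun G G' => gr_ext fun a b _ x => (hα.false x).elim
    refine ⟨∅, fun _ => ∅, fun T hT => absurd hT (notMem_empty T), ?_, hG _ _, ?_, ?_⟩
    · intro t T hT; exact absurd (mem_coe.1 hT) (notMem_empty T)
    · intro a b _ x; exact (hα.false x).elim
    · intro a b _ x; exact (hα.false x).elim
  obtain ⟨P2, hP2A, hP2p, hP2s, hP2c⟩ := outer A hOU hR hL hc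
  have h2 : Outer A O U' R L P2 := ⟨hP2A, hP2p, hP2s, hP2c⟩
  obtain ⟨P3, h3⟩ := exists_inner hOU h2 hL hR hd hs hμ hB
  have remU : ∀ {a b : Fin 3} {x u : α}, u ∈ Rem U' R L P2 a b x → u ∈ U' :=
    fun hu => (mem_filter.1 hu).1
  have third : ∀ {a b : Fin 3}, a ≠ b → ∃ c : Fin 3, a ≠ c ∧ b ≠ c := by decide
  -- pairs of `P3`
  have p3pair : ∀ T ∈ P3, ∀ a b : Fin 3, a ≠ b →
      (vt T a ∈ O ∧ vt T b ∈ Rem U' R L P2 a b (vt T a)) ∨
      (vt T b ∈ O ∧ vt T a ∈ Rem U' R L P2 b a (vt T b)) ∨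
      (vt T a ∈ U' ∧ vt T b ∈ U' ∧ ¬ Adj Z a b (vt T a) (vt T b)) := by
    intro T hT a b hab
    obtain ⟨a', b', c', hab', hac', hbc', g1, g2, g3, g4⟩ := h3.shape T hT
    rcases class_cases hab' hac' hbc' a with rfl | rfl | rfl
    · rcases class_cases hab' hac' hbc' b with rfl | rfl | rfl
      · exact absurd rfl hab
      · exact Or.inl ⟨g1, g2⟩
      · exact Or.inl ⟨g1, g3⟩
    · rcases class_cases hab' hac' hbc' b with rfl | rfl | rfl
      · exact Or.inr (Or.inl ⟨g1, g2⟩)
      · exact absurd rfl hab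
      · exact Or.inr (Or.inr ⟨remU g2, remU g3, g4⟩)
    · rcases class_cases hab' hac' hbc' b with rfl | rfl | rfl
      · exact Or.inr (Or.inl ⟨g1, g3⟩)
      · exact Or.inr (Or.inr ⟨remU g3, remU g2, fun h => g4 ((Adj_comm Z hab _ _).1 h)⟩)
      · exact absurd rfl hab
  -- a triple of `P2` has at most one vertex in `U'`
  have p2one : ∀ T ∈ P2, ∀ a b : Fin 3, a ≠ b → vt T a ∈ U' → vt T b ∈ U' → False := by
    intro T hT a b hab ha hb
    obtain ⟨a', b', c', hab', hac', hbc', g1, g2, g3, -⟩ := hP2s T hT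
    have h1 : a = c' := by
      rcases class_cases hab' hac' hbc' a with rfl | rfl | rfl
      · exact (hno g1 ha).elim
      · exact (hno g2 ha).elim
      · rfl
    have h2 : b = c' := by
      rcases class_cases hab' hac' hbc' b with rfl | rfl | rfl
      · exact (hno g1 hb).elim
      · exact (hno g2 hb).elim
      · rfl
    exact hab (h1.trans h2.symm)
  have hcross : ∀ T ∈ P2, ∀ T' ∈ P3, ∀ a b : Fin 3, a ≠ b → vt T a = vt T' a →
      vt T b = vt T' b → False := by
    intro T hT T' hT' a b hab e1 e2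
    rcases p3pair T' hT' a b hab with ⟨g1, g2⟩ | ⟨g1, g2⟩ | ⟨g1, g2, -⟩
    · refine (mem_filter.1 g2).2.2 ?_
      rw [adj_cov P2 hab]
      exact ⟨T, hT, e1, e2⟩
    · refine (mem_filter.1 g2).2.2 ?_
      rw [adj_cov P2 hab.symm]
      exact ⟨T, hT, e2, e1⟩
    · rw [← e1] at g1
      rw [← e2] at g2
      exact p2one T hT a b hab g1 g2
  set D : Gr α := fun t => (cov P3 t).filter fun p => p.1 ∈ U' ∧ p.2 ∈ U' with hD
  have adjD : ∀ a b : Fin 3, a ≠ b → ∀ x y, Adj D a b x y ↔
      (Adj (cov P3) a b x y ∧ x ∈ U' ∧ y ∈ U') := by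
    intro a b _ x y
    unfold Adj
    simp only [hD]
    split_ifs
    · rw [mem_filter]
    · rw [mem_filter, and_comm (a := y ∈ U')]
  have adjU : ∀ a b : Fin 3, a ≠ b → ∀ x y, Adj (cov (P2 ∪ P3)) a b x y ↔
      (Adj (cov P2) a b x y ∨ Adj (cov P3) a b x y) := by
    intro a b hab x y
    rw [adj_cov _ hab, adj_cov _ hab, adj_cov _ hab]
    constructor
    · rintro ⟨T, hT, h⟩
      rcases mem_union.1 hT with hT | hT
      · exact Or.inl ⟨T, hT, h⟩
      · exact Or.inr ⟨T, hT, h⟩
    · rintro (⟨T, hT, h⟩ | ⟨T, hT, h⟩)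
      · exact ⟨T, mem_union_left _ hT, h⟩
      · exact ⟨T, mem_union_right _ hT, h⟩
  -- a pair of `L ∪ R` with an outer end is covered
  have hcovO : ∀ a b : Fin 3, a ≠ b → ∀ x ∈ O, ∀ y, (Adj L a b x y ∨ Adj R a b x y) →
      Adj (cov P2) a b x y ∨ Adj (cov P3) a b x y := by
    intro a b hab x hx y hxy
    by_cases hc2 : Adj (cov P2) a b x y
    · exact Or.inl hc2
    · right
      have hyU : y ∈ U' := by
        rcases hxy with hxy | hxy
        · rcases hL.mem a b hab x y hxy with ⟨-, h1 | h1⟩ | ⟨h1, -⟩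
          · exact absurd (hP2c a b hab x hx y h1 hxy) hc2
          · exact h1
          · exact (hno hx h1).elim
        · rcases hR.mem a b hab x y hxy with ⟨-, h1⟩ | ⟨h1, -⟩
          · exact h1
          · exact (hno hx h1).elim
      obtain ⟨T, hT, e1, e2⟩ := h3.covers a b hab x hx y (mem_filter.2 ⟨hyU, hxy, hc2⟩)
      rw [adj_cov P3 hab]
      exact ⟨T, hT, e1, e2⟩
  refine ⟨P2 ∪ P3, D, ?_, ?_, ?_, ?_, ?_⟩
  · intro T hT
    rcases mem_union.1 hT with hT | hT
    · exact hP2A T hT
    · exact h3.all T hT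
  · rw [packing_iff]
    intro a b hab T hT T' hT' e1 e2
    rcases mem_union.1 hT with hT | hT
    · rcases mem_union.1 hT' with hT' | hT'
      · exact (packing_iff P2).1 hP2p a b hab T hT T' hT' e1 e2
      · exact (hcross T hT T' hT' a b hab e1 e2).elim
    · rcases mem_union.1 hT' with hT' | hT'
      · exact (hcross T' hT' T hT a b hab e1.symm e2.symm).elim
      · rcases p3pair T hT a b hab with ⟨g1, g2⟩ | ⟨g1, g2⟩ | ⟨g1, g2, -⟩
        · exact h3.uniqO a b hab T hT T' hT' g1 e1 e2
        · exact h3.uniqO b a hab.symm T hT T' hT' g1 e2 e1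
        · exact h3.uniqU a b hab T hT T' hT' g1 g2 e1 e2
  · refine gr_ext fun a b hab x y => ?_
    have e0 : Adj (fun t => L t ∪ R t ∪ D t) a b x y ↔
        ((Adj L a b x y ∨ Adj R a b x y) ∨ Adj D a b x y) := by
      rw [Adj_union (fun t => L t ∪ R t) D, Adj_union]
    rw [e0, adjU a b hab, adjD a b hab]
    obtain ⟨c, hac, hbc⟩ := third hab
    constructor
    · rintro (h | h)
      · left
        obtain ⟨T, hT, rfl, rfl⟩ := (adj_cov P2 hab x y).1 h
        by_cases hO : vt T a ∈ O
        · rcases h2.pair hOU hT hab hac hbc hO with g | g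
          · exact Or.inl g.2.2.1
          · exact Or.inr g.2.2.1
        · have hbO : vt T b ∈ O := by
            obtain ⟨a', b', c', hab', hac', hbc', g1, g2, g3, -⟩ := hP2s T hT
            have h1 : a = c' := by
              rcases class_cases hab' hac' hbc' a with rfl | rfl | rfl
              · exact absurd g1 hO
              · exact absurd g2 hO
              · rfl
            rcases class_cases hab' hac' hbc' b with rfl | rfl | rfl
            · exact g1
            · exact g2
            · exact absurd h1 hab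
          rcases h2.pair hOU hT hab.symm hbc hac hbO with g | g
          · exact Or.inl ((Adj_comm L hab _ _).2 g.2.2.1)
          · exact Or.inr ((Adj_comm R hab _ _).2 g.2.2.1)
      · obtain ⟨T, hT, rfl, rfl⟩ := (adj_cov P3 hab x y).1 h
        rcases p3pair T hT a b hab with ⟨g1, g2⟩ | ⟨g1, g2⟩ | ⟨g1, g2, -⟩
        · exact Or.inl (mem_filter.1 g2).2.1
        · left
          rcases (mem_filter.1 g2).2.1 with g | g
          · exact Or.inl ((Adj_comm L hab _ _).2 g)
          · exact Or.inr ((Adj_comm R hab _ _).2 g)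
        · exact Or.inr ⟨h, g1, g2⟩
    · rintro (h | h)
      · have hends : x ∈ O ∨ y ∈ O := by
          rcases h with h | h
          · rcases hL.mem a b hab x y h with ⟨h1, -⟩ | ⟨-, h1⟩
            · exact Or.inl h1
            · exact Or.inr h1
          · rcases hR.mem a b hab x y h with ⟨h1, -⟩ | ⟨-, h1⟩
            · exact Or.inl h1
            · exact Or.inr h1
        rcases hends with hx | hy
        · exact hcovO a b hab x hx y h
        · have h' : Adj L b a y x ∨ Adj R b a y x :=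
            h.imp (Adj_comm L hab _ _).1 (Adj_comm R hab _ _).1
          exact (hcovO b a hab.symm y hy x h').imp (Adj_comm _ hab _ _).2 (Adj_comm _ hab _ _).2
      · exact Or.inr h.1
  · intro a b hab x y h
    obtain ⟨h1, hx, hy⟩ := (adjD a b hab x y).1 h
    refine ⟨hx, hy, ?_⟩
    obtain ⟨T, hT, rfl, rfl⟩ := (adj_cov P3 hab x y).1 h1
    rcases p3pair T hT a b hab with ⟨g1, -⟩ | ⟨g1, -⟩ | ⟨-, -, g3⟩
    · exact (hno g1 hx).elim
    · exact (hno g1 hy).elim
    · exact g3
  · intro a b hab x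
    obtain ⟨c, hac, hbc⟩ := third hab
    by_cases hxU : x ∈ U'
    · refine le_trans ?_ (rem_inv (P2 := P2) hL hR hac.symm hxU)
      refine card_le_card_of_forall_subsingleton
        (fun y z => ∃ T ∈ P3, vt T a = x ∧ vt T b = y ∧ vt T c = z) ?_ ?_
      · intro y hy
        rw [mem_nbr] at hy
        obtain ⟨h1, -, hyU⟩ := (adjD a b hab x y).1 hy
        obtain ⟨T, hT, e1, e2⟩ := (adj_cov P3 hab x y).1 h1
        obtain ⟨a', b', c', hab', hac', hbc', g1, g2, g3, -⟩ := h3.shape T hT
        have hca : a' = c := by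
          rcases class_cases hab hac hbc a' with rfl | rfl | rfl
          · exact (hno g1 (e1.symm ▸ hxU)).elim
          · exact (hno g1 (e2.symm ▸ hyU)).elim
          · rfl
        subst hca
        have hrem : vt T a ∈ Rem U' R L P2 a' a (vt T a') := by
          rcases class_cases hab' hac' hbc' a with h | h | h
          · exact absurd h hac
          · rw [h]; exact g2
          · rw [h]; exact g3
        refine ⟨vt T a', mem_filter.2 ⟨g1, ?_⟩, T, hT, e1, e2, rfl⟩
        rw [← e1]; exact hrem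
      · rintro z hz y ⟨-, T, hT, e1, e2, e3⟩ y' ⟨-, T', hT', e1', e2', e3'⟩
        have hzO := (mem_filter.1 hz).1
        have := h3.uniqO c a hac.symm T hT T' hT' (e3.symm ▸ hzO) (e3.trans e3'.symm)
          (e1.trans e1'.symm)
        rw [← e2, ← e2', this]
    · have : nbr D a b x = ∅ := by
        refine eq_empty_of_forall_notMem fun y hy => ?_
        rw [mem_nbr] at hy
        exact hxU ((adjD a b hab x y).1 hy).2.1
      rw [this]; simp

end Pool.Agent.LAV
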