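import Mathlib

set_option autoImplicit false

/-!
# Project LAV: potential lemmas (derandomised random greedy processes)

* `run_exists`: a potential which does not increase on average can be kept from increasing.
* `counters_two`: counters with `0/1` increments, base `2`.
* `counters_exp`: real counters with bounded increments and known drift (Freedman type bound).
-/

namespace Pool.Agent.LAV

open Finset

/-- a run along which the potential does not increase -/
theorem run_exists {σ : Type*} (T : ℕ) (Inv : ℕ → σ → Prop) (Φ : ℕ → σ → ℝ) (K : ℝ)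
    (step : ∀ t < T, ∀ s, Inv t s → Φ t s ≤ K →
      ∃ (ι : Type) (O : Finset ι) (q : ι → ℝ) (f : ι → σ), (∀ i ∈ O, 0 ≤ q i) ∧
        ∑ i ∈ O, q i = 1 ∧ (∀ i ∈ O, Inv (t + 1) (f i)) ∧
        ∑ i ∈ O, q i * Φ (t + 1) (f i) ≤ Φ t s)
    (s0 : σ) (h0 : Inv 0 s0) (hK : Φ 0 s0 ≤ K) :
    ∃ s, Inv T s ∧ Φ T s ≤ Φ 0 s0 := by
  have key : ∀ t ≤ T, ∃ s, Inv t s ∧ Φ t s ≤ Φ 0 s0 := by
    intro t
    induction t with
    | zero => exact fun _ => ⟨s0, h0, le_rfl⟩
    | succ t ih =>
      intro ht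
      obtain ⟨s, hs, hΦ⟩ := ih (Nat.le_of_succ_le ht)
      obtain ⟨ι, O, q, f, hq, hq1, hf, hav⟩ := step t ht s hs (hΦ.trans hK)
      by_contra hcon
      push Not at hcon
      have h1 : ∀ i ∈ O, q i * Φ t s ≤ q i * Φ (t + 1) (f i) := fun i hi =>
        mul_le_mul_of_nonneg_left (hΦ.trans (hcon _ (hf i hi)).le) (hq i hi)
      have h2 : ∃ i ∈ O, 0 < q i := by
        by_contra hno
        push Not at hno
        have : ∑ i ∈ O, q i ≤ 0 := sum_nonpos hno
        linarith
      obtain ⟨i, hi, hqi⟩ := h2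
      have h3 : ∑ i ∈ O, q i * Φ t s < ∑ i ∈ O, q i * Φ (t + 1) (f i) :=
        sum_lt_sum h1 ⟨i, hi, mul_lt_mul_of_pos_left
          (lt_of_le_of_lt hΦ (hcon _ (hf i hi))) hqi⟩
      rw [← sum_mul, hq1, one_mul] at h3
      linarith
  exact key T le_rfl

/-- **Counters with 0/1 increments.**  As long as all counters are at most `B` there is a
nonempty set of options such that counter `j` increases on average by at most `p t j`.  Then all
counters can be kept at most `B`, provided `∑ j, 2 ^ X₀ j * ∏ t, (1 + p t j) < 2 ^ (B + 1)`. -/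
theorem counters_two {σ J : Type*} (js : Finset J) (T B : ℕ) (Inv : ℕ → σ → Prop)
    (X : σ → J → ℕ) (p : ℕ → J → ℝ) (hp : ∀ t j, 0 ≤ p t j)
    (step : ∀ t < T, ∀ s, Inv t s → (∀ j ∈ js, X s j ≤ B) →
      ∃ (ι : Type) (O : Finset ι) (f : ι → σ), O.Nonempty ∧ (∀ i ∈ O, Inv (t + 1) (f i)) ∧
        (∀ i ∈ O, ∀ j ∈ js, X (f i) j = X s j ∨ X (f i) j = X s j + 1) ∧
        ∀ j ∈ js, ((O.filter fun i => X (f i) j = X s j + 1).card : ℝ) ≤ p t j * O.card)
    (s0 : σ) (h0 : Inv 0 s0)
    (hB : ∑ j ∈ js, 2 ^ X s0 j * ∏ t ∈ range T, (1 + p t j) < 2 ^ (B + 1)) :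
    ∃ s, Inv T s ∧ ∀ j ∈ js, X s j ≤ B := by
  classical
  set Φ : ℕ → σ → ℝ := fun t s => ∑ j ∈ js, 2 ^ X s j * ∏ u ∈ Ico t T, (1 + p u j) with hΦ
  have hprod : ∀ t j, 1 ≤ ∏ u ∈ Ico t T, (1 + p u j) := by
    intro t j
    calc (1 : ℝ) = ∏ u ∈ Ico t T, (1 : ℝ) := by simp
      _ ≤ _ := prod_le_prod (fun _ _ => zero_le_one) fun u _ => by linarith [hp u j]
  have h0Φ : Φ 0 s0 < 2 ^ (B + 1) := by
    simp only [hΦ, ← Finset.range_eq_Ico]
    exact hB
  have small : ∀ t s, Φ t s ≤ Φ 0 s0 → ∀ j ∈ js, X s j ≤ B := by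
    intro t s h j hj
    have h1 : (2 : ℝ) ^ X s j ≤ Φ t s := by
      calc (2 : ℝ) ^ X s j ≤ 2 ^ X s j * ∏ u ∈ Ico t T, (1 + p u j) :=
            le_mul_of_one_le_right (by positivity) (hprod t j)
        _ ≤ Φ t s := single_le_sum (f := fun j => (2 : ℝ) ^ X s j * ∏ u ∈ Ico t T, (1 + p u j))
            (fun i _ => mul_nonneg (by positivity) (zero_le_one.trans (hprod t i))) hj
    have h2 : (2 : ℝ) ^ X s j < 2 ^ (B + 1) := by linarith
    have h3 := (pow_lt_pow_iff_right₀ (one_lt_two (α := ℝ))).1 h2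
    omega
  obtain ⟨s, hs, hle⟩ := run_exists T Inv Φ (Φ 0 s0) (by
    intro t ht s hs hle
    obtain ⟨ι, O, f, hne, hInv, hinc, hav⟩ := step t ht s hs (small t s hle)
    have hc : (0 : ℝ) < O.card := by exact_mod_cast hne.card_pos
    refine ⟨ι, O, fun _ => (O.card : ℝ)⁻¹, f, fun _ _ => by positivity, ?_, hInv, ?_⟩
    · rw [sum_const, nsmul_eq_mul, mul_inv_cancel₀ hc.ne']
    · rw [← mul_sum]
      have h1 : ∑ i ∈ O, Φ (t + 1) (f i) ≤ O.card * Φ t s := by
        simp only [hΦ]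
        rw [sum_comm, mul_sum]
        refine sum_le_sum fun j hj => ?_
        rw [← sum_mul]
        have h2 : ∑ i ∈ O, (2 : ℝ) ^ X (f i) j ≤ O.card * (2 ^ X s j * (1 + p t j)) := by
          have h3 : ∀ i ∈ O, (2 : ℝ) ^ X (f i) j =
              2 ^ X s j * (1 + if X (f i) j = X s j + 1 then 1 else 0) := by
            intro i hi
            rcases hinc i hi j hj with h | h
            · rw [h, if_neg (by omega), add_zero, mul_one]
            · rw [if_pos h, h, pow_succ]; ring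
          rw [sum_congr rfl h3, ← mul_sum, sum_add_distrib]
          simp only [sum_const, nsmul_eq_mul, mul_one, sum_ite]
          have h4 := hav j hj
          have h5 : (0 : ℝ) ≤ 2 ^ X s j := by positivity
          nlinarith
        have h6 : ∏ u ∈ Ico t T, (1 + p u j) = (1 + p t j) * ∏ u ∈ Ico (t + 1) T, (1 + p u j) :=
          prod_eq_prod_Ico_succ_bot ht _
        rw [h6]
        calc (∑ i ∈ O, (2 : ℝ) ^ X (f i) j) * ∏ u ∈ Ico (t + 1) T, (1 + p u j)
            ≤ (O.card * (2 ^ X s j * (1 + p t j))) * ∏ u ∈ Ico (t + 1) T, (1 + p u j) :=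
              mul_le_mul_of_nonneg_right h2 (zero_le_one.trans (hprod (t + 1) j))
          _ = _ := by ring
      rw [inv_mul_le_iff₀ hc]
      exact h1) s0 h0 le_rfl
  exact ⟨s, hs, small T s hle⟩

/-- **Counters with real increments (Freedman type bound).** -/
theorem counters_exp {σ J : Type*} (js : Finset J) (T : ℕ) (Inv : ℕ → σ → Prop)
    (X : σ → J → ℝ) (m v : ℕ → J → ℝ) {c lam L : ℝ} (hc : 0 ≤ c) (hlam : 0 < lam)
    (hlc : lam * c ≤ 1) (hL : (js.card : ℝ) ≤ Real.exp (lam * L)) (s0 : σ)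
    (step : ∀ t < T, ∀ s, Inv t s →
      (∀ j ∈ js, X s j ≤ X s0 j + ∑ u ∈ range t, (m u j + lam * c * v u j) + L) →
      ∃ (ι : Type) (O : Finset ι) (q : ι → ℝ) (f : ι → σ), (∀ i ∈ O, 0 ≤ q i) ∧
        ∑ i ∈ O, q i = 1 ∧ (∀ i ∈ O, Inv (t + 1) (f i)) ∧
        (∀ i ∈ O, ∀ j ∈ js, |X (f i) j - X s j| ≤ c) ∧
        (∀ j ∈ js, ∑ i ∈ O, q i * (X (f i) j - X s j) ≤ m t j) ∧
        ∀ j ∈ js, ∑ i ∈ O, q i * |X (f i) j - X s j| ≤ v t j)
    (h0 : Inv 0 s0) :
    ∃ s, Inv T s ∧ ∀ j ∈ js, X s j ≤ X s0 j + ∑ u ∈ range T, (m u j + lam * c * v u j) + L := by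
  classical
  set Y : ℕ → σ → J → ℝ := fun t s j =>
    X s j - X s0 j - ∑ u ∈ range t, (m u j + lam * c * v u j) with hY
  set Φ : ℕ → σ → ℝ := fun t s => ∑ j ∈ js, Real.exp (lam * Y t s j) with hΦ
  have h0Φ : Φ 0 s0 = js.card := by simp [hΦ, hY]
  have small : ∀ t s, Φ t s ≤ Φ 0 s0 → ∀ j ∈ js,
      X s j ≤ X s0 j + ∑ u ∈ range t, (m u j + lam * c * v u j) + L := by
    intro t s h j hj
    have h1 : Real.exp (lam * Y t s j) ≤ Φ t s :=
      single_le_sum (f := fun j => Real.exp (lam * Y t s j)) (fun i _ => (Real.exp_pos _).le) hj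
    have h2 : Real.exp (lam * Y t s j) ≤ Real.exp (lam * L) := by linarith
    have h3 : lam * Y t s j ≤ lam * L := Real.exp_le_exp.1 h2
    have h4 : Y t s j ≤ L := le_of_mul_le_mul_left h3 hlam
    simp only [hY] at h4
    linarith
  obtain ⟨s, hs, hle⟩ := run_exists T Inv Φ (Φ 0 s0) (by
    intro t ht s hs hle
    obtain ⟨ι, O, q, f, hq, hq1, hInv, hb, hm, hv⟩ := step t ht s hs (small t s hle)
    refine ⟨ι, O, q, f, hq, hq1, hInv, ?_⟩
    have h1 : ∑ i ∈ O, q i * Φ (t + 1) (f i)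
        = ∑ j ∈ js, ∑ i ∈ O, q i * Real.exp (lam * Y (t + 1) (f i) j) := by
      simp only [hΦ, mul_sum]
      rw [sum_comm]
    rw [h1]
    refine sum_le_sum fun j hj => ?_
    have h2 : ∀ i ∈ O, Real.exp (lam * Y (t + 1) (f i) j) =
        Real.exp (lam * Y t s j) * (Real.exp (lam * (X (f i) j - X s j)) *
          Real.exp (-(lam * (m t j + lam * c * v t j)))) := by
      intro i _
      rw [← Real.exp_add, ← Real.exp_add]
      congr 1
      simp only [hY, sum_range_succ]
      ring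
    have h3 : ∑ i ∈ O, q i * Real.exp (lam * (X (f i) j - X s j))
        ≤ Real.exp (lam * (m t j + lam * c * v t j)) := by
      have h4 : ∀ i ∈ O, q i * Real.exp (lam * (X (f i) j - X s j)) ≤
          q i * 1 + lam * (q i * (X (f i) j - X s j)) +
            lam * lam * c * (q i * |X (f i) j - X s j|) := by
        intro i hi
        set d := X (f i) j - X s j with hd
        have hdc : |d| ≤ c := hb i hi j hj
        have h5 : |lam * d| ≤ 1 := by
          rw [abs_mul, abs_of_pos hlam]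
          exact (mul_le_mul_of_nonneg_left hdc hlam.le).trans hlc
        have h6 := (abs_le.1 (Real.abs_exp_sub_one_sub_id_le h5)).2
        have h7 : (lam * d) ^ 2 ≤ lam * lam * c * |d| := by
          rw [mul_pow, ← sq_abs d]
          have : |d| ^ 2 ≤ c * |d| := by
            rw [sq]; exact mul_le_mul_of_nonneg_right hdc (abs_nonneg d)
          nlinarith [sq_nonneg lam]
        have h8 : Real.exp (lam * d) ≤ 1 + lam * d + lam * lam * c * |d| := by linarith
        calc q i * Real.exp (lam * d) ≤ q i * (1 + lam * d + lam * lam * c * |d|) :=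
              mul_le_mul_of_nonneg_left h8 (hq i hi)
          _ = _ := by ring
      have h9 := sum_le_sum h4
      rw [sum_add_distrib, sum_add_distrib, ← mul_sum, ← mul_sum, ← sum_mul, hq1] at h9
      have h10 := hm j hj
      have h11 := hv j hj
      have h12 : 1 * 1 + lam * ∑ i ∈ O, q i * (X (f i) j - X s j) +
          lam * lam * c * ∑ i ∈ O, q i * |X (f i) j - X s j| ≤
          1 + lam * (m t j + lam * c * v t j) := by
        have h13 := mul_le_mul_of_nonneg_left h10 hlam.le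
        have h14 := mul_le_mul_of_nonneg_left h11 (by positivity : (0 : ℝ) ≤ lam * lam * c)
        nlinarith
      have h15 := Real.add_one_le_exp (lam * (m t j + lam * c * v t j))
      linarith
    calc ∑ i ∈ O, q i * Real.exp (lam * Y (t + 1) (f i) j)
        = Real.exp (lam * Y t s j) * ((∑ i ∈ O, q i * Real.exp (lam * (X (f i) j - X s j))) *
          Real.exp (-(lam * (m t j + lam * c * v t j)))) := by
          rw [sum_mul, mul_sum]
          refine sum_congr rfl fun i hi => ?_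
          rw [h2 i hi]; ring
      _ ≤ Real.exp (lam * Y t s j) * (Real.exp (lam * (m t j + lam * c * v t j)) *
          Real.exp (-(lam * (m t j + lam * c * v t j)))) := by
          gcongr
      _ = Real.exp (lam * Y t s j) := by
          rw [← Real.exp_add, add_neg_cancel, Real.exp_zero, mul_one]) s0 h0 le_rfl
  exact ⟨s, hs, small T s hle⟩

end Pool.Agent.LAV
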