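import Pool.Agent.LAV.HALLM
import Pool.Agent.LAV.POT

set_option autoImplicit false

/-!
# Project LAV: pairwise disjoint perfect matchings in many bipartite graphs

`matchings`: for every `x < T` a perfect matching between `NB x` and `NC x` inside `E x`, all
pairwise disjoint; random greedy choice, derandomised with `counters_two`.
-/

namespace Pool.Agent.LAV

open Finset

variable {V W : Type*} [DecidableEq V] [DecidableEq W]

/-- if at most one element of a set is new, the count grows by at most one -/
theorem card_step {β : Type*} [DecidableEq β] (S : Finset β) (P Q : β → Prop) [DecidablePred P]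
    [DecidablePred Q] (h : ∀ a ∈ S, ∀ b ∈ S, Q a → Q b → a = b) (hPQ : ∀ a ∈ S, Q a → ¬ P a) :
    ((S.filter fun a => P a ∨ Q a).card = (S.filter P).card ∧ ∀ a ∈ S, ¬ Q a) ∨
      ((S.filter fun a => P a ∨ Q a).card = (S.filter P).card + 1 ∧ ∃ a ∈ S, Q a) := by
  by_cases hQ : ∃ a ∈ S, Q a
  · right
    refine ⟨?_, hQ⟩
    obtain ⟨a, ha, hQa⟩ := hQ
    have h1 : (S.filter fun b => P b ∨ Q b) = insert a (S.filter P) := by
      ext b
      simp only [mem_filter, mem_insert]
      constructor
      · rintro ⟨hb, hPb | hQb⟩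
        · exact Or.inr ⟨hb, hPb⟩
        · exact Or.inl (h b hb a ha hQb hQa)
      · rintro (rfl | ⟨hb, hPb⟩)
        · exact ⟨ha, Or.inr hQa⟩
        · exact ⟨hb, Or.inl hPb⟩
    rw [h1, card_insert_of_notMem]
    intro h2
    exact hPQ a ha hQa (mem_filter.1 h2).2
  · left
    push Not at hQ
    refine ⟨?_, hQ⟩
    congr 1
    ext b
    simp only [mem_filter]
    constructor
    · rintro ⟨hb, hPb | hQb⟩
      · exact ⟨hb, hPb⟩
      · exact absurd hQb (hQ b hb)
    · rintro ⟨hb, hPb⟩
      exact ⟨hb, Or.inl hPb⟩

theorem matchings (T B : ℕ) (NB : ℕ → Finset V) (NC : ℕ → Finset W) (E : ℕ → V → W → Prop)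
    [∀ x v w, Decidable (E x v w)] (d : ℕ → ℕ) (μ : ℝ)
    (hc : ∀ x < T, (NB x).card = (NC x).card) (hd : ∀ x < T, 0 < d x)
    (h1 : ∀ x < T, ∀ v ∈ NB x, (NB x).card + 2 * d x + 2 * B ≤
      2 * ((NC x).filter fun w => E x v w).card)
    (h2 : ∀ x < T, ∀ w ∈ NC x, (NB x).card + 2 * d x + 2 * B ≤
      2 * ((NB x).filter fun v => E x v w).card)
    (m1 : ∀ x' < T, ∀ v ∈ NB x', ∑ x ∈ (range T).filter (fun x => v ∈ NB x),
      ((NC x ∩ NC x').card : ℝ) / d x ≤ μ)
    (m2 : ∀ x' < T, ∀ w ∈ NC x', ∑ x ∈ (range T).filter (fun x => w ∈ NC x),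
      ((NB x ∩ NB x').card : ℝ) / d x ≤ μ)
    (hB : (∑ x ∈ range T, 2 * ((NB x).card : ℝ)) * Real.exp μ < 2 ^ (B + 1)) :
    ∃ M : ℕ → Finset (V × W),
      (∀ x < T, IsPM (NB x) (NC x) (M x) ∧ ∀ p ∈ M x, E x p.1 p.2) ∧
      ∀ x < T, ∀ y < T, x ≠ y → Disjoint (M x) (M y) := by
  classical
  set js : Finset (ℕ × (V ⊕ W)) := (range T).biUnion fun x =>
    (NB x).image (fun v => (x, Sum.inl v)) ∪ (NC x).image (fun w => (x, Sum.inr w)) with hjs
  set used : (ℕ → Finset (V × W)) → Finset (V × W) := fun s => (range T).biUnion s with hused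
  set X : (ℕ → Finset (V × W)) → ℕ × (V ⊕ W) → ℕ := fun s j =>
    Sum.elim (fun v => ((NC j.1).filter fun w => (v, w) ∈ used s).card)
      (fun w => ((NB j.1).filter fun v => (v, w) ∈ used s).card) j.2 with hX
  set p : ℕ → ℕ × (V ⊕ W) → ℝ := fun t j =>
    Sum.elim (fun v => if v ∈ NB t then ((NC t ∩ NC j.1).card : ℝ) / d t else 0)
      (fun w => if w ∈ NC t then ((NB t ∩ NB j.1).card : ℝ) / d t else 0) j.2 with hp
  set Inv : ℕ → (ℕ → Finset (V × W)) → Prop := fun t s =>
    (∀ x < t, IsPM (NB x) (NC x) (s x) ∧ ∀ p ∈ s x, E x p.1 p.2) ∧ (∀ x, t ≤ x → s x = ∅) ∧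
      ∀ x < t, ∀ y < t, x ≠ y → Disjoint (s x) (s y) with hInv
  have hp0 : ∀ t j, 0 ≤ p t j := by
    rintro t ⟨x, v | w⟩
    · simp only [hp, Sum.elim_inl]; split_ifs <;> positivity
    · simp only [hp, Sum.elim_inr]; split_ifs <;> positivity
  obtain ⟨s, hs, -⟩ := counters_two js T B Inv X p hp0 (by
    intro t ht s hs hcnt
    obtain ⟨hs1, hs2, hs3⟩ := hs
    have hjl : ∀ x < T, ∀ v ∈ NB x, (x, Sum.inl v) ∈ js := by
      intro x hx v hv
      rw [hjs, mem_biUnion]
      exact ⟨x, mem_range.2 hx, mem_union_left _ (mem_image_of_mem (fun v => (x, Sum.inl v)) hv)⟩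
    have hjr : ∀ x < T, ∀ w ∈ NC x, (x, Sum.inr w) ∈ js := by
      intro x hx w hw
      rw [hjs, mem_biUnion]
      exact ⟨x, mem_range.2 hx, mem_union_right _ (mem_image_of_mem (fun w => (x, Sum.inr w)) hw)⟩
    obtain ⟨F, hF, hFd⟩ := exists_pms (NB t) (NC t) (hc t ht) (d t)
      (fun v w => E t v w ∧ (v, w) ∉ used s) (by
        intro v hv
        have a1 := h1 t ht v hv
        have a2 : ((NC t).filter fun w => (v, w) ∈ used s).card ≤ B := hcnt _ (hjl t ht v hv)
        have a3 : ((NC t).filter fun w => E t v w).card ≤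
            ((NC t).filter fun w => E t v w ∧ (v, w) ∉ used s).card +
              ((NC t).filter fun w => (v, w) ∈ used s).card := by
          refine le_trans (card_le_card ?_) (card_union_le _ _)
          intro w hw
          rw [mem_filter] at hw
          rw [mem_union, mem_filter, mem_filter]
          by_cases h : (v, w) ∈ used s
          · exact Or.inr ⟨hw.1, h⟩
          · exact Or.inl ⟨hw.1, hw.2, h⟩
        omega) (by
        intro w hw
        have a1 := h2 t ht w hw
        have a2 : ((NB t).filter fun v => (v, w) ∈ used s).card ≤ B := hcnt _ (hjr t ht w hw)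
        have a3 : ((NB t).filter fun v => E t v w).card ≤
            ((NB t).filter fun v => E t v w ∧ (v, w) ∉ used s).card +
              ((NB t).filter fun v => (v, w) ∈ used s).card := by
          refine le_trans (card_le_card ?_) (card_union_le _ _)
          intro v hv
          rw [mem_filter] at hv
          rw [mem_union, mem_filter, mem_filter]
          by_cases h : (v, w) ∈ used s
          · exact Or.inr ⟨hv.1, h⟩
          · exact Or.inl ⟨hv.1, hv.2, h⟩
        omega)
    have hfresh : ∀ i, ∀ q ∈ F i, q ∉ used s := fun i q hq => ((hF i).2 q hq).2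
    have hupd : ∀ i, ∀ q, q ∈ used (Function.update s t (F i)) ↔ (q ∈ used s ∨ q ∈ F i) := by
      intro i q
      simp only [hused, mem_biUnion, mem_range]
      constructor
      · rintro ⟨x, hx, hq⟩
        by_cases hxt : x = t
        · subst hxt; rw [Function.update_self] at hq; exact Or.inr hq
        · rw [Function.update_of_ne hxt] at hq; exact Or.inl ⟨x, hx, hq⟩
      · rintro (⟨x, hx, hq⟩ | hq)
        · have hxt : x ≠ t := by
            rintro rfl
            rw [hs2 x le_rfl] at hq
            exact absurd hq (notMem_empty _)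
          exact ⟨x, hx, by rw [Function.update_of_ne hxt]; exact hq⟩
        · exact ⟨t, ht, by rw [Function.update_self]; exact hq⟩
    have hstep : ∀ i, ∀ j ∈ js, (X (Function.update s t (F i)) j = X s j) ∨
        (X (Function.update s t (F i)) j = X s j + 1 ∧
          Sum.elim (fun v => ∃ w ∈ NC j.1, (v, w) ∈ F i) (fun w => ∃ v ∈ NB j.1, (v, w) ∈ F i)
            j.2) := by
      rintro i ⟨x, v | w⟩ -
      · have := card_step (NC x) (fun w => (v, w) ∈ used s) (fun w => (v, w) ∈ F i)
          (fun a _ b _ ha hb => (hF i).1.2.2.2.1 v a b ha hb) (fun a _ ha => hfresh i _ ha)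
        simp only [hX, Sum.elim_inl, hupd]
        rcases this with h | h
        · exact Or.inl h.1
        · exact Or.inr h
      · have := card_step (NB x) (fun v => (v, w) ∈ used s) (fun v => (v, w) ∈ F i)
          (fun a _ b _ ha hb => (hF i).1.2.2.2.2 a b w ha hb) (fun a _ ha => hfresh i _ ha)
        simp only [hX, Sum.elim_inr, hupd]
        rcases this with h | h
        · exact Or.inl h.1
        · exact Or.inr h
    refine ⟨Fin (d t), univ, fun i => Function.update s t (F i), ?_, ?_, ?_, ?_⟩
    · exact ⟨⟨0, hd t ht⟩, mem_univ _⟩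
    · intro i _
      change Inv (t + 1) (Function.update s t (F i))
      refine ⟨?_, ?_, ?_⟩
      · intro x hx
        by_cases hxt : x = t
        · subst hxt
          rw [Function.update_self]
          exact ⟨(hF i).1, fun q hq => ((hF i).2 q hq).1⟩
        · rw [Function.update_of_ne hxt]
          exact hs1 x (by omega)
      · intro x hx
        rw [Function.update_of_ne (by omega)]
        exact hs2 x (by omega)
      · have hdis : ∀ x < t, Disjoint (s x) (F i) := by
          intro x hx
          rw [disjoint_left]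
          intro q hq hq'
          exact hfresh i q hq' (mem_biUnion.2 ⟨x, mem_range.2 (by omega), hq⟩)
        intro x hx y hy hxy
        by_cases hxt : x = t
        · subst hxt
          rw [Function.update_self, Function.update_of_ne (Ne.symm hxy)]
          exact (hdis y (by omega)).symm
        · rw [Function.update_of_ne hxt]
          by_cases hyt : y = t
          · subst hyt
            rw [Function.update_self]
            exact hdis x (by omega)
          · rw [Function.update_of_ne hyt]
            exact hs3 x (by omega) y (by omega) hxy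
    · intro i _ j hj
      rcases hstep i j hj with h | h
      · exact Or.inl h
      · exact Or.inr h.1
    · rintro ⟨x, v | w⟩ hj
      · have hdt : (0 : ℝ) < d t := by exact_mod_cast hd t ht
        rw [card_univ, Fintype.card_fin]
        have b1 : (univ.filter fun i : Fin (d t) =>
            X (Function.update s t (F i)) (x, Sum.inl v) = X s (x, Sum.inl v) + 1) ⊆
            univ.filter fun i : Fin (d t) => ∃ w ∈ NC x, (v, w) ∈ F i := by
          intro i hi
          rw [mem_filter] at hi ⊢
          refine ⟨mem_univ _, ?_⟩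
          rcases hstep i _ hj with h | h
          · omega
          · exact h.2
        by_cases hv : v ∈ NB t
        · simp only [hp, Sum.elim_inl, if_pos hv]
          rw [div_mul_cancel₀ _ hdt.ne']
          have b2 : (univ.filter fun i : Fin (d t) => ∃ w ∈ NC x, (v, w) ∈ F i).card ≤
              (NC t ∩ NC x).card := by
            have b3 : ∀ i ∈ (univ.filter fun i : Fin (d t) => ∃ w ∈ NC x, (v, w) ∈ F i),
                ∃ w, w ∈ NC t ∩ NC x ∧ (v, w) ∈ F i := by
              intro i hi
              obtain ⟨w, hw, hvw⟩ := (mem_filter.1 hi).2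
              exact ⟨w, mem_inter.2 ⟨((hF i).1.1 _ hvw).2, hw⟩, hvw⟩
            refine card_le_card_of_forall_subsingleton (fun i w => (v, w) ∈ F i) b3 ?_
            rintro w - i ⟨-, hi⟩ i' ⟨-, hi'⟩
            by_contra hne
            exact disjoint_left.1 (hFd i i' hne) hi hi'
          exact_mod_cast (card_le_card b1).trans b2
        · simp only [hp, Sum.elim_inl, if_neg hv, zero_mul]
          have b2 : (univ.filter fun i : Fin (d t) => ∃ w ∈ NC x, (v, w) ∈ F i) = ∅ := by
            rw [filter_eq_empty_iff]
            rintro i - ⟨w, hw, hvw⟩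
            exact hv ((hF i).1.1 _ hvw).1
          rw [b2, subset_empty] at b1
          rw [b1]; simp
      · have hdt : (0 : ℝ) < d t := by exact_mod_cast hd t ht
        rw [card_univ, Fintype.card_fin]
        have b1 : (univ.filter fun i : Fin (d t) =>
            X (Function.update s t (F i)) (x, Sum.inr w) = X s (x, Sum.inr w) + 1) ⊆
            univ.filter fun i : Fin (d t) => ∃ v ∈ NB x, (v, w) ∈ F i := by
          intro i hi
          rw [mem_filter] at hi ⊢
          refine ⟨mem_univ _, ?_⟩
          rcases hstep i _ hj with h | h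
          · omega
          · exact h.2
        by_cases hw : w ∈ NC t
        · simp only [hp, Sum.elim_inr, if_pos hw]
          rw [div_mul_cancel₀ _ hdt.ne']
          have b2 : (univ.filter fun i : Fin (d t) => ∃ v ∈ NB x, (v, w) ∈ F i).card ≤
              (NB t ∩ NB x).card := by
            have b3 : ∀ i ∈ (univ.filter fun i : Fin (d t) => ∃ v ∈ NB x, (v, w) ∈ F i),
                ∃ v, v ∈ NB t ∩ NB x ∧ (v, w) ∈ F i := by
              intro i hi
              obtain ⟨v, hv, hvw⟩ := (mem_filter.1 hi).2
              exact ⟨v, mem_inter.2 ⟨((hF i).1.1 _ hvw).1, hv⟩, hvw⟩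
            refine card_le_card_of_forall_subsingleton (fun i v => (v, w) ∈ F i) b3 ?_
            rintro v - i ⟨-, hi⟩ i' ⟨-, hi'⟩
            by_contra hne
            exact disjoint_left.1 (hFd i i' hne) hi hi'
          exact_mod_cast (card_le_card b1).trans b2
        · simp only [hp, Sum.elim_inr, if_neg hw, zero_mul]
          have b2 : (univ.filter fun i : Fin (d t) => ∃ v ∈ NB x, (v, w) ∈ F i) = ∅ := by
            rw [filter_eq_empty_iff]
            rintro i - ⟨v, hv, hvw⟩
            exact hw ((hF i).1.1 _ hvw).2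
          rw [b2, subset_empty] at b1
          rw [b1]; simp)
    (fun _ => ∅) (by
      refine ⟨fun x hx => absurd hx (Nat.not_lt_zero x), fun _ _ => rfl,
        fun x hx => absurd hx (Nat.not_lt_zero x)⟩) (by
      have hX0 : ∀ j, X (fun _ => ∅) j = 0 := by
        rintro ⟨x, v | w⟩
        · simp [hX, hused]
        · simp [hX, hused]
      have hprod : ∀ j ∈ js, ∏ t ∈ range T, (1 + p t j) ≤ Real.exp μ := by
        intro j hj
        have c1 : ∏ t ∈ range T, (1 + p t j) ≤ ∏ t ∈ range T, Real.exp (p t j) :=
          prod_le_prod (fun t _ => by linarith [hp0 t j]) fun t _ => by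
            linarith [Real.add_one_le_exp (p t j)]
        rw [← Real.exp_sum] at c1
        refine c1.trans (Real.exp_le_exp.2 ?_)
        rw [hjs, mem_biUnion] at hj
        obtain ⟨x, hx, hj⟩ := hj
        rw [mem_range] at hx
        rcases mem_union.1 hj with hj | hj
        · obtain ⟨v, hv, rfl⟩ := mem_image.1 hj
          simp only [hp, Sum.elim_inl]
          rw [← sum_filter]
          exact m1 x hx v hv
        · obtain ⟨w, hw, rfl⟩ := mem_image.1 hj
          simp only [hp, Sum.elim_inr]
          rw [← sum_filter]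
          exact m2 x hx w hw
      have hcard : (js.card : ℝ) ≤ ∑ x ∈ range T, 2 * ((NB x).card : ℝ) := by
        have : js.card ≤ ∑ x ∈ range T, 2 * (NB x).card := by
          rw [hjs]
          refine card_biUnion_le.trans (sum_le_sum fun x hx => ?_)
          refine (card_union_le _ _).trans ?_
          have e1 : ((NB x).image fun v => ((x, Sum.inl v) : ℕ × (V ⊕ W))).card ≤ (NB x).card :=
            card_image_le
          have e2 : ((NC x).image fun w => ((x, Sum.inr w) : ℕ × (V ⊕ W))).card ≤ (NC x).card :=
            card_image_le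
          have e3 := hc x (mem_range.1 hx)
          omega
        exact_mod_cast this
      calc ∑ j ∈ js, 2 ^ X (fun _ => ∅) j * ∏ t ∈ range T, (1 + p t j)
          ≤ ∑ j ∈ js, Real.exp μ := sum_le_sum fun j hj => by
            rw [hX0 j, pow_zero, one_mul]; exact hprod j hj
        _ = js.card * Real.exp μ := by rw [sum_const, nsmul_eq_mul]
        _ ≤ (∑ x ∈ range T, 2 * ((NB x).card : ℝ)) * Real.exp μ :=
            mul_le_mul_of_nonneg_right hcard (Real.exp_pos _).le
        _ < _ := hB)
  exact ⟨s, hs.1, hs.2.2⟩

end Pool.Agent.LAV
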