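import Pool.Agent.LAV.OUT
import Pool.Agent.LAV.MAT

set_option autoImplicit false

/-!
# Project LAV: the inner partners of the outer vertices

After the outer leftover pairs are covered by `P2`, `Rem a b x` is the set of the remaining
class `b` partners of the class `a` vertex `x ∈ O`; all of them are in `U'`.
-/

namespace Pool.Agent.LAV

open Finset

variable {α : Type*} [DecidableEq α]

/-- in a packing the degree at `x` is the number of triples at `x` -/
theorem card_nbr_cov {P : Finset (Tri α)} (hP : Packing P) {a b : Fin 3} (hab : a ≠ b) (x : α) :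
    (nbr (cov P) a b x).card = (P.filter fun T => vt T a = x).card := by
  classical
  have h : nbr (cov P) a b x = (P.filter fun T => vt T a = x).image fun T => vt T b := by
    ext y
    rw [mem_nbr, adj_cov P hab, mem_image]
    constructor
    · rintro ⟨T, hT, h1, h2⟩; exact ⟨T, mem_filter.2 ⟨hT, h1⟩, h2⟩
    · rintro ⟨T, hT, h2⟩; exact ⟨T, (mem_filter.1 hT).1, (mem_filter.1 hT).2, h2⟩
  rw [h]
  refine card_image_of_injOn ?_
  intro T hT T' hT' he
  have h1 := mem_filter.1 (mem_coe.1 hT)
  have h2 := mem_filter.1 (mem_coe.1 hT')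
  exact (packing_iff P).1 hP a b hab T h1.1 T' h2.1 (h1.2.trans h2.2.symm) he

/-- the properties of the cover of the outer leftover pairs -/
structure Outer (A : Tri α → Prop) (O U' : Finset α) (R L : Gr α) (P2 : Finset (Tri α)) : Prop where
  all : ∀ T ∈ P2, A T
  pack : Packing P2
  shape : ∀ T ∈ P2, ∃ a b c : Fin 3, a ≠ b ∧ a ≠ c ∧ b ≠ c ∧ vt T a ∈ O ∧ vt T b ∈ O ∧ vt T c ∈ U' ∧
        Adj L a b (vt T a) (vt T b) ∧ Adj R a c (vt T a) (vt T c) ∧
        Adj R b c (vt T b) (vt T c)
  covers : ∀ a b : Fin 3, a ≠ b → ∀ x ∈ O, ∀ y ∈ O, Adj L a b x y → Adj (cov P2) a b x y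

/-- remaining partners -/
def Rem (U' : Finset α) (R L : Gr α) (P2 : Finset (Tri α)) (a b : Fin 3) (x : α) : Finset α :=
  U'.filter fun u => (Adj L a b x u ∨ Adj R a b x u) ∧ ¬ Adj (cov P2) a b x u

section
variable {A : Tri α → Prop} [DecidablePred A] {O U' : Finset α} {R Z L : Gr α}
    {s0 s1 a1 c0 f e1 Δ : ℕ} {P2 : Finset (Tri α)}

/-- every pair of `P2` with an end `x ∈ O` of class `a`: either the class `b` vertex is in `O` and
the pair is in `L`, or it is in `U'`, the pair is in `R` and the third vertex is an `L`-neighbour -/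
theorem Outer.pair (hOU : Disjoint O U') (h : Outer A O U' R L P2) {T : Tri α} (hT : T ∈ P2)
    {a b c : Fin 3} (hab : a ≠ b) (hac : a ≠ c) (hbc : b ≠ c) (ha : vt T a ∈ O) :
    (vt T b ∈ O ∧ vt T c ∈ U' ∧ Adj L a b (vt T a) (vt T b) ∧ Adj R a c (vt T a) (vt T c) ∧
      Adj R b c (vt T b) (vt T c)) ∨
      (vt T b ∈ U' ∧ vt T c ∈ O ∧ Adj R a b (vt T a) (vt T b) ∧ Adj L a c (vt T a) (vt T c) ∧
      Adj R c b (vt T c) (vt T b)) := by
  obtain ⟨a', b', c', hab', hac', hbc', h1, h2, h3, h4, h5, h6⟩ := h.shape T hT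
  have hno : ∀ {u : α}, u ∈ O → u ∈ U' → False := fun h h' => disjoint_left.1 hOU h h'
  have hac2 : a ≠ c' := by rintro rfl; exact hno ha h3
  rcases class_cases hab hac hbc a' with rfl | rfl | rfl
  · rcases class_cases hab hac hbc b' with rfl | rfl | rfl
    · exact absurd rfl hab'
    · obtain rfl : c' = c := by
        rcases class_cases hab hac hbc c' with h | h | h
        · exact absurd h.symm hac2
        · exact absurd h.symm hbc'
        · exact h
      exact Or.inl ⟨h2, h3, h4, h5, h6⟩
    · obtain rfl : c' = b := by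
        rcases class_cases hab hac hbc c' with h | h | h
        · exact absurd h.symm hac2
        · exact h
        · exact absurd h.symm hbc'
      exact Or.inr ⟨h3, h2, h5, h4, h6⟩
  · rcases class_cases hab hac hbc b' with rfl | rfl | rfl
    · obtain rfl : c' = c := by
        rcases class_cases hab hac hbc c' with h | h | h
        · exact absurd h.symm hac2
        · exact absurd h.symm hac'
        · exact h
      exact Or.inl ⟨h1, h3, (Adj_comm L hab' _ _).1 h4, h6, h5⟩
    · exact absurd rfl hab'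
    · exfalso
      rcases class_cases hab hac hbc c' with h | h | h
      · exact hac2 h.symm
      · exact hac' h.symm
      · exact hbc' h.symm
  · rcases class_cases hab hac hbc b' with rfl | rfl | rfl
    · obtain rfl : c' = b := by
        rcases class_cases hab hac hbc c' with h | h | h
        · exact absurd h.symm hac2
        · exact h
        · exact absurd h.symm hac'
      exact Or.inr ⟨h3, h1, h6, (Adj_comm L hab' _ _).1 h4, h5⟩
    · exfalso
      rcases class_cases hab hac hbc c' with h | h | h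
      · exact hac2 h.symm
      · exact hbc' h.symm
      · exact hac' h.symm
    · exact absurd rfl hab'

/-- at most `Δ` inner partners of `x ∈ O` are used by `P2` -/
theorem Outer.used (hOU : Disjoint O U') (h : Outer A O U' R L P2) (hL : Left O U' R L Δ)
    {a b c : Fin 3} (hab : a ≠ b) (hac : a ≠ c) (hbc : b ≠ c) {x : α} (hx : x ∈ O) :
    ((nbr (cov P2) a b x).filter fun u => u ∈ U').card ≤ Δ := by
  classical
  refine le_trans ?_ (hL.deg a c hac x)
  refine card_le_card_of_forall_subsingleton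
    (fun u z => ∃ T ∈ P2, vt T a = x ∧ vt T b = u ∧ vt T c = z) ?_ ?_
  · intro u hu
    rw [mem_filter, mem_nbr, adj_cov P2 hab] at hu
    obtain ⟨⟨T, hT, hTa, hTb⟩, huU⟩ := hu
    rcases h.pair hOU hT hab hac hbc (hTa ▸ hx) with h1 | h1
    · exact absurd huU (disjoint_left.1 hOU (hTb ▸ h1.1))
    · refine ⟨vt T c, ?_, T, hT, hTa, hTb, rfl⟩
      rw [mem_nbr, ← hTa]
      exact h1.2.2.2.1
  · rintro z - u ⟨-, T, hT, hTa, hTb, hTc⟩ u' ⟨-, T', hT', hTa', hTb', hTc'⟩
    have := (packing_iff P2).1 h.pack a c hac T hT T' hT' (hTa.trans hTa'.symm)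
      (hTc.trans hTc'.symm)
    rw [← hTb, ← hTb', this]

/-- decomposition of the neighbourhood of `x ∈ O` -/
theorem Outer.card_rem (hOU : Disjoint O U') (h : Outer A O U' R L P2) (hL : Left O U' R L Δ)
    (hR : Res A O U' R Z s0 s1 a1 c0 f e1) {a b : Fin 3} (hab : a ≠ b) {x : α} (hx : x ∈ O) :
    (Rem U' R L P2 a b x).card + (P2.filter fun T => vt T a = x).card =
      (nbr L a b x).card + (nbr R a b x).card := by
  classical
  obtain ⟨c, hac, hbc⟩ : ∃ c : Fin 3, a ≠ c ∧ b ≠ c := by
    revert a b; decide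
  have hno : ∀ {u : α}, u ∈ O → u ∈ U' → False := fun h h' => disjoint_left.1 hOU h h'
  rw [← card_nbr_cov h.pack hab x, ← card_union_of_disjoint, ← card_union_of_disjoint]
  · congr 1
    ext u
    simp only [mem_union, Rem, mem_filter, mem_nbr]
    constructor
    · rintro (⟨-, hu, -⟩ | hu)
      · exact hu
      · obtain ⟨T, hT, hTa, hTb⟩ := (adj_cov P2 hab x u).1 hu
        rcases h.pair hOU hT hab hac hbc (hTa ▸ hx) with h1 | h1
        · left; rw [← hTa, ← hTb]; exact h1.2.2.1
        · right; rw [← hTa, ← hTb]; exact h1.2.2.1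
    · intro hu
      by_cases hc : Adj (cov P2) a b x u
      · exact Or.inr hc
      · left
        refine ⟨?_, hu, hc⟩
        rcases hu with hu | hu
        · rcases hL.mem a b hab x u hu with ⟨-, h1 | h1⟩ | ⟨h1, -⟩
          · exact absurd (h.covers a b hab x hx u h1 hu) hc
          · exact h1
          · exact (hno hx h1).elim
        · rcases hR.mem a b hab x u hu with ⟨-, h1⟩ | ⟨h1, -⟩
          · exact h1
          · exact (hno hx h1).elim
  · rw [disjoint_left]
    intro u hu hu'
    rw [mem_nbr] at hu hu'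
    exact hL.disj a b hab x u hu hu'
  · rw [disjoint_left]
    intro u hu hu'
    rw [mem_nbr] at hu'
    exact (mem_filter.1 hu).2.2 hu'

theorem Outer.bal (hOU : Disjoint O U') (h : Outer A O U' R L P2) (hL : Left O U' R L Δ)
    (hR : Res A O U' R Z s0 s1 a1 c0 f e1) {a b c : Fin 3} (hab : a ≠ b) (hac : a ≠ c)
    (hbc : b ≠ c) {x : α} (hx : x ∈ O) :
    (Rem U' R L P2 a b x).card = (Rem U' R L P2 a c x).card := by
  have h1 := h.card_rem hOU hL hR hab hx
  have h2 := h.card_rem hOU hL hR hac hx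
  have h3 := hL.bal a b c hab hac hbc x hx
  omega

theorem rem_le (hL : Left O U' R L Δ) (hR : Res A O U' R Z s0 s1 a1 c0 f e1)
    {a b : Fin 3} (hab : a ≠ b) {x : α} (hx : x ∈ O) :
    (Rem U' R L P2 a b x).card ≤ s1 + Δ := by
  classical
  have h1 : Rem U' R L P2 a b x ⊆ nbr L a b x ∪ nbr R a b x := by
    intro u hu
    simp only [Rem, mem_filter] at hu
    simp only [mem_union, mem_nbr]
    exact hu.2.1
  have h2 := (card_le_card h1).trans (card_union_le _ _)
  have h3 := hL.deg a b hab x
  have h4 := (hR.degO a b hab x hx).2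
  omega

theorem Outer.le_rem (hOU : Disjoint O U') (h : Outer A O U' R L P2) (hL : Left O U' R L Δ)
    (hR : Res A O U' R Z s0 s1 a1 c0 f e1) {a b : Fin 3} (hab : a ≠ b) {x : α} (hx : x ∈ O) :
    s0 ≤ (Rem U' R L P2 a b x).card + Δ := by
  classical
  obtain ⟨c, hac, hbc⟩ : ∃ c : Fin 3, a ≠ c ∧ b ≠ c := by
    revert a b; decide
  have h1 : nbr R a b x ⊆ Rem U' R L P2 a b x ∪ (nbr (cov P2) a b x).filter fun u => u ∈ U' := by
    intro u hu
    rw [mem_nbr] at hu
    have huU : u ∈ U' := by
      rcases hR.mem a b hab x u hu with ⟨-, h1⟩ | ⟨h1, -⟩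
      · exact h1
      · exact absurd h1 (disjoint_left.1 hOU hx)
    simp only [Rem, mem_union, mem_filter, mem_nbr]
    by_cases hc : Adj (cov P2) a b x u
    · exact Or.inr ⟨hc, huU⟩
    · exact Or.inl ⟨huU, Or.inr hu, hc⟩
  have h2 := (card_le_card h1).trans (card_union_le _ _)
  have h3 := h.used hOU hL hab hac hbc hx
  have h4 := (hR.degO a b hab x hx).1
  omega

/-- remaining good partners -/
theorem rem_good (hL : Left O U' R L Δ) (hR : Res A O U' R Z s0 s1 a1 c0 f e1)
    {a b c : Fin 3} (hab : a ≠ b) (hac : a ≠ c) (hbc : b ≠ c) {x v : α} (hx : x ∈ O) (hv : v ∈ U') :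
    (Rem U' R L P2 a c x).card ≤
      ((Rem U' R L P2 a c x).filter fun w => A (tr a b x v w) ∧ ¬ Adj Z b c v w).card + f + Δ := by
  classical
  have h1 : Rem U' R L P2 a c x ⊆
      (((Rem U' R L P2 a c x).filter fun w => A (tr a b x v w) ∧ ¬ Adj Z b c v w) ∪
      (U'.filter fun w => Adj R a c x w ∧ (¬ A (tr a b x v w) ∨ Adj Z b c v w))) ∪
      nbr L a c x := by
    intro w hw
    have hw' := hw
    simp only [Rem, mem_filter] at hw'
    obtain ⟨hwU, hw1 | hw1, -⟩ := hw'
    · rw [mem_union, mem_nbr]; exact Or.inr hw1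
    · rw [mem_union]; left
      rw [mem_union]
      by_cases hg : A (tr a b x v w) ∧ ¬ Adj Z b c v w
      · exact Or.inl (mem_filter.2 ⟨hw, hg⟩)
      · right
        rw [mem_filter]
        refine ⟨hwU, hw1, ?_⟩
        by_cases hA : A (tr a b x v w)
        · right
          by_contra hZ
          exact hg ⟨hA, hZ⟩
        · exact Or.inl hA
  have h2 := (card_le_card h1).trans (card_union_le _ _)
  have h3 := card_union_le
    ((Rem U' R L P2 a c x).filter fun w => A (tr a b x v w) ∧ ¬ Adj Z b c v w)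
    (U'.filter fun w => Adj R a c x w ∧ (¬ A (tr a b x v w) ∨ Adj Z b c v w))
  have h4 := hR.bad a b c hab hac hbc x hx v hv
  have h5 := hL.deg a c hac x
  omega

/-- codegrees of the remaining partners -/
theorem rem_cod (hL : Left O U' R L Δ) (hR : Res A O U' R Z s0 s1 a1 c0 f e1)
    {a b : Fin 3} (hab : a ≠ b) {x x' : α} (hx : x ∈ O) (hx' : x' ∈ O) (hne : x ≠ x') :
    (Rem U' R L P2 a b x ∩ Rem U' R L P2 a b x').card ≤ e1 + 2 * Δ := by
  classical
  have h1 : Rem U' R L P2 a b x ∩ Rem U' R L P2 a b x' ⊆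
      ((U'.filter fun u => Adj R a b x u ∧ Adj R a b x' u) ∪ nbr L a b x) ∪ nbr L a b x' := by
    intro u hu
    simp only [mem_inter, Rem, mem_filter] at hu
    simp only [mem_union, mem_filter, mem_nbr]
    obtain ⟨⟨hU, h1 | h1, -⟩, -, h2 | h2, -⟩ := hu
    · exact Or.inr h2
    · exact Or.inl (Or.inr h1)
    · exact Or.inr h2
    · exact Or.inl (Or.inl ⟨hU, h1, h2⟩)
  have h2 := (card_le_card h1).trans (card_union_le _ _)
  have h3 := card_union_le (U'.filter fun u => Adj R a b x u ∧ Adj R a b x' u) (nbr L a b x)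
  have h4 := hR.cod a b hab x hx x' hx' hne
  have h5 := hL.deg a b hab x
  have h6 := hL.deg a b hab x'
  omega

/-- number of outer vertices which have `v` as a remaining partner -/
theorem rem_inv (hL : Left O U' R L Δ) (hR : Res A O U' R Z s0 s1 a1 c0 f e1)
    {a b : Fin 3} (hab : a ≠ b) {v : α} (hv : v ∈ U') :
    (O.filter fun x => v ∈ Rem U' R L P2 a b x).card ≤ a1 + Δ := by
  classical
  have h1 : (O.filter fun x => v ∈ Rem U' R L P2 a b x) ⊆ nbr R b a v ∪ nbr L b a v := by
    intro x hx
    simp only [mem_filter, Rem] at hx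
    simp only [mem_union, mem_nbr, ← Adj_comm R hab, ← Adj_comm L hab]
    exact hx.2.2.1.symm
  have h2 := (card_le_card h1).trans (card_union_le _ _)
  have h3 := hL.deg b a hab.symm v
  have h4 := hR.degU b a hab.symm v hv
  omega

end

end Pool.Agent.LAV
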