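import Pool.Agent.LAV.CVB

set_option autoImplicit false
set_option linter.unusedSectionVars false

/-!
# Project LAV: the inner matchings of the outer vertices
-/

namespace Pool.Agent.LAV

open Finset

variable {α : Type*} [DecidableEq α]
variable {A : Tri α → Prop} [DecidablePred A] {O U' : Finset α} {R Z L : Gr α}
    {s0 s1 a1 c0 f e1 Δ d B : ℕ} {μ : ℝ} {P2 : Finset (Tri α)}

/-- matchings for all outer vertices of one class -/
theorem inner (hOU : Disjoint O U') (h : Outer A O U' R L P2) (hL : Left O U' R L Δ)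
    (hR : Res A O U' R Z s0 s1 a1 c0 f e1)
    (hd : 0 < d) (hs : 2 * d + 2 * B + 2 * f + 4 * Δ ≤ s0)
    (hμ : ((a1 + Δ : ℕ) : ℝ) * (e1 + 2 * Δ : ℕ) + (s1 + Δ : ℕ) ≤ μ * d)
    (hB : (O.card : ℝ) * (2 * (s1 + Δ : ℕ)) * Real.exp μ < 2 ^ (B + 1))
    {a b c : Fin 3} (hab : a ≠ b) (hac : a ≠ c) (hbc : b ≠ c) :
    ∃ M : α → Finset (α × α),
      (∀ x ∈ O, IsPM (Rem U' R L P2 a b x) (Rem U' R L P2 a c x) (M x) ∧
        ∀ p ∈ M x, A (tr a b x p.1 p.2) ∧ ¬ Adj Z b c p.1 p.2) ∧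
      ∀ x ∈ O, ∀ x' ∈ O, x ≠ x' → Disjoint (M x) (M x') := by
  classical
  rcases O.eq_empty_or_nonempty with rfl | ⟨x0, hx0⟩
  · exact ⟨fun _ => ∅, fun x hx => absurd hx (notMem_empty x), fun x hx => absurd hx (notMem_empty x)⟩
  set T := O.card with hT
  set g : ℕ → α := fun i => if hi : i < T then (O.equivFin.symm ⟨i, hi⟩ : α) else x0 with hg
  set idx : α → ℕ := fun x => if hx : x ∈ O then (O.equivFin ⟨x, hx⟩ : ℕ) else 0 with hidx
  have gO : ∀ i, g i ∈ O := by
    intro i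
    simp only [hg]
    split_ifs
    · exact (O.equivFin.symm _).2
    · exact hx0
  have gidx : ∀ x ∈ O, g (idx x) = x := by
    intro x hx
    simp only [hg, hidx, dif_pos hx]
    rw [dif_pos (Fin.is_lt _)]
    simp
  have idxlt : ∀ x ∈ O, idx x < T := by
    intro x hx
    simp only [hidx, dif_pos hx]
    exact Fin.is_lt _
  have ginj : ∀ i < T, ∀ j < T, g i = g j → i = j := by
    intro i hi j hj hij
    simp only [hg, dif_pos hi, dif_pos hj] at hij
    have := O.equivFin.symm.injective (Subtype.ext hij)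
    simpa using this
  have hdR : (0 : ℝ) < d := by exact_mod_cast hd
  -- sum bound
  have hsum : ∀ (p q : Fin 3), a ≠ p → a ≠ q → ∀ x' < T, ∀ v ∈ Rem U' R L P2 a p (g x'),
      ∑ x ∈ (range T).filter (fun x => v ∈ Rem U' R L P2 a p (g x)),
        ((Rem U' R L P2 a q (g x) ∩ Rem U' R L P2 a q (g x')).card : ℝ) / d ≤ μ := by
    intro p q hap haq x' hx' v hv
    have hvU : v ∈ U' := (mem_filter.1 hv).1
    have c1 : ((range T).filter fun x => v ∈ Rem U' R L P2 a p (g x)).card ≤ a1 + Δ := by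
      refine le_trans ?_ (rem_inv (P2 := P2) hL hR hap hvU)
      refine card_le_card_of_injOn g ?_ ?_
      · intro i hi
        have hi' := mem_filter.1 (mem_coe.1 hi)
        exact mem_coe.2 (mem_filter.2 ⟨gO i, hi'.2⟩)
      · intro i hi j hj hij
        exact ginj i (mem_range.1 (mem_filter.1 (mem_coe.1 hi)).1) j
          (mem_range.1 (mem_filter.1 (mem_coe.1 hj)).1) hij
    have c2 : ∀ x ∈ (range T).filter (fun x => v ∈ Rem U' R L P2 a p (g x)),
        (Rem U' R L P2 a q (g x) ∩ Rem U' R L P2 a q (g x')).card ≤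
          (e1 + 2 * Δ) + if x = x' then s1 + Δ else 0 := by
      intro x hx
      have hxT := mem_range.1 (mem_filter.1 hx).1
      by_cases hxx : x = x'
      · rw [if_pos hxx]
        have := (card_le_card (inter_subset_left (s₁ := Rem U' R L P2 a q (g x))
          (s₂ := Rem U' R L P2 a q (g x')))).trans (rem_le (P2 := P2) hL hR haq (gO x))
        omega
      · rw [if_neg hxx]
        have hne : g x ≠ g x' := fun hh => hxx (ginj x hxT x' hx' hh)
        have := rem_cod (P2 := P2) hL hR haq (gO x) (gO x') hne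
        omega
    have c3 : ∑ x ∈ (range T).filter (fun x => v ∈ Rem U' R L P2 a p (g x)),
        (Rem U' R L P2 a q (g x) ∩ Rem U' R L P2 a q (g x')).card ≤
          (a1 + Δ) * (e1 + 2 * Δ) + (s1 + Δ) := by
      refine (sum_le_sum c2).trans ?_
      rw [sum_add_distrib, sum_const, smul_eq_mul, sum_ite_eq']
      have c4 := Nat.mul_le_mul_right (e1 + 2 * Δ) c1
      split_ifs
      · omega
      · omega
    rw [← sum_div, div_le_iff₀ hdR]
    refine le_trans ?_ hμ
    exact_mod_cast c3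
  obtain ⟨M, hM, hMd⟩ := matchings T B (fun i => Rem U' R L P2 a b (g i))
    (fun i => Rem U' R L P2 a c (g i))
    (fun i v w => A (tr a b (g i) v w) ∧ ¬ Adj Z b c v w) (fun _ => d) μ
    (fun i _ => h.bal hOU hL hR hab hac hbc (gO i)) (fun _ _ => hd)
    (by
      intro i _ v hv
      have e1' := rem_good (P2 := P2) hL hR hab hac hbc (gO i) (mem_filter.1 hv).1
      have e2 := h.bal hOU hL hR hab hac hbc (gO i)
      have e3 := h.le_rem hOU hL hR hab (gO i)
      omega)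
    (by
      intro i _ w hw
      have e1' := rem_good (P2 := P2) hL hR hac hab hbc.symm (gO i) (mem_filter.1 hw).1
      have e4 : ((Rem U' R L P2 a b (g i)).filter fun v =>
          A (tr a c (g i) w v) ∧ ¬ Adj Z c b w v) =
          (Rem U' R L P2 a b (g i)).filter fun v => A (tr a b (g i) v w) ∧ ¬ Adj Z b c v w := by
        refine filter_congr fun v _ => ?_
        rw [tr_rot hab hac hbc, Adj_comm Z hbc]
      rw [e4] at e1'
      have e3 := h.le_rem hOU hL hR hab (gO i)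
      omega)
    (hsum b c hab hac) (hsum c b hac hab)
    (by
      refine lt_of_le_of_lt ?_ hB
      refine mul_le_mul_of_nonneg_right ?_ (Real.exp_pos _).le
      have e5 : ∀ x ∈ range T, 2 * ((Rem U' R L P2 a b (g x)).card : ℝ) ≤ 2 * (s1 + Δ : ℕ) := by
        intro x _
        have := rem_le (P2 := P2) hL hR hab (gO x)
        have h2 : ((Rem U' R L P2 a b (g x)).card : ℝ) ≤ (s1 + Δ : ℕ) := by exact_mod_cast this
        linarith
      refine (sum_le_sum e5).trans ?_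
      rw [sum_const, card_range, nsmul_eq_mul])
  refine ⟨fun x => M (idx x), ?_, ?_⟩
  · intro x hx
    have h1 := hM (idx x) (idxlt x hx)
    rw [gidx x hx] at h1
    exact h1
  · intro x hx x' hx' hne
    refine hMd _ (idxlt x hx) _ (idxlt x' hx') fun hh => hne ?_
    rw [← gidx x hx, ← gidx x' hx', hh]

/-- the properties of the inner triples -/
structure Inner (A : Tri α → Prop) (O U' : Finset α) (R L Z : Gr α) (P2 P3 : Finset (Tri α)) :
    Prop where
  all : ∀ T ∈ P3, A T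
  shape : ∀ T ∈ P3, ∃ a b c : Fin 3, a ≠ b ∧ a ≠ c ∧ b ≠ c ∧ vt T a ∈ O ∧
    vt T b ∈ Rem U' R L P2 a b (vt T a) ∧ vt T c ∈ Rem U' R L P2 a c (vt T a) ∧
    ¬ Adj Z b c (vt T b) (vt T c)
  covers : ∀ a b : Fin 3, a ≠ b → ∀ x ∈ O, ∀ u ∈ Rem U' R L P2 a b x,
    ∃ T ∈ P3, vt T a = x ∧ vt T b = u
  uniqO : ∀ a b : Fin 3, a ≠ b → ∀ T ∈ P3, ∀ T' ∈ P3, vt T a ∈ O → vt T a = vt T' a →
    vt T b = vt T' b → T = T'
  uniqU : ∀ a b : Fin 3, a ≠ b → ∀ T ∈ P3, ∀ T' ∈ P3, vt T a ∈ U' → vt T b ∈ U' →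
    vt T a = vt T' a → vt T b = vt T' b → T = T'

/-- the first other class -/
def ob (a : Fin 3) : Fin 3 := if a = 0 then 1 else 0

/-- the second other class -/
def oc (a : Fin 3) : Fin 3 := if a = 2 then 1 else 2

theorem ob_oc : ∀ a : Fin 3, a ≠ ob a ∧ a ≠ oc a ∧ ob a ≠ oc a := by decide

theorem exists_inner (hOU : Disjoint O U') (h : Outer A O U' R L P2) (hL : Left O U' R L Δ)
    (hR : Res A O U' R Z s0 s1 a1 c0 f e1)
    (hd : 0 < d) (hs : 2 * d + 2 * B + 2 * f + 4 * Δ ≤ s0)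
    (hμ : ((a1 + Δ : ℕ) : ℝ) * (e1 + 2 * Δ : ℕ) + (s1 + Δ : ℕ) ≤ μ * d)
    (hB : (O.card : ℝ) * (2 * (s1 + Δ : ℕ)) * Real.exp μ < 2 ^ (B + 1)) :
    ∃ P3 : Finset (Tri α), Inner A O U' R L Z P2 P3 := by
  classical
  have hno : ∀ {u : α}, u ∈ O → u ∈ U' → False := fun h h' => disjoint_left.1 hOU h h'
  have hex := fun a : Fin 3 => inner hOU h hL hR hd hs hμ hB (ob_oc a).1 (ob_oc a).2.1 (ob_oc a).2.2
  choose M hM hMd using hex
  set P3 : Finset (Tri α) := univ.biUnion fun a : Fin 3 => O.biUnion fun x =>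
    (M a x).image fun p => tr a (ob a) x p.1 p.2 with hP3
  have hmem : ∀ T, T ∈ P3 ↔ ∃ a : Fin 3, ∃ x ∈ O, ∃ v w, (v, w) ∈ M a x ∧
      T = tr a (ob a) x v w := by
    intro T
    simp only [hP3, mem_biUnion, mem_univ, true_and, mem_image, Prod.exists]
    constructor
    · rintro ⟨a, x, hx, v, w, hvw, rfl⟩; exact ⟨a, x, hx, v, w, hvw, rfl⟩
    · rintro ⟨a, x, hx, v, w, hvw, rfl⟩; exact ⟨a, x, hx, v, w, hvw, rfl⟩
  have hU : ∀ a : Fin 3, ∀ x ∈ O, ∀ v w, (v, w) ∈ M a x → v ∈ U' ∧ w ∈ U' := by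
    intro a x hx v w hvw
    have := (hM a x hx).1.1 _ hvw
    exact ⟨(mem_filter.1 this.1).1, (mem_filter.1 this.2).1⟩
  have vta : ∀ (a : Fin 3) (x v w : α), vt (tr a (ob a) x v w) a = x := fun a x v w => vt_tr_fst _ _ _ _ _
  have vtb : ∀ (a : Fin 3) (x v w : α), vt (tr a (ob a) x v w) (ob a) = v :=
    fun a x v w => vt_tr_snd (ob_oc a).1 _ _ _
  have vtc : ∀ (a : Fin 3) (x v w : α), vt (tr a (ob a) x v w) (oc a) = w :=
    fun a x v w => vt_tr_trd (ob_oc a).2.1 (ob_oc a).2.2 _ _ _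
  have onlyO : ∀ (a : Fin 3), ∀ x ∈ O, ∀ v w, (v, w) ∈ M a x → ∀ k,
      vt (tr a (ob a) x v w) k ∈ O → k = a := by
    intro a x hx v w hvw k hk
    rcases class_cases (ob_oc a).1 (ob_oc a).2.1 (ob_oc a).2.2 k with h1 | h1 | h1
    · exact h1
    · rw [h1, vtb] at hk; exact (hno hk (hU a x hx v w hvw).1).elim
    · rw [h1, vtc] at hk; exact (hno hk (hU a x hx v w hvw).2).elim
  refine ⟨P3, ⟨?_, ?_, ?_, ?_, ?_⟩⟩
  · intro T hT
    obtain ⟨a, x, hx, v, w, hvw, rfl⟩ := (hmem T).1 hT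
    exact ((hM a x hx).2 _ hvw).1
  · intro T hT
    obtain ⟨a, x, hx, v, w, hvw, rfl⟩ := (hmem T).1 hT
    refine ⟨a, ob a, oc a, (ob_oc a).1, (ob_oc a).2.1, (ob_oc a).2.2, ?_⟩
    rw [vta, vtb, vtc]
    have h1 := (hM a x hx).1.1 _ hvw
    exact ⟨hx, h1.1, h1.2, ((hM a x hx).2 _ hvw).2⟩
  · intro a b hab x hx u hu
    rcases class_cases (ob_oc a).1 (ob_oc a).2.1 (ob_oc a).2.2 b with h1 | h1 | h1
    · exact absurd h1.symm hab
    · subst h1
      obtain ⟨w, hw⟩ := (hM a x hx).1.2.1 u hu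
      exact ⟨_, (hmem _).2 ⟨a, x, hx, u, w, hw, rfl⟩, vta _ _ _ _, vtb _ _ _ _⟩
    · subst h1
      obtain ⟨v, hv⟩ := (hM a x hx).1.2.2.1 u hu
      exact ⟨_, (hmem _).2 ⟨a, x, hx, v, u, hv, rfl⟩, vta _ _ _ _, vtc _ _ _ _⟩
  · intro a b hab T hT T' hT' hTO h1 h2
    obtain ⟨a', x, hx, v, w, hvw, rfl⟩ := (hmem T).1 hT
    obtain ⟨a'', x', hx', v', w', hvw', rfl⟩ := (hmem T').1 hT'
    obtain rfl : a = a' := onlyO a' x hx v w hvw a hTO
    obtain rfl : a = a'' := onlyO a'' x' hx' v' w' hvw' a (h1 ▸ hTO)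
    rw [vta, vta] at h1
    subst h1
    rcases class_cases (ob_oc a).1 (ob_oc a).2.1 (ob_oc a).2.2 b with h3 | h3 | h3
    · exact absurd h3.symm hab
    · rw [h3, vtb, vtb] at h2
      subst h2
      rw [(hM a x hx).1.2.2.2.1 v w w' hvw hvw']
    · rw [h3, vtc, vtc] at h2
      subst h2
      rw [(hM a x hx).1.2.2.2.2 v v' w hvw hvw']
  · intro a b hab T hT T' hT' hTa hTb h1 h2
    obtain ⟨a', x, hx, v, w, hvw, rfl⟩ := (hmem T).1 hT
    obtain ⟨a'', x', hx', v', w', hvw', rfl⟩ := (hmem T').1 hT'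
    have ha' : a ≠ a' := by rintro rfl; rw [vta] at hTa; exact hno hx hTa
    have hb' : b ≠ a' := by rintro rfl; rw [vta] at hTb; exact hno hx hTb
    have ha'' : a ≠ a'' := by
      rintro rfl
      rw [h1, vta] at hTa
      exact hno hx' hTa
    have hb'' : b ≠ a'' := by
      rintro rfl
      rw [h2, vta] at hTb
      exact hno hx' hTb
    have haa : a' = a'' := by
      by_contra hcon
      exact hab (fin3_aux a b a' a'' ha' ha'' hb' hb'' hcon)
    subst haa
    have hvw2 : v = v' ∧ w = w' := by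
      rcases class_cases (ob_oc a').1 (ob_oc a').2.1 (ob_oc a').2.2 a with h3 | h3 | h3
      · exact absurd h3 ha'
      · rcases class_cases (ob_oc a').1 (ob_oc a').2.1 (ob_oc a').2.2 b with h4 | h4 | h4
        · exact absurd h4 hb'
        · exact absurd (h3.trans h4.symm) hab
        · rw [h3, vtb, vtb] at h1
          rw [h4, vtc, vtc] at h2
          exact ⟨h1, h2⟩
      · rcases class_cases (ob_oc a').1 (ob_oc a').2.1 (ob_oc a').2.2 b with h4 | h4 | h4
        · exact absurd h4 hb'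
        · rw [h3, vtc, vtc] at h1
          rw [h4, vtb, vtb] at h2
          exact ⟨h2, h1⟩
        · exact absurd (h3.trans h4.symm) hab
    obtain ⟨rfl, rfl⟩ := hvw2
    have hxx : x = x' := by
      by_contra hne
      exact disjoint_left.1 (hMd a' x hx x' hx' hne) hvw hvw'
    rw [hxx]

end Pool.Agent.LAV
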