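import Pool.Agent.LAV.Defs

set_option autoImplicit false

/-!
# Project LAV: fractional Latin squares (output of step (A)) and sparseness
-/

namespace Pool.Agent.LAV

open Finset

variable {α : Type*} [DecidableEq α]

/-- every line through two labels of `U` has at most `b` forbidden completions in `W` -/
def Sparse (A : Tri α → Prop) [DecidablePred A] (U W : Finset α) (b : ℝ) : Prop :=
  ∀ x ∈ U, ∀ y ∈ U, ((W.filter fun u => ¬ A (u, x, y)).card : ℝ) ≤ b ∧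
    ((W.filter fun u => ¬ A (x, u, y)).card : ℝ) ≤ b ∧
    ((W.filter fun u => ¬ A (x, y, u)).card : ℝ) ≤ b

/-- a fractional Latin square on the labels `U`, supported exactly on the allowed triples, all
weights of order `1 / |U|` -/
structure FracLS (A : Tri α → Prop) (U : Finset α) (c0 C0 : ℝ) (w0 : Tri α → ℝ) : Prop where
  lo : ∀ r ∈ U, ∀ c ∈ U, ∀ k ∈ U, A (r, c, k) → c0 / U.card ≤ w0 (r, c, k)
  up : ∀ r ∈ U, ∀ c ∈ U, ∀ k ∈ U, w0 (r, c, k) ≤ C0 / U.card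
  nn : ∀ r ∈ U, ∀ c ∈ U, ∀ k ∈ U, 0 ≤ w0 (r, c, k)
  zero : ∀ r ∈ U, ∀ c ∈ U, ∀ k ∈ U, ¬ A (r, c, k) → w0 (r, c, k) = 0
  line : ∀ x ∈ U, ∀ y ∈ U, ∑ u ∈ U, w0 (x, y, u) = 1 ∧ ∑ u ∈ U, w0 (x, u, y) = 1 ∧
      ∑ u ∈ U, w0 (u, x, y) = 1

end Pool.Agent.LAV
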