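import Mathlib

set_option autoImplicit false

/-!
# Project LAV: disjoint perfect matchings

`exists_pm`: a balanced bipartite graph with all degrees at least half has a perfect matching.
`exists_pms`: with degrees at least `s/2 + d` there are `d` pairwise disjoint ones.
-/

namespace Pool.Agent.LAV

open Finset

variable {V W : Type*} [DecidableEq V] [DecidableEq W]

/-- `M` is a perfect matching between `X` and `Y` -/
def IsPM (X : Finset V) (Y : Finset W) (M : Finset (V × W)) : Prop :=
  (∀ p ∈ M, p.1 ∈ X ∧ p.2 ∈ Y) ∧ (∀ v ∈ X, ∃ w, (v, w) ∈ M) ∧ (∀ w ∈ Y, ∃ v, (v, w) ∈ M) ∧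
    (∀ v w w', (v, w) ∈ M → (v, w') ∈ M → w = w') ∧
    (∀ v v' w, (v, w) ∈ M → (v', w) ∈ M → v = v')

theorem exists_pm (X : Finset V) (Y : Finset W) (E : V → W → Prop) [∀ v w, Decidable (E v w)]
    (hc : X.card = Y.card) (hX : ∀ v ∈ X, X.card ≤ 2 * (Y.filter fun w => E v w).card)
    (hY : ∀ w ∈ Y, X.card ≤ 2 * (X.filter fun v => E v w).card) :
    ∃ M : Finset (V × W), IsPM X Y M ∧ ∀ p ∈ M, E p.1 p.2 := by
  classical
  have hall : ∃ f : {v // v ∈ X} → W, Function.Injective f ∧
      ∀ v, f v ∈ Y.filter fun w => E v.1 w := by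
    refine (Finset.all_card_le_biUnion_card_iff_exists_injective
      (fun v : {v // v ∈ X} => Y.filter fun w => E v.1 w)).1 ?_
    intro S
    rcases S.eq_empty_or_nonempty with rfl | ⟨v0, hv0⟩
    · simp
    have hSX : S.card ≤ X.card := by
      have := S.card_le_univ
      rwa [Fintype.card_coe] at this
    by_cases hS : 2 * S.card ≤ X.card
    · have h1 := hX v0.1 v0.2
      have h2 : (Y.filter fun w => E v0.1 w).card ≤
          (S.biUnion fun v : {v // v ∈ X} => Y.filter fun w => E v.1 w).card :=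
        card_le_card (subset_biUnion_of_mem (fun v : {v // v ∈ X} => Y.filter fun w => E v.1 w) hv0)
      omega
    · have h1 : Y ⊆ S.biUnion fun v : {v // v ∈ X} => Y.filter fun w => E v.1 w := by
        intro w hw
        by_contra hcon
        have h2 : (X.filter fun v => E v w) ⊆ X \ S.image (fun v => v.1) := by
          intro v hv
          rw [mem_filter] at hv
          rw [mem_sdiff]
          refine ⟨hv.1, fun h3 => hcon ?_⟩
          obtain ⟨v', hv', rfl⟩ := mem_image.1 h3
          exact mem_biUnion.2 ⟨v', hv', mem_filter.2 ⟨hw, hv.2⟩⟩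
        have h3 := card_le_card h2
        have h4 : (S.image fun v => v.1) ⊆ X := by
          intro v hv
          obtain ⟨v', -, rfl⟩ := mem_image.1 hv
          exact v'.2
        rw [card_sdiff_of_subset h4, card_image_of_injective _ Subtype.val_injective] at h3
        have h5 := hY w hw
        omega
      have h2 := card_le_card h1
      omega
  obtain ⟨f, hf, hfY⟩ := hall
  have hfY' : ∀ v, f v ∈ Y := fun v => (mem_filter.1 (hfY v)).1
  have hsurj : ∀ w ∈ Y, ∃ v, f v = w := by
    have h1 : univ.image f = Y := by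
      refine eq_of_subset_of_card_le ?_ ?_
      · intro w hw
        obtain ⟨v, -, rfl⟩ := mem_image.1 hw
        exact hfY' v
      · rw [card_image_of_injective _ hf, card_univ, Fintype.card_coe, hc]
    intro w hw
    rw [← h1] at hw
    obtain ⟨v, -, h⟩ := mem_image.1 hw
    exact ⟨v, h⟩
  refine ⟨univ.image fun v : {v // v ∈ X} => (v.1, f v), ⟨?_, ?_, ?_, ?_, ?_⟩, ?_⟩
  · intro p hp
    obtain ⟨v, -, rfl⟩ := mem_image.1 hp
    exact ⟨v.2, hfY' v⟩
  · intro v hv
    exact ⟨f ⟨v, hv⟩, mem_image.2 ⟨⟨v, hv⟩, mem_univ _, rfl⟩⟩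
  · intro w hw
    obtain ⟨v, rfl⟩ := hsurj w hw
    exact ⟨v.1, mem_image.2 ⟨v, mem_univ _, rfl⟩⟩
  · intro v w w' h h'
    obtain ⟨x, -, hx⟩ := mem_image.1 h
    obtain ⟨y, -, hy⟩ := mem_image.1 h'
    simp only [Prod.mk.injEq] at hx hy
    rw [← hx.2, ← hy.2, Subtype.ext (hx.1.trans hy.1.symm)]
  · intro v v' w h h'
    obtain ⟨x, -, hx⟩ := mem_image.1 h
    obtain ⟨y, -, hy⟩ := mem_image.1 h'
    simp only [Prod.mk.injEq] at hx hy
    rw [← hx.1, ← hy.1, hf (hx.2.trans hy.2.symm)]
  · intro p hp
    obtain ⟨v, -, rfl⟩ := mem_image.1 hp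
    exact (mem_filter.1 (hfY v)).2

/-- `d` pairwise disjoint perfect matchings -/
theorem exists_pms (X : Finset V) (Y : Finset W) (hc : X.card = Y.card) (d : ℕ) :
    ∀ (E : V → W → Prop) [∀ v w, Decidable (E v w)],
    (∀ v ∈ X, X.card + 2 * d ≤ 2 * (Y.filter fun w => E v w).card + 1) →
    (∀ w ∈ Y, X.card + 2 * d ≤ 2 * (X.filter fun v => E v w).card + 1) →
    ∃ F : Fin d → Finset (V × W), (∀ i, IsPM X Y (F i) ∧ ∀ p ∈ F i, E p.1 p.2) ∧
      ∀ i j, i ≠ j → Disjoint (F i) (F j) := by
  classical
  induction d with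
  | zero => intro E _ _ _; exact ⟨fun i => i.elim0, fun i => i.elim0, fun i => i.elim0⟩
  | succ d ih =>
    intro E _ hX hY
    obtain ⟨M, hM, hME⟩ := exists_pm X Y E hc (fun v hv => by have := hX v hv; omega)
      (fun w hw => by have := hY w hw; omega)
    obtain ⟨F, hF, hFd⟩ := ih (fun v w => E v w ∧ (v, w) ∉ M) (by
      intro v hv
      obtain ⟨w0, hw0⟩ := hM.2.1 v hv
      have h1 : (Y.filter fun w => E v w) ⊆ insert w0 (Y.filter fun w => E v w ∧ (v, w) ∉ M) := by
        intro w hw
        rw [mem_filter] at hw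
        rw [mem_insert, mem_filter]
        by_cases h : (v, w) ∈ M
        · exact Or.inl (hM.2.2.2.1 v w w0 h hw0)
        · exact Or.inr ⟨hw.1, hw.2, h⟩
      have h2 := (card_le_card h1).trans (card_insert_le _ _)
      have h3 := hX v hv
      omega) (by
      intro w hw
      obtain ⟨v0, hv0⟩ := hM.2.2.1 w hw
      have h1 : (X.filter fun v => E v w) ⊆ insert v0 (X.filter fun v => E v w ∧ (v, w) ∉ M) := by
        intro v hv
        rw [mem_filter] at hv
        rw [mem_insert, mem_filter]
        by_cases h : (v, w) ∈ M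
        · exact Or.inl (hM.2.2.2.2 v v0 w h hv0)
        · exact Or.inr ⟨hv.1, hv.2, h⟩
      have h2 := (card_le_card h1).trans (card_insert_le _ _)
      have h3 := hY w hw
      omega)
    refine ⟨Fin.cons M F, ?_, ?_⟩
    · intro i
      refine Fin.cases ?_ (fun i => ?_) i
      · rw [Fin.cons_zero]; exact ⟨hM, hME⟩
      · rw [Fin.cons_succ]; exact ⟨(hF i).1, fun p hp => ((hF i).2 p hp).1⟩
    · have h0 : ∀ i, Disjoint M (F i) := by
        intro i
        rw [disjoint_left]
        intro p hp hp'
        exact ((hF i).2 p hp').2 hp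
      intro i j hij
      induction i using Fin.cases with
      | zero =>
        induction j using Fin.cases with
        | zero => exact absurd rfl hij
        | succ j => rw [Fin.cons_zero, Fin.cons_succ]; exact h0 j
      | succ i =>
        induction j using Fin.cases with
        | zero => rw [Fin.cons_zero, Fin.cons_succ]; exact (h0 i).symm
        | succ j =>
          rw [Fin.cons_succ, Fin.cons_succ]
          exact hFd i j fun h => hij (by rw [h])

end Pool.Agent.LAV
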