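/-
LAV (MP_ba4857_co).  Random greedy with an exponential potential: the analytic step.
-/
import Pool.Agent.LAV.COR1

namespace Pool.LAV

open Finset

/-- One step of an exponential potential: `X` decreases by `Δ`, normalised by `h`, then `h'`. -/
theorem gstep {Ω : Type*} [Fintype Ω] {p Δ : Ω → ℝ} (hp : ∀ ω, 0 ≤ p ω) (hp1 : ∑ ω, p ω = 1)
    {B M X h h' Λ σ : ℝ} (hΔ0 : ∀ ω, 0 ≤ Δ ω) (hΔB : ∀ ω, Δ ω ≤ B) (hM : ∑ ω, p ω * Δ ω = M)
    (hh' : 0 < h') (hΛ : 0 ≤ Λ) (hσ : σ = 1 ∨ σ = -1)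
    (hsmall : Λ * (|X / h' - X / h| + B / h') ≤ 1) :
    ∑ ω, p ω * Real.exp (Λ * (σ * ((X - Δ ω) / h' - X / h))) ≤
      Real.exp (Λ * |X / h' - X / h - M / h'| +
        2 * Λ ^ 2 * ((X / h' - X / h) ^ 2 + B * M / h' ^ 2)) := by
  obtain ⟨a, ha⟩ : ∃ a, a = X / h' - X / h := ⟨_, rfl⟩
  rw [← ha] at hsmall ⊢
  have hσ1 : |σ| = 1 := by rcases hσ with h | h <;> rw [h] <;> norm_num
  have hσ2 : σ ^ 2 = 1 := by rcases hσ with h | h <;> rw [h] <;> norm_num
  have hz : ∀ ω, Λ * (σ * ((X - Δ ω) / h' - X / h)) = Λ * (σ * (a - Δ ω / h')) := by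
    intro ω; rw [ha]; ring
  have hq : ∀ ω, Δ ω / h' ≤ B / h' := fun ω => div_le_div_of_nonneg_right (hΔB ω) hh'.le
  have hq0 : ∀ ω, 0 ≤ Δ ω / h' := fun ω => div_nonneg (hΔ0 ω) hh'.le
  have hzabs : ∀ ω, |Λ * (σ * (a - Δ ω / h'))| ≤ 1 := by
    intro ω
    rw [abs_mul, abs_mul, hσ1, one_mul, abs_of_nonneg hΛ]
    refine le_trans (mul_le_mul_of_nonneg_left ?_ hΛ) hsmall
    calc |a - Δ ω / h'| ≤ |a| + |Δ ω / h'| := abs_sub _ _
      _ ≤ |a| + B / h' := by rw [abs_of_nonneg (hq0 ω)]; linarith [hq ω]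
  have hpt : ∀ ω, Real.exp (Λ * (σ * ((X - Δ ω) / h' - X / h))) ≤
      1 + Λ * (σ * (a - Δ ω / h')) + 2 * Λ ^ 2 * (a ^ 2 + B * Δ ω / h' ^ 2) := by
    intro ω
    rw [hz]
    have h1 := Real.abs_exp_sub_one_sub_id_le (hzabs ω)
    have h2 := (abs_le.mp h1).2
    have h3 : (Λ * (σ * (a - Δ ω / h'))) ^ 2 ≤ 2 * Λ ^ 2 * (a ^ 2 + B * Δ ω / h' ^ 2) := by
      have e : (Λ * (σ * (a - Δ ω / h'))) ^ 2 = Λ ^ 2 * (a - Δ ω / h') ^ 2 := by
        calc _ = Λ ^ 2 * σ ^ 2 * (a - Δ ω / h') ^ 2 := by ring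
          _ = _ := by rw [hσ2]; ring
      rw [e]
      have h4 : (a - Δ ω / h') ^ 2 ≤ 2 * (a ^ 2 + (Δ ω / h') ^ 2) := by
        nlinarith [sq_nonneg (a + Δ ω / h')]
      have h5 : (Δ ω / h') ^ 2 ≤ B * Δ ω / h' ^ 2 := by
        rw [div_pow]
        refine div_le_div_of_nonneg_right ?_ (by positivity)
        nlinarith [hΔ0 ω, hΔB ω]
      nlinarith [sq_nonneg Λ]
    linarith
  calc ∑ ω, p ω * Real.exp (Λ * (σ * ((X - Δ ω) / h' - X / h)))
      ≤ ∑ ω, p ω * (1 + Λ * (σ * (a - Δ ω / h')) + 2 * Λ ^ 2 * (a ^ 2 + B * Δ ω / h' ^ 2)) :=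
        Finset.sum_le_sum fun ω _ => mul_le_mul_of_nonneg_left (hpt ω) (hp ω)
    _ = 1 + Λ * (σ * (a - M / h')) + 2 * Λ ^ 2 * (a ^ 2 + B * M / h' ^ 2) := by
        have e : ∀ ω, p ω * (1 + Λ * (σ * (a - Δ ω / h')) +
            2 * Λ ^ 2 * (a ^ 2 + B * Δ ω / h' ^ 2)) =
            p ω * (1 + Λ * σ * a + 2 * Λ ^ 2 * a ^ 2) +
              (p ω * Δ ω) * (2 * Λ ^ 2 * B / h' ^ 2 - Λ * σ / h') := by
          intro ω; ring
        simp_rw [e]
        rw [Finset.sum_add_distrib, ← Finset.sum_mul, ← Finset.sum_mul, hp1, hM]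
        ring
    _ ≤ 1 + (Λ * |a - M / h'| + 2 * Λ ^ 2 * (a ^ 2 + B * M / h' ^ 2)) := by
        have h1 : Λ * (σ * (a - M / h')) ≤ Λ * |a - M / h'| := by
          refine mul_le_mul_of_nonneg_left ?_ hΛ
          calc σ * (a - M / h') ≤ |σ * (a - M / h')| := le_abs_self _
            _ = |a - M / h'| := by rw [abs_mul, hσ1, one_mul]
        linarith
    _ ≤ _ := by
        have := Real.add_one_le_exp (Λ * |a - M / h'| + 2 * Λ ^ 2 * (a ^ 2 + B * M / h' ^ 2))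
        linarith

/-- Numerical lemma for the line sums. -/
theorem numQ {s E0 ε X W M b Λ : ℝ} (hs : 20 ≤ s) (hE0 : 0 < E0) (hε0 : 0 < ε) (hε : ε ≤ 1 / 10)
    (hX1 : (1 - ε) * (s / E0) ^ 2 ≤ X) (hX2 : X ≤ (1 + ε) * (s / E0) ^ 2)
    (hW1 : (1 - ε) * (s / E0) ^ 2 * s ≤ W) (hW2 : W ≤ (1 + ε) * (s / E0) ^ 2 * s)
    (hM1 : 2 * (1 - ε) * (s / E0) ^ 2 * X / W ≤ M) (hM2 : M ≤ 2 * (1 + ε) * (s / E0) ^ 2 * X / W)
    (hb : 0 ≤ b) (hsε : 1 / s ≤ ε * (4 / 5)) (hΛ : 0 ≤ Λ)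
    (hΛs : Λ * (1 / s + b / ((s - 1) / E0) ^ 2) ≤ ε / 13) :
    Λ * (|X / ((s - 1) / E0) ^ 2 - X / (s / E0) ^ 2| + 2 * b / ((s - 1) / E0) ^ 2) ≤ 1 ∧
    Λ * |X / ((s - 1) / E0) ^ 2 - X / (s / E0) ^ 2 - M / ((s - 1) / E0) ^ 2| +
      2 * Λ ^ 2 * ((X / ((s - 1) / E0) ^ 2 - X / (s / E0) ^ 2) ^ 2 +
        2 * b * M / (((s - 1) / E0) ^ 2) ^ 2) ≤ Λ * (10 * ε / s) := by
  have hs0 : 0 < s := by linarith
  have hs1 : 0 < s - 1 := by linarith
  obtain ⟨h, hh⟩ : ∃ h, h = (s / E0) ^ 2 := ⟨_, rfl⟩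
  obtain ⟨h', hh'⟩ : ∃ h', h' = ((s - 1) / E0) ^ 2 := ⟨_, rfl⟩
  have hpos : 0 < h := by rw [hh]; positivity
  have hpos' : 0 < h' := by rw [hh']; positivity
  have hrel : h' = h * (1 - 1 / s) ^ 2 := by
    rw [hh, hh']
    field_simp
  rw [← hh] at hX1 hX2 hW1 hW2 hM1 hM2 ⊢
  rw [← hh'] at hΛs ⊢
  have hXpos : 0 < X := lt_of_lt_of_le (by nlinarith) hX1
  have hWpos : 0 < W := lt_of_lt_of_le (by have : 0 < (1 - ε) * h := by nlinarith
                                           positivity) hW1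
  -- x' = X / h'
  obtain ⟨x, hx⟩ : ∃ x, x = X / h' := ⟨_, rfl⟩
  have hxpos : 0 < x := by rw [hx]; positivity
  have h1s : 1 / s ≤ 1 / 20 := one_div_le_one_div_of_le (by norm_num) hs
  have h1s0 : 0 < 1 / s := by positivity
  have hxle : x ≤ 5 / 4 := by
    rw [hx, div_le_iff₀ hpos', hrel]
    have h1 : (9 / 10 : ℝ) ≤ (1 - 1 / s) ^ 2 := by nlinarith
    calc X ≤ (1 + ε) * h := hX2
      _ ≤ (11 / 10) * h := by nlinarith
      _ ≤ 5 / 4 * (h * (9 / 10)) := by nlinarith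
      _ ≤ 5 / 4 * (h * (1 - 1 / s) ^ 2) := by
          refine mul_le_mul_of_nonneg_left ?_ (by norm_num)
          exact mul_le_mul_of_nonneg_left h1 hpos.le
  have ha : X / h' - X / h = x * (2 / s - (1 / s) ^ 2) := by
    have : X / h = x * (1 - 1 / s) ^ 2 := by
      rw [hx, hrel]
      have hne : (1 - 1 / s) ≠ 0 := by linarith [h1s] |> ne_of_gt
      field_simp
    rw [this, ← hx]
    ring
  have hM' : M / h' = x * (M / X) := by
    rw [hx]; field_simp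
  obtain ⟨ρ, hρ⟩ : ∃ ρ, ρ = M / X := ⟨_, rfl⟩
  have hρ1 : (2 - 4 * ε) / s ≤ ρ := by
    rw [hρ, div_le_div_iff₀ hs0 hXpos]
    have h2 : (2 - 4 * ε) * X * W ≤ 2 * (1 - ε) * h * X * s := by
      calc (2 - 4 * ε) * X * W ≤ (2 - 4 * ε) * X * ((1 + ε) * h * s) := by
            refine mul_le_mul_of_nonneg_left hW2 ?_
            exact mul_nonneg (by linarith) hXpos.le
        _ = (2 - 4 * ε) * (1 + ε) * (X * h * s) := by ring
        _ ≤ (2 * (1 - ε)) * (X * h * s) := by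
            refine mul_le_mul_of_nonneg_right ?_ (by positivity)
            nlinarith
        _ = _ := by ring
    have h3 : 2 * (1 - ε) * h * X ≤ M * W := by rwa [div_le_iff₀ hWpos] at hM1
    have h4 : (2 - 4 * ε) * X * W ≤ (M * s) * W := by nlinarith
    exact le_of_mul_le_mul_right h4 hWpos
  have hρ2 : ρ ≤ (2 + 9 / 2 * ε) / s := by
    rw [hρ, div_le_div_iff₀ hXpos hs0]
    have h3 : M * W ≤ 2 * (1 + ε) * h * X := by rwa [le_div_iff₀ hWpos] at hM2
    have h2 : 2 * (1 + ε) * h * X * s ≤ (2 + 9 / 2 * ε) * X * W := by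
      calc 2 * (1 + ε) * h * X * s = (2 * (1 + ε)) * (X * h * s) := by ring
        _ ≤ ((2 + 9 / 2 * ε) * (1 - ε)) * (X * h * s) := by
            refine mul_le_mul_of_nonneg_right ?_ (by positivity)
            nlinarith
        _ = (2 + 9 / 2 * ε) * X * ((1 - ε) * h * s) := by ring
        _ ≤ _ := by
            refine mul_le_mul_of_nonneg_left hW1 ?_
            positivity
    have h4 : (M * s) * W ≤ ((2 + 9 / 2 * ε) * X) * W := by nlinarith
    exact le_of_mul_le_mul_right h4 hWpos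
  have hρ0 : 0 ≤ ρ := le_trans (div_nonneg (by linarith) hs0.le) hρ1
  have hρ3 : ρ ≤ 5 / 2 / s := by
    refine hρ2.trans (div_le_div_of_nonneg_right ?_ hs0.le)
    linarith
  have ha0 : 0 ≤ x * (2 / s - (1 / s) ^ 2) := by
    refine mul_nonneg hxpos.le ?_
    have : 2 / s = 2 * (1 / s) := by ring
    rw [this]; nlinarith
  have ha1 : x * (2 / s - (1 / s) ^ 2) ≤ 5 / 2 / s := by
    have h2 : 2 / s - (1 / s) ^ 2 ≤ 2 / s := by nlinarith [sq_nonneg (1 / s)]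
    calc x * (2 / s - (1 / s) ^ 2) ≤ x * (2 / s) := mul_le_mul_of_nonneg_left h2 hxpos.le
      _ ≤ 5 / 4 * (2 / s) := mul_le_mul_of_nonneg_right hxle (by positivity)
      _ = _ := by ring
  have hdiff : |X / h' - X / h - M / h'| ≤ 7 * ε / s := by
    rw [ha, hM', ← hρ, ← mul_sub, abs_mul, abs_of_pos hxpos]
    have h5 : |2 / s - (1 / s) ^ 2 - ρ| ≤ (9 / 2 * ε) / s + (1 / s) ^ 2 := by
      have e1 : (2 - 4 * ε) / s = 2 / s - (4 * ε) / s := by ring
      have e2 : (2 + 9 / 2 * ε) / s = 2 / s + (9 / 2 * ε) / s := by ring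
      rw [e1] at hρ1
      rw [e2] at hρ2
      have h6 : (4 * ε) / s ≤ (9 / 2 * ε) / s :=
        div_le_div_of_nonneg_right (by linarith) hs0.le
      rw [abs_le]
      constructor
      · linarith [sq_nonneg (1 / s)]
      · linarith [sq_nonneg (1 / s)]
    have h7 : (1 / s) ^ 2 ≤ (4 / 5 * ε) / s := by
      calc (1 / s) ^ 2 = (1 / s) * (1 / s) := by ring
        _ ≤ (ε * (4 / 5)) * (1 / s) := mul_le_mul_of_nonneg_right hsε h1s0.le
        _ = _ := by ring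
    calc x * |2 / s - (1 / s) ^ 2 - ρ| ≤ (5 / 4) * ((9 / 2 * ε) / s + (4 / 5 * ε) / s) := by
          refine mul_le_mul hxle (h5.trans (by linarith)) (abs_nonneg _) (by norm_num)
      _ = (53 / 8) * ε / s := by ring
      _ ≤ 7 * ε / s := by
          refine div_le_div_of_nonneg_right ?_ hs0.le
          nlinarith
  have hBM : 2 * b * M / h' ^ 2 ≤ 25 / 4 * (b / h') / s := by
    have e : 2 * b * M / h' ^ 2 = 2 * (b / h') * (x * ρ) := by
      rw [hρ, hx]; field_simp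
    rw [e]
    have h8 : x * ρ ≤ 5 / 4 * (5 / 2 / s) := mul_le_mul hxle hρ3 hρ0 (by norm_num)
    calc 2 * (b / h') * (x * ρ) ≤ 2 * (b / h') * (5 / 4 * (5 / 2 / s)) :=
          mul_le_mul_of_nonneg_left h8 (by positivity)
      _ = _ := by ring
  have hBM0 : 0 ≤ 2 * b * M / h' ^ 2 := by
    have : 0 ≤ M := by
      have : M = ρ * X := by rw [hρ]; field_simp
      rw [this]; positivity
    positivity
  have hbh : 0 ≤ b / h' := by positivity
  constructor
  · rw [ha, abs_of_nonneg ha0]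
    have h9 : x * (2 / s - (1 / s) ^ 2) + 2 * b / h' ≤ 5 / 2 * (1 / s + b / h') := by
      have e1 : 5 / 2 / s = 5 / 2 * (1 / s) := by ring
      have e2 : 2 * b / h' = 2 * (b / h') := by ring
      rw [e1] at ha1; rw [e2]; linarith
    calc Λ * (x * (2 / s - (1 / s) ^ 2) + 2 * b / h')
        ≤ Λ * (5 / 2 * (1 / s + b / h')) := mul_le_mul_of_nonneg_left h9 hΛ
      _ = 5 / 2 * (Λ * (1 / s + b / h')) := by ring
      _ ≤ 5 / 2 * (ε / 13) := by linarith
      _ ≤ 1 := by linarith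
  · rw [← ha] at ha0 ha1
    have h10 : (X / h' - X / h) ^ 2 ≤ 25 / 4 * (1 / s) / s := by
      calc (X / h' - X / h) ^ 2 ≤ (5 / 2 / s) ^ 2 := pow_le_pow_left₀ ha0 ha1 2
        _ = _ := by ring
    have h11 : 2 * Λ ^ 2 * ((X / h' - X / h) ^ 2 + 2 * b * M / h' ^ 2) ≤ Λ * (ε / s) := by
      calc 2 * Λ ^ 2 * ((X / h' - X / h) ^ 2 + 2 * b * M / h' ^ 2)
          ≤ 2 * Λ ^ 2 * (25 / 4 * (1 / s) / s + 25 / 4 * (b / h') / s) := by
            refine mul_le_mul_of_nonneg_left (add_le_add h10 hBM) (by positivity)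
        _ = Λ * ((25 / 2) * (Λ * (1 / s + b / h')) / s) := by ring
        _ ≤ Λ * ((25 / 2) * (ε / 13) / s) := by
            refine mul_le_mul_of_nonneg_left ?_ hΛ
            refine div_le_div_of_nonneg_right ?_ hs0.le
            linarith
        _ ≤ Λ * (ε / s) := by
            refine mul_le_mul_of_nonneg_left ?_ hΛ
            refine div_le_div_of_nonneg_right ?_ hs0.le
            linarith
    have h12 : Λ * |X / h' - X / h - M / h'| ≤ Λ * (7 * ε / s) :=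
      mul_le_mul_of_nonneg_left hdiff hΛ
    have h13 : Λ * (7 * ε / s) + Λ * (ε / s) ≤ Λ * (10 * ε / s) := by
      rw [← mul_add]
      refine mul_le_mul_of_nonneg_left ?_ hΛ
      rw [← add_div]
      refine div_le_div_of_nonneg_right ?_ hs0.le
      linarith
    linarith

/-- Numerical lemma for the degrees. -/
theorem numD {s E0 ε X M N μ : ℝ} (hs : 20 ≤ s) (hE0 : 0 < E0) (hε0 : 0 < ε) (hε : ε ≤ 1 / 10)
    (hN : 0 < N) (hX0 : 0 ≤ X) (hX2 : X ≤ 2 * N * (s / E0))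
    (hM1 : (1 - ε) / (1 + ε) * X / s ≤ M) (hM2 : M ≤ (1 + ε) / (1 - ε) * X / s)
    (hμ : 0 ≤ μ) (hμs : μ * (10 * (N / s) + 6 / ((s - 1) / E0)) ≤ 4 * ε) :
    μ * (|X / ((s - 1) / E0) - X / (s / E0)| + 1 / ((s - 1) / E0)) ≤ 1 ∧
    μ * |X / ((s - 1) / E0) - X / (s / E0) - M / ((s - 1) / E0)| +
      2 * μ ^ 2 * ((X / ((s - 1) / E0) - X / (s / E0)) ^ 2 +
        1 * M / ((s - 1) / E0) ^ 2) ≤ μ * (N * (10 * ε / s)) := by
  have hs0 : 0 < s := by linarith
  have hs1 : 0 < s - 1 := by linarith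
  obtain ⟨g, hg⟩ : ∃ g, g = s / E0 := ⟨_, rfl⟩
  obtain ⟨g', hg'⟩ : ∃ g', g' = (s - 1) / E0 := ⟨_, rfl⟩
  have hpos : 0 < g := by rw [hg]; positivity
  have hpos' : 0 < g' := by rw [hg']; positivity
  have hrel : g' = g * (1 - 1 / s) := by
    rw [hg, hg']
    field_simp
  rw [← hg] at hX2 ⊢
  rw [← hg'] at hμs ⊢
  obtain ⟨x, hx⟩ : ∃ x, x = X / g' := ⟨_, rfl⟩
  have hx0 : 0 ≤ x := by rw [hx]; positivity
  have h1s : 1 / s ≤ 1 / 20 := one_div_le_one_div_of_le (by norm_num) hs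
  have h1s0 : 0 < 1 / s := by positivity
  have hxle : x ≤ 22 / 10 * N := by
    rw [hx, div_le_iff₀ hpos', hrel]
    have h1 : (19 / 20 : ℝ) ≤ (1 - 1 / s) := by linarith
    calc X ≤ 2 * N * g := hX2
      _ ≤ 22 / 10 * N * (g * (19 / 20)) := by nlinarith [mul_pos hN hpos]
      _ ≤ 22 / 10 * N * (g * (1 - 1 / s)) := by
          refine mul_le_mul_of_nonneg_left ?_ (by positivity)
          exact mul_le_mul_of_nonneg_left h1 hpos.le
  have ha : X / g' - X / g = x / s := by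
    have : X / g = x * (1 - 1 / s) := by
      rw [hx, hrel]
      have hne : (1 - 1 / s) ≠ 0 := by linarith [h1s] |> ne_of_gt
      field_simp
    rw [this, ← hx]
    ring
  have hM1' : (1 - 2 * ε) * (x / s) ≤ M / g' := by
    have e : (1 - ε) / (1 + ε) * X / s / g' = (1 - ε) / (1 + ε) * (x / s) := by rw [hx]; ring
    calc (1 - 2 * ε) * (x / s) ≤ (1 - ε) / (1 + ε) * (x / s) := by
          refine mul_le_mul_of_nonneg_right ?_ (by positivity)
          rw [le_div_iff₀ (by linarith)]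
          nlinarith
      _ = (1 - ε) / (1 + ε) * X / s / g' := e.symm
      _ ≤ M / g' := div_le_div_of_nonneg_right hM1 hpos'.le
  have hM2' : M / g' ≤ (1 + 23 / 10 * ε) * (x / s) := by
    have e : (1 + ε) / (1 - ε) * X / s / g' = (1 + ε) / (1 - ε) * (x / s) := by rw [hx]; ring
    calc M / g' ≤ (1 + ε) / (1 - ε) * X / s / g' := div_le_div_of_nonneg_right hM2 hpos'.le
      _ = (1 + ε) / (1 - ε) * (x / s) := e
      _ ≤ _ := by
          refine mul_le_mul_of_nonneg_right ?_ (by positivity)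
          rw [div_le_iff₀ (by linarith)]
          nlinarith
  have hxs0 : 0 ≤ x / s := by positivity
  have hxs : x / s ≤ 22 / 10 * (N / s) := by
    calc x / s ≤ (22 / 10 * N) / s := div_le_div_of_nonneg_right hxle hs0.le
      _ = _ := by ring
  have hNs : 0 < N / s := by positivity
  have hdiff : |X / g' - X / g - M / g'| ≤ (506 / 100) * ε * (N / s) := by
    rw [ha]
    have h1 : |x / s - M / g'| ≤ 23 / 10 * ε * (x / s) := by
      rw [abs_le]
      constructor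
      · nlinarith
      · nlinarith
    calc |x / s - M / g'| ≤ 23 / 10 * ε * (x / s) := h1
      _ ≤ 23 / 10 * ε * (22 / 10 * (N / s)) := mul_le_mul_of_nonneg_left hxs (by positivity)
      _ = _ := by ring
  have hM0 : 0 ≤ M := by
    refine le_trans ?_ hM1
    have : 0 ≤ (1 - ε) / (1 + ε) := div_nonneg (by linarith) (by linarith)
    positivity
  have hMg : M / g' ^ 2 ≤ 275 / 100 * (N / s) * (1 / g') := by
    have e : M / g' ^ 2 = (M / g') * (1 / g') := by field_simp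
    rw [e]
    refine mul_le_mul_of_nonneg_right ?_ (by positivity)
    calc M / g' ≤ (1 + 23 / 10 * ε) * (x / s) := hM2'
      _ ≤ (5 / 4) * (22 / 10 * (N / s)) := mul_le_mul (by linarith) hxs hxs0 (by norm_num)
      _ = _ := by ring
  have h1g : 0 < 1 / g' := by positivity
  have h6g : 6 / g' = 6 * (1 / g') := by ring
  rw [h6g] at hμs
  constructor
  · rw [ha, abs_of_nonneg hxs0]
    calc μ * (x / s + 1 / g') ≤ μ * (10 * (N / s) + 6 * (1 / g')) := by
          refine mul_le_mul_of_nonneg_left ?_ hμ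
          linarith
      _ ≤ 4 * ε := hμs
      _ ≤ 1 := by linarith
  · have h10 : (X / g' - X / g) ^ 2 ≤ (22 / 10 * (N / s)) ^ 2 := by
      rw [ha]; exact pow_le_pow_left₀ hxs0 hxs 2
    have h11 : 2 * μ ^ 2 * ((X / g' - X / g) ^ 2 + 1 * M / g' ^ 2) ≤ μ * (N / s) * (4 * ε) := by
      rw [one_mul]
      calc 2 * μ ^ 2 * ((X / g' - X / g) ^ 2 + M / g' ^ 2)
          ≤ 2 * μ ^ 2 * ((22 / 10 * (N / s)) ^ 2 + 275 / 100 * (N / s) * (1 / g')) := by
            refine mul_le_mul_of_nonneg_left (add_le_add h10 hMg) (by positivity)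
        _ = μ * (N / s) * (μ * (968 / 100 * (N / s) + 55 / 10 * (1 / g'))) := by ring
        _ ≤ μ * (N / s) * (μ * (10 * (N / s) + 6 * (1 / g'))) := by
            refine mul_le_mul_of_nonneg_left ?_ (by positivity)
            refine mul_le_mul_of_nonneg_left ?_ hμ
            linarith
        _ ≤ μ * (N / s) * (4 * ε) := mul_le_mul_of_nonneg_left hμs (by positivity)
    have h12 : μ * |X / g' - X / g - M / g'| ≤ μ * ((506 / 100) * ε * (N / s)) :=
      mul_le_mul_of_nonneg_left hdiff hμ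
    have h13 : μ * ((506 / 100) * ε * (N / s)) + μ * (N / s) * (4 * ε) ≤
        μ * (N * (10 * ε / s)) := by
      have e : μ * (N * (10 * ε / s)) = μ * (10 * ε * (N / s)) := by ring
      rw [e]
      have : 0 ≤ μ * (ε * (N / s)) := by positivity
      nlinarith
    linarith

end Pool.LAV
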