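/-
LAV (MP_ba4857_co).  Random greedy: linear systems of triples, line weights and their decrements.
-/
import Pool.Agent.LAV.RG1

namespace Pool.LAV

open Finset

/-- A system of triples with three typed edges; two distinct triples share at most one edge. -/
structure TSys (T E : Type*) where
  ed : Fin 3 → T → E
  ty : E → Fin 3
  ty_ed : ∀ i t, ty (ed i t) = i
  lin : ∀ t t' i j, i ≠ j → ed i t = ed i t' → ed j t = ed j t' → t = t'

section

variable {T E : Type*} [Fintype T] [DecidableEq E] (Y : TSys T E)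

/-- `e` is an edge of `t`. -/
def TSys.On (e : E) (t : T) : Prop := Y.ed (Y.ty e) t = e

/-- The triple is available: none of its edges is used. -/
def TSys.Av (U : Finset E) (t : T) : Prop := ∀ i, Y.ed i t ∉ U

/-- The edges of a triple. -/
def TSys.es (t : T) : Finset E := univ.image fun i => Y.ed i t

/-- Weight of the available triples on an edge. -/
noncomputable def TSys.Q (w : T → ℝ) (U : Finset E) (e : E) : ℝ :=
  ∑ t, ind (Y.Av U t) * (ind (Y.On e t) * w t)

/-- Weight of all available triples. -/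
noncomputable def TSys.W (w : T → ℝ) (U : Finset E) : ℝ := ∑ t, ind (Y.Av U t) * w t

/-- Decrement of `Q` at `e` when `t'` is chosen. -/
noncomputable def TSys.Dl (w : T → ℝ) (U : Finset E) (e : E) (t' : T) : ℝ :=
  ∑ t, ind (Y.Av U t) * (ind (Y.On e t) * w t) *
    ∑ i ∈ univ.erase (Y.ty e), ind (Y.ed i t = Y.ed i t')

variable {Y}

omit [Fintype T] in
theorem mem_es {t : T} {e : E} : e ∈ Y.es t ↔ Y.On e t := by
  unfold TSys.es TSys.On
  rw [Finset.mem_image]
  constructor
  · rintro ⟨i, -, hi⟩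
    rw [← hi, Y.ty_ed]
  · intro h
    exact ⟨Y.ty e, Finset.mem_univ _, h⟩

omit [Fintype T] in
theorem on_ed (i : Fin 3) (t : T) : Y.On (Y.ed i t) t := by
  unfold TSys.On; rw [Y.ty_ed]

omit [Fintype T] in
theorem av_union {U : Finset E} {t t' : T} :
    Y.Av (U ∪ Y.es t') t ↔ Y.Av U t ∧ ∀ i, Y.ed i t ≠ Y.ed i t' := by
  unfold TSys.Av
  constructor
  · intro h
    refine ⟨fun i hi => h i (Finset.mem_union_left _ hi), fun i hi => ?_⟩
    refine h i (Finset.mem_union_right _ ?_)
    rw [mem_es, TSys.On, Y.ty_ed]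
    exact hi.symm
  · rintro ⟨h1, h2⟩ i hi
    rcases Finset.mem_union.mp hi with h | h
    · exact h1 i h
    · rw [mem_es, TSys.On, Y.ty_ed] at h
      exact h2 i h.symm

/-- Exact decrement for an edge which is not on the chosen triple. -/
theorem Q_union {w : T → ℝ} {U : Finset E} {e : E} {t' : T} (he : ¬ Y.On e t') :
    Y.Q w (U ∪ Y.es t') e = Y.Q w U e - Y.Dl w U e t' := by
  unfold TSys.Q TSys.Dl
  rw [← Finset.sum_sub_distrib]
  refine Finset.sum_congr rfl fun t _ => ?_
  by_cases ht : Y.On e t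
  swap
  · rw [ind_false ht]; ring
  by_cases hav : Y.Av U t
  swap
  · rw [ind_false hav, ind_false (fun h => hav (av_union.mp h).1)]; ring
  rw [ind_true ht, ind_true hav, one_mul, one_mul]
  -- the number of shared edges is 0 or 1
  have hty : Y.ed (Y.ty e) t ≠ Y.ed (Y.ty e) t' := by
    intro h
    apply he
    unfold TSys.On
    rw [← h]
    exact ht
  by_cases hall : ∀ i, Y.ed i t ≠ Y.ed i t'
  · rw [ind_true (av_union.mpr ⟨hav, hall⟩)]
    rw [Finset.sum_eq_zero (fun i _ => ind_false (hall i))]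
    ring
  · rw [ind_false (fun h => hall (av_union.mp h).2)]
    push Not at hall
    obtain ⟨i, hi⟩ := hall
    have hie : i ≠ Y.ty e := fun h => hty (by rw [← h]; exact hi)
    rw [Finset.sum_eq_single i]
    · rw [ind_true hi]; ring
    · intro j hj hji
      refine ind_false fun hj' => ?_
      have := Y.lin t t' i j (fun h => hji h.symm) hi hj'
      apply hty
      rw [this]
    · intro h
      exact absurd (Finset.mem_erase.mpr ⟨hie, Finset.mem_univ i⟩) h

theorem Q_nonneg {w : T → ℝ} (hw : ∀ t, 0 ≤ w t) (U : Finset E) (e : E) : 0 ≤ Y.Q w U e :=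
  Finset.sum_nonneg fun t _ => mul_nonneg (ind_nonneg _) (mul_nonneg (ind_nonneg _) (hw t))

theorem Dl_nonneg {w : T → ℝ} (hw : ∀ t, 0 ≤ w t) (U : Finset E) (e : E) (t' : T) :
    0 ≤ Y.Dl w U e t' :=
  Finset.sum_nonneg fun t _ => mul_nonneg (mul_nonneg (ind_nonneg _)
    (mul_nonneg (ind_nonneg _) (hw t))) (Finset.sum_nonneg fun _ _ => ind_nonneg _)

/-- The decrement is at most twice the maximal weight. -/
theorem Dl_le {w : T → ℝ} {b : ℝ} (hw : ∀ t, 0 ≤ w t) (hwb : ∀ t, w t ≤ b) (hb : 0 ≤ b)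
    (U : Finset E) (e : E) (t' : T) : Y.Dl w U e t' ≤ 2 * b := by
  unfold TSys.Dl
  have h1 : ∀ t, ind (Y.Av U t) * (ind (Y.On e t) * w t) *
      ∑ i ∈ univ.erase (Y.ty e), ind (Y.ed i t = Y.ed i t') ≤
      ∑ i ∈ univ.erase (Y.ty e), ind (Y.On e t ∧ Y.ed i t = Y.ed i t') * b := by
    intro t
    rw [Finset.mul_sum]
    refine Finset.sum_le_sum fun i _ => ?_
    rw [ind_and]
    calc ind (Y.Av U t) * (ind (Y.On e t) * w t) * ind (Y.ed i t = Y.ed i t')
        ≤ 1 * (ind (Y.On e t) * b) * ind (Y.ed i t = Y.ed i t') := by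
          refine mul_le_mul_of_nonneg_right ?_ (ind_nonneg _)
          exact mul_le_mul (ind_le_one _) (mul_le_mul_of_nonneg_left (hwb t) (ind_nonneg _))
            (mul_nonneg (ind_nonneg _) (hw t)) (by norm_num)
      _ = _ := by ring
  refine (Finset.sum_le_sum fun t _ => h1 t).trans ?_
  rw [Finset.sum_comm]
  have h2 : ∀ i ∈ univ.erase (Y.ty e), ∑ t, ind (Y.On e t ∧ Y.ed i t = Y.ed i t') * b ≤ b := by
    intro i hi
    have hie : Y.ty e ≠ i := fun h => (Finset.mem_erase.mp hi).1 h.symm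
    rw [← Finset.sum_mul]
    have h3 : ∑ t, ind (Y.On e t ∧ Y.ed i t = Y.ed i t') ≤ 1 := by
      by_cases hex : ∃ t0, Y.On e t0 ∧ Y.ed i t0 = Y.ed i t'
      · obtain ⟨t0, h4, h5⟩ := hex
        classical
        rw [Finset.sum_eq_single t0]
        · exact ind_le_one _
        · intro t _ ht
          refine ind_false fun h => ht ?_
          refine Y.lin t t0 (Y.ty e) i hie ?_ (h.2.trans h5.symm)
          have e1 : Y.ed (Y.ty e) t = e := h.1
          have e2 : Y.ed (Y.ty e) t0 = e := h4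
          rw [e1, e2]
        · intro h; exact absurd (Finset.mem_univ t0) h
      · rw [Finset.sum_eq_zero (fun t _ => ind_false (fun h => hex ⟨t, h⟩))]
        norm_num
    nlinarith
  refine (Finset.sum_le_sum h2).trans ?_
  rw [Finset.sum_const, Finset.card_erase_of_mem (Finset.mem_univ _), Finset.card_univ,
    Fintype.card_fin]
  norm_num

/-- Average decrement. -/
theorem Dl_mean (w : T → ℝ) (U : Finset E) (e : E) :
    ∑ t', ind (Y.Av U t') * w t' * Y.Dl w U e t' =
      ∑ t, ind (Y.Av U t) * (ind (Y.On e t) * w t) *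
        ∑ i ∈ univ.erase (Y.ty e), Y.Q w U (Y.ed i t) := by
  unfold TSys.Dl
  simp_rw [Finset.mul_sum]
  rw [Finset.sum_comm]
  refine Finset.sum_congr rfl fun t _ => ?_
  rw [Finset.sum_comm]
  refine Finset.sum_congr rfl fun i _ => ?_
  unfold TSys.Q
  rw [Finset.mul_sum]
  refine Finset.sum_congr rfl fun t' _ => ?_
  have : ind (Y.On (Y.ed i t) t') = ind (Y.ed i t = Y.ed i t') := by
    unfold TSys.On
    rw [Y.ty_ed]
    by_cases h : Y.ed i t = Y.ed i t'
    · rw [ind_true h, ind_true h.symm]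
    · rw [ind_false h, ind_false (fun h' => h h'.symm)]
  rw [this]
  ring

/-- Bounds for the average decrement. -/
theorem Dl_mean_bd {w : T → ℝ} (hw : ∀ t, 0 ≤ w t) (U : Finset E) (e : E) {q1 q2 : ℝ}
    (h1 : ∀ t i, Y.Av U t → w t ≠ 0 → q1 ≤ Y.Q w U (Y.ed i t))
    (h2 : ∀ t i, Y.Av U t → w t ≠ 0 → Y.Q w U (Y.ed i t) ≤ q2) :
    2 * q1 * Y.Q w U e ≤ ∑ t', ind (Y.Av U t') * w t' * Y.Dl w U e t' ∧
      ∑ t', ind (Y.Av U t') * w t' * Y.Dl w U e t' ≤ 2 * q2 * Y.Q w U e := by
  rw [Dl_mean]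
  have hc : ((univ.erase (Y.ty e) : Finset (Fin 3)).card : ℝ) = 2 := by
    rw [Finset.card_erase_of_mem (Finset.mem_univ _), Finset.card_univ, Fintype.card_fin]
    norm_num
  constructor
  · unfold TSys.Q at *
    rw [Finset.mul_sum]
    refine Finset.sum_le_sum fun t _ => ?_
    by_cases hav : Y.Av U t
    swap
    · rw [ind_false hav]; simp
    by_cases hwt : w t = 0
    · rw [hwt]; simp
    rw [mul_comm (2 * q1)]
    refine mul_le_mul_of_nonneg_left ?_ (mul_nonneg (ind_nonneg _)
      (mul_nonneg (ind_nonneg _) (hw t)))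
    calc 2 * q1 = ∑ _i ∈ univ.erase (Y.ty e), q1 := by
          rw [Finset.sum_const, nsmul_eq_mul, hc]
      _ ≤ _ := Finset.sum_le_sum fun i _ => h1 t i hav hwt
  · unfold TSys.Q at *
    rw [Finset.mul_sum]
    refine Finset.sum_le_sum fun t _ => ?_
    by_cases hav : Y.Av U t
    swap
    · rw [ind_false hav]; simp
    by_cases hwt : w t = 0
    · rw [hwt]; simp
    rw [mul_comm (2 * q2)]
    refine mul_le_mul_of_nonneg_left ?_ (mul_nonneg (ind_nonneg _)
      (mul_nonneg (ind_nonneg _) (hw t)))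
    calc _ ≤ ∑ _i ∈ univ.erase (Y.ty e), q2 := Finset.sum_le_sum fun i _ => h2 t i hav hwt
      _ = 2 * q2 := by rw [Finset.sum_const, nsmul_eq_mul, hc]

/-- Number of unused edges in a set. -/
noncomputable def TSys.D (_Y : TSys T E) (U V : Finset E) : ℝ := ∑ e ∈ V, ind (e ∉ U)

/-- Decrement of the number of unused edges. -/
noncomputable def TSys.dl (Y : TSys T E) (U V : Finset E) (t' : T) : ℝ :=
  ∑ e ∈ V, ind (e ∉ U) * ind (Y.On e t')

omit [Fintype T] in
theorem D_union (U V : Finset E) (t' : T) :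
    Y.D (U ∪ Y.es t') V = Y.D U V - Y.dl U V t' := by
  unfold TSys.D TSys.dl
  rw [← Finset.sum_sub_distrib]
  refine Finset.sum_congr rfl fun e _ => ?_
  by_cases h1 : e ∈ U
  · rw [ind_false (p := e ∉ U) (not_not.mpr h1),
      ind_false (p := e ∉ U ∪ Y.es t') (not_not.mpr (Finset.mem_union_left _ h1))]
    ring
  · by_cases h2 : Y.On e t'
    · rw [ind_true (p := e ∉ U) h1, ind_true h2,
        ind_false (p := e ∉ U ∪ Y.es t') (not_not.mpr (Finset.mem_union_right _ (mem_es.mpr h2)))]
      ring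
    · rw [ind_true (p := e ∉ U) h1, ind_false h2, ind_true (p := e ∉ U ∪ Y.es t') ?_]
      · ring
      · intro h
        rcases Finset.mem_union.mp h with h | h
        · exact h1 h
        · exact h2 (mem_es.mp h)

omit [Fintype T] in
theorem D_nonneg (U V : Finset E) : 0 ≤ Y.D U V := Finset.sum_nonneg fun _ _ => ind_nonneg _

omit [Fintype T] in
theorem dl_nonneg (U V : Finset E) (t' : T) : 0 ≤ Y.dl U V t' :=
  Finset.sum_nonneg fun _ _ => mul_nonneg (ind_nonneg _) (ind_nonneg _)

omit [Fintype T] in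
theorem dl_le {U V : Finset E} {i : Fin 3} (hV : ∀ e ∈ V, Y.ty e = i) (t' : T) :
    Y.dl U V t' ≤ 1 := by
  unfold TSys.dl
  calc ∑ e ∈ V, ind (e ∉ U) * ind (Y.On e t') ≤ ∑ e ∈ V, ind (e = Y.ed i t') := by
        refine Finset.sum_le_sum fun e he => ?_
        by_cases h : Y.On e t'
        · have : e = Y.ed i t' := by
            unfold TSys.On at h; rw [hV e he] at h; exact h.symm
          rw [ind_true h, ind_true this, mul_one]
          exact ind_le_one _
        · rw [ind_false h, mul_zero]; exact ind_nonneg _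
    _ ≤ 1 := by
        by_cases h : Y.ed i t' ∈ V
        · rw [Finset.sum_eq_single_of_mem _ h]
          · exact ind_le_one _
          · intro e _ he; exact ind_false he
        · rw [Finset.sum_eq_zero]
          · norm_num
          · intro e he
            exact ind_false (fun h' => h (h' ▸ he))

/-- Average decrement of the number of unused edges. -/
theorem dl_mean (w : T → ℝ) (U V : Finset E) :
    ∑ t', ind (Y.Av U t') * w t' * Y.dl U V t' = ∑ e ∈ V, ind (e ∉ U) * Y.Q w U e := by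
  unfold TSys.dl TSys.Q
  simp_rw [Finset.mul_sum]
  rw [Finset.sum_comm]
  refine Finset.sum_congr rfl fun e _ => Finset.sum_congr rfl fun t' _ => ?_
  ring

/-- The total weight is the sum of the line weights of one type. -/
theorem W_eq {w : T → ℝ} {U G : Finset E} {i : Fin 3} (hG : ∀ t, w t ≠ 0 → Y.ed i t ∈ G)
    (hty : ∀ e ∈ G, Y.ty e = i) :
    Y.W w U = ∑ e ∈ G, ind (e ∉ U) * Y.Q w U e := by
  unfold TSys.W TSys.Q
  simp_rw [Finset.mul_sum]
  rw [Finset.sum_comm]
  refine Finset.sum_congr rfl fun t _ => ?_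
  by_cases hav : Y.Av U t
  swap
  · rw [ind_false hav, zero_mul]
    rw [Finset.sum_eq_zero]; intro e _; ring
  by_cases hwt : w t = 0
  · rw [hwt]; simp
  rw [ind_true hav, one_mul, Finset.sum_eq_single_of_mem _ (hG t hwt)]
  · rw [ind_true (hav i), ind_true (on_ed i t)]; ring
  · intro e he hne
    rw [ind_false (p := Y.On e t)]
    · ring
    · intro h
      apply hne
      unfold TSys.On at h
      rw [← h, hty e he]

end

end Pool.LAV
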