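/-
LAV (MP_ba4857_co).  Random greedy: the potential and one step.
-/
import Pool.Agent.LAV.RG2

namespace Pool.LAV

open Finset

section

variable {T E : Type*} [Fintype T] [DecidableEq E]

/-- Fixed data of the random greedy process. -/
structure RGD (Y : TSys T E) (w : T → ℝ) (G : Finset E) (Vs : Finset (Finset E))
    (b E0 N Λ μ : ℝ) : Prop where
  w0 : ∀ t, 0 ≤ w t
  wb : ∀ t, w t ≤ b
  b0 : 0 ≤ b
  supp : ∀ t, w t ≠ 0 → ∀ i, Y.ed i t ∈ G
  E0pos : 0 < E0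
  Npos : 0 < N
  Λpos : 0 < Λ
  μpos : 0 < μ
  vty : ∀ V ∈ Vs, ∃ i, ∀ e ∈ V, Y.ty e = i
  vsub : ∀ V ∈ Vs, V ⊆ G

/-- Type 0 edges. -/
def G0 (Y : TSys T E) (G : Finset E) : Finset E := G.filter fun e => Y.ty e = 0

/-- Term of the potential for an edge. -/
noncomputable def Fe (Y : TSys T E) (w : T → ℝ) (Λ E0 : ℝ) (U : Finset E) (s ε σ : ℝ) (e : E) :
    ℝ := Real.exp (Λ * (σ * (Y.Q w U e / (s / E0) ^ 2 - 1) - ε))

/-- Term of the potential for a vertex set. -/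
noncomputable def Fv (Y : TSys T E) (μ N E0 : ℝ) (U : Finset E) (s ε : ℝ) (V : Finset E) : ℝ :=
  Real.exp (μ * (Y.D U V / (s / E0) - N - N * ε))

/-- The potential. -/
noncomputable def Phi (Y : TSys T E) (w : T → ℝ) (G : Finset E) (Vs : Finset (Finset E))
    (E0 N Λ μ : ℝ) (U : Finset E) (s ε : ℝ) : ℝ :=
  (∑ e ∈ G, ind (e ∉ U) * (Fe Y w Λ E0 U s ε 1 e + Fe Y w Λ E0 U s ε (-1) e)) +
    ∑ V ∈ Vs, Fv Y μ N E0 U s ε V

variable {Y : TSys T E} {w : T → ℝ} {G : Finset E} {Vs : Finset (Finset E)} {b E0 N Λ μ : ℝ}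

theorem Phi_parts {U : Finset E} {s ε : ℝ} (h : Phi Y w G Vs E0 N Λ μ U s ε ≤ 1) :
    (∀ e ∈ G, e ∉ U → Fe Y w Λ E0 U s ε 1 e ≤ 1 ∧ Fe Y w Λ E0 U s ε (-1) e ≤ 1) ∧
      ∀ V ∈ Vs, Fv Y μ N E0 U s ε V ≤ 1 := by
  have p1 : ∀ e, 0 ≤ Fe Y w Λ E0 U s ε 1 e := fun e => (Real.exp_pos _).le
  have p2 : ∀ e, 0 ≤ Fe Y w Λ E0 U s ε (-1) e := fun e => (Real.exp_pos _).le
  have p3 : ∀ V, 0 ≤ Fv Y μ N E0 U s ε V := fun e => (Real.exp_pos _).le
  have q1 : ∀ e ∈ G, 0 ≤ ind (e ∉ U) * (Fe Y w Λ E0 U s ε 1 e + Fe Y w Λ E0 U s ε (-1) e) :=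
    fun e _ => mul_nonneg (ind_nonneg _) (add_nonneg (p1 e) (p2 e))
  have s1 : 0 ≤ ∑ e ∈ G, ind (e ∉ U) * (Fe Y w Λ E0 U s ε 1 e + Fe Y w Λ E0 U s ε (-1) e) :=
    Finset.sum_nonneg q1
  have s2 : 0 ≤ ∑ V ∈ Vs, Fv Y μ N E0 U s ε V := Finset.sum_nonneg fun V _ => p3 V
  unfold Phi at h
  constructor
  · intro e he heU
    have h1 := Finset.single_le_sum q1 he
    rw [ind_true (p := e ∉ U) heU, one_mul] at h1
    have a1 := p1 e
    have a2 := p2 e
    constructor <;> linarith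
  · intro V hV
    have h1 := Finset.single_le_sum (fun V _ => p3 V) hV
    linarith

theorem exp_le_one_iff' {Λ x : ℝ} (hΛ : 0 < Λ) (h : Real.exp (Λ * x) ≤ 1) : x ≤ 0 := by
  rw [Real.exp_le_one_iff] at h
  by_contra hc
  push Not at hc
  linarith [mul_pos hΛ hc]

/-- Bounds which follow from the potential. -/
theorem Phi_bounds (hD : RGD Y w G Vs b E0 N Λ μ) {U : Finset E} {s ε : ℝ} (hs : 0 < s)
    (h : Phi Y w G Vs E0 N Λ μ U s ε ≤ 1) :
    (∀ e ∈ G, e ∉ U → (1 - ε) * (s / E0) ^ 2 ≤ Y.Q w U e ∧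
      Y.Q w U e ≤ (1 + ε) * (s / E0) ^ 2) ∧
      ∀ V ∈ Vs, Y.D U V ≤ N * (1 + ε) * (s / E0) := by
  obtain ⟨h1, h2⟩ := Phi_parts h
  have hE := hD.E0pos
  have hpos : 0 < (s / E0) ^ 2 := by positivity
  have hpos1 : 0 < s / E0 := by positivity
  constructor
  · intro e he heU
    obtain ⟨a1, a2⟩ := h1 e he heU
    have b1 := exp_le_one_iff' hD.Λpos a1
    have b2 := exp_le_one_iff' hD.Λpos a2
    have c1 : Y.Q w U e / (s / E0) ^ 2 ≤ 1 + ε := by linarith
    have c2 : 1 - ε ≤ Y.Q w U e / (s / E0) ^ 2 := by linarith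
    exact ⟨(le_div_iff₀ hpos).mp c2, (div_le_iff₀ hpos).mp c1⟩
  · intro V hV
    have b1 := exp_le_one_iff' hD.μpos (h2 V hV)
    have c1 : Y.D U V / (s / E0) ≤ N * (1 + ε) := by linarith
    exact (div_le_iff₀ hpos1).mp c1

/-- The averaged potential does not increase. -/
theorem Phi_step (hD : RGD Y w G Vs b E0 N Λ μ) {U : Finset E} {s ε ε' : ℝ}
    (hs : 20 ≤ s) (hU : Y.D U (G0 Y G) = s) (hε0 : 0 < ε) (hε : ε ≤ 1 / 10)
    (hε' : ε + 10 * ε / s ≤ ε') (hsε : 1 / s ≤ ε * (4 / 5))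
    (hΛs : Λ * (1 / s + b / ((s - 1) / E0) ^ 2) ≤ ε / 13)
    (hμs : μ * (10 * (N / s) + 6 / ((s - 1) / E0)) ≤ 4 * ε)
    (h : Phi Y w G Vs E0 N Λ μ U s ε ≤ 1) :
    ∃ t', Y.Av U t' ∧ w t' ≠ 0 ∧
      Phi Y w G Vs E0 N Λ μ (U ∪ Y.es t') (s - 1) ε' ≤ Phi Y w G Vs E0 N Λ μ U s ε := by
  have hs0 : 0 < s := by linarith
  have hs1 : 0 < s - 1 := by linarith
  have hE := hD.E0pos
  have hN := hD.Npos
  have hΛ := hD.Λpos
  have hμ := hD.μpos
  have hpos : 0 < (s / E0) ^ 2 := by positivity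
  have hpos' : 0 < ((s - 1) / E0) ^ 2 := by positivity
  have hpos1 : 0 < s / E0 := by positivity
  have hpos1' : 0 < (s - 1) / E0 := by positivity
  obtain ⟨bQ, bD⟩ := Phi_bounds hD hs0 h
  -- total weight
  have hW : Y.W w U = ∑ e ∈ G0 Y G, ind (e ∉ U) * Y.Q w U e := by
    refine W_eq (i := 0) ?_ ?_
    · intro t ht
      exact Finset.mem_filter.mpr ⟨hD.supp t ht 0, Y.ty_ed 0 t⟩
    · intro e he; exact (Finset.mem_filter.mp he).2
  have hc1 : ∀ c : ℝ, c * s = ∑ e ∈ G0 Y G, c * ind (e ∉ U) := by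
    intro c
    rw [← Finset.mul_sum]
    congr 1
    exact hU.symm
  have hW1 : (1 - ε) * (s / E0) ^ 2 * s ≤ Y.W w U := by
    rw [hW, hc1]
    refine Finset.sum_le_sum fun e he => ?_
    by_cases heU : e ∈ U
    · rw [ind_false (p := e ∉ U) (not_not.mpr heU)]; simp
    · rw [ind_true (p := e ∉ U) heU, one_mul, mul_one]
      exact (bQ e (Finset.mem_filter.mp he).1 heU).1
  have hW2 : Y.W w U ≤ (1 + ε) * (s / E0) ^ 2 * s := by
    rw [hW, hc1]
    refine Finset.sum_le_sum fun e he => ?_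
    by_cases heU : e ∈ U
    · rw [ind_false (p := e ∉ U) (not_not.mpr heU)]; simp
    · rw [ind_true (p := e ∉ U) heU, one_mul, mul_one]
      exact (bQ e (Finset.mem_filter.mp he).1 heU).2
  have hWpos : 0 < Y.W w U := by
    refine lt_of_lt_of_le ?_ hW1
    have : 0 < 1 - ε := by linarith
    positivity
  obtain ⟨Wt, hWt⟩ : ∃ x, x = Y.W w U := ⟨_, rfl⟩
  rw [← hWt] at hW1 hW2 hWpos
  -- the probabilities
  obtain ⟨p, hp⟩ : ∃ p : T → ℝ, p = fun t' => ind (Y.Av U t') * w t' / Wt := ⟨_, rfl⟩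
  have hp0 : ∀ t', 0 ≤ p t' := by
    intro t'; rw [hp]
    exact div_nonneg (mul_nonneg (ind_nonneg _) (hD.w0 t')) hWpos.le
  have hp1 : ∑ t', p t' = 1 := by
    rw [hp]
    simp only
    rw [← Finset.sum_div]
    change Y.W w U / Wt = 1
    rw [← hWt]
    exact div_self hWpos.ne'
  have hmean : ∀ F : T → ℝ, ∑ t', p t' * F t' = (∑ t', ind (Y.Av U t') * w t' * F t') / Wt := by
    intro F
    rw [hp, Finset.sum_div]
    refine Finset.sum_congr rfl fun t' _ => ?_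
    ring
  have hav_bd : ∀ t i, Y.Av U t → w t ≠ 0 →
      (1 - ε) * (s / E0) ^ 2 ≤ Y.Q w U (Y.ed i t) ∧ Y.Q w U (Y.ed i t) ≤ (1 + ε) * (s / E0) ^ 2 :=
    fun t i hav hwt => bQ _ (hD.supp t hwt i) (hav i)
  -- edges
  have hedge : ∀ e ∈ G, e ∉ U → ∀ σ : ℝ, (σ = 1 ∨ σ = -1) →
      ∑ t', p t' * (ind (e ∉ U ∪ Y.es t') * Fe Y w Λ E0 (U ∪ Y.es t') (s - 1) ε' σ e) ≤
        Fe Y w Λ E0 U s ε σ e := by
    intro e he heU σ hσ
    obtain ⟨X, hX⟩ : ∃ X, X = Y.Q w U e := ⟨_, rfl⟩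
    obtain ⟨M, hM⟩ : ∃ M, M = ∑ t', p t' * Y.Dl w U e t' := ⟨_, rfl⟩
    obtain ⟨X1, X2⟩ := bQ e he heU
    rw [← hX] at X1 X2
    have hMb := Dl_mean_bd (Y := Y) hD.w0 U e (fun t i ha hb => (hav_bd t i ha hb).1)
      (fun t i ha hb => (hav_bd t i ha hb).2)
    rw [← hX] at hMb
    have hM' := hM
    rw [hmean] at hM'
    have hM1 : 2 * (1 - ε) * (s / E0) ^ 2 * X / Wt ≤ M := by
      rw [hM']
      refine div_le_div_of_nonneg_right ?_ hWpos.le
      calc _ = 2 * ((1 - ε) * (s / E0) ^ 2) * X := by ring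
        _ ≤ _ := hMb.1
    have hM2 : M ≤ 2 * (1 + ε) * (s / E0) ^ 2 * X / Wt := by
      rw [hM']
      refine div_le_div_of_nonneg_right ?_ hWpos.le
      calc _ ≤ 2 * ((1 + ε) * (s / E0) ^ 2) * X := hMb.2
        _ = _ := by ring
    obtain ⟨n1, n2⟩ := numQ hs hE hε0 hε X1 X2 hW1 hW2 hM1 hM2 hD.b0 hsε hΛ.le hΛs
    have hg := gstep (B := 2 * b) (X := X) (h := (s / E0) ^ 2) (σ := σ) hp0 hp1
      (fun t' => Dl_nonneg (Y := Y) hD.w0 U e t') (fun t' => Dl_le (Y := Y) hD.w0 hD.wb hD.b0 U e t')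
      hM.symm hpos' hΛ.le hσ n1
    have hle : ∑ t', p t' * Real.exp (Λ * (σ * ((X - Y.Dl w U e t') / ((s - 1) / E0) ^ 2 -
        X / (s / E0) ^ 2))) ≤ Real.exp (Λ * (10 * ε / s)) :=
      hg.trans (Real.exp_le_exp.mpr n2)
    calc ∑ t', p t' * (ind (e ∉ U ∪ Y.es t') * Fe Y w Λ E0 (U ∪ Y.es t') (s - 1) ε' σ e)
        ≤ ∑ t', p t' * (Real.exp (Λ * (σ * ((X - Y.Dl w U e t') / ((s - 1) / E0) ^ 2 -
            X / (s / E0) ^ 2))) * Real.exp (Λ * (σ * (X / (s / E0) ^ 2 - 1) - ε'))) := by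
          refine Finset.sum_le_sum fun t' _ => mul_le_mul_of_nonneg_left ?_ (hp0 t')
          by_cases hon : Y.On e t'
          · rw [ind_false (p := e ∉ U ∪ Y.es t')
              (not_not.mpr (Finset.mem_union_right _ (mem_es.mpr hon))), zero_mul]
            positivity
          · have hnot : e ∉ U ∪ Y.es t' := by
              intro h'
              rcases Finset.mem_union.mp h' with h' | h'
              · exact heU h'
              · exact hon (mem_es.mp h')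
            rw [ind_true (p := e ∉ U ∪ Y.es t') hnot, one_mul]
            unfold Fe
            rw [Q_union hon, ← Real.exp_add, ← hX]
            refine le_of_eq ?_
            congr 1
            ring
      _ = (∑ t', p t' * Real.exp (Λ * (σ * ((X - Y.Dl w U e t') / ((s - 1) / E0) ^ 2 -
            X / (s / E0) ^ 2)))) * Real.exp (Λ * (σ * (X / (s / E0) ^ 2 - 1) - ε')) := by
          rw [Finset.sum_mul]
          refine Finset.sum_congr rfl fun t' _ => ?_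
          ring
      _ ≤ Real.exp (Λ * (10 * ε / s)) * Real.exp (Λ * (σ * (X / (s / E0) ^ 2 - 1) - ε')) :=
          mul_le_mul_of_nonneg_right hle (Real.exp_pos _).le
      _ ≤ Fe Y w Λ E0 U s ε σ e := by
          unfold Fe
          rw [← Real.exp_add, ← hX]
          refine Real.exp_le_exp.mpr ?_
          nlinarith
  -- vertex sets
  have hvert : ∀ V ∈ Vs, ∑ t', p t' * Fv Y μ N E0 (U ∪ Y.es t') (s - 1) ε' V ≤
      Fv Y μ N E0 U s ε V := by
    intro V hV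
    obtain ⟨X, hX⟩ : ∃ X, X = Y.D U V := ⟨_, rfl⟩
    obtain ⟨M, hM⟩ : ∃ M, M = ∑ t', p t' * Y.dl U V t' := ⟨_, rfl⟩
    obtain ⟨i, hi⟩ := hD.vty V hV
    have hXle := bD V hV
    rw [← hX] at hXle
    have hX0 : 0 ≤ X := by rw [hX]; exact D_nonneg U V
    have hX2 : X ≤ 2 * N * (s / E0) := by
      refine hXle.trans (mul_le_mul_of_nonneg_right ?_ hpos1.le)
      nlinarith
    have hM' := hM
    rw [hmean, dl_mean] at hM'
    have hlow : (1 - ε) * (s / E0) ^ 2 * X ≤ ∑ e ∈ V, ind (e ∉ U) * Y.Q w U e := by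
      rw [hX]; unfold TSys.D
      rw [Finset.mul_sum]
      refine Finset.sum_le_sum fun e he => ?_
      by_cases heU : e ∈ U
      · rw [ind_false (p := e ∉ U) (not_not.mpr heU)]; simp
      · rw [ind_true (p := e ∉ U) heU, one_mul, mul_one]
        exact (bQ e (hD.vsub V hV he) heU).1
    have hupp : ∑ e ∈ V, ind (e ∉ U) * Y.Q w U e ≤ (1 + ε) * (s / E0) ^ 2 * X := by
      rw [hX]; unfold TSys.D
      rw [Finset.mul_sum]
      refine Finset.sum_le_sum fun e he => ?_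
      by_cases heU : e ∈ U
      · rw [ind_false (p := e ∉ U) (not_not.mpr heU)]; simp
      · rw [ind_true (p := e ∉ U) heU, one_mul, mul_one]
        exact (bQ e (hD.vsub V hV he) heU).2
    have e1 : 0 < 1 - ε := by linarith
    have e2 : 0 < 1 + ε := by linarith
    have hM1 : (1 - ε) / (1 + ε) * X / s ≤ M := by
      rw [hM', le_div_iff₀ hWpos]
      calc (1 - ε) / (1 + ε) * X / s * Wt
          ≤ (1 - ε) / (1 + ε) * X / s * ((1 + ε) * (s / E0) ^ 2 * s) :=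
            mul_le_mul_of_nonneg_left hW2 (by positivity)
        _ = (1 - ε) * (s / E0) ^ 2 * X := by field_simp
        _ ≤ _ := hlow
    have hM2 : M ≤ (1 + ε) / (1 - ε) * X / s := by
      rw [hM', div_le_iff₀ hWpos]
      calc _ ≤ (1 + ε) * (s / E0) ^ 2 * X := hupp
        _ = (1 + ε) / (1 - ε) * X / s * ((1 - ε) * (s / E0) ^ 2 * s) := by field_simp
        _ ≤ _ := mul_le_mul_of_nonneg_left hW1 (by positivity)
    obtain ⟨n1, n2⟩ := numD hs hE hε0 hε hN hX0 hX2 hM1 hM2 hμ.le hμs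
    have hg := gstep (B := 1) (X := X) (h := s / E0) (σ := 1) hp0 hp1
      (fun t' => dl_nonneg (Y := Y) U V t') (fun t' => dl_le hi t')
      hM.symm hpos1' hμ.le (Or.inl rfl) n1
    have hle : ∑ t', p t' * Real.exp (μ * (1 * ((X - Y.dl U V t') / ((s - 1) / E0) -
        X / (s / E0)))) ≤ Real.exp (μ * (N * (10 * ε / s))) :=
      hg.trans (Real.exp_le_exp.mpr n2)
    calc ∑ t', p t' * Fv Y μ N E0 (U ∪ Y.es t') (s - 1) ε' V
        = (∑ t', p t' * Real.exp (μ * (1 * ((X - Y.dl U V t') / ((s - 1) / E0) -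
            X / (s / E0))))) * Real.exp (μ * (X / (s / E0) - N - N * ε')) := by
          rw [Finset.sum_mul]
          refine Finset.sum_congr rfl fun t' _ => ?_
          unfold Fv
          rw [D_union, ← hX, mul_assoc, ← Real.exp_add]
          congr 2
          ring
      _ ≤ Real.exp (μ * (N * (10 * ε / s))) * Real.exp (μ * (X / (s / E0) - N - N * ε')) :=
          mul_le_mul_of_nonneg_right hle (Real.exp_pos _).le
      _ ≤ Fv Y μ N E0 U s ε V := by
          unfold Fv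
          rw [← Real.exp_add, ← hX]
          refine Real.exp_le_exp.mpr ?_
          have : N * (ε + 10 * ε / s) ≤ N * ε' := mul_le_mul_of_nonneg_left hε' hN.le
          nlinarith
  -- averaging
  have hav : ∑ t', p t' * Phi Y w G Vs E0 N Λ μ (U ∪ Y.es t') (s - 1) ε' ≤
      Phi Y w G Vs E0 N Λ μ U s ε := by
    unfold Phi
    simp_rw [mul_add, Finset.mul_sum]
    rw [Finset.sum_add_distrib]
    refine add_le_add ?_ ?_
    · rw [Finset.sum_comm]
      refine Finset.sum_le_sum fun e he => ?_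
      by_cases heU : e ∈ U
      · rw [ind_false (p := e ∉ U) (not_not.mpr heU)]
        rw [Finset.sum_eq_zero]
        · simp
        · intro t' _
          rw [ind_false (p := e ∉ U ∪ Y.es t') (not_not.mpr (Finset.mem_union_left _ heU))]
          ring
      · rw [ind_true (p := e ∉ U) heU, one_mul, one_mul]
        have h1 := hedge e he heU 1 (Or.inl rfl)
        have h2 := hedge e he heU (-1) (Or.inr rfl)
        simp_rw [mul_add]
        rw [Finset.sum_add_distrib]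
        exact add_le_add h1 h2
    · rw [Finset.sum_comm]
      refine Finset.sum_le_sum fun V hV => hvert V hV
  by_contra hcon
  push Not at hcon
  have hlt : Phi Y w G Vs E0 N Λ μ U s ε <
      ∑ t', p t' * Phi Y w G Vs E0 N Λ μ (U ∪ Y.es t') (s - 1) ε' := by
    have hone : Phi Y w G Vs E0 N Λ μ U s ε = ∑ t', p t' * Phi Y w G Vs E0 N Λ μ U s ε := by
      rw [← Finset.sum_mul, hp1, one_mul]
    rw [hone]
    have hex : ∃ t', 0 < p t' := by
      by_contra hno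
      push Not at hno
      have : ∑ t', p t' ≤ 0 := Finset.sum_nonpos fun t' _ => hno t'
      linarith
    have hkey : ∀ t', 0 < p t' → Phi Y w G Vs E0 N Λ μ U s ε <
        Phi Y w G Vs E0 N Λ μ (U ∪ Y.es t') (s - 1) ε' := by
      intro t' ht'
      have hw' : w t' ≠ 0 := by
        intro h0; rw [hp] at ht'; simp [h0] at ht'
      have hav' : Y.Av U t' := by
        by_contra h0
        rw [hp] at ht'
        simp only at ht'
        rw [ind_false h0] at ht'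
        simp at ht'
      exact hcon t' hav' hw'
    obtain ⟨t0, ht0⟩ := hex
    refine Finset.sum_lt_sum ?_ ⟨t0, Finset.mem_univ _, mul_lt_mul_of_pos_left (hkey t0 ht0) ht0⟩
    intro t' _
    rcases (hp0 t').lt_or_eq with h1 | h1
    · exact (mul_lt_mul_of_pos_left (hkey t' h1) h1).le
    · rw [← h1]; simp
  linarith

end

end Pool.LAV
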