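/-
LAV (MP_ba4857_co).  Random greedy: iteration and the theorem for abstract systems.
-/
import Pool.Agent.LAV.RG3

namespace Pool.LAV

open Finset

section

variable {T E : Type*} [Fintype T] [DecidableEq E]
variable {Y : TSys T E} {w : T → ℝ} {G : Finset E} {Vs : Finset (Finset E)} {b E0 N Λ μ : ℝ}

omit [Fintype T] in
theorem dl_G0 {U : Finset E} {t' : T} (hG : ∀ i, Y.ed i t' ∈ G) (hav : Y.Av U t') :
    Y.dl U (G0 Y G) t' = 1 := by
  unfold TSys.dl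
  have hmem : Y.ed 0 t' ∈ G0 Y G := Finset.mem_filter.mpr ⟨hG 0, Y.ty_ed 0 t'⟩
  rw [Finset.sum_eq_single_of_mem _ hmem]
  · rw [ind_true (p := Y.ed 0 t' ∉ U) (hav 0), ind_true (on_ed 0 t')]; ring
  · intro e he hne
    rw [ind_false (p := Y.On e t')]
    · ring
    · intro h
      apply hne
      unfold TSys.On at h
      rw [(Finset.mem_filter.mp he).2] at h
      exact h.symm

/-- The used edges of a set of triples. -/
def used (Y : TSys T E) (S : Finset T) : Finset E := S.biUnion Y.es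

omit [Fintype T] in
theorem mem_used {S : Finset T} {e : E} : e ∈ used Y S ↔ ∃ x ∈ S, Y.On e x := by
  unfold used
  rw [Finset.mem_biUnion]
  simp only [mem_es]

/-- The sequence of error bounds. -/
noncomputable def eps (ε0 E0 s : ℝ) : ℝ := ε0 * (E0 / s) ^ 10

theorem eps_step {ε0 E0 s : ℝ} (hε0 : 0 < ε0) (hE0 : 0 < E0) (hs : 1 < s) :
    eps ε0 E0 s + 10 * eps ε0 E0 s / s ≤ eps ε0 E0 (s - 1) := by
  unfold eps
  have hs0 : 0 < s := by linarith
  have hs1 : 0 < s - 1 := by linarith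
  have h1 : 1 + 1 / s ≤ s / (s - 1) := by
    rw [le_div_iff₀ hs1]
    have : (1 + 1 / s) * (s - 1) = s - 1 / s := by field_simp; ring
    rw [this]
    have : 0 < 1 / s := by positivity
    linarith
  have h2 : 1 + 10 * (1 / s) ≤ (1 + 1 / s) ^ 10 := by
    have := one_add_mul_le_pow (a := 1 / s) (by have : 0 < 1 / s := by positivity
                                                linarith) 10
    simpa using this
  have h3 : (1 + 1 / s) ^ 10 ≤ (s / (s - 1)) ^ 10 := pow_le_pow_left₀ (by positivity) h1 10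
  have h4 : (E0 / (s - 1)) ^ 10 = (E0 / s) ^ 10 * (s / (s - 1)) ^ 10 := by
    rw [← mul_pow]
    congr 1
    field_simp
  rw [h4]
  have h5 : 0 < ε0 * (E0 / s) ^ 10 := by positivity
  calc ε0 * (E0 / s) ^ 10 + 10 * (ε0 * (E0 / s) ^ 10) / s
      = ε0 * (E0 / s) ^ 10 * (1 + 10 * (1 / s)) := by ring
    _ ≤ ε0 * (E0 / s) ^ 10 * (s / (s - 1)) ^ 10 :=
        mul_le_mul_of_nonneg_left (h2.trans h3) h5.le
    _ = _ := by ring

theorem eps_ge {ε0 E0 s : ℝ} (hε0 : 0 < ε0) (hs0 : 0 < s) (hsE : s ≤ E0) :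
    ε0 ≤ eps ε0 E0 s := by
  unfold eps
  have : 1 ≤ E0 / s := (one_le_div hs0).mpr hsE
  calc ε0 = ε0 * 1 := by ring
    _ ≤ _ := mul_le_mul_of_nonneg_left (one_le_pow₀ this) hε0.le

theorem eps_le {ε0 E0 s δ : ℝ} (hδ : 0 < δ) (hε0 : 0 < ε0) (hε : ε0 ≤ δ ^ 10 / 10) (hE0 : 0 < E0)
    (hs : δ * E0 ≤ s) : eps ε0 E0 s ≤ 1 / 10 := by
  unfold eps
  have hs0 : 0 < s := lt_of_lt_of_le (by positivity) hs
  have h1 : E0 / s ≤ 1 / δ := by
    rw [div_le_div_iff₀ hs0 hδ]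
    linarith
  have h2 : (E0 / s) ^ 10 ≤ (1 / δ) ^ 10 := pow_le_pow_left₀ (by positivity) h1 10
  calc ε0 * (E0 / s) ^ 10 ≤ (δ ^ 10 / 10) * (1 / δ) ^ 10 :=
        mul_le_mul hε h2 (by positivity) (by positivity)
    _ = 1 / 10 := by field_simp

/-- The random greedy process. -/
theorem greedy (hD : RGD Y w G Vs b E0 N Λ μ) (hE0 : ((G0 Y G).card : ℝ) = E0)
    {δ ε0 : ℝ} (hδ : 0 < δ) (hε0 : 0 < ε0) (hε : ε0 ≤ δ ^ 10 / 10)
    (h20 : 20 ≤ δ * E0) (hc1 : 1 / (δ * E0) ≤ ε0 * (4 / 5))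
    (hc2 : Λ * (1 / (δ * E0) + b / δ ^ 2) ≤ ε0 / 13)
    (hc3 : μ * (10 * (N / (δ * E0)) + 6 / δ) ≤ 4 * ε0)
    (h0 : Phi Y w G Vs E0 N Λ μ ∅ E0 ε0 ≤ 1) (m : ℕ) (hm : δ * E0 ≤ E0 - m) :
    ∃ S : Finset T, (∀ x ∈ S, w x ≠ 0) ∧
      (∀ x ∈ S, ∀ y ∈ S, x ≠ y → ∀ i, Y.ed i x ≠ Y.ed i y) ∧
      Y.D (used Y S) (G0 Y G) = E0 - m ∧
      Phi Y w G Vs E0 N Λ μ (used Y S) (E0 - m) (eps ε0 E0 (E0 - m)) ≤ 1 := by
  classical
  have hE := hD.E0pos
  induction m with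
  | zero =>
    refine ⟨∅, by simp, by simp, ?_, ?_⟩
    · unfold TSys.D used
      simp only [Finset.biUnion_empty, Finset.notMem_empty, not_false_eq_true, Nat.cast_zero,
        sub_zero]
      rw [Finset.sum_congr rfl (fun e _ => ind_true trivial)]
      rw [Finset.sum_const, nsmul_eq_mul, mul_one, hE0]
    · have e1 : eps ε0 E0 (E0 - (0 : ℕ)) = ε0 := by
        unfold eps
        rw [Nat.cast_zero, sub_zero, div_self hE.ne']
        ring
      rw [e1]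
      have e2 : used Y (∅ : Finset T) = ∅ := by unfold used; simp
      rw [e2, Nat.cast_zero, sub_zero]
      exact h0
  | succ m ih =>
    have hm' : δ * E0 ≤ E0 - (m : ℝ) - 1 := by push_cast at hm; linarith
    obtain ⟨S, S1, S2, S3, S4⟩ := ih (by linarith)
    obtain ⟨s, hs⟩ : ∃ s, s = E0 - (m : ℝ) := ⟨_, rfl⟩
    rw [← hs] at S3 S4 hm'
    have hs20 : 20 ≤ s := by linarith
    have hs0 : 0 < s := by linarith
    have hsE : s ≤ E0 := by
      have : (0 : ℝ) ≤ m := Nat.cast_nonneg m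
      linarith
    have hδE : 0 < δ * E0 := by positivity
    have hεge := eps_ge hε0 hs0 hsE
    have hεle := eps_le hδ hε0 hε hE (by linarith : δ * E0 ≤ s)
    have k1 : 1 / s ≤ 1 / (δ * E0) := one_div_le_one_div_of_le hδE (by linarith)
    have k2 : δ ≤ (s - 1) / E0 := by rw [le_div_iff₀ hE]; exact hm'
    have k3 : b / ((s - 1) / E0) ^ 2 ≤ b / δ ^ 2 := by
      refine div_le_div_of_nonneg_left hD.b0 (by positivity) ?_
      exact pow_le_pow_left₀ hδ.le k2 2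
    have k4 : N / s ≤ N / (δ * E0) := div_le_div_of_nonneg_left hD.Npos.le hδE (by linarith)
    have k5 : 6 / ((s - 1) / E0) ≤ 6 / δ := div_le_div_of_nonneg_left (by norm_num) hδ k2
    obtain ⟨t', ht1, ht2, ht3⟩ := Phi_step hD hs20 S3 (hε0.trans_le hεge) hεle
      (eps_step hε0 hE (by linarith : (1 : ℝ) < s))
      (by linarith) (by
        have : Λ * (1 / s + b / ((s - 1) / E0) ^ 2) ≤ Λ * (1 / (δ * E0) + b / δ ^ 2) :=
          mul_le_mul_of_nonneg_left (by linarith) hD.Λpos.le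
        linarith) (by
        have : μ * (10 * (N / s) + 6 / ((s - 1) / E0)) ≤ μ * (10 * (N / (δ * E0)) + 6 / δ) :=
          mul_le_mul_of_nonneg_left (by linarith) hD.μpos.le
        linarith) S4
    have hu : used Y (insert t' S) = used Y S ∪ Y.es t' := by
      unfold used
      rw [Finset.biUnion_insert, Finset.union_comm]
    have hnew : ∀ x ∈ S, ∀ i, Y.ed i t' ≠ Y.ed i x := by
      intro x hx i h
      apply ht1 i
      rw [mem_used]
      exact ⟨x, hx, by rw [h]; exact on_ed i x⟩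
    have es : E0 - ((m + 1 : ℕ) : ℝ) = s - 1 := by push_cast; rw [hs]; ring
    refine ⟨insert t' S, ?_, ?_, ?_, ?_⟩
    · intro x hx
      rcases Finset.mem_insert.mp hx with h | h
      · rw [h]; exact ht2
      · exact S1 x h
    · intro x hx y hy hxy i
      rcases Finset.mem_insert.mp hx with h | h
      · rcases Finset.mem_insert.mp hy with h' | h'
        · exact absurd (h.trans h'.symm) hxy
        · rw [h]; exact hnew y h' i
      · rcases Finset.mem_insert.mp hy with h' | h'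
        · rw [h']; exact (hnew x h i).symm
        · exact S2 x h y h' hxy i
    · rw [hu, D_union, S3, dl_G0 (hD.supp t' ht2) ht1, es]
    · rw [hu, es]
      exact ht3.trans S4

/-- The final bound. -/
theorem greedy_final (hD : RGD Y w G Vs b E0 N Λ μ) (hE0 : ((G0 Y G).card : ℝ) = E0)
    {δ ε0 : ℝ} (hδ : 0 < δ) (hδ1 : δ ≤ 1) (hε0 : 0 < ε0) (hε : ε0 ≤ δ ^ 10 / 10)
    (h20 : 20 ≤ δ * E0) (hc1 : 1 / (δ * E0) ≤ ε0 * (4 / 5))
    (hc2 : Λ * (1 / (δ * E0) + b / δ ^ 2) ≤ ε0 / 13)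
    (hc3 : μ * (10 * (N / (δ * E0)) + 6 / δ) ≤ 4 * ε0)
    (h0 : Phi Y w G Vs E0 N Λ μ ∅ E0 ε0 ≤ 1) :
    ∃ S : Finset T, (∀ x ∈ S, w x ≠ 0) ∧
      (∀ x ∈ S, ∀ y ∈ S, x ≠ y → ∀ i, Y.ed i x ≠ Y.ed i y) ∧
      ∀ V ∈ Vs, Y.D (used Y S) V ≤ 2 * δ * N := by
  have hE := hD.E0pos
  have hN := hD.Npos
  have hx0 : 0 ≤ (1 - δ) * E0 := mul_nonneg (by linarith) hE.le
  have h1 : (⌊(1 - δ) * E0⌋₊ : ℝ) ≤ (1 - δ) * E0 := Nat.floor_le hx0
  have h2 : (1 - δ) * E0 < ⌊(1 - δ) * E0⌋₊ + 1 := Nat.lt_floor_add_one _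
  obtain ⟨m, hm⟩ : ∃ m, m = ⌊(1 - δ) * E0⌋₊ := ⟨_, rfl⟩
  rw [← hm] at h1 h2
  have h3 : δ * E0 ≤ E0 - m := by linarith
  obtain ⟨S, S1, S2, S3, S4⟩ := greedy hD hE0 hδ hε0 hε h20 hc1 hc2 hc3 h0 m h3
  refine ⟨S, S1, S2, fun V hV => ?_⟩
  have hs0 : 0 < E0 - (m : ℝ) := by linarith
  have h4 := (Phi_bounds hD hs0 S4).2 V hV
  have hεle := eps_le hδ hε0 hε hE h3
  have h5 : (E0 - (m : ℝ)) / E0 ≤ δ * (21 / 20) := by
    rw [div_le_iff₀ hE]
    nlinarith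
  have h6 : 0 ≤ (E0 - (m : ℝ)) / E0 := by positivity
  calc Y.D (used Y S) V ≤ N * (1 + eps ε0 E0 (E0 - m)) * ((E0 - m) / E0) := h4
    _ ≤ N * (1 + 1 / 10) * (δ * (21 / 20)) := by
        refine mul_le_mul ?_ h5 h6 (by positivity)
        exact mul_le_mul_of_nonneg_left (by linarith) hN.le
    _ ≤ 2 * δ * N := by nlinarith [mul_pos hδ hN]

end

/-! ### Explicit constants -/

/-- Allowed initial error. -/
noncomputable def rgE (δ : ℝ) : ℝ := δ ^ 10 / 10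

/-- Exponent constant for the edges. -/
noncomputable def rgL (δ C : ℝ) : ℝ := rgE δ * δ ^ 2 / (26 * (C + 1))

/-- Size from which the theorem holds. -/
noncomputable def rgN (δ C : ℝ) : ℝ :=
  1 + 40 / δ + 5 / (δ * rgE δ) + 72 / (rgL δ C * rgE δ / 2) ^ 3 +
    24 / (rgE δ ^ 2 * δ / 10) ^ 2

theorem exp_neg_cube {c N : ℝ} (hc : 0 < c) (hN : 0 < N) :
    Real.exp (-(c * N)) ≤ 6 / (c * N) ^ 3 := by
  have h1 := Real.pow_div_factorial_le_exp (c * N) (by positivity) 3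
  have h2 : (Nat.factorial 3 : ℝ) = 6 := by norm_num [Nat.factorial]
  rw [h2] at h1
  rw [Real.exp_neg, inv_eq_one_div, div_le_div_iff₀ (Real.exp_pos _) (by positivity)]
  have h3 : (c * N) ^ 3 ≤ 6 * Real.exp (c * N) := by
    rw [div_le_iff₀ (by norm_num)] at h1
    linarith
  linarith

theorem exp_neg_sq {c N : ℝ} (hc : 0 < c) (hN : 0 < N) :
    Real.exp (-(c * N)) ≤ 2 / (c * N) ^ 2 := by
  have h1 := Real.pow_div_factorial_le_exp (c * N) (by positivity) 2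
  have h2 : (Nat.factorial 2 : ℝ) = 2 := by norm_num [Nat.factorial]
  rw [h2] at h1
  rw [Real.exp_neg, inv_eq_one_div, div_le_div_iff₀ (Real.exp_pos _) (by positivity)]
  have h3 : (c * N) ^ 2 ≤ 2 * Real.exp (c * N) := by
    rw [div_le_iff₀ (by norm_num)] at h1
    linarith
  linarith

/-- **Random greedy theorem** for abstract systems. -/
theorem rg_main {T E : Type*} [Fintype T] [DecidableEq E] {δ C N : ℝ} (hδ : 0 < δ) (hδ1 : δ ≤ 1)
    (hC : 0 ≤ C) (hN : rgN δ C ≤ N) (Y : TSys T E) (w : T → ℝ) (G : Finset E)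
    (Vs : Finset (Finset E)) (hw0 : ∀ t, 0 ≤ w t) (hwb : ∀ t, w t ≤ C / N)
    (hsupp : ∀ t, w t ≠ 0 → ∀ i, Y.ed i t ∈ G)
    (hG0 : N ^ 2 / 2 ≤ ((G0 Y G).card : ℝ)) (hG : (G.card : ℝ) ≤ 3 * N ^ 2)
    (hVs : (Vs.card : ℝ) ≤ 6 * N) (hvty : ∀ V ∈ Vs, ∃ i, ∀ e ∈ V, Y.ty e = i)
    (hvsub : ∀ V ∈ Vs, V ⊆ G) (hvc : ∀ V ∈ Vs, (V.card : ℝ) ≤ N)
    (hQ : ∀ e ∈ G, |Y.Q w ∅ e - 1| ≤ rgE δ / 2) :
    ∃ S : Finset T, (∀ x ∈ S, w x ≠ 0) ∧
      (∀ x ∈ S, ∀ y ∈ S, x ≠ y → ∀ i, Y.ed i x ≠ Y.ed i y) ∧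
      ∀ V ∈ Vs, Y.D (used Y S) V ≤ 2 * δ * N := by
  obtain ⟨ε0, hε0⟩ : ∃ ε0, ε0 = rgE δ := ⟨_, rfl⟩
  have hεpos : 0 < ε0 := by rw [hε0]; unfold rgE; positivity
  obtain ⟨l, hl⟩ : ∃ l, l = rgL δ C := ⟨_, rfl⟩
  have hlpos : 0 < l := by rw [hl]; unfold rgL; rw [← hε0]; positivity
  have hlC : l * (26 * (C + 1)) = ε0 * δ ^ 2 := by
    rw [hl, rgL, ← hε0]; field_simp
  unfold rgN at hN
  rw [← hε0, ← hl] at hN
  have t1 : 0 < 40 / δ := by positivity
  have t2 : 0 < 5 / (δ * ε0) := by positivity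
  have t3 : 0 < 72 / (l * ε0 / 2) ^ 3 := by positivity
  have t4 : 0 < 24 / (ε0 ^ 2 * δ / 10) ^ 2 := by positivity
  have hN1 : 1 ≤ N := by linarith
  have hNpos : 0 < N := by linarith
  have u1 : 40 / δ ≤ N := by linarith
  have u2 : 5 / (δ * ε0) ≤ N := by linarith
  have u3 : 72 / (l * ε0 / 2) ^ 3 ≤ N := by linarith
  have u4 : 24 / (ε0 ^ 2 * δ / 10) ^ 2 ≤ N := by linarith
  obtain ⟨E0, hE0⟩ : ∃ x, x = ((G0 Y G).card : ℝ) := ⟨_, rfl⟩
  rw [← hE0] at hG0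
  have hE0pos : 0 < E0 := lt_of_lt_of_le (by positivity) hG0
  have v1 : 40 ≤ N * δ := (div_le_iff₀ hδ).mp u1
  have hδE : N * δ * N / 2 ≤ δ * E0 := by nlinarith
  have h20 : 20 ≤ δ * E0 := by nlinarith
  have hδEpos : 0 < δ * E0 := by positivity
  have v2 : 5 ≤ N * (δ * ε0) := (div_le_iff₀ (by positivity)).mp u2
  have hc1 : 1 / (δ * E0) ≤ ε0 * (4 / 5) := by
    rw [div_le_iff₀ hδEpos]
    have : N * δ / 2 ≤ δ * E0 := by nlinarith [mul_pos hNpos hδ]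
    nlinarith
  have hNE : N / (δ * E0) ≤ 2 / (N * δ) := by
    rw [div_le_div_iff₀ hδEpos (by positivity)]
    nlinarith
  have hD : RGD Y w G Vs (C / N) E0 N (l * N) (ε0 * δ / 10) :=
    ⟨hw0, hwb, by positivity, hsupp, hE0pos, hNpos, by positivity, by positivity, hvty, hvsub⟩
  have hc2 : l * N * (1 / (δ * E0) + C / N / δ ^ 2) ≤ ε0 / 13 := by
    have e1 : l * N * (1 / (δ * E0) + C / N / δ ^ 2) = l * (N / (δ * E0)) + l * C / δ ^ 2 := by
      field_simp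
    rw [e1]
    have h1 : N / (δ * E0) ≤ 1 / δ ^ 2 := by
      refine hNE.trans ?_
      rw [div_le_div_iff₀ (by positivity) (by positivity)]
      nlinarith
    have h2 : l * (N / (δ * E0)) ≤ l * (1 / δ ^ 2) := mul_le_mul_of_nonneg_left h1 hlpos.le
    have h3 : l * (1 / δ ^ 2) + l * C / δ ^ 2 = ε0 / 26 := by
      have : l * (1 / δ ^ 2) + l * C / δ ^ 2 = (l * (26 * (C + 1))) / (26 * δ ^ 2) := by
        field_simp; ring
      rw [this, hlC]; field_simp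
    linarith
  have hc3 : ε0 * δ / 10 * (10 * (N / (δ * E0)) + 6 / δ) ≤ 4 * ε0 := by
    have h1 : 10 * (N / (δ * E0)) ≤ 20 / δ := by
      have : 2 / (N * δ) ≤ 2 / δ :=
        div_le_div_of_nonneg_left (by norm_num) hδ (by nlinarith)
      have e : 20 / δ = 10 * (2 / δ) := by ring
      rw [e]; linarith
    calc ε0 * δ / 10 * (10 * (N / (δ * E0)) + 6 / δ) ≤ ε0 * δ / 10 * (20 / δ + 6 / δ) :=
          mul_le_mul_of_nonneg_left (by linarith) (by positivity)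
      _ = 26 / 10 * ε0 := by field_simp; ring
      _ ≤ _ := by linarith
  have h0 : Phi Y w G Vs E0 N (l * N) (ε0 * δ / 10) ∅ E0 ε0 ≤ 1 := by
    unfold Phi
    have p1 : ∀ e ∈ G, ind (e ∉ (∅ : Finset E)) * (Fe Y w (l * N) E0 ∅ E0 ε0 1 e +
        Fe Y w (l * N) E0 ∅ E0 ε0 (-1) e) ≤ 2 * Real.exp (-(l * ε0 / 2 * N)) := by
      intro e he
      have h1 := abs_le.mp (hQ e he)
      rw [← hε0] at h1
      have h2 : Fe Y w (l * N) E0 ∅ E0 ε0 1 e ≤ Real.exp (-(l * ε0 / 2 * N)) := by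
        unfold Fe
        refine Real.exp_le_exp.mpr ?_
        rw [div_self hE0pos.ne', one_pow, div_one]
        have : l * N * (1 * (Y.Q w ∅ e - 1) - ε0) ≤ l * N * (-(ε0 / 2)) :=
          mul_le_mul_of_nonneg_left (by linarith [h1.2]) (by positivity)
        linarith
      have h3 : Fe Y w (l * N) E0 ∅ E0 ε0 (-1) e ≤ Real.exp (-(l * ε0 / 2 * N)) := by
        unfold Fe
        refine Real.exp_le_exp.mpr ?_
        rw [div_self hE0pos.ne', one_pow, div_one]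
        have : l * N * (-1 * (Y.Q w ∅ e - 1) - ε0) ≤ l * N * (-(ε0 / 2)) :=
          mul_le_mul_of_nonneg_left (by linarith [h1.1]) (by positivity)
        linarith
      have h4 : 0 ≤ Fe Y w (l * N) E0 ∅ E0 ε0 1 e + Fe Y w (l * N) E0 ∅ E0 ε0 (-1) e :=
        add_nonneg (Real.exp_pos _).le (Real.exp_pos _).le
      calc _ ≤ 1 * (Fe Y w (l * N) E0 ∅ E0 ε0 1 e + Fe Y w (l * N) E0 ∅ E0 ε0 (-1) e) :=
            mul_le_mul_of_nonneg_right (ind_le_one _) h4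
        _ ≤ _ := by linarith
    have p2 : ∀ V ∈ Vs, Fv Y (ε0 * δ / 10) N E0 ∅ E0 ε0 V ≤
        Real.exp (-(ε0 ^ 2 * δ / 10 * N)) := by
      intro V hV
      unfold Fv
      refine Real.exp_le_exp.mpr ?_
      rw [div_self hE0pos.ne', div_one]
      have h1 : Y.D ∅ V ≤ N := by
        unfold TSys.D
        calc ∑ e ∈ V, ind (e ∉ (∅ : Finset E)) ≤ ∑ e ∈ V, (1 : ℝ) :=
              Finset.sum_le_sum fun e _ => ind_le_one _
          _ = V.card := by simp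
          _ ≤ N := hvc V hV
      have : ε0 * δ / 10 * (Y.D ∅ V - N - N * ε0) ≤ ε0 * δ / 10 * (-(N * ε0)) :=
        mul_le_mul_of_nonneg_left (by linarith) (by positivity)
      linarith
    have s1 := Finset.sum_le_sum p1
    have s2 := Finset.sum_le_sum p2
    rw [Finset.sum_const, nsmul_eq_mul] at s1 s2
    have c1 : (0 : ℝ) < l * ε0 / 2 := by positivity
    have c2 : (0 : ℝ) < ε0 ^ 2 * δ / 10 := by positivity
    have x1 := exp_neg_cube c1 hNpos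
    have x2 := exp_neg_sq c2 hNpos
    have y1 : (G.card : ℝ) * (2 * Real.exp (-(l * ε0 / 2 * N))) ≤ 1 / 2 := by
      calc (G.card : ℝ) * (2 * Real.exp (-(l * ε0 / 2 * N)))
          ≤ (3 * N ^ 2) * (2 * (6 / (l * ε0 / 2 * N) ^ 3)) :=
            mul_le_mul hG (by linarith) (by positivity) (by positivity)
        _ = (72 / (l * ε0 / 2) ^ 3) / N / 2 := by field_simp; ring
        _ ≤ N / N / 2 := by
            refine div_le_div_of_nonneg_right ?_ (by norm_num)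
            exact div_le_div_of_nonneg_right u3 hNpos.le
        _ = 1 / 2 := by rw [div_self hNpos.ne']
    have y2 : (Vs.card : ℝ) * Real.exp (-(ε0 ^ 2 * δ / 10 * N)) ≤ 1 / 2 := by
      calc (Vs.card : ℝ) * Real.exp (-(ε0 ^ 2 * δ / 10 * N))
          ≤ (6 * N) * (2 / (ε0 ^ 2 * δ / 10 * N) ^ 2) :=
            mul_le_mul hVs x2 (by positivity) (by positivity)
        _ = (24 / (ε0 ^ 2 * δ / 10) ^ 2) / N / 2 := by field_simp; ring
        _ ≤ N / N / 2 := by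
            refine div_le_div_of_nonneg_right ?_ (by norm_num)
            exact div_le_div_of_nonneg_right u4 hNpos.le
        _ = 1 / 2 := by rw [div_self hNpos.ne']
    linarith
  exact greedy_final hD hE0.symm hδ hδ1 hεpos (by rw [hε0, rgE]) h20 hc1 hc2 hc3 h0

end Pool.LAV
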