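/-
LAV (MP_ba4857_co).  The random greedy theorem for triples of labels.
-/
import Pool.Agent.LAV.RG4
import Pool.Agent.LAV.Defs

namespace Pool.LAV

open Finset Pool.Agent.LAV

section

variable {α : Type*} [DecidableEq α]

/-- The system of the triples of labels. -/
def triSys (α : Type*) : TSys (Tri α) (Fin 3 × (α × α)) where
  ed := fun i T => (i, pr i T)
  ty := fun e => e.1
  ty_ed := fun _ _ => rfl
  lin := by
    rintro ⟨a, b, c⟩ ⟨a', b', c'⟩ i j hij hi hj
    have h1 : pr i (a, b, c) = pr i (a', b', c') := (Prod.mk.inj hi).2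
    have h2 : pr j (a, b, c) = pr j (a', b', c') := (Prod.mk.inj hj).2
    fin_cases i <;> fin_cases j <;> first
      | exact absurd rfl hij
      | (simp [pr] at h1 h2; simp [h1, h2])

/-- **Random greedy theorem.**  `U` is the set of labels, `G` a graph inside `U`, `w` a weight on the
triples of `G` whose line sums are nearly `1`.  There is a packing of triples of positive weight
which leaves at most `2 δ |U|` pairs uncovered at every vertex and for every type. -/
theorem rg_tri [Fintype α] {δ C : ℝ} (hδ : 0 < δ) (hδ1 : δ ≤ 1) (hC : 0 ≤ C) (U : Finset α)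
    (hN : rgN δ C ≤ (U.card : ℝ)) (G : Gr α) (hGU : ∀ t, G t ⊆ U ×ˢ U)
    (hG0 : (U.card : ℝ) ^ 2 / 2 ≤ ((G 0).card : ℝ))
    (w : Tri α → ℝ) (hw0 : ∀ T, 0 ≤ w T) (hwb : ∀ T, w T ≤ C / U.card)
    (hsupp : ∀ T, w T ≠ 0 → ∀ t, pr t T ∈ G t)
    (hQ : ∀ t, ∀ e ∈ G t, |∑ T : Tri α, (if pr t T = e then w T else 0) - 1| ≤ rgE δ / 2) :
    ∃ P : Finset (Tri α), (∀ T ∈ P, w T ≠ 0) ∧ Packing P ∧
      (∀ t v, (((G t \ cov P t).filter fun p => p.1 = v).card : ℝ) ≤ 2 * δ * U.card) ∧
      ∀ t v, (((G t \ cov P t).filter fun p => p.2 = v).card : ℝ) ≤ 2 * δ * U.card := by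
  classical
  obtain ⟨G', hG'⟩ : ∃ G' : Finset (Fin 3 × (α × α)), G' = univ.filter fun e => e.2 ∈ G e.1 :=
    ⟨_, rfl⟩
  have memG' : ∀ e, e ∈ G' ↔ e.2 ∈ G e.1 := by
    intro e; rw [hG']; simp
  -- vertex sets
  obtain ⟨vs, hvs⟩ : ∃ vs : Fin 3 × α × Bool → Finset (Fin 3 × (α × α)),
      vs = fun x => G'.filter fun e => e.1 = x.1 ∧ (if x.2.2 = true then e.2.1 = x.2.1
        else e.2.2 = x.2.1) := ⟨_, rfl⟩
  obtain ⟨Vs, hVs⟩ : ∃ Vs : Finset (Finset (Fin 3 × (α × α))),
      Vs = (univ ×ˢ (U ×ˢ (univ : Finset Bool))).image vs := ⟨_, rfl⟩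
  have memVs : ∀ V, V ∈ Vs ↔ ∃ x : Fin 3 × α × Bool, x.2.1 ∈ U ∧ vs x = V := by
    intro V
    rw [hVs, Finset.mem_image]
    constructor
    · rintro ⟨x, hx, rfl⟩
      simp only [Finset.mem_product] at hx
      exact ⟨x, hx.2.1, rfl⟩
    · rintro ⟨x, hx, rfl⟩
      exact ⟨x, by simp [Finset.mem_product, hx], rfl⟩
  have hU0 : (0 : ℝ) ≤ U.card := Nat.cast_nonneg _
  -- sizes
  have hcG : (G'.card : ℝ) ≤ 3 * (U.card : ℝ) ^ 2 := by
    have h1 : G' ⊆ (univ : Finset (Fin 3)) ×ˢ (U ×ˢ U) := by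
      intro e he
      rw [memG'] at he
      exact Finset.mem_product.mpr ⟨Finset.mem_univ _, hGU _ he⟩
    have h2 := Finset.card_le_card h1
    rw [Finset.card_product, Finset.card_product, Finset.card_univ, Fintype.card_fin] at h2
    have h3 : (G'.card : ℝ) ≤ ((3 * (U.card * U.card) : ℕ) : ℝ) := by exact_mod_cast h2
    push_cast at h3
    calc (G'.card : ℝ) ≤ _ := h3
      _ = _ := by ring
  have hG0' : ((G0 (triSys α) G').card : ℝ) = (G 0).card := by
    have : G0 (triSys α) G' = (G 0).image fun p => ((0 : Fin 3), p) := by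
      ext e
      unfold G0
      rw [Finset.mem_filter, memG', Finset.mem_image]
      constructor
      · rintro ⟨h1, h2⟩
        have h2' : e.1 = 0 := h2
        rw [h2'] at h1
        exact ⟨e.2, h1, by rw [← h2']⟩
      · rintro ⟨p, hp, rfl⟩
        exact ⟨hp, rfl⟩
    rw [this, Finset.card_image_of_injective]
    intro p q h
    exact (Prod.mk.inj h).2
  have hVc : (Vs.card : ℝ) ≤ 6 * U.card := by
    have h1 : Vs.card ≤ (univ ×ˢ (U ×ˢ (univ : Finset Bool)) : Finset (Fin 3 × α × Bool)).card := by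
      rw [hVs]; exact Finset.card_image_le
    rw [Finset.card_product, Finset.card_product, Finset.card_univ, Fintype.card_fin,
      Finset.card_univ, Fintype.card_bool] at h1
    have h3 : (Vs.card : ℝ) ≤ ((3 * (U.card * 2) : ℕ) : ℝ) := by exact_mod_cast h1
    push_cast at h3
    linarith
  have hvty : ∀ V ∈ Vs, ∃ i, ∀ e ∈ V, (triSys α).ty e = i := by
    intro V hV
    obtain ⟨x, hx, rfl⟩ := (memVs V).mp hV
    refine ⟨x.1, fun e he => ?_⟩
    rw [hvs] at he
    exact (Finset.mem_filter.mp he).2.1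
  have hvsub : ∀ V ∈ Vs, V ⊆ G' := by
    intro V hV
    obtain ⟨x, hx, rfl⟩ := (memVs V).mp hV
    rw [hvs]
    exact Finset.filter_subset _ _
  have hvc : ∀ V ∈ Vs, (V.card : ℝ) ≤ U.card := by
    intro V hV
    obtain ⟨x, hx, rfl⟩ := (memVs V).mp hV
    have h1 : (vs x).card ≤ U.card := by
      refine Finset.card_le_card_of_injOn (fun e => if x.2.2 = true then e.2.2 else e.2.1) ?_ ?_
      · intro e he
        rw [hvs] at he
        have he' := Finset.mem_filter.mp (Finset.mem_coe.mp he)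
        have h2 := Finset.mem_product.mp (hGU _ ((memG' e).mp he'.1))
        by_cases hb : x.2.2 = true
        · simp only [hb, if_true]; exact h2.2
        · simp only [if_neg hb]; exact h2.1
      · intro e he f hf hef
        rw [hvs] at he hf
        have he' := (Finset.mem_filter.mp (Finset.mem_coe.mp he)).2
        have hf' := (Finset.mem_filter.mp (Finset.mem_coe.mp hf)).2
        by_cases hb : x.2.2 = true
        · simp only [hb, if_true] at hef he' hf'
          refine Prod.ext (he'.1.trans hf'.1.symm) (Prod.ext (he'.2.trans hf'.2.symm) hef)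
        · simp only [if_neg hb] at hef he' hf'
          refine Prod.ext (he'.1.trans hf'.1.symm) (Prod.ext hef (he'.2.trans hf'.2.symm))
    exact_mod_cast h1
  have hsupp' : ∀ T, w T ≠ 0 → ∀ i, (triSys α).ed i T ∈ G' := by
    intro T hT i
    rw [memG']
    exact hsupp T hT i
  have hQ' : ∀ e ∈ G', |(triSys α).Q w ∅ e - 1| ≤ rgE δ / 2 := by
    intro e he
    have h1 := hQ e.1 e.2 ((memG' e).mp he)
    have h2 : (triSys α).Q w ∅ e = ∑ T : Tri α, (if pr e.1 T = e.2 then w T else 0) := by
      unfold TSys.Q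
      refine Finset.sum_congr rfl fun T _ => ?_
      rw [ind_true (p := (triSys α).Av ∅ T) (fun i => Finset.notMem_empty _), one_mul]
      by_cases h : pr e.1 T = e.2
      · rw [if_pos h, ind_true (p := (triSys α).On e T), one_mul]
        exact Prod.ext rfl h
      · rw [if_neg h, ind_false (p := (triSys α).On e T), zero_mul]
        intro h'
        exact h (Prod.mk.inj (show ((e.1, pr e.1 T) : Fin 3 × (α × α)) = (e.1, e.2) from h')).2
    rw [h2]; exact h1
  obtain ⟨S, S1, S2, S3⟩ := rg_main (T := Tri α) (E := Fin 3 × (α × α)) (N := U.card) hδ hδ1 hC hN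
    (triSys α) w G' Vs hw0 hwb hsupp' (by rw [hG0']; exact hG0) hcG hVc hvty hvsub hvc hQ'
  have hcov : ∀ t p, (t, p) ∈ used (triSys α) S ↔ p ∈ cov S t := by
    intro t p
    rw [mem_used, cov, Finset.mem_image]
    constructor
    · rintro ⟨x, hx, h⟩
      exact ⟨x, hx, (Prod.mk.inj h).2⟩
    · rintro ⟨x, hx, h⟩
      refine ⟨x, hx, ?_⟩
      change ((t, pr t x) : Fin 3 × (α × α)) = (t, p)
      rw [h]
  -- counting of the uncovered pairs
  have hcount : ∀ (x : Fin 3 × α × Bool) (F : Finset (α × α)),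
      (∀ p, p ∈ F → p ∈ G x.1 ∧ p ∉ cov S x.1 ∧ (if x.2.2 = true then p.1 = x.2.1
        else p.2 = x.2.1)) → (F.card : ℝ) ≤ 2 * δ * U.card := by
    intro x F hF
    by_cases hxU : x.2.1 ∈ U
    · have h1 := S3 (vs x) ((memVs _).mpr ⟨x, hxU, rfl⟩)
      refine le_trans ?_ h1
      unfold TSys.D
      have h2 : (F.card : ℝ) = ∑ e ∈ F.image (fun p => (x.1, p)), (1 : ℝ) := by
        rw [Finset.sum_const, nsmul_eq_mul, mul_one, Finset.card_image_of_injective]
        intro p q h
        exact (Prod.mk.inj h).2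
      rw [h2]
      calc ∑ e ∈ F.image (fun p => (x.1, p)), (1 : ℝ)
          = ∑ e ∈ F.image (fun p => (x.1, p)), ind (e ∉ used (triSys α) S) := by
            refine Finset.sum_congr rfl fun e he => ?_
            obtain ⟨p, hp, rfl⟩ := Finset.mem_image.mp he
            rw [ind_true]
            rw [hcov]
            exact (hF p hp).2.1
        _ ≤ ∑ e ∈ vs x, ind (e ∉ used (triSys α) S) := by
            refine Finset.sum_le_sum_of_subset_of_nonneg ?_ fun _ _ _ => ind_nonneg _
            intro e he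
            obtain ⟨p, hp, rfl⟩ := Finset.mem_image.mp he
            rw [hvs]
            simp only
            rw [Finset.mem_filter, memG']
            exact ⟨(hF p hp).1, rfl, (hF p hp).2.2⟩
    · have : F = ∅ := by
        rw [Finset.eq_empty_iff_forall_notMem]
        intro p hp
        obtain ⟨h1, -, h3⟩ := hF p hp
        have h4 := Finset.mem_product.mp (hGU _ h1)
        by_cases hb : x.2.2 = true
        · rw [if_pos hb] at h3; exact hxU (h3 ▸ h4.1)
        · rw [if_neg hb] at h3; exact hxU (h3 ▸ h4.2)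
      rw [this]
      simp only [Finset.card_empty, Nat.cast_zero]
      positivity
  refine ⟨S, S1, ?_, fun t v => ?_, fun t v => ?_⟩
  · intro t x hx y hy hxy
    by_contra hne
    exact S2 x hx y hy hne t (Prod.ext rfl hxy)
  · refine hcount (t, v, true) _ fun p hp => ?_
    rw [Finset.mem_filter, Finset.mem_sdiff] at hp
    exact ⟨hp.1.1, hp.1.2, by simpa using hp.2⟩
  · refine hcount (t, v, false) _ fun p hp => ?_
    rw [Finset.mem_filter, Finset.mem_sdiff] at hp
    exact ⟨hp.1.1, hp.1.2, by simpa using hp.2⟩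

end

end Pool.LAV
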