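import Pool.Agent.LAV.COV
import Pool.Agent.LAV.COR5
import Pool.Agent.LAV.RG5
import Pool.Agent.LAV.ITR
import Pool.Agent.LAV.FRAC
import Pool.Agent.LAV.VDefs

set_option autoImplicit false
set_option linter.unusedSectionVars false
set_option linter.unusedVariables false

/-!
# Project LAV: one level of the vortex
-/

namespace Pool.Agent.LAV

open Finset

variable {α : Type*} [DecidableEq α]

theorem fin3_t : ∀ t : Fin 3, ob t < oc t ∧ -(ob t + oc t) = t ∧ -(oc t + ob t) = t := by decide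

theorem rowD_nbr (G : Gr α) (t : Fin 3) (v : α) : rowD G t v = (nbr G (ob t) (oc t) v).card := by
  rw [card_nbr, if_pos (fin3_t t).1, (fin3_t t).2.1]

theorem colD_nbr (G : Gr α) (t : Fin 3) (v : α) : colD G t v = (nbr G (oc t) (ob t) v).card := by
  rw [card_nbr, if_neg (not_lt.2 (fin3_t t).1.le), (fin3_t t).2.2]

theorem mem_adj (G : Gr α) (t : Fin 3) (x y : α) : (x, y) ∈ G t ↔ Adj G (ob t) (oc t) x y := by
  unfold Adj
  rw [if_pos (fin3_t t).1, (fin3_t t).2.1]

theorem adj_mem_prod {G : Gr α} {U W : Finset α} (h : ∀ t, G t ⊆ U ×ˢ U) (a b : Fin 3) {x y : α}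
    (hxy : Adj G a b x y) : x ∈ U ∧ y ∈ U := by
  unfold Adj at hxy
  split_ifs at hxy
  · exact mem_product.1 (h _ hxy)
  · exact (mem_product.1 (h _ hxy)).symm

theorem nbr_subset {G : Gr α} {U : Finset α} (h : ∀ t, G t ⊆ U ×ˢ U) (a b : Fin 3) (x : α) :
    nbr G a b x ⊆ U := by
  intro y hy
  exact (adj_mem_prod (W := U) h a b ((mem_nbr G a b x y).1 hy)).2

/-- number of missing neighbours -/
theorem missing_row {G : Gr α} {U : Finset α} (h : ∀ t, G t ⊆ U ×ˢ U) (t : Fin 3) (v : α) :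
    (U.filter fun u => (v, u) ∉ G t).card + rowD G t v = U.card := by
  rw [rowD_nbr, ← card_union_of_disjoint]
  · congr 1
    ext u
    rw [mem_union, mem_filter, mem_nbr, mem_adj]
    constructor
    · rintro (⟨h1, -⟩ | h1)
      · exact h1
      · exact (adj_mem_prod (W := U) h _ _ h1).2
    · intro h1
      by_cases h2 : Adj G (ob t) (oc t) v u
      · exact Or.inr h2
      · exact Or.inl ⟨h1, h2⟩
  · rw [disjoint_left]
    intro u h1 h2
    rw [mem_nbr, ← mem_adj] at h2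
    exact (mem_filter.1 h1).2 h2

theorem missing_col {G : Gr α} {U : Finset α} (h : ∀ t, G t ⊆ U ×ˢ U) (t : Fin 3) (v : α) :
    (U.filter fun u => (u, v) ∉ G t).card + colD G t v = U.card := by
  have hne : ob t ≠ oc t := ne_of_lt (fin3_t t).1
  rw [colD_nbr, ← card_union_of_disjoint]
  · congr 1
    ext u
    rw [mem_union, mem_filter, mem_nbr, mem_adj, Adj_comm G hne]
    constructor
    · rintro (⟨h1, -⟩ | h1)
      · exact h1
      · exact (adj_mem_prod (W := U) h _ _ h1).2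
    · intro h1
      by_cases h2 : Adj G (oc t) (ob t) v u
      · exact Or.inr h2
      · exact Or.inl ⟨h1, h2⟩
  · rw [disjoint_left]
    intro u h1 h2
    rw [mem_nbr, ← Adj_comm G hne, ← mem_adj] at h2
    exact (mem_filter.1 h1).2 h2

/-- **One level**, general form. -/
theorem level0 [Fintype α] (A : Tri α → Prop) [DecidablePred A] {U U' : Finset α} (hUU : U' ⊆ U)
    {R Z' : Gr α} {θ : ℝ} {s0 s1 a1 c0 f e1 d B Δ : ℕ} {μ : ℝ}
    (hR : Res A (U \ U') U' R Z' s0 s1 a1 c0 f e1)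
    (hZ' : ∀ t, Z' t ⊆ U' ×ˢ U')
    -- step (A)
    {cw Cw : ℝ} {w0 : Tri α → ℝ} (hw : FracLS A U cw Cw w0) (hcw : 0 ≤ cw) (hCw : 0 ≤ Cw)
    {b : ℝ} (hb : Sparse A U U b) (hb0 : 0 ≤ b) (hb4 : 4 * b ≤ (U.card : ℝ))
    -- numbers
    {m Dm δ n0 : ℝ} {j : ℕ} (hθ0 : 0 ≤ θ)
    (hm : θ * U.card + U'.card + s1 + a1 ≤ m)
    (hI : Imb R U Dm) (hD0 : 0 ≤ Dm)
    (hn0 : 0 < n0)
    (hn0le : n0 ≤ ((U.card : ℝ) - b) * (U.card - 2 * b) * (U.card - 4 * b))
    (hq : 4 * m * (7 * (1 + 8 * (U.card : ℝ) ^ 3 / n0)) ≤ U.card)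
    (hs : 7 * (1 + 8 * (U.card : ℝ) ^ 3 / n0) * (4 * m * Cw / U.card + 6 * Dm / U.card * j) ≤
      cw / 2)
    (hδ : 0 < δ) (hδ1 : δ ≤ 1)
    (hacc : 2 * m * Cw / U.card * (1 / 2) ^ j + 6 * Dm / U.card ≤ Pool.LAV.rgE δ / 2)
    (hN : Pool.LAV.rgN δ (Cw + cw / 2) ≤ (U.card : ℝ))
    (hΔ : 2 * δ * U.card ≤ (Δ : ℝ))
    -- covering step
    (hd : 0 < d) (hc : 2 * Δ < c0) (hsd : 2 * d + 2 * B + 2 * f + 4 * Δ ≤ s0)
    (hμ : ((a1 + Δ : ℕ) : ℝ) * (e1 + 2 * Δ : ℕ) + (s1 + Δ : ℕ) ≤ μ * d)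
    (hB : ((U \ U').card : ℝ) * (2 * (s1 + Δ : ℕ)) * Real.exp μ < 2 ^ (B + 1))
    (hθ : ((a1 + Δ : ℕ) : ℝ) ≤ θ * U'.card) :
    StepOK A U U' (fun t => U' ×ˢ U' ∪ R t) Z' θ := by
  classical
  intro G hGU hGdiv hZG hnear
  have hOU : Disjoint (U \ U') U' := sdiff_disjoint
  have hUO : ∀ {x : α}, x ∈ U → x ∉ U' → x ∈ U \ U' := fun h1 h2 => mem_sdiff.2 ⟨h1, h2⟩
  have third : ∀ {a b : Fin 3}, a ≠ b → ∃ c : Fin 3, a ≠ c ∧ b ≠ c := by decide
  have hRG : ∀ t, R t ⊆ G t := fun t => subset_union_right.trans (hZG t)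
  have hUG : ∀ t, U' ×ˢ U' ⊆ G t := fun t => subset_union_left.trans (hZG t)
  have adjRG : ∀ a b x y, Adj R a b x y → Adj G a b x y := by
    intro a b x y h
    unfold Adj at h ⊢
    split_ifs at h ⊢
    · exact hRG _ h
    · exact hRG _ h
  have adjUG : ∀ a b x y, x ∈ U' → y ∈ U' → Adj G a b x y := by
    intro a b x y hx hy
    unfold Adj
    split_ifs
    · exact hUG _ (mem_product.2 ⟨hx, hy⟩)
    · exact hUG _ (mem_product.2 ⟨hy, hx⟩)
  have hRends : ∀ a b : Fin 3, a ≠ b → ∀ x y, Adj R a b x y → ¬ (x ∈ U' ∧ y ∈ U') := by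
    rintro a b hab x y h ⟨hx, hy⟩
    rcases hR.mem a b hab x y h with ⟨h1, -⟩ | ⟨-, h1⟩
    · exact (mem_sdiff.1 h1).2 hx
    · exact (mem_sdiff.1 h1).2 hy
  -- the graph to be decomposed approximately
  obtain ⟨Gs, hGs⟩ : ∃ Gs : Gr α, Gs = fun t => (G t \ (U' ×ˢ U')) \ R t := ⟨_, rfl⟩
  have adjGs : ∀ a b x y, Adj Gs a b x y ↔
      (Adj G a b x y ∧ ¬ (x ∈ U' ∧ y ∈ U')) ∧ ¬ Adj R a b x y := by
    intro a b x y
    rw [hGs]
    unfold Adj
    split_ifs
    · rw [mem_sdiff, mem_sdiff, mem_product]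
    · rw [mem_sdiff, mem_sdiff, mem_product, and_comm (a := y ∈ U')]
  have hGsU : ∀ t, Gs t ⊆ U ×ˢ U := by
    intro t
    rw [hGs]
    exact (sdiff_subset.trans sdiff_subset).trans (hGU t)
  have hGsG : ∀ t, Gs t ⊆ G t := by
    intro t
    rw [hGs]
    exact sdiff_subset.trans sdiff_subset
  -- degrees
  have hdeg : ∀ a b : Fin 3, a ≠ b → ∀ v ∈ U, (nbr G a b v).card =
      (nbr Gs a b v).card + (nbr R a b v).card + (if v ∈ U' then U'.card else 0) := by
    intro a b hab v hv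
    by_cases hvU : v ∈ U'
    · rw [if_pos hvU, ← card_union_of_disjoint, ← card_union_of_disjoint]
      · congr 1
        ext u
        simp only [mem_union, mem_nbr, adjGs]
        constructor
        · intro h
          by_cases h1 : u ∈ U'
          · exact Or.inr h1
          · by_cases h2 : Adj R a b v u
            · exact Or.inl (Or.inr h2)
            · exact Or.inl (Or.inl ⟨⟨h, fun h3 => h1 h3.2⟩, h2⟩)
        · rintro ((h | h) | h)
          · exact h.1.1
          · exact adjRG _ _ _ _ h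
          · exact adjUG _ _ _ _ hvU h
      · rw [disjoint_left]
        intro u hu hu'
        rw [mem_union, mem_nbr, mem_nbr, adjGs] at hu
        rcases hu with hu | hu
        · exact hu.1.2 ⟨hvU, hu'⟩
        · exact hRends a b hab v u hu ⟨hvU, hu'⟩
      · rw [disjoint_left]
        intro u hu hu'
        rw [mem_nbr, adjGs] at hu
        rw [mem_nbr] at hu'
        exact hu.2 hu'
    · rw [if_neg hvU, add_zero, ← card_union_of_disjoint]
      · congr 1
        ext u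
        simp only [mem_union, mem_nbr, adjGs]
        constructor
        · intro h
          by_cases h2 : Adj R a b v u
          · exact Or.inr h2
          · exact Or.inl ⟨⟨h, fun h3 => hvU h3.1⟩, h2⟩
        · rintro (h | h)
          · exact h.1.1
          · exact adjRG _ _ _ _ h
      · rw [disjoint_left]
        intro u hu hu'
        rw [mem_nbr, adjGs] at hu
        rw [mem_nbr] at hu'
        exact hu.2 hu'
  have hRle : ∀ a b : Fin 3, a ≠ b → ∀ v ∈ U, (nbr R a b v).card ≤ s1 + a1 := by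
    intro a b hab v hv
    by_cases hvU : v ∈ U'
    · exact (hR.degU a b hab v hvU).trans (Nat.le_add_left _ _)
    · exact (hR.degO a b hab v (hUO hv hvU)).2.trans (Nat.le_add_right _ _)
  have hdiv := (divisible_iff G).1 hGdiv
  -- missing pairs
  have hlow : ∀ a b : Fin 3, a ≠ b → ∀ v ∈ U,
      (U.card : ℝ) - m ≤ ((nbr Gs a b v).card : ℝ) := by
    intro a b hab v hv
    have h1 := hdeg a b hab v hv
    have h2 := hRle a b hab v hv
    have h3 : (if v ∈ U' then U'.card else 0) ≤ U'.card := by split_ifs <;> omega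
    have h4 : (U.card : ℝ) - θ * U.card ≤ ((nbr G a b v).card : ℝ) := by
      rw [card_nbr]
      split_ifs
      · exact (hnear _ v hv).1
      · exact (hnear _ v hv).2
    have h5 : ((nbr G a b v).card : ℝ) ≤ (nbr Gs a b v).card + (s1 + a1) + U'.card := by
      have : (nbr G a b v).card ≤ (nbr Gs a b v).card + (s1 + a1) + U'.card := by omega
      exact_mod_cast this
    linarith
  have hM : ∀ t, ∀ v ∈ U, ((U.filter fun u => (v, u) ∉ Gs t).card : ℝ) ≤ m ∧
      ((U.filter fun u => (u, v) ∉ Gs t).card : ℝ) ≤ m := by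
    intro t v hv
    have hne : ob t ≠ oc t := ne_of_lt (fin3_t t).1
    constructor
    · have h1 : ((U.filter fun u => (v, u) ∉ Gs t).card : ℝ) + rowD Gs t v = U.card := by
        exact_mod_cast missing_row hGsU t v
      have h2 := hlow _ _ hne v hv
      rw [rowD_nbr] at h1
      linarith
    · have h1 : ((U.filter fun u => (u, v) ∉ Gs t).card : ℝ) + colD Gs t v = U.card := by
        exact_mod_cast missing_col hGsU t v
      have h2 := hlow _ _ hne.symm v hv
      rw [colD_nbr] at h1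
      linarith
  -- imbalance
  have himb : ∀ a b c : Fin 3, a ≠ b → a ≠ c → b ≠ c → ∀ v ∈ U,
      |((nbr Gs a b v).card : ℝ) - (nbr Gs a c v).card| ≤ Dm := by
    intro a b c hab hac hbc v hv
    have h1 := hdeg a b hab v hv
    have h2 := hdeg a c hac v hv
    have h3 := hdiv a b c hab hac hbc v
    have h4 : ((nbr Gs a b v).card : ℝ) - (nbr Gs a c v).card =
        (nbr R a c v).card - (nbr R a b v).card := by
      have : (nbr Gs a b v).card + (nbr R a b v).card = (nbr Gs a c v).card + (nbr R a c v).card := by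
        omega
      have h5 : ((nbr Gs a b v).card : ℝ) + (nbr R a b v).card =
          (nbr Gs a c v).card + (nbr R a c v).card := by exact_mod_cast this
      linarith
    rw [h4]
    exact hI a c b hac hab hbc.symm v hv
  have hBal : ∀ v ∈ U, |(rowD Gs 1 v : ℝ) - rowD Gs 2 v| ≤ Dm ∧
      |(rowD Gs 0 v : ℝ) - colD Gs 2 v| ≤ Dm ∧ |(colD Gs 0 v : ℝ) - colD Gs 1 v| ≤ Dm := by
    intro v hv
    refine ⟨?_, ?_, ?_⟩
    · have := himb 0 2 1 (by decide) (by decide) (by decide) v hv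
      rw [card_nbr, card_nbr] at this
      exact this
    · have := himb 1 2 0 (by decide) (by decide) (by decide) v hv
      rw [card_nbr, card_nbr] at this
      exact this
    · have := himb 2 1 0 (by decide) (by decide) (by decide) v hv
      rw [card_nbr, card_nbr] at this
      exact this
  have hNpos : (0 : ℝ) < U.card := by
    have hE : 0 < Pool.LAV.rgE δ := by unfold Pool.LAV.rgE; positivity
    have hL : 0 < Pool.LAV.rgL δ (Cw + cw / 2) := by unfold Pool.LAV.rgL; positivity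
    have : (1 : ℝ) ≤ Pool.LAV.rgN δ (Cw + cw / 2) := by
      unfold Pool.LAV.rgN
      have h1 : 0 ≤ 40 / δ := by positivity
      have h2 : 0 ≤ 5 / (δ * Pool.LAV.rgE δ) := by positivity
      have h3 : 0 ≤ 72 / (Pool.LAV.rgL δ (Cw + cw / 2) * Pool.LAV.rgE δ / 2) ^ 3 := by positivity
      have h4 : 0 ≤ 24 / (Pool.LAV.rgE δ ^ 2 * δ / 10) ^ 2 := by positivity
      linarith
    linarith
  have hm0 : 0 ≤ m := by
    have : 0 ≤ θ * U.card + U'.card + s1 + a1 := by positivity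
    linarith
  obtain ⟨w, w1, w2, w3, w4⟩ := Pool.LAV.cor_tri (A := A) (G := Gs) (U := U) (N := U.card)
    (b := b) (n0 := n0) (m := m) (D := Dm) (c0 := cw) (C0 := Cw) rfl hNpos hb0 hb4 hm0 hn0 hn0le hD0
    hcw hCw hGsU (by
      intro x hx y hy
      have h1 := hb x hx y hy
      rw [Pool.LAV.sum_sub_ind U (fun u => ¬ A (u, x, y)),
        Pool.LAV.sum_sub_ind U (fun u => ¬ A (x, u, y)),
        Pool.LAV.sum_sub_ind U (fun u => ¬ A (x, y, u))]
      exact h1) hM hBal hw.lo hw.up hw.nn hw.zero hw.line j hq hs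
  have hG0 : (U.card : ℝ) ^ 2 / 2 ≤ ((Gs 0).card : ℝ) := by
    have h1 : ((Gs 0).card : ℝ) = ∑ v ∈ U, (rowD Gs 0 v : ℝ) := by
      have : (Gs 0).card = ∑ v ∈ U, rowD Gs 0 v := by
        unfold rowD
        exact card_eq_sum_card_fiberwise fun p hp => (mem_product.1 (hGsU 0 hp)).1
      exact_mod_cast this
    have h2 : ∀ v ∈ U, (U.card : ℝ) - m ≤ (rowD Gs 0 v : ℝ) := by
      intro v hv
      rw [rowD_nbr]
      exact hlow _ _ (ne_of_lt (fin3_t 0).1) v hv
    have h3 := sum_le_sum h2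
    rw [sum_const, nsmul_eq_mul, ← h1] at h3
    have h4 : m ≤ U.card / 2 := by
      have h5 : (0 : ℝ) ≤ 8 * (U.card : ℝ) ^ 3 / n0 := by positivity
      nlinarith
    nlinarith
  obtain ⟨P1, p1, p2, p3, p4⟩ := Pool.LAV.rg_tri hδ hδ1 (by positivity : 0 ≤ Cw + cw / 2) U hN Gs
    hGsU hG0 w w1 w2 (fun T hT => (w3 T hT).2) (fun t e he => (w4 t e he).trans hacc)
  have hP1A : ∀ T ∈ P1, A T := fun T hT => (w3 T (p1 T hT)).1
  have hP1G : ∀ t, cov P1 t ⊆ Gs t := by
    intro t e he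
    obtain ⟨T, hT, rfl⟩ := mem_image.1 he
    exact (w3 T (p1 T hT)).2 t
  obtain ⟨L, hL⟩ : ∃ L : Gr α, L = fun t => Gs t \ cov P1 t := ⟨_, rfl⟩
  have adjL : ∀ a b x y, Adj L a b x y ↔ Adj Gs a b x y ∧ ¬ Adj (cov P1) a b x y := by
    intro a b x y
    rw [hL]
    exact Adj_sdiff Gs (cov P1) a b x y
  have adjP1 : ∀ a b x y, Adj (cov P1) a b x y → Adj Gs a b x y := by
    intro a b x y h
    unfold Adj at h ⊢
    split_ifs at h ⊢
    · exact hP1G _ h
    · exact hP1G _ h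
  have hLdeg : ∀ a b : Fin 3, a ≠ b → ∀ x, (nbr L a b x).card ≤ Δ := by
    intro a b _ x
    have : ((nbr L a b x).card : ℝ) ≤ Δ := by
      refine le_trans ?_ hΔ
      rw [card_nbr]
      split_ifs
      · rw [hL]; exact p3 _ x
      · rw [hL]; exact p4 _ x
    exact_mod_cast this
  have hsplit : ∀ a b x, (nbr Gs a b x).card = (nbr L a b x).card + (nbr (cov P1) a b x).card := by
    intro a b x
    rw [← card_union_of_disjoint]
    · congr 1
      ext u
      simp only [mem_union, mem_nbr, adjL]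
      constructor
      · intro h
        by_cases h1 : Adj (cov P1) a b x u
        · exact Or.inr h1
        · exact Or.inl ⟨h, h1⟩
      · rintro (h | h)
        · exact h.1
        · exact adjP1 _ _ _ _ h
    · rw [disjoint_left]
      intro u h1 h2
      rw [mem_nbr, adjL] at h1
      rw [mem_nbr] at h2
      exact h1.2 h2
  have hLeft : Left (U \ U') U' R L Δ := by
    refine ⟨?_, hLdeg, ?_, ?_⟩
    · intro a b _ x y h
      have h1 := (adjGs a b x y).1 ((adjL a b x y).1 h).1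
      have h2 := adj_mem_prod (W := U) hGU a b h1.1.1
      by_cases hx : x ∈ U'
      · by_cases hy : y ∈ U'
        · exact absurd ⟨hx, hy⟩ h1.1.2
        · exact Or.inr ⟨hx, hUO h2.2 hy⟩
      · by_cases hy : y ∈ U'
        · exact Or.inl ⟨hUO h2.1 hx, Or.inr hy⟩
        · exact Or.inl ⟨hUO h2.1 hx, Or.inl (hUO h2.2 hy)⟩
    · intro a b _ x y h
      exact ((adjGs a b x y).1 ((adjL a b x y).1 h).1).2
    · intro a b c hab hac hbc x hx
      have hxU := (mem_sdiff.1 hx).1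
      have h1 := hdeg a b hab x hxU
      have h2 := hdeg a c hac x hxU
      have h3 := hdiv a b c hab hac hbc x
      have h4 := hsplit a b x
      have h5 := hsplit a c x
      have h6 := card_nbr_cov p2 hab x
      have h7 := card_nbr_cov p2 hac x
      omega
  obtain ⟨P', D', q1, q2, q3, q4, q5⟩ := cover A hOU hR hLeft hd hc hsd hμ hB
  have covP' : ∀ t, cov P' t = L t ∪ R t ∪ D' t := fun t => congrFun q3 t
  have memD : ∀ t x y, (x, y) ∈ D' t → x ∈ U' ∧ y ∈ U' ∧ (x, y) ∉ Z' t := by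
    intro t x y h
    rw [mem_adj] at h
    have h1 := q4 _ _ (ne_of_lt (fin3_t t).1) x y h
    rw [mem_adj]
    exact h1
  have memR : ∀ t x y, (x, y) ∈ R t → ¬ (x ∈ U' ∧ y ∈ U') := by
    intro t x y h
    rw [mem_adj] at h
    exact hRends _ _ (ne_of_lt (fin3_t t).1) x y h
  have memGs : ∀ t x y, (x, y) ∈ Gs t ↔ ((x, y) ∈ G t ∧ ¬ (x ∈ U' ∧ y ∈ U')) ∧ (x, y) ∉ R t := by
    intro t x y
    rw [hGs, mem_sdiff, mem_sdiff, mem_product]
  have memL : ∀ t x y, (x, y) ∈ L t ↔ (x, y) ∈ Gs t ∧ (x, y) ∉ cov P1 t := by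
    intro t x y
    rw [hL, mem_sdiff]
  have hcov : ∀ t, cov (P1 ∪ P') t = cov P1 t ∪ (L t ∪ R t ∪ D' t) := by
    intro t
    rw [cov_union, covP']
  refine ⟨P1 ∪ P', ?_, ?_, ?_, ?_, ?_, ?_⟩
  · intro T hT
    rcases mem_union.1 hT with hT | hT
    · exact hP1A T hT
    · exact q1 T hT
  · refine packing_union p2 q2 fun t => ?_
    rw [covP', disjoint_left]
    rintro ⟨x, y⟩ h1 h2
    have h3 := (memGs t x y).1 (hP1G t h1)
    rcases mem_union.1 h2 with h2 | h2
    · rcases mem_union.1 h2 with h2 | h2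
      · exact ((memL t x y).1 h2).2 h1
      · exact h3.2 h2
    · have h4 := memD t x y h2
      exact h3.1.2 ⟨h4.1, h4.2.1⟩
  · intro t
    rw [hcov]
    rintro ⟨x, y⟩ h
    rcases mem_union.1 h with h | h
    · exact hGsG t (hP1G t h)
    · rcases mem_union.1 h with h | h
      · rcases mem_union.1 h with h | h
        · exact hGsG t ((memL t x y).1 h).1
        · exact hRG t h
      · have h4 := memD t x y h
        exact hUG t (mem_product.2 ⟨h4.1, h4.2.1⟩)
  · intro t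
    rw [hcov]
    rintro ⟨x, y⟩ h
    rw [mem_sdiff] at h
    by_contra hcon
    rw [mem_product] at hcon
    refine h.2 ?_
    by_cases hRm : (x, y) ∈ R t
    · exact mem_union_right _ (mem_union_left _ (mem_union_right _ hRm))
    · have h1 : (x, y) ∈ Gs t := (memGs t x y).2 ⟨⟨h.1, hcon⟩, hRm⟩
      by_cases h2 : (x, y) ∈ cov P1 t
      · exact mem_union_left _ h2
      · exact mem_union_right _ (mem_union_left _ (mem_union_left _ ((memL t x y).2 ⟨h1, h2⟩)))
  · intro t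
    rw [hcov, disjoint_left]
    rintro ⟨x, y⟩ hz h
    have hxy := mem_product.1 (hZ' t hz)
    rcases mem_union.1 h with h | h
    · exact ((memGs t x y).1 (hP1G t h)).1.2 hxy
    · rcases mem_union.1 h with h | h
      · rcases mem_union.1 h with h | h
        · exact ((memGs t x y).1 ((memL t x y).1 h).1).1.2 hxy
        · exact memR t x y h hxy
      · exact (memD t x y h).2.2 hz
  · have hkey : ∀ a b : Fin 3, a ≠ b → ∀ v ∈ U', (U'.card : ℝ) - θ * U'.card ≤
        ((nbr (fun t => G t \ cov (P1 ∪ P') t) a b v).card : ℝ) := by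
      intro a b hab v hv
      have h1 : U' ⊆ nbr (fun t => G t \ cov (P1 ∪ P') t) a b v ∪ nbr D' a b v := by
        intro u hu
        rw [mem_union, mem_nbr, mem_nbr]
        by_cases hDu : Adj D' a b v u
        · exact Or.inr hDu
        · left
          rw [Adj_sdiff G (cov (P1 ∪ P'))]
          refine ⟨adjUG a b v u hv hu, fun h2 => ?_⟩
          have h3 : Adj (cov (P1 ∪ P')) a b v u ↔
              (Adj (cov P1) a b v u ∨ ((Adj L a b v u ∨ Adj R a b v u) ∨ Adj D' a b v u)) := by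
            have e1 : cov (P1 ∪ P') = fun t => cov P1 t ∪ (fun t => L t ∪ R t ∪ D' t) t := by
              funext t; exact hcov t
            rw [e1, Adj_union (cov P1) (fun t => L t ∪ R t ∪ D' t),
              Adj_union (fun t => L t ∪ R t) D', Adj_union L R]
          rcases h3.1 h2 with h4 | (h4 | h4) | h4
          · exact ((adjGs a b v u).1 (adjP1 a b v u h4)).1.2 ⟨hv, hu⟩
          · exact ((adjGs a b v u).1 ((adjL a b v u).1 h4).1).1.2 ⟨hv, hu⟩
          · exact hRends a b hab v u h4 ⟨hv, hu⟩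
          · exact hDu h4
      have h2 := (card_le_card h1).trans (card_union_le _ _)
      have h3 := q5 a b hab v
      have h4 : (U'.card : ℝ) ≤ (nbr (fun t => G t \ cov (P1 ∪ P') t) a b v).card +
          ((a1 + Δ : ℕ) : ℝ) := by
        exact_mod_cast h2.trans (Nat.add_le_add_left h3 _)
      linarith
    intro t v hv
    have hne : ob t ≠ oc t := ne_of_lt (fin3_t t).1
    rw [rowD_nbr, colD_nbr]
    exact ⟨hkey _ _ hne v hv, hkey _ _ hne.symm v hv⟩

/-- **One level.** -/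
theorem level {α : Type} [DecidableEq α] [Fintype α] (A : Tri α → Prop) [DecidablePred A]
    {U U' : Finset α} {R Z' : Gr α} {s0 s1 a1 c1 f e1 Δ d B j : ℕ}
    {b c0 C0 N m D n0 δ μ θ : ℝ} {w0 : Tri α → ℝ}
    (hU : U' ⊆ U) (hN : (U.card : ℝ) = N) (hNpos : 0 < N)
    (hb : 0 ≤ b) (hb4 : 4 * b ≤ 1) (hspa : Spa A U U b) (hw : Frac A U w0 c0 C0)
    (hR : Res A (U \ U') U' R Z' s0 s1 a1 c1 f e1) (hI : Imb R U D)
    (hZ' : ∀ t, Z' t ⊆ U' ×ˢ U')
    (hn0 : 0 < n0) (hn0le : n0 ≤ (N - b * N) * (N - 2 * (b * N)) * (N - 4 * (b * N)))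
    (hD : 0 ≤ D) (hc0 : 0 ≤ c0) (hC0 : 0 ≤ C0) (hθ : 0 ≤ θ)
    (hm : θ * N + U'.card + a1 + s1 ≤ m) (hm2 : m ≤ N / 2)
    (hq : 4 * m * (7 * (1 + 8 * N ^ 3 / n0)) ≤ N)
    (hs : 7 * (1 + 8 * N ^ 3 / n0) * (4 * m * C0 / N + 6 * D / N * j) ≤ c0 / 2)
    (hδ : 0 < δ) (hδ1 : δ ≤ 1)
    (hj : 2 * m * C0 / N * (1 / 2) ^ j + 6 * D / N ≤ Pool.LAV.rgE δ / 2)
    (hrg : Pool.LAV.rgN δ (C0 + c0 / 2) ≤ N) (hΔ : 2 * δ * N ≤ Δ)
    (hd : 0 < d) (hc : 2 * Δ < c1) (hs0 : 2 * d + 2 * B + 2 * f + 4 * Δ ≤ s0)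
    (hμ : ((a1 + Δ : ℕ) : ℝ) * (e1 + 2 * Δ : ℕ) + (s1 + Δ : ℕ) ≤ μ * d)
    (hB : ((U \ U').card : ℝ) * (2 * (s1 + Δ : ℕ)) * Real.exp μ < 2 ^ (B + 1))
    (hfin : ((a1 + Δ : ℕ) : ℝ) ≤ θ * U'.card) :
    StepOK A U U' (fun t => (U' ×ˢ U') ∪ R t) Z' θ := by
  subst hN
  have hSp : Sparse A U U (b * U.card) := by
    intro x hx y hy
    refine ⟨?_, ?_, ?_⟩
    · have h := hspa 1 2 (by decide) x hx y hy
      exact h
    · have h := hspa 0 2 (by decide) x hx y hy
      exact h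
    · have h := hspa 0 1 (by decide) x hx y hy
      exact h
  exact level0 A hU hR hZ' ⟨hw.lo, hw.up, hw.nn, hw.z, hw.line⟩ hc0 hC0 hSp (by positivity)
    (by nlinarith) hθ (by linarith) hI hD hn0 hn0le hq hs hδ hδ1 hj hrg hΔ hd hc hs0 hμ hB hfin

end Pool.Agent.LAV
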