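import Mathlib

set_option autoImplicit false

/-!
# Project LAV: the natural number parameters of one level
-/

namespace Pool.Agent.LAV

/-- The natural number parameters of one level (`x = |U'|`, `y = |U|`). -/
theorem nums {t ρ ε δ ζ b x y : ℝ} (ht : 400 ≤ t) (hρ0 : 0 < ρ) (hρ : 12800 * t * ρ ≤ 1)
    (hε0 : 0 < ε) (hε : 100 * ε ≤ ρ ^ 2) (hδ : δ = ρ ^ 2 / (64 * t)) (hb0 : 0 ≤ b)
    (hb : b ≤ 1 / 4) (hζ : ζ = 2 / t + 4 * ρ) (hx : 1000 ≤ ρ ^ 2 * x) (hyx : y ≤ 2 * t * x)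
    (hxy : t * x ≤ 2 * y) :
    ∃ s0 s1 a1 c1 f e1 Δ d : ℕ, (s0 : ℝ) ≤ (ρ - 2 * ε) * x ∧ (ρ + ε) * x ≤ s1 ∧
      (ρ + ε) * y ≤ a1 ∧ (c1 : ℝ) ≤ (ρ ^ 2 * (1 - b) - 2 * ε) * x ∧
      (ρ * (b + ζ) + ε) * x ≤ f ∧ (ρ ^ 2 + ε) * x ≤ e1 ∧ 2 * δ * y ≤ Δ ∧ 0 < d ∧
      2 * Δ < c1 ∧ 2 * d + 2 * d + 2 * f + 4 * Δ ≤ s0 ∧
      ((a1 + Δ : ℕ) : ℝ) * (e1 + 2 * Δ : ℕ) + (s1 + Δ : ℕ) ≤ (80 * ρ ^ 2 * y + 40) * d ∧
      ((a1 + Δ : ℕ) : ℝ) ≤ 2 * ρ * y ∧ ((s1 + Δ : ℕ) : ℝ) ≤ 2 * ρ * x ∧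
      ρ * x / 16 ≤ d + 1 ∧ (a1 : ℝ) + s1 ≤ 3 * ρ * y := by
  have ht0 : 0 < t := by linarith
  have hρ1 : ρ ≤ 1 / 1000 := by
    have h1 : 12800 * 400 * ρ ≤ 12800 * t * ρ := by
      have : 12800 * 400 ≤ 12800 * t := by linarith
      exact mul_le_mul_of_nonneg_right this hρ0.le
    linarith
  have hx0 : 0 < x := by
    by_contra hcon
    push Not at hcon
    have : ρ ^ 2 * x ≤ 0 := mul_nonpos_of_nonneg_of_nonpos (sq_nonneg _) hcon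
    linarith
  have hy0 : 0 < y := by nlinarith
  have hρρ : ρ ^ 2 ≤ ρ / 1000 := by nlinarith
  have hρx : 1000000 ≤ ρ * x := by
    have : ρ ^ 2 * x ≤ ρ / 1000 * x := mul_le_mul_of_nonneg_right hρρ hx0.le
    linarith
  have hρy : 1000000 ≤ ρ * y := by
    have h1 : x ≤ y := by nlinarith
    have : ρ * x ≤ ρ * y := mul_le_mul_of_nonneg_left h1 hρ0.le
    linarith
  have hεx : 100 * (ε * x) ≤ ρ ^ 2 * x := by
    have := mul_le_mul_of_nonneg_right hε hx0.le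
    linarith
  have hεy : 100 * (ε * y) ≤ ρ ^ 2 * y := by
    have := mul_le_mul_of_nonneg_right hε hy0.le
    linarith
  have hρρx : 1000 * (ρ ^ 2 * x) ≤ ρ * x := by
    have := mul_le_mul_of_nonneg_right hρρ hx0.le
    linarith
  have hρρy : 1000 * (ρ ^ 2 * y) ≤ ρ * y := by
    have := mul_le_mul_of_nonneg_right hρρ hy0.le
    linarith
  have hεx0 : 0 < ε * x := by positivity
  have hεy0 : 0 < ε * y := by positivity
  -- `δ y ≤ ρ² x / 32`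
  have hδy : δ * y ≤ ρ ^ 2 * x / 32 := by
    rw [hδ, div_mul_eq_mul_div, div_le_div_iff₀ (by positivity) (by norm_num)]
    have : ρ ^ 2 * y ≤ ρ ^ 2 * (2 * t * x) := mul_le_mul_of_nonneg_left hyx (sq_nonneg _)
    nlinarith
  have hδy0 : 0 ≤ δ * y := by rw [hδ]; positivity
  have hxy2 : 200 * x ≤ y := by nlinarith
  have hρxy : 200 * (ρ * x) ≤ ρ * y := by
    have := mul_le_mul_of_nonneg_left hxy2 hρ0.le
    linarith
  have hρρxy : 200 * (ρ ^ 2 * x) ≤ ρ ^ 2 * y := by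
    have := mul_le_mul_of_nonneg_left hxy2 (sq_nonneg ρ)
    linarith
  -- `b + ζ ≤ 3/10`
  have hbζ : b + ζ ≤ 3 / 10 := by
    have h1 : 2 / t ≤ 1 / 200 := by
      rw [div_le_div_iff₀ ht0 (by norm_num)]
      linarith
    rw [hζ]
    linarith
  have hbζ0 : 0 ≤ b + ζ := by rw [hζ]; positivity
  have hbζx : ρ * (b + ζ) * x ≤ 3 / 10 * (ρ * x) := by
    have h1 : (ρ * x) * (b + ζ) ≤ (ρ * x) * (3 / 10) :=
      mul_le_mul_of_nonneg_left hbζ (by positivity)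
    linarith
  have hbx : ρ ^ 2 * b * x ≤ 1 / 4 * (ρ ^ 2 * x) := by
    have h1 : (ρ ^ 2 * x) * b ≤ (ρ ^ 2 * x) * (1 / 4) :=
      mul_le_mul_of_nonneg_left hb (by positivity)
    linarith
  have n1 : 0 ≤ (ρ - 2 * ε) * x := by linarith
  have n2 : 0 ≤ (ρ + ε) * x := by positivity
  have n3 : 0 ≤ (ρ + ε) * y := by positivity
  have n4 : 0 ≤ (ρ ^ 2 * (1 - b) - 2 * ε) * x := by linarith
  have n5 : 0 ≤ (ρ * (b + ζ) + ε) * x := by positivity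
  have n6 : 0 ≤ (ρ ^ 2 + ε) * x := by positivity
  have n7 : 0 ≤ 2 * δ * y := by linarith
  have n8 : 0 ≤ ρ * x / 16 := by positivity
  have f1 := Nat.floor_le n1
  have g1 := (Nat.lt_floor_add_one ((ρ - 2 * ε) * x)).le
  have f2 := Nat.le_ceil ((ρ + ε) * x)
  have g2 := (Nat.ceil_lt_add_one n2).le
  have f3 := Nat.le_ceil ((ρ + ε) * y)
  have g3 := (Nat.ceil_lt_add_one n3).le
  have f4 := Nat.floor_le n4
  have g4 := (Nat.lt_floor_add_one ((ρ ^ 2 * (1 - b) - 2 * ε) * x)).le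
  have f5 := Nat.le_ceil ((ρ * (b + ζ) + ε) * x)
  have g5 := (Nat.ceil_lt_add_one n5).le
  have f6 := Nat.le_ceil ((ρ ^ 2 + ε) * x)
  have g6 := (Nat.ceil_lt_add_one n6).le
  have f7 := Nat.le_ceil (2 * δ * y)
  have g7 := (Nat.ceil_lt_add_one n7).le
  have f8 := Nat.floor_le n8
  have g8 := (Nat.lt_floor_add_one (ρ * x / 16)).le
  refine ⟨⌊(ρ - 2 * ε) * x⌋₊, ⌈(ρ + ε) * x⌉₊, ⌈(ρ + ε) * y⌉₊, ⌊(ρ ^ 2 * (1 - b) - 2 * ε) * x⌋₊,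
    ⌈(ρ * (b + ζ) + ε) * x⌉₊, ⌈(ρ ^ 2 + ε) * x⌉₊, ⌈2 * δ * y⌉₊, ⌊ρ * x / 16⌋₊, f1, f2, f3, f4,
    f5, f6, f7, ?_⟩
  generalize ⌊(ρ - 2 * ε) * x⌋₊ = s0 at *
  generalize ⌈(ρ + ε) * x⌉₊ = s1 at *
  generalize ⌈(ρ + ε) * y⌉₊ = a1 at *
  generalize ⌊(ρ ^ 2 * (1 - b) - 2 * ε) * x⌋₊ = c1 at *
  generalize ⌈(ρ * (b + ζ) + ε) * x⌉₊ = f at *
  generalize ⌈(ρ ^ 2 + ε) * x⌉₊ = e1 at *
  generalize ⌈2 * δ * y⌉₊ = Δ at *
  generalize ⌊ρ * x / 16⌋₊ = d at *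
  have hd1 : ρ * x / 20 ≤ d := by linarith
  have ha : ((a1 + Δ : ℕ) : ℝ) ≤ 2 * ρ * y := by
    push_cast
    linarith
  have hs : ((s1 + Δ : ℕ) : ℝ) ≤ 2 * ρ * x := by
    push_cast
    linarith
  have he : ((e1 + 2 * Δ : ℕ) : ℝ) ≤ 2 * ρ ^ 2 * x := by
    push_cast
    linarith
  refine ⟨?_, ?_, ?_, ?_, ha, hs, by linarith, by linarith⟩
  · have h1 : (0 : ℝ) < d := by linarith
    exact_mod_cast h1
  · have h1 : (2 * Δ : ℝ) < c1 := by linarith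
    exact_mod_cast h1
  · have h1 : (2 * d + 2 * d + 2 * f + 4 * Δ : ℝ) ≤ s0 := by linarith
    exact_mod_cast h1
  · have h1 : ((a1 + Δ : ℕ) : ℝ) * (e1 + 2 * Δ : ℕ) ≤ (2 * ρ * y) * (2 * ρ ^ 2 * x) :=
      mul_le_mul ha he (by positivity) (by positivity)
    have h2 : (80 * ρ ^ 2 * y + 40) * (ρ * x / 20) ≤ (80 * ρ ^ 2 * y + 40) * d :=
      mul_le_mul_of_nonneg_left hd1 (by positivity)
    have h3 : (80 * ρ ^ 2 * y + 40) * (ρ * x / 20) =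
        (2 * ρ * y) * (2 * ρ ^ 2 * x) + 2 * ρ * x := by ring
    linarith

/-- the exponential condition of the covering step holds for large sets -/
theorem num_exp {c : ℝ} (hc : 0 < c) :
    ∀ᶠ n : ℕ in Filter.atTop, 4 * (n : ℝ) ^ 2 * Real.exp 40 < Real.exp (c * n) := by
  have h1 : Filter.Tendsto (fun x : ℝ => x ^ 2 * Real.exp (-x)) Filter.atTop (nhds 0) :=
    Real.tendsto_pow_mul_exp_neg_atTop_nhds_zero 2
  have h2 : Filter.Tendsto (fun n : ℕ => c * (n : ℝ)) Filter.atTop Filter.atTop :=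
    (tendsto_natCast_atTop_atTop (R := ℝ)).const_mul_atTop hc
  have h3 := (h1.comp h2).const_mul (4 / c ^ 2 * Real.exp 40)
  rw [mul_zero] at h3
  filter_upwards [h3.eventually (gt_mem_nhds (show (0 : ℝ) < 1 by norm_num))] with n hn
  simp only [Function.comp_apply] at hn
  have h4 : 4 / c ^ 2 * Real.exp 40 * ((c * n) ^ 2 * Real.exp (-(c * n))) =
      4 * (n : ℝ) ^ 2 * Real.exp 40 * Real.exp (-(c * n)) := by
    field_simp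
  rw [h4, Real.exp_neg, ← div_eq_mul_inv, div_lt_one (Real.exp_pos _)] at hn
  exact hn

end Pool.Agent.LAV
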