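import Pool.Agent.LAV.CDefs

set_option autoImplicit false

/-!
# Project LAV: covering the leftover pairs between outer vertices

`outer`: every leftover pair with both ends in `O` gets a reserved common neighbour in `U'`.
-/

namespace Pool.Agent.LAV

open Finset

/-- greedy list colouring of the edges of a bipartite graph -/
theorem list_col {X Y C : Type*} [DecidableEq X] [DecidableEq Y] [DecidableEq C] [Nonempty C]
    (lst : X × Y → Finset C) (Δ : ℕ) (E : Finset (X × Y)) :
    (∀ x, (E.filter fun p => p.1 = x).card ≤ Δ) → (∀ y, (E.filter fun p => p.2 = y).card ≤ Δ) →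
    (∀ e ∈ E, 2 * Δ < (lst e).card) →
    ∃ g : X × Y → C, (∀ e ∈ E, g e ∈ lst e) ∧
      ∀ e ∈ E, ∀ e' ∈ E, e ≠ e' → (e.1 = e'.1 ∨ e.2 = e'.2) → g e ≠ g e' := by
  classical
  induction E using Finset.induction_on with
  | empty =>
    intro _ _ _
    exact ⟨fun _ => Classical.arbitrary C, fun e he => absurd he (notMem_empty e),
      fun e he => absurd he (notMem_empty e)⟩
  | insert e0 E he0 ih =>
    intro h1 h2 hl
    obtain ⟨g, hg, hgp⟩ := ih
      (fun x => (card_le_card (filter_subset_filter _ (subset_insert _ _))).trans (h1 x))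
      (fun y => (card_le_card (filter_subset_filter _ (subset_insert _ _))).trans (h2 y))
      (fun e he => hl e (mem_insert_of_mem he))
    set bad : Finset C := ((E.filter fun p => p.1 = e0.1).image g) ∪
      ((E.filter fun p => p.2 = e0.2).image g) with hbad
    have hb : bad.card ≤ 2 * Δ := by
      have e1 : (E.filter fun p => p.1 = e0.1).card ≤ Δ :=
        (card_le_card (filter_subset_filter _ (subset_insert _ _))).trans (h1 e0.1)
      have e2 : (E.filter fun p => p.2 = e0.2).card ≤ Δ :=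
        (card_le_card (filter_subset_filter _ (subset_insert _ _))).trans (h2 e0.2)
      have e3 := card_union_le ((E.filter fun p => p.1 = e0.1).image g)
        ((E.filter fun p => p.2 = e0.2).image g)
      have e4 : ((E.filter fun p => p.1 = e0.1).image g).card ≤ _ := card_image_le
      have e5 : ((E.filter fun p => p.2 = e0.2).image g).card ≤ _ := card_image_le
      rw [hbad]
      omega
    obtain ⟨c, hc, hcb⟩ : ∃ c ∈ lst e0, c ∉ bad := by
      by_contra hcon
      push Not at hcon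
      have := card_le_card (show lst e0 ⊆ bad from hcon)
      have := hl e0 (mem_insert_self _ _)
      omega
    refine ⟨Function.update g e0 c, ?_, ?_⟩
    · intro e he
      by_cases h : e = e0
      · subst h; rw [Function.update_self]; exact hc
      · rw [Function.update_of_ne h]
        exact hg e ((mem_insert.1 he).resolve_left h)
    · have key : ∀ e ∈ E, (e.1 = e0.1 ∨ e.2 = e0.2) → g e ≠ c := by
        rintro e he (h | h) rfl
        · exact hcb (mem_union_left _ (mem_image_of_mem g (mem_filter.2 ⟨he, h⟩)))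
        · exact hcb (mem_union_right _ (mem_image_of_mem g (mem_filter.2 ⟨he, h⟩)))
      intro e he e' he' hne hadj
      by_cases h : e = e0
      · have h' : e' ≠ e0 := fun h' => hne (h.trans h'.symm)
        rw [h, Function.update_self, Function.update_of_ne h']
        refine (key e' ((mem_insert.1 he').resolve_left h') ?_).symm
        rw [h] at hadj
        exact hadj.imp Eq.symm Eq.symm
      · by_cases h' : e' = e0
        · rw [h', Function.update_self, Function.update_of_ne h]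
          refine key e ((mem_insert.1 he).resolve_left h) ?_
          rw [h'] at hadj
          exact hadj
        · rw [Function.update_of_ne h, Function.update_of_ne h']
          exact hgp e ((mem_insert.1 he).resolve_left h) e' ((mem_insert.1 he').resolve_left h')
            hne hadj

variable {α : Type*} [DecidableEq α]

theorem fin3_aux : ∀ i j c c' : Fin 3, i ≠ c → i ≠ c' → j ≠ c → j ≠ c' → c ≠ c' → i = j := by
  decide

theorem fin3_neg : ∀ a b : Fin 3, a ≠ b → a ≠ -(a + b) ∧ b ≠ -(a + b) := by decide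

theorem fin3_pair : ∀ a b a' b' : Fin 3, a < b → a' < b' → -(a + b) = -(a' + b') →
    a = a' ∧ b = b' := by decide

theorem fin3_other : ∀ a b i : Fin 3, a ≠ b → i ≠ -(a + b) → i = a ∨ i = b := by decide

/-- **Outer leftover pairs.** -/
theorem outer [Nonempty α] (A : Tri α → Prop) [DecidablePred A] {O U' : Finset α} {R Z L : Gr α}
    {s0 s1 a1 c0 f e1 Δ : ℕ} (hOU : Disjoint O U')
    (hR : Res A O U' R Z s0 s1 a1 c0 f e1) (hL : Left O U' R L Δ) (hc : 2 * Δ < c0) :
    ∃ P : Finset (Tri α), (∀ T ∈ P, A T) ∧ Packing P ∧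
      (∀ T ∈ P, ∃ a b c : Fin 3, a ≠ b ∧ a ≠ c ∧ b ≠ c ∧ vt T a ∈ O ∧ vt T b ∈ O ∧ vt T c ∈ U' ∧
        Adj L a b (vt T a) (vt T b) ∧ Adj R a c (vt T a) (vt T c) ∧
        Adj R b c (vt T b) (vt T c)) ∧
      ∀ a b : Fin 3, a ≠ b → ∀ x ∈ O, ∀ y ∈ O, Adj L a b x y → Adj (cov P) a b x y := by
  classical
  set E : Fin 3 × Fin 3 → Finset (α × α) := fun ab =>
    (O ×ˢ O).filter fun p => Adj L ab.1 ab.2 p.1 p.2 with hE
  set lst : Fin 3 × Fin 3 → α × α → Finset α := fun ab p =>
    U'.filter fun u => Adj R ab.1 (-(ab.1 + ab.2)) p.1 u ∧ Adj R ab.2 (-(ab.1 + ab.2)) p.2 u ∧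
      A (tr ab.1 ab.2 p.1 p.2 u) with hlst
  have hcol : ∀ ab : Fin 3 × Fin 3, ab.1 < ab.2 → ∃ g : α × α → α,
      (∀ e ∈ E ab, g e ∈ lst ab e) ∧
      ∀ e ∈ E ab, ∀ e' ∈ E ab, e ≠ e' → (e.1 = e'.1 ∨ e.2 = e'.2) → g e ≠ g e' := by
    rintro ⟨a, b⟩ hab
    have hne : a ≠ b := ne_of_lt hab
    refine list_col (lst (a, b)) Δ (E (a, b)) ?_ ?_ ?_
    · intro x
      refine le_trans ?_ (hL.deg a b hne x)
      refine card_le_card_of_injOn Prod.snd ?_ ?_
      · rintro ⟨u, v⟩ hp
        simp only [hE, coe_filter, mem_filter, mem_product, Set.mem_ofPred_eq] at hp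
        rw [mem_coe, mem_nbr]
        obtain ⟨⟨-, h⟩, rfl⟩ := hp
        exact h
      · rintro ⟨u, v⟩ hp ⟨u', v'⟩ hq h
        have h1 := (mem_filter.1 (mem_coe.1 hp)).2
        have h2 := (mem_filter.1 (mem_coe.1 hq)).2
        simp only at h1 h2 h
        rw [h1, h2, h]
    · intro y
      refine le_trans ?_ (hL.deg b a hne.symm y)
      refine card_le_card_of_injOn Prod.fst ?_ ?_
      · rintro ⟨u, v⟩ hp
        simp only [hE, coe_filter, mem_filter, mem_product, Set.mem_ofPred_eq] at hp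
        rw [mem_coe, mem_nbr]
        obtain ⟨⟨-, h⟩, rfl⟩ := hp
        exact (Adj_comm L hne u v).1 h
      · rintro ⟨u, v⟩ hp ⟨u', v'⟩ hq h
        have h1 := (mem_filter.1 (mem_coe.1 hp)).2
        have h2 := (mem_filter.1 (mem_coe.1 hq)).2
        simp only at h1 h2 h
        rw [h1, h2, h]
    · rintro ⟨x, y⟩ he
      simp only [hE, mem_filter, mem_product] at he
      have h3 := fin3_neg a b hne
      exact lt_of_lt_of_le hc (hR.com a b _ hne h3.1 h3.2 x he.1.1 y he.1.2)
  choose! g hg hgp using hcol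
  set P : Finset (Tri α) := (univ.filter fun ab : Fin 3 × Fin 3 => ab.1 < ab.2).biUnion fun ab =>
    (E ab).image fun p => tr ab.1 ab.2 p.1 p.2 (g ab p) with hP
  have hmem : ∀ T, T ∈ P ↔ ∃ a b : Fin 3, a < b ∧ ∃ x y, (x, y) ∈ E (a, b) ∧
      T = tr a b x y (g (a, b) (x, y)) := by
    intro T
    rw [hP, mem_biUnion]
    constructor
    · rintro ⟨⟨a, b⟩, hab, hT⟩
      obtain ⟨⟨x, y⟩, hp, rfl⟩ := mem_image.1 hT
      exact ⟨a, b, (mem_filter.1 hab).2, x, y, hp, rfl⟩
    · rintro ⟨a, b, hab, x, y, hp, rfl⟩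
      exact ⟨(a, b), mem_filter.2 ⟨mem_univ _, hab⟩, mem_image.2 ⟨(x, y), hp, rfl⟩⟩
  have hdata : ∀ a b : Fin 3, a < b → ∀ x y, (x, y) ∈ E (a, b) →
      x ∈ O ∧ y ∈ O ∧ Adj L a b x y ∧ g (a, b) (x, y) ∈ U' ∧
      Adj R a (-(a + b)) x (g (a, b) (x, y)) ∧ Adj R b (-(a + b)) y (g (a, b) (x, y)) ∧
      A (tr a b x y (g (a, b) (x, y))) := by
    intro a b hab x y hxy
    have h1 := hg (a, b) hab (x, y) hxy
    simp only [hlst, mem_filter] at h1
    simp only [hE, mem_filter, mem_product] at hxy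
    exact ⟨hxy.1.1, hxy.1.2, hxy.2, h1.1, h1.2.1, h1.2.2.1, h1.2.2.2⟩
  have hno : ∀ {u : α}, u ∈ O → u ∈ U' → False := fun h h' => disjoint_left.1 hOU h h'
  refine ⟨P, ?_, ?_, ?_, ?_⟩
  · intro T hT
    obtain ⟨a, b, hab, x, y, hxy, rfl⟩ := (hmem T).1 hT
    exact (hdata a b hab x y hxy).2.2.2.2.2.2
  · rw [packing_iff]
    intro i j hij T hT T' hT' hi hj
    obtain ⟨a, b, hab, x, y, hxy, rfl⟩ := (hmem T).1 hT
    obtain ⟨a', b', hab', x', y', hxy', rfl⟩ := (hmem T').1 hT'
    obtain ⟨hx, hy, -, hu, -, -, -⟩ := hdata a b hab x y hxy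
    obtain ⟨hx', hy', -, hu', -, -, -⟩ := hdata a' b' hab' x' y' hxy'
    have n1 := fin3_neg a b (ne_of_lt hab)
    have n2 := fin3_neg a' b' (ne_of_lt hab')
    have vU : vt (tr a b x y (g (a, b) (x, y))) (-(a + b)) = g (a, b) (x, y) :=
      vt_tr_trd n1.1 n1.2 _ _ _
    have vU' : vt (tr a' b' x' y' (g (a', b') (x', y'))) (-(a' + b')) = g (a', b') (x', y') :=
      vt_tr_trd n2.1 n2.2 _ _ _
    have vO : ∀ k, k ≠ -(a + b) → vt (tr a b x y (g (a, b) (x, y))) k ∈ O := by
      intro k hk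
      rcases fin3_other a b k (ne_of_lt hab) hk with rfl | rfl
      · rw [vt_tr_fst]; exact hx
      · rw [vt_tr_snd (ne_of_lt hab)]; exact hy
    have vO' : ∀ k, k ≠ -(a' + b') → vt (tr a' b' x' y' (g (a', b') (x', y'))) k ∈ O := by
      intro k hk
      rcases fin3_other a' b' k (ne_of_lt hab') hk with rfl | rfl
      · rw [vt_tr_fst]; exact hx'
      · rw [vt_tr_snd (ne_of_lt hab')]; exact hy'
    have hcc : -(a + b) = -(a' + b') := by
      by_contra hcon
      have aux : ∀ k, vt (tr a b x y (g (a, b) (x, y))) k =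
          vt (tr a' b' x' y' (g (a', b') (x', y'))) k → k ≠ -(a + b) ∧ k ≠ -(a' + b') := by
        intro k hk
        constructor
        · rintro rfl
          have h1 := vO' _ hcon
          rw [← hk, vU] at h1
          exact hno h1 hu
        · rintro rfl
          have h1 := vO _ (Ne.symm hcon)
          rw [hk, vU'] at h1
          exact hno h1 hu'
      exact hij (fin3_aux i j _ _ (aux i hi).1 (aux i hi).2 (aux j hj).1 (aux j hj).2 hcon)
    obtain ⟨rfl, rfl⟩ := fin3_pair a b a' b' hab hab' hcc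
    have hab2 : a ≠ b := ne_of_lt hab
    suffices h : (x, y) = (x', y') by rw [Prod.mk.injEq] at h; rw [h.1, h.2]
    by_contra hne
    have hpr := hgp (a, b) hab (x, y) hxy (x', y') hxy' hne
    have key : ∀ k, vt (tr a b x y (g (a, b) (x, y))) k =
        vt (tr a b x' y' (g (a, b) (x', y'))) k →
        (k = a ∧ x = x') ∨ (k = b ∧ y = y') ∨
          (k = -(a + b) ∧ g (a, b) (x, y) = g (a, b) (x', y')) := by
      intro k hk
      rcases class_cases hab2 n1.1 n1.2 k with rfl | rfl | rfl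
      · rw [vt_tr_fst, vt_tr_fst] at hk; exact Or.inl ⟨rfl, hk⟩
      · rw [vt_tr_snd hab2, vt_tr_snd hab2] at hk; exact Or.inr (Or.inl ⟨rfl, hk⟩)
      · rw [vU, vU'] at hk; exact Or.inr (Or.inr ⟨rfl, hk⟩)
    rcases key i hi with ⟨i1, i2⟩ | ⟨i1, i2⟩ | ⟨i1, i2⟩ <;>
      rcases key j hj with ⟨j1, j2⟩ | ⟨j1, j2⟩ | ⟨j1, j2⟩
    · exact hij (i1.trans j1.symm)
    · exact hne (by rw [i2, j2])
    · exact hpr (Or.inl i2) j2
    · exact hne (by rw [i2, j2])
    · exact hij (i1.trans j1.symm)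
    · exact hpr (Or.inr i2) j2
    · exact hpr (Or.inl j2) i2
    · exact hpr (Or.inr j2) i2
    · exact hij (i1.trans j1.symm)
  · intro T hT
    obtain ⟨a, b, hab, x, y, hxy, rfl⟩ := (hmem T).1 hT
    obtain ⟨hx, hy, hLxy, hu, hR1, hR2, -⟩ := hdata a b hab x y hxy
    have n1 := fin3_neg a b (ne_of_lt hab)
    refine ⟨a, b, -(a + b), ne_of_lt hab, n1.1, n1.2, ?_⟩
    rw [vt_tr_fst, vt_tr_snd (ne_of_lt hab), vt_tr_trd n1.1 n1.2]
    exact ⟨hx, hy, hu, hLxy, hR1, hR2⟩
  · intro a b hab x hx y hy h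
    rcases lt_or_gt_of_ne hab with hlt | hgt
    · rw [adj_cov P hab]
      refine ⟨tr a b x y (g (a, b) (x, y)), (hmem _).2 ⟨a, b, hlt, x, y, ?_, rfl⟩, ?_, ?_⟩
      · simp only [hE, mem_filter, mem_product]
        exact ⟨⟨hx, hy⟩, h⟩
      · rw [vt_tr_fst]
      · rw [vt_tr_snd hab]
    · rw [adj_cov P hab]
      refine ⟨tr b a y x (g (b, a) (y, x)), (hmem _).2 ⟨b, a, hgt, y, x, ?_, rfl⟩, ?_, ?_⟩
      · simp only [hE, mem_filter, mem_product]
        exact ⟨⟨hy, hx⟩, (Adj_comm L hab x y).1 h⟩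
      · rw [vt_tr_snd hab.symm]
      · rw [vt_tr_fst]

end Pool.Agent.LAV
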