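import Pool.Agent.LAV.VDefs
import Pool.Agent.LAV.BITS

set_option autoImplicit false

/-!
# Project LAV: existence of the reservoir

The reservoir is a random set of pairs between `O = U ∖ U'` and `X ⊆ U'`: coordinate
`((a,c),(x,u))` is the pair of the class `a` vertex `x ∈ O` and the class `c` vertex `u ∈ X`.
-/

namespace Pool.Agent.LAV

open Finset

/-- a graph with prescribed adjacencies -/
theorem exists_gr {α : Type*} [DecidableEq α] [Fintype α] (Q : Fin 3 → Fin 3 → α → α → Prop)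
    (hQ : ∀ a b x y, Q a b x y → Q b a y x) :
    ∃ G : Gr α, ∀ a b : Fin 3, a ≠ b → ∀ x y, Adj G a b x y ↔ Q a b x y := by
  classical
  refine ⟨fun t => Finset.univ.filter fun p : α × α =>
    Q (if t = 0 then 1 else 0) (if t = 2 then 1 else 2) p.1 p.2, ?_⟩
  intro a b hab x y
  have hs : ∀ a b x y, Q a b x y ↔ Q b a y x := fun a b x y => ⟨hQ a b x y, hQ b a y x⟩
  fin_cases a <;> fin_cases b <;> first
    | exact absurd rfl hab
    | skip
  · show (x, y) ∈ Finset.univ.filter _ ↔ _
    rw [mem_filter]; simp <;> exact Iff.rfl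
  · show (x, y) ∈ Finset.univ.filter _ ↔ _
    rw [mem_filter]; simp <;> exact Iff.rfl
  · show (y, x) ∈ Finset.univ.filter _ ↔ _
    rw [mem_filter]; simp <;> exact hs _ _ _ _
  · show (x, y) ∈ Finset.univ.filter _ ↔ _
    rw [mem_filter]; simp <;> exact Iff.rfl
  · show (y, x) ∈ Finset.univ.filter _ ↔ _
    rw [mem_filter]; simp <;> exact hs _ _ _ _
  · show (y, x) ∈ Finset.univ.filter _ ↔ _
    rw [mem_filter]; simp <;> exact hs _ _ _ _

/-- the index sets of the statistics -/
private def resT {α : Type*} [DecidableEq α] (A : Tri α → Prop) [DecidablePred A]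
    (O X : Finset α) (Z : Gr α) (k : Fin 5) (a b c : Fin 3) (x y : α) : Finset α :=
  match k with
  | 0 => X
  | 1 => O
  | 2 => X.filter fun u => A (tr a b x y u)
  | 3 => X.filter fun w => ¬ A (tr a b x y w) ∨ Adj Z b c y w
  | 4 => X

/-- the blocks of the statistics -/
private def resB {α : Type*} [DecidableEq α] (k : Fin 5) (a b c : Fin 3) (x y u : α) :
    Finset ((Fin 3 × Fin 3) × (α × α)) :=
  match k with
  | 0 => {((a, c), (x, u))}
  | 1 => {((c, a), (u, x))}
  | 2 => {((a, c), (x, u)), ((b, c), (y, u))}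
  | 3 => {((a, c), (x, u))}
  | 4 => {((a, c), (x, u)), ((a, c), (y, u))}

private theorem resB_disj {α : Type*} [DecidableEq α] (k : Fin 5) (a b c : Fin 3) (x y : α)
    {u u' : α} (h : u ≠ u') : Disjoint (resB k a b c x y u) (resB k a b c x y u') := by
  rw [disjoint_left]
  intro z hz hz'
  match k with
  | 0 =>
    rw [resB, mem_singleton] at hz hz'
    rw [hz] at hz'
    exact h (Prod.mk.inj (Prod.mk.inj hz').2).2
  | 1 =>
    rw [resB, mem_singleton] at hz hz'
    rw [hz] at hz'
    exact h (Prod.mk.inj (Prod.mk.inj hz').2).1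
  | 2 =>
    rw [resB, mem_insert, mem_singleton] at hz hz'
    have h1 : z.2.2 = u := by rcases hz with h | h <;> rw [h]
    have h2 : z.2.2 = u' := by rcases hz' with h | h <;> rw [h]
    exact h (h1.symm.trans h2)
  | 3 =>
    rw [resB, mem_singleton] at hz hz'
    rw [hz] at hz'
    exact h (Prod.mk.inj (Prod.mk.inj hz').2).2
  | 4 =>
    rw [resB, mem_insert, mem_singleton] at hz hz'
    have h1 : z.2.2 = u := by rcases hz with h | h <;> rw [h]
    have h2 : z.2.2 = u' := by rcases hz' with h | h <;> rw [h]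
    exact h (h1.symm.trans h2)

/-- the number of statistics is beaten by the exponential -/
private theorem res_exp {c : ℝ} (hc : 0 < c) : ∃ N0 : ℕ, ∀ n : ℕ, N0 ≤ n →
    2 * (135 * (n : ℝ) ^ 2) * Real.exp (-(2 * c ^ 2 * n)) < 1 := by
  obtain ⟨N0, hN0⟩ := exists_nat_gt (1620 / (2 * c ^ 2) ^ 3)
  refine ⟨N0, fun n hn => ?_⟩
  have hN : (N0 : ℝ) ≤ n := by exact_mod_cast hn
  have hd0 : 0 < 2 * c ^ 2 := by positivity
  set d := 2 * c ^ 2
  have hpos : 0 < 1620 / d ^ 3 := by positivity
  have hn0 : (0 : ℝ) < n := by linarith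
  have h1 : (d * n) ^ 3 / ((Nat.factorial 3 : ℕ) : ℝ) ≤ Real.exp (d * n) :=
    Real.pow_div_factorial_le_exp (d * n) (by positivity) 3
  have h2 : 1620 / d ^ 3 < n := lt_of_lt_of_le hN0 hN
  rw [div_lt_iff₀ (by positivity)] at h2
  rw [Real.exp_neg, ← div_eq_mul_inv, div_lt_one (Real.exp_pos _)]
  refine lt_of_lt_of_le ?_ h1
  have h3 : ((Nat.factorial 3 : ℕ) : ℝ) = 6 := by norm_num [Nat.factorial]
  rw [h3, lt_div_iff₀ (by norm_num)]
  have h4 : (d * n) ^ 3 = (n : ℝ) ^ 2 * (n * d ^ 3) := by ring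
  rw [h4]
  have h5 : 0 < (n : ℝ) ^ 2 := by positivity
  nlinarith

/-- **Existence of the reservoir** between `U ∖ U'` and `X ⊆ U'`. -/
theorem exists_res {ρ ε b ζ κ : ℝ} (hρ0 : 0 < ρ) (hρ1 : ρ ≤ 1) (hε : 0 < ε) (hκ : 1 ≤ κ) :
    ∃ N0 : ℕ, ∀ {α : Type} [DecidableEq α] [Fintype α] (A : Tri α → Prop) [DecidablePred A]
      (U U' X : Finset α) (Z : Gr α), U' ⊆ U → X ⊆ U' →
      (U'.card : ℝ) - X.card ≤ ε * U'.card → N0 ≤ U'.card → (U.card : ℝ) ≤ κ * U'.card →
      Spa A U U' b → Deg Z U' (ζ * U'.card) →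
      ∀ s0 s1 a1 c0 f e1 : ℕ, (s0 : ℝ) ≤ (ρ - 2 * ε) * U'.card → (ρ + ε) * U'.card ≤ s1 →
      (ρ + ε) * U.card ≤ a1 → (c0 : ℝ) ≤ (ρ ^ 2 * (1 - b) - 2 * ε) * U'.card →
      (ρ * (b + ζ) + ε) * U'.card ≤ f → (ρ ^ 2 + ε) * U'.card ≤ e1 →
      ∃ R : Gr α, Res A (U \ U') U' R Z s0 s1 a1 c0 f e1 ∧
        (∀ a c : Fin 3, a ≠ c → ∀ x y, Adj R a c x y →
          (x ∈ U \ U' ∧ y ∈ X) ∨ (x ∈ X ∧ y ∈ U \ U')) ∧
        Imb R U (2 * ε * U.card) := by
  have hκ0 : 0 < κ := by linarith
  have hc : 0 < ε / κ := by positivity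
  obtain ⟨N0, hN0⟩ := res_exp hc
  refine ⟨N0, ?_⟩
  intro α _ _ A _ U U' X Z hU' hX hXc hN hUκ hSpa hDeg s0 s1 a1 c0 f e1 hs0 hs1 ha1 hc0 hf he1
  classical
  set O := U \ U' with hO
  have hOU : O ⊆ U := sdiff_subset
  have hXU : X ⊆ U := hX.trans hU'
  have hn'n : (U'.card : ℝ) ≤ U.card := by exact_mod_cast card_le_card hU'
  have hXn' : (X.card : ℝ) ≤ U'.card := by exact_mod_cast card_le_card hX
  have hOn : (O.card : ℝ) ≤ U.card := by exact_mod_cast card_le_card hOU
  have hn'0 : (0 : ℝ) ≤ U'.card := Nat.cast_nonneg _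
  have hOX : ∀ v, v ∈ O → v ∉ X := fun v hv hvX => (mem_sdiff.1 hv).2 (hX hvX)
  have hdev : ε / κ * (U.card : ℝ) ≤ ε * U'.card := by
    rw [div_mul_eq_mul_div, div_le_iff₀ hκ0]
    have := mul_le_mul_of_nonneg_left hUκ hε.le
    linarith
  have hdevU : ε / κ * (U.card : ℝ) ≤ ε * U.card := by
    refine hdev.trans (mul_le_mul_of_nonneg_left hn'n hε.le)
  -- the random bits
  obtain ⟨S, hS⟩ := bits (K := (Fin 3 × Fin 3) × (α × α)) (ι := α)
    (J := Fin 5 × (Fin 3 × Fin 3 × Fin 3) × (↥U × ↥U)) hρ0.le hρ1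
    (fun j => resT A O X Z j.1 j.2.1.1 j.2.1.2.1 j.2.1.2.2 j.2.2.1 j.2.2.2)
    (fun j => resB j.1 j.2.1.1 j.2.1.2.1 j.2.1.2.2 (j.2.2.1 : α) (j.2.2.2 : α))
    (fun j => fun u _ u' _ h => resB_disj _ _ _ _ _ _ h) (m := (U.card : ℝ)) hc
    (fun j => by
      have : ∀ k : Fin 5, ∀ a b c : Fin 3, ∀ x y : α, resT A O X Z k a b c x y ⊆ U := by
        intro k a b c x y
        match k with
        | 0 => exact hXU
        | 1 => exact hOU
        | 2 => exact (filter_subset _ _).trans hXU
        | 3 => exact (filter_subset _ _).trans hXU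
        | 4 => exact hXU
      exact_mod_cast card_le_card (this _ _ _ _ _ _))
    (by
      have h1 : ((Fintype.card (Fin 5 × (Fin 3 × Fin 3 × Fin 3) × (↥U × ↥U)) : ℕ) : ℝ) =
          135 * (U.card : ℝ) ^ 2 := by
        rw [Fintype.card_prod, Fintype.card_prod, Fintype.card_prod, Fintype.card_prod,
          Fintype.card_prod, Fintype.card_coe, Fintype.card_fin, Fintype.card_fin]
        push_cast; ring
      rw [h1]
      exact hN0 U.card (hN.trans (card_le_card hU')))
  -- the statistics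
  have st : ∀ (k : Fin 5) (a b c : Fin 3) (x y : α), x ∈ U → y ∈ U →
      |(((resT A O X Z k a b c x y).filter fun u => resB k a b c x y u ⊆ S).card : ℝ) -
        ∑ u ∈ resT A O X Z k a b c x y, ρ ^ (resB k a b c x y u).card| ≤ ε / κ * U.card :=
    fun k a b c x y hx hy => hS (k, (a, b, c), (⟨x, hx⟩, ⟨y, hy⟩))
  -- the graph
  obtain ⟨R, hR⟩ := exists_gr (fun a c x y => (x ∈ O ∧ y ∈ X ∧ ((a, c), (x, y)) ∈ S) ∨
    (x ∈ X ∧ y ∈ O ∧ ((c, a), (y, x)) ∈ S)) (by
      intro a b x y h
      rcases h with ⟨h1, h2, h3⟩ | ⟨h1, h2, h3⟩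
      · exact Or.inr ⟨h2, h1, h3⟩
      · exact Or.inl ⟨h2, h1, h3⟩)
  have hRO : ∀ a c : Fin 3, a ≠ c → ∀ x ∈ O, ∀ y, Adj R a c x y ↔
      (y ∈ X ∧ ((a, c), (x, y)) ∈ S) := by
    intro a c hac x hx y
    rw [hR a c hac x y]
    constructor
    · rintro (⟨-, h2, h3⟩ | ⟨h1, -, -⟩)
      · exact ⟨h2, h3⟩
      · exact absurd h1 (hOX x hx)
    · rintro ⟨h2, h3⟩
      exact Or.inl ⟨hx, h2, h3⟩
  have hRX : ∀ a c : Fin 3, a ≠ c → ∀ v ∈ X, ∀ y, Adj R a c v y ↔
      (y ∈ O ∧ ((c, a), (y, v)) ∈ S) := by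
    intro a c hac v hv y
    rw [hR a c hac v y]
    constructor
    · rintro (⟨h1, -, -⟩ | ⟨-, h2, h3⟩)
      · exact absurd hv (hOX v h1)
      · exact ⟨h2, h3⟩
    · rintro ⟨h2, h3⟩
      exact Or.inr ⟨hv, h2, h3⟩
  -- degrees at outer vertices
  have dO : ∀ a c : Fin 3, a ≠ c → ∀ x ∈ O,
      |((nbr R a c x).card : ℝ) - ρ * X.card| ≤ ε / κ * U.card := by
    intro a c hac x hx
    have h1 := st 0 a a c x x (hOU hx) (hOU hx)
    have h2 : nbr R a c x = (resT A O X Z 0 a a c x x).filter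
        fun u => resB 0 a a c x x u ⊆ S := by
      ext y
      rw [mem_nbr, hRO a c hac x hx, mem_filter]
      simp only [resT, resB, singleton_subset_iff]
    rw [h2]
    have h3 : ∑ u ∈ resT A O X Z 0 a a c x x, ρ ^ (resB 0 a a c x x u).card = ρ * X.card := by
      simp only [resT, resB, card_singleton, pow_one, sum_const, nsmul_eq_mul]
      ring
    rw [h3] at h1
    exact h1
  -- degrees at reservoir vertices
  have dX : ∀ a c : Fin 3, a ≠ c → ∀ v ∈ X,
      |((nbr R a c v).card : ℝ) - ρ * O.card| ≤ ε / κ * U.card := by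
    intro a c hac v hv
    have h1 := st 1 a a c v v (hXU hv) (hXU hv)
    have h2 : nbr R a c v = (resT A O X Z 1 a a c v v).filter
        fun u => resB 1 a a c v v u ⊆ S := by
      ext y
      rw [mem_nbr, hRX a c hac v hv, mem_filter]
      simp only [resT, resB, singleton_subset_iff]
    rw [h2]
    have h3 : ∑ u ∈ resT A O X Z 1 a a c v v, ρ ^ (resB 1 a a c v v u).card = ρ * O.card := by
      simp only [resT, resB, card_singleton, pow_one, sum_const, nsmul_eq_mul]
      ring
    rw [h3] at h1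
    exact h1
  have dE : ∀ a c : Fin 3, a ≠ c → ∀ v ∈ U', v ∉ X → nbr R a c v = ∅ := by
    intro a c hac v hv hvX
    rw [eq_empty_iff_forall_notMem]
    intro y hy
    rw [mem_nbr, hR a c hac v y] at hy
    rcases hy with ⟨h1, -, -⟩ | ⟨h1, -, -⟩
    · exact (mem_sdiff.1 h1).2 hv
    · exact hvX h1
  refine ⟨R, ⟨?_, ?_, ?_, ?_, ?_, ?_⟩, ?_, ?_⟩
  · -- mem
    intro a c hac x y h
    rw [hR a c hac x y] at h
    rcases h with ⟨h1, h2, -⟩ | ⟨h1, h2, -⟩
    · exact Or.inl ⟨h1, hX h2⟩
    · exact Or.inr ⟨hX h1, h2⟩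
  · -- degO
    intro a c hac x hx
    have h1 := abs_le.1 (dO a c hac x hx)
    have h2 : ρ * (U'.card - X.card) ≤ ε * U'.card := by
      have h3 : 0 ≤ (U'.card : ℝ) - X.card := by linarith
      have h4 := mul_le_mul_of_nonneg_right hρ1 h3
      linarith
    have h3 : ρ * (X.card : ℝ) ≤ ρ * U'.card := mul_le_mul_of_nonneg_left hXn' hρ0.le
    constructor
    · have : (s0 : ℝ) ≤ (nbr R a c x).card := by
        have e1 : ρ * ((U'.card : ℝ) - X.card) = ρ * U'.card - ρ * X.card := by ring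
        have e2 : (ρ - 2 * ε) * (U'.card : ℝ) = ρ * U'.card - 2 * (ε * U'.card) := by ring
        linarith [h1.1]
      exact_mod_cast this
    · have : ((nbr R a c x).card : ℝ) ≤ s1 := by
        have e2 : (ρ + ε) * (U'.card : ℝ) = ρ * U'.card + ε * U'.card := by ring
        linarith [h1.2]
      exact_mod_cast this
  · -- degU
    intro a c hac v hv
    by_cases hvX : v ∈ X
    · have h1 := abs_le.1 (dX a c hac v hvX)
      have h3 : ρ * (O.card : ℝ) ≤ ρ * U.card := mul_le_mul_of_nonneg_left hOn hρ0.le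
      have : ((nbr R a c v).card : ℝ) ≤ a1 := by
        have e2 : (ρ + ε) * (U.card : ℝ) = ρ * U.card + ε * U.card := by ring
        linarith [h1.2]
      exact_mod_cast this
    · rw [dE a c hac v hv hvX, card_empty]
      exact Nat.zero_le _
  · -- com
    intro a b' c hab hac hbc x hx y hy
    have h1 := st 2 a b' c x y (hOU hx) (hOU hy)
    have h2 : (resT A O X Z 2 a b' c x y).filter (fun u => resB 2 a b' c x y u ⊆ S) ⊆
        U'.filter fun u => Adj R a c x u ∧ Adj R b' c y u ∧ A (tr a b' x y u) := by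
      intro u hu
      rw [mem_filter] at hu
      simp only [resT, resB, mem_filter, insert_subset_iff, singleton_subset_iff] at hu
      rw [mem_filter]
      exact ⟨hX hu.1.1, (hRO a c hac x hx u).2 ⟨hu.1.1, hu.2.1⟩,
        (hRO b' c hbc y hy u).2 ⟨hu.1.1, hu.2.2⟩, hu.1.2⟩
    have h3 : ∑ u ∈ resT A O X Z 2 a b' c x y, ρ ^ (resB 2 a b' c x y u).card =
        ρ ^ 2 * (X.filter fun u => A (tr a b' x y u)).card := by
      have h4 : ∀ u ∈ resT A O X Z 2 a b' c x y, ρ ^ (resB 2 a b' c x y u).card = ρ ^ 2 := by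
        intro u _
        congr 1
        simp only [resB]
        apply card_pair
        intro h
        exact hab (Prod.mk.inj (Prod.mk.inj h).1).1
      rw [sum_congr rfl h4, sum_const, nsmul_eq_mul]
      simp only [resT]
      ring
    rw [h3] at h1
    have h4 : (U'.card : ℝ) - b * U'.card - (U'.card - X.card) ≤
        (X.filter fun u => A (tr a b' x y u)).card := by
      have h5 := hSpa a b' hab x (hOU hx) y (hOU hy)
      have h6 : X.card = (X.filter fun u => A (tr a b' x y u)).card +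
          (X.filter fun u => ¬ A (tr a b' x y u)).card :=
        (card_filter_add_card_filter_not _).symm
      have h7 : (X.filter fun u => ¬ A (tr a b' x y u)).card ≤
          (U'.filter fun u => ¬ A (tr a b' x y u)).card := card_le_card (filter_subset_filter _ hX)
      have h8 : (X.card : ℝ) = (X.filter fun u => A (tr a b' x y u)).card +
          (X.filter fun u => ¬ A (tr a b' x y u)).card := by exact_mod_cast h6
      have h9 : ((X.filter fun u => ¬ A (tr a b' x y u)).card : ℝ) ≤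
          (U'.filter fun u => ¬ A (tr a b' x y u)).card := by exact_mod_cast h7
      linarith
    have h5 := mul_le_mul_of_nonneg_left h4 (sq_nonneg ρ)
    have h6 : ρ ^ 2 * ((U'.card : ℝ) - X.card) ≤ ε * U'.card := by
      have h7 : ρ ^ 2 ≤ 1 := by nlinarith
      have h8 : 0 ≤ (U'.card : ℝ) - X.card := by linarith
      have h9 := mul_le_mul_of_nonneg_right h7 h8
      linarith
    have h7 := card_le_card h2
    have h8 : (((resT A O X Z 2 a b' c x y).filter fun u => resB 2 a b' c x y u ⊆ S).card : ℝ) ≤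
      (U'.filter fun u => Adj R a c x u ∧ Adj R b' c y u ∧ A (tr a b' x y u)).card := by
      exact_mod_cast h7
    have h9 := abs_le.1 h1
    have : (c0 : ℝ) ≤
        (U'.filter fun u => Adj R a c x u ∧ Adj R b' c y u ∧ A (tr a b' x y u)).card := by
      have e1 : ρ ^ 2 * ((U'.card : ℝ) - b * U'.card - (U'.card - X.card)) =
        ρ ^ 2 * (1 - b) * U'.card - ρ ^ 2 * (U'.card - X.card) := by ring
      have e2 : (ρ ^ 2 * (1 - b) - 2 * ε) * (U'.card : ℝ) =
        ρ ^ 2 * (1 - b) * U'.card - 2 * (ε * U'.card) := by ring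
      linarith [h9.1]
    exact_mod_cast this
  · -- bad
    intro a b' c hab hac hbc x hx v hv
    have h1 := st 3 a b' c x v (hOU hx) (hU' hv)
    have h2 : (U'.filter fun w => Adj R a c x w ∧ (¬ A (tr a b' x v w) ∨ Adj Z b' c v w)) ⊆
        (resT A O X Z 3 a b' c x v).filter fun u => resB 3 a b' c x v u ⊆ S := by
      intro w hw
      rw [mem_filter] at hw
      have h4 := (hRO a c hac x hx w).1 hw.2.1
      rw [mem_filter]
      simp only [resT, resB, mem_filter, singleton_subset_iff]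
      exact ⟨⟨h4.1, hw.2.2⟩, h4.2⟩
    have h3 : ∑ u ∈ resT A O X Z 3 a b' c x v, ρ ^ (resB 3 a b' c x v u).card =
        ρ * (X.filter fun w => ¬ A (tr a b' x v w) ∨ Adj Z b' c v w).card := by
      simp only [resT, resB, card_singleton, pow_one, sum_const, nsmul_eq_mul]
      ring
    rw [h3] at h1
    have h4 : ((X.filter fun w => ¬ A (tr a b' x v w) ∨ Adj Z b' c v w).card : ℝ) ≤
        (b + ζ) * U'.card := by
      have h5 := hSpa a b' hab x (hOU hx) v (hU' hv)
      have h6 := hDeg b' c hbc v hv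
      have h7 : (X.filter fun w => ¬ A (tr a b' x v w) ∨ Adj Z b' c v w) ⊆
          (U'.filter fun u => ¬ A (tr a b' x v u)) ∪ U'.filter fun w => Adj Z b' c v w := by
        intro w hw
        rw [mem_filter] at hw
        rw [mem_union, mem_filter, mem_filter]
        rcases hw.2 with h | h
        · exact Or.inl ⟨hX hw.1, h⟩
        · exact Or.inr ⟨hX hw.1, h⟩
      have h8 := (card_le_card h7).trans (card_union_le _ _)
      have h9 : ((X.filter fun w => ¬ A (tr a b' x v w) ∨ Adj Z b' c v w).card : ℝ) ≤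
        (U'.filter fun u => ¬ A (tr a b' x v u)).card +
          (U'.filter fun w => Adj Z b' c v w).card := by exact_mod_cast h8
      have e : (b + ζ) * (U'.card : ℝ) = b * U'.card + ζ * U'.card := by ring
      linarith
    have h5 := mul_le_mul_of_nonneg_left h4 hρ0.le
    have h6 := card_le_card h2
    have h7 : ((U'.filter fun w => Adj R a c x w ∧
        (¬ A (tr a b' x v w) ∨ Adj Z b' c v w)).card : ℝ) ≤
        ((resT A O X Z 3 a b' c x v).filter fun u => resB 3 a b' c x v u ⊆ S).card := by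
      exact_mod_cast h6
    have h8 := abs_le.1 h1
    have : ((U'.filter fun w => Adj R a c x w ∧
        (¬ A (tr a b' x v w) ∨ Adj Z b' c v w)).card : ℝ) ≤ f := by
      have e : (ρ * (b + ζ) + ε) * (U'.card : ℝ) = ρ * ((b + ζ) * U'.card) + ε * U'.card := by ring
      linarith [h8.2]
    exact_mod_cast this
  · -- cod
    intro a c hac x hx x' hx' hne
    have h1 := st 4 a a c x x' (hOU hx) (hOU hx')
    have h2 : (U'.filter fun u => Adj R a c x u ∧ Adj R a c x' u) ⊆
        (resT A O X Z 4 a a c x x').filter fun u => resB 4 a a c x x' u ⊆ S := by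
      intro w hw
      rw [mem_filter] at hw
      have h4 := (hRO a c hac x hx w).1 hw.2.1
      have h5 := (hRO a c hac x' hx' w).1 hw.2.2
      rw [mem_filter]
      simp only [resT, resB, insert_subset_iff, singleton_subset_iff]
      exact ⟨h4.1, h4.2, h5.2⟩
    have h3 : ∑ u ∈ resT A O X Z 4 a a c x x', ρ ^ (resB 4 a a c x x' u).card =
        ρ ^ 2 * X.card := by
      have h4 : ∀ u ∈ resT A O X Z 4 a a c x x', ρ ^ (resB 4 a a c x x' u).card = ρ ^ 2 := by
        intro u _
        congr 1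
        simp only [resB]
        apply card_pair
        intro h
        exact hne (Prod.mk.inj (Prod.mk.inj h).2).1
      rw [sum_congr rfl h4, sum_const, nsmul_eq_mul]
      simp only [resT]
      ring
    rw [h3] at h1
    have h4 := mul_le_mul_of_nonneg_left hXn' (sq_nonneg ρ)
    have h6 := card_le_card h2
    have h7 : ((U'.filter fun u => Adj R a c x u ∧ Adj R a c x' u).card : ℝ) ≤
        ((resT A O X Z 4 a a c x x').filter fun u => resB 4 a a c x x' u ⊆ S).card := by
      exact_mod_cast h6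
    have h8 := abs_le.1 h1
    have : ((U'.filter fun u => Adj R a c x u ∧ Adj R a c x' u).card : ℝ) ≤ e1 := by
      have e : (ρ ^ 2 + ε) * (U'.card : ℝ) = ρ ^ 2 * U'.card + ε * U'.card := by ring
      linarith [h8.2]
    exact_mod_cast this
  · -- location
    intro a c hac x y h
    rw [hR a c hac x y] at h
    rcases h with ⟨h1, h2, -⟩ | ⟨h1, h2, -⟩
    · exact Or.inl ⟨h1, h2⟩
    · exact Or.inr ⟨h1, h2⟩
  · -- balance
    intro a b' c hab hac hbc v hv
    by_cases hvO : v ∈ O
    · have h1 := abs_le.1 (dO a b' hab v hvO)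
      have h2 := abs_le.1 (dO a c hac v hvO)
      rw [abs_le]
      constructor
      · linarith [h1.1, h2.2]
      · linarith [h1.2, h2.1]
    · have hvU' : v ∈ U' := by
        by_contra h
        exact hvO (mem_sdiff.2 ⟨hv, h⟩)
      by_cases hvX : v ∈ X
      · have h1 := abs_le.1 (dX a b' hab v hvX)
        have h2 := abs_le.1 (dX a c hac v hvX)
        rw [abs_le]
        constructor
        · linarith [h1.1, h2.2]
        · linarith [h1.2, h2.1]
      · rw [dE a b' hab v hvU' hvX, dE a c hac v hvU' hvX, card_empty]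
        simp only [Nat.cast_zero, sub_zero, abs_zero]
        positivity

end Pool.Agent.LAV
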