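import Pool.Agent.NKL.MCD

set_option autoImplicit false

/-!
# Project LAV: selection of a good outcome by the bounded differences inequality
-/

namespace Pool.Agent.LAV

open Finset Pool.Agent.ChPi

/-- the expectation does not depend on the names of the coordinates -/
theorem Ex_equiv {V V' Ω : Type} [Fintype V] [DecidableEq V] [Fintype V'] [DecidableEq V']
    [Fintype Ω] (e : V' ≃ V) (p : V → Ω → ℝ) (g : (V → Ω) → ℝ) :
    Ex (fun x => p (e x)) (fun ω => g (fun v => ω (e.symm v))) = Ex p g := by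
  unfold Ex
  refine Fintype.sum_equiv (Equiv.arrowCongr e (Equiv.refl Ω)) _ _ fun ω => ?_
  have h1 : (Equiv.arrowCongr e (Equiv.refl Ω)) ω = fun v => ω (e.symm v) := by
    funext v
    simp [Equiv.arrowCongr]
  rw [h1]
  congr 1
  unfold wt
  refine Fintype.prod_equiv e _ _ fun x => ?_
  simp

/-- **Selection lemma.**  Finitely many functions with bounded differences are simultaneously close
to their expectations at some outcome. -/
theorem sel {V Ω J : Type} [Fintype V] [DecidableEq V] [Fintype Ω] (p : V → Ω → ℝ)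
    (hp0 : ∀ v o, 0 ≤ p v o) (hp1 : ∀ v, ∑ o, p v o = 1) (js : Finset J)
    (g : J → (V → Ω) → ℝ) (c : J → V → ℝ) (hc : ∀ j x, 0 ≤ c j x)
    (hL : ∀ j ∈ js, ∀ x ω ω', (∀ y, y ≠ x → ω y = ω' y) → |g j ω - g j ω'| ≤ c j x)
    {σ lam : ℝ} (hσ : 0 < σ) (hcσ : ∀ j ∈ js, ∑ x, c j x ^ 2 ≤ σ) (hlam : 0 ≤ lam)
    (hcard : (js.card : ℝ) * (2 * Real.exp (-(lam ^ 2 / (2 * σ)))) < 1) :
    ∃ ω, ∀ j ∈ js, |g j ω - Ex p (g j)| ≤ lam := by
  classical
  set n := Fintype.card V with hn
  set e : Fin n ≃ V := (Fintype.equivFin V).symm with he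
  have hpr : ∀ j ∈ js, Pr (fun x => p (e x))
      (fun ω => lam < |g j (fun v => ω (e.symm v)) - Ex p (g j)|)
      ≤ 2 * Real.exp (-(lam ^ 2 / (2 * σ))) := by
    intro j hj
    have h1 := NKL.mcd (fun x => p (e x)) (fun v o => hp0 _ o) (fun v => hp1 _)
      (fun ω => g j (fun v => ω (e.symm v))) (fun x => c j (e x)) (fun x => hc j _)
      (fun x ω ω' h => hL j hj (e x) _ _ fun y hy => h _ fun h2 => hy (by
        rw [← h2, Equiv.apply_symm_apply])) hσ (by
        rw [Equiv.sum_comp e (fun x => c j x ^ 2)]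
        exact hcσ j hj) hlam
    rw [Ex_equiv e p (g j)] at h1
    exact h1
  by_contra hcon
  push Not at hcon
  have h2 : (1 : ℝ) ≤ ∑ j ∈ js, Pr (fun x => p (e x))
      (fun ω => lam < |g j (fun v => ω (e.symm v)) - Ex p (g j)|) := by
    have h5 : Ex (fun x => p (e x)) (fun _ => (1 : ℝ)) ≤ Ex (fun x => p (e x)) (fun ω =>
        ∑ i ∈ js, if lam < |g i (fun v => ω (e.symm v)) - Ex p (g i)| then (1 : ℝ) else 0) := by
      refine L.Ex_mono (fun v o => hp0 _ o) fun ω => ?_
      obtain ⟨j, hj, hj2⟩ := hcon (fun v => ω (e.symm v))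
      have h4 : (if lam < |g j (fun v => ω (e.symm v)) - Ex p (g j)| then (1 : ℝ) else 0) ≤
          ∑ i ∈ js, if lam < |g i (fun v => ω (e.symm v)) - Ex p (g i)| then (1 : ℝ) else 0 :=
        single_le_sum (f := fun j => if lam < |g j (fun v => ω (e.symm v)) - Ex p (g j)|
          then (1 : ℝ) else 0) (fun i _ => by split_ifs <;> norm_num) hj
      rw [if_pos hj2] at h4
      exact h4
    rw [L.Ex_const (fun v => hp1 _), L.Ex_sum] at h5
    exact h5
  have h3 : ∑ j ∈ js, Pr (fun x => p (e x))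
      (fun ω => lam < |g j (fun v => ω (e.symm v)) - Ex p (g j)|)
      ≤ (js.card : ℝ) * (2 * Real.exp (-(lam ^ 2 / (2 * σ)))) := by
    calc _ ≤ ∑ _j ∈ js, (2 * Real.exp (-(lam ^ 2 / (2 * σ)))) := sum_le_sum hpr
      _ = _ := by rw [sum_const, nsmul_eq_mul]
  linarith

end Pool.Agent.LAV
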