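import Pool.Agent.LAV.RES
import Pool.Agent.LAV.LEV
import Pool.Agent.LAV.NUM

set_option autoImplicit false

/-!
# Project LAV: one level step with all constants
-/

namespace Pool.Agent.LAV

open Finset

theorem rgE_pos {δ : ℝ} (hδ : 0 < δ) : 0 < Pool.LAV.rgE δ := by
  unfold Pool.LAV.rgE
  positivity

/-- **One level with all constants chosen.** -/
theorem one_step {b : ℝ} (hb0 : 0 ≤ b) (hb : b < 1 / 4) (hLP : LPOK b) (t0 : ℕ) :
    ∃ (t : ℕ) (θ ζ ε : ℝ) (N2 : ℕ), t0 ≤ t ∧ 32 ≤ t ∧ 0 < θ ∧ 0 < ζ ∧ 0 < ε ∧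
      ∀ {α : Type} [Fintype α] [DecidableEq α] (A : Tri α → Prop) [DecidablePred A]
        (U U' E : Finset α) (Z' : Gr α), N2 ≤ U.card → U' ⊆ U →
        (U.card : ℝ) ≤ 2 * t * U'.card → (t : ℝ) * U'.card ≤ 2 * U.card → E ⊆ U' →
        (E.card : ℝ) ≤ ε * U'.card → Spa A U U b → Spa A U U' b →
        (∀ i, Z' i ⊆ U' ×ˢ U') → Deg Z' U' (ζ * U'.card) →
        ∃ R : Gr α, StepOK A U U' (fun i => (U' ×ˢ U') ∪ R i) Z' θ ∧
          (∀ a c : Fin 3, a ≠ c → ∀ x y, Adj R a c x y →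
            (x ∈ U \ U' ∧ y ∈ U' \ E) ∨ (x ∈ U' \ E ∧ y ∈ U \ U')) ∧
          Deg (fun i => (U' ×ˢ U') ∪ R i) U (ζ * U.card) := by
  obtain ⟨c0, C0, hc0, hC0, NL, hL⟩ := hLP
  -- the constants
  set κ0 : ℝ := (1 - b) * (1 - 2 * b) * (1 - 4 * b) with hκ0
  have hκ0pos : 0 < κ0 := by
    have h1 : 0 < 1 - b := by linarith
    have h2 : 0 < 1 - 2 * b := by linarith
    have h3 : 0 < 1 - 4 * b := by linarith
    positivity
  set K1 : ℝ := 7 * (1 + 8 / κ0) with hK1
  have hK1pos : 0 < K1 := by positivity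
  set μ0 : ℝ := min (1 / 2) (min (1 / (4 * K1)) (c0 / (16 * K1 * C0))) with hμ0
  have hμ0pos : 0 < μ0 := lt_min (by norm_num) (lt_min (by positivity) (by positivity))
  have hμa : μ0 ≤ 1 / 2 := min_le_left _ _
  have hμb : 4 * μ0 * K1 ≤ 1 := by
    have h1 : μ0 ≤ 1 / (4 * K1) := (min_le_right _ _).trans (min_le_left _ _)
    rw [le_div_iff₀ (by positivity)] at h1
    linarith
  have hμc : 16 * K1 * μ0 * C0 ≤ c0 := by
    have h1 : μ0 ≤ c0 / (16 * K1 * C0) := (min_le_right _ _).trans (min_le_right _ _)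
    rw [le_div_iff₀ (by positivity)] at h1
    linarith
  clear_value K1 μ0 κ0
  obtain ⟨t1, ht1⟩ := exists_nat_ge (8 / μ0)
  set t : ℕ := max t0 (max 400 t1) with ht
  have hta : t0 ≤ t := le_max_left _ _
  have htb : 400 ≤ t := (le_max_left _ _).trans (le_max_right _ _)
  have htc : t1 ≤ t := (le_max_right _ _).trans (le_max_right _ _)
  clear_value t
  have ht400 : (400 : ℝ) ≤ t := by exact_mod_cast htb
  have ht0 : (0 : ℝ) < t := by linarith
  have htμ : 8 ≤ μ0 * t := by
    have h1 : (t1 : ℝ) ≤ t := by exact_mod_cast htc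
    have h2 : 8 / μ0 ≤ t := ht1.trans h1
    rw [div_le_iff₀ hμ0pos] at h2
    linarith
  set ρ : ℝ := min (1 / (12800 * t)) (μ0 / (32 * t)) with hρ
  have hρ0 : 0 < ρ := lt_min (by positivity) (by positivity)
  have hρa : 12800 * t * ρ ≤ 1 := by
    have h1 : ρ ≤ 1 / (12800 * t) := min_le_left _ _
    rw [le_div_iff₀ (by positivity)] at h1
    linarith
  have hρb : 32 * t * ρ ≤ μ0 := by
    have h1 : ρ ≤ μ0 / (32 * t) := min_le_right _ _
    rw [le_div_iff₀ (by positivity)] at h1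
    linarith
  clear_value ρ
  have hρ1 : ρ ≤ 1 := by
    have h1 : 12800 * 400 * ρ ≤ 12800 * t * ρ := by gcongr
    linarith
  set δ : ℝ := ρ ^ 2 / (64 * t) with hδ
  have hδ0 : 0 < δ := by positivity
  have hδ1 : δ ≤ 1 := by
    rw [hδ, div_le_one (by positivity)]
    have h1 : ρ ^ 2 ≤ 1 := pow_le_one₀ hρ0.le hρ1
    linarith
  clear_value δ
  have hE0 : 0 < Pool.LAV.rgE δ := rgE_pos hδ0
  obtain ⟨j, hj⟩ : ∃ j : ℕ, 2 * μ0 * C0 * (1 / 2) ^ j ≤ Pool.LAV.rgE δ / 4 := by
    have h1 : Filter.Tendsto (fun j : ℕ => 2 * μ0 * C0 * (1 / 2 : ℝ) ^ j) Filter.atTop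
        (nhds (2 * μ0 * C0 * 0)) :=
      (tendsto_pow_atTop_nhds_zero_of_lt_one (by norm_num) (by norm_num)).const_mul _
    rw [mul_zero] at h1
    obtain ⟨j, hj⟩ := (h1.eventually (gt_mem_nhds (show 0 < Pool.LAV.rgE δ / 4 by
      positivity))).exists
    exact ⟨j, hj.le⟩
  set ε : ℝ := min (ρ ^ 2 / 100) (min (Pool.LAV.rgE δ / 48) (c0 / (48 * K1 * (j + 1)))) with hε
  have hε0 : 0 < ε := lt_min (by positivity) (lt_min (by positivity) (by positivity))
  have hεa : 100 * ε ≤ ρ ^ 2 := by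
    have h1 : ε ≤ ρ ^ 2 / 100 := min_le_left _ _
    linarith
  have hεb : 48 * ε ≤ Pool.LAV.rgE δ := by
    have h1 : ε ≤ Pool.LAV.rgE δ / 48 := (min_le_right _ _).trans (min_le_left _ _)
    linarith
  have hεc : 48 * K1 * (j + 1) * ε ≤ c0 := by
    have h1 : ε ≤ c0 / (48 * K1 * (j + 1)) := (min_le_right _ _).trans (min_le_right _ _)
    rw [le_div_iff₀ (by positivity)] at h1
    linarith
  clear_value ε
  set ζ : ℝ := 2 / t + 4 * ρ with hζ
  have hζ0 : 0 < ζ := by positivity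
  set θ : ℝ := 8 * t * ρ with hθ
  have hθ0 : 0 < θ := by positivity
  clear_value ζ θ
  obtain ⟨NR, hR⟩ := exists_res (ρ := ρ) (ε := ε) (b := b) (ζ := ζ) (κ := 2 * t) hρ0 hρ1 hε0
    (by linarith)
  set c : ℝ := 3 * ρ / (320 * t) with hc
  have hcpos : 0 < c := by positivity
  clear_value c
  -- large sets
  have hev1 : ∀ᶠ n : ℕ in Filter.atTop, 2 * t * 1000 / ρ ^ 2 ≤ (n : ℝ) :=
    tendsto_natCast_atTop_atTop.eventually_ge_atTop _
  have hev2 : ∀ᶠ n : ℕ in Filter.atTop, Pool.LAV.rgN δ (C0 + c0 / 2) ≤ (n : ℝ) :=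
    tendsto_natCast_atTop_atTop.eventually_ge_atTop _
  obtain ⟨N2, hN2⟩ := Filter.eventually_atTop.1 (hev1.and (hev2.and ((num_exp hcpos).and
    ((Filter.eventually_ge_atTop NL).and (Filter.eventually_ge_atTop (2 * t * NR))))))
  refine ⟨t, θ, ζ, ε, N2, hta, by omega, hθ0, hζ0, hε0, ?_⟩
  intro α _ _ A _ U U' E Z' hU hU' hyx hxy hEU hEc hspU hspU' hZ' hZd
  obtain ⟨e1, e2, e3, e4, e5⟩ := hN2 U.card hU
  have hUR : NR ≤ U'.card := by
    by_contra hcon
    push Not at hcon
    have h1 : (U.card : ℝ) < 2 * t * NR := by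
      refine hyx.trans_lt ?_
      have : (U'.card : ℝ) < NR := by exact_mod_cast hcon
      exact mul_lt_mul_of_pos_left this (by positivity)
    have h2 : U.card < 2 * t * NR := by exact_mod_cast h1
    omega
  set y : ℝ := (U.card : ℝ) with hy
  set x : ℝ := (U'.card : ℝ) with hx
  clear_value x y
  have hx1000 : 1000 ≤ ρ ^ 2 * x := by
    have h1 : 2 * t * 1000 / ρ ^ 2 ≤ 2 * t * x := e1.trans hyx
    rw [div_le_iff₀ (by positivity)] at h1
    refine le_of_mul_le_mul_left ?_ (show 0 < 2 * (t : ℝ) by positivity)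
    linarith
  obtain ⟨s0, s1, a1, c1, f, f1, Δ, d, p1, p2, p3, p4, p5, p6, p7, p8, p9, p10, p11, p12, p13,
    p14, p15⟩ := nums (t := (t : ℝ)) (ρ := ρ) (ε := ε) (δ := δ) (ζ := ζ) (b := b) (x := x) (y := y)
    ht400 hρ0 hρa hε0 hεa hδ hb0 hb.le hζ hx1000 hyx hxy
  have hX : (U'.card : ℝ) - (U' \ E).card ≤ ε * U'.card := by
    rw [card_sdiff_of_subset hEU, Nat.cast_sub (card_le_card hEU), ← hx]
    linarith
  have hyx' : (U.card : ℝ) ≤ 2 * t * U'.card := by rw [← hx, ← hy]; exact hyx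
  rw [hx] at hZd
  obtain ⟨R, r1, r2, r3⟩ := hR A U U' (U' \ E) Z' hU' sdiff_subset hX hUR hyx' hspU' hZd s0 s1 a1
    c1 f f1 (hx ▸ p1) (hx ▸ p2) (hy ▸ p3) (hx ▸ p4) (hx ▸ p5) (hx ▸ p6)
  rw [← hy] at r3
  obtain ⟨w0, hw0⟩ := hL A U e4 hspU
  have hxpos : 0 < x := by
    by_contra hcon
    push Not at hcon
    have : ρ ^ 2 * x ≤ 0 := mul_nonpos_of_nonneg_of_nonpos (sq_nonneg _) hcon
    linarith
  have hypos : 0 < y := by
    have : 0 < (t : ℝ) * x := by positivity
    linarith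
  have hxy' : x ≤ 2 / t * y := by
    rw [div_mul_eq_mul_div, le_div_iff₀ ht0]
    linarith
  have h2t : 2 / (t : ℝ) ≤ μ0 / 4 := by
    rw [div_le_div_iff₀ ht0 (by norm_num)]
    linarith
  refine ⟨R, ?_, r2, ?_⟩
  · refine level A (j := j) (b := b) (c0 := c0) (C0 := C0) (N := y) (m := μ0 * y)
      (D := 2 * ε * y) (n0 := κ0 * y ^ 3) (δ := δ) (μ := 80 * ρ ^ 2 * y + 40) (d := d) (B := d)
      (Δ := Δ) hU' hy.symm hypos hb0 (by linarith) hspU hw0 r1 r3 hZ' (by positivity) ?_ (by positivity)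
      hc0.le hC0.le hθ0.le ?_ ?_ ?_ ?_ hδ0 hδ1 ?_ e2 p7 p8 p9 p10 p11 ?_ ?_
    · rw [hκ0]
      apply le_of_eq
      ring
    · -- `m`
      have h1 : θ * y ≤ μ0 / 4 * y := by
        refine mul_le_mul_of_nonneg_right ?_ hypos.le
        rw [hθ]
        linarith
      have h2 : x ≤ μ0 / 4 * y := hxy'.trans (mul_le_mul_of_nonneg_right h2t hypos.le)
      have h3 : 3 * ρ * y ≤ μ0 / 4 * y := by
        refine mul_le_mul_of_nonneg_right ?_ hypos.le
        have h5 : 32 * 400 * ρ ≤ 32 * t * ρ := by gcongr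
        linarith
      linarith
    · have := mul_le_mul_of_nonneg_right hμa hypos.le
      linarith
    · have h1 : 8 * y ^ 3 / (κ0 * y ^ 3) = 8 / κ0 := by
        rw [div_eq_div_iff (by positivity) hκ0pos.ne']
        ring
      rw [h1, ← hK1]
      have := mul_le_mul_of_nonneg_right hμb hypos.le
      linarith
    · have h1 : 8 * y ^ 3 / (κ0 * y ^ 3) = 8 / κ0 := by
        rw [div_eq_div_iff (by positivity) hκ0pos.ne']
        ring
      rw [h1, ← hK1]
      have h2 : 4 * (μ0 * y) * C0 / y = 4 * μ0 * C0 := by field_simp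
      have h3 : 6 * (2 * ε * y) / y * j = 12 * ε * j := by field_simp; ring
      rw [h2, h3]
      have h4 : K1 * (12 * ε * j) ≤ c0 / 4 := by
        have h5 : 0 ≤ K1 * ε := by positivity
        have h6 : 48 * K1 * (j + 1) * ε = 4 * (K1 * (12 * ε * j)) + 48 * (K1 * ε) := by ring
        linarith
      linarith
    · have h2 : 2 * (μ0 * y) * C0 / y = 2 * μ0 * C0 := by field_simp
      have h3 : 6 * (2 * ε * y) / y = 12 * ε := by field_simp; ring
      rw [h2, h3]
      linarith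
    · -- the exponential condition
      have h1 : ((U \ U').card : ℝ) ≤ y := by
        rw [hy]
        exact_mod_cast card_le_card sdiff_subset
      have h2 : (2 * ((s1 + Δ : ℕ) : ℝ)) ≤ 4 * y := by
        have h5 : 400 * x ≤ t * x := by gcongr
        have h4 : 2 * ρ * x ≤ 2 * 1 * x := by gcongr
        linarith
      have h3 : ((U \ U').card : ℝ) * (2 * ((s1 + Δ : ℕ) : ℝ)) ≤ y * (4 * y) :=
        mul_le_mul h1 h2 (by positivity) hypos.le
      have h4 : Real.exp (80 * ρ ^ 2 * y + 40) ≤ Real.exp (ρ * y / (160 * t)) * Real.exp 40 := by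
        rw [← Real.exp_add]
        refine Real.exp_le_exp.2 ?_
        have : 80 * ρ ^ 2 * y ≤ ρ * y / (160 * t) := by
          rw [le_div_iff₀ (by positivity)]
          have h5 : (ρ * y) * (12800 * t * ρ) ≤ (ρ * y) * 1 :=
            mul_le_mul_of_nonneg_left hρa (by positivity)
          linarith
        linarith
      have h5 : Real.exp (ρ * y / (64 * t)) ≤ 2 ^ (d + 1) := by
        have h6 : ρ * y / (64 * t) ≤ (d + 1 : ℕ) * Real.log 2 := by
          have h7 : (1 / 2 : ℝ) ≤ Real.log 2 := by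
            have := Real.log_two_gt_d9
            linarith
          have h8 : ρ * y / (64 * t) ≤ (d + 1 : ℕ) * (1 / 2 : ℝ) := by
            rw [div_le_iff₀ (by positivity)]
            push_cast
            have h9 : ρ * y ≤ ρ * (2 * t * x) := mul_le_mul_of_nonneg_left hyx hρ0.le
            have h10 : t * (ρ * x / 16) ≤ t * (d + 1) := mul_le_mul_of_nonneg_left p14 ht0.le
            linarith
          exact h8.trans (mul_le_mul_of_nonneg_left h7 (by positivity))
        calc Real.exp (ρ * y / (64 * t)) ≤ Real.exp ((d + 1 : ℕ) * Real.log 2) :=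
              Real.exp_le_exp.2 h6
          _ = 2 ^ (d + 1) := by
              rw [mul_comm, Real.exp_mul, Real.exp_log (by norm_num), Real.rpow_natCast]
      calc ((U \ U').card : ℝ) * (2 * ((s1 + Δ : ℕ) : ℝ)) * Real.exp (80 * ρ ^ 2 * y + 40)
          ≤ y * (4 * y) * (Real.exp (ρ * y / (160 * t)) * Real.exp 40) :=
            mul_le_mul h3 h4 (Real.exp_pos _).le (by positivity)
        _ = 4 * y ^ 2 * Real.exp 40 * Real.exp (ρ * y / (160 * t)) := by ring
        _ < Real.exp (c * y) * Real.exp (ρ * y / (160 * t)) :=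
            mul_lt_mul_of_pos_right e3 (Real.exp_pos _)
        _ = Real.exp (ρ * y / (64 * t)) := by
            rw [← Real.exp_add]
            congr 1
            rw [hc]
            field_simp
            ring
        _ ≤ 2 ^ (d + 1) := h5
    · refine p12.trans ?_
      have h1 : 2 * ρ * y ≤ 2 * ρ * (2 * t * x) := mul_le_mul_of_nonneg_left hyx (by positivity)
      have h2 : θ * U'.card = 8 * t * ρ * x := by rw [hθ, hx]
      rw [h2]
      have h3 : 0 ≤ t * ρ * x := by positivity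
      linarith
  · intro a c' hac v hv
    have h1 : (U.filter fun w => Adj (fun i => (U' ×ˢ U') ∪ R i) a c' v w) ⊆
        U' ∪ nbr R a c' v := by
      intro w hw
      rw [mem_filter, Adj_union] at hw
      rw [mem_union]
      rcases hw.2 with h | h
      · left
        unfold Adj at h
        split_ifs at h
        · exact (mem_product.1 h).2
        · exact (mem_product.1 h).1
      · right
        rw [mem_nbr]
        exact h
    have h2 : ((nbr R a c' v).card : ℝ) ≤ a1 + s1 := by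
      by_cases hvU : v ∈ U'
      · have := r1.degU a c' hac v hvU
        have h3 : ((nbr R a c' v).card : ℝ) ≤ a1 := by exact_mod_cast this
        have h4 : (0 : ℝ) ≤ s1 := by positivity
        linarith
      · have := (r1.degO a c' hac v (mem_sdiff.2 ⟨hv, hvU⟩)).2
        have h3 : ((nbr R a c' v).card : ℝ) ≤ s1 := by exact_mod_cast this
        have h4 : (0 : ℝ) ≤ a1 := by positivity
        linarith
    have h3 : ((U.filter fun w => Adj (fun i => (U' ×ˢ U') ∪ R i) a c' v w).card : ℝ) ≤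
        x + (a1 + s1) := by
      have h4 := (card_le_card h1).trans (card_union_le _ _)
      have h5 : ((U.filter fun w => Adj (fun i => (U' ×ˢ U') ∪ R i) a c' v w).card : ℝ) ≤
          U'.card + (nbr R a c' v).card := by exact_mod_cast h4
      linarith
    refine h3.trans ?_
    have h4 : ζ * y = 2 / t * y + 4 * ρ * y := by rw [hζ]; ring
    have h5 : 0 ≤ ρ * y := by positivity
    linarith

end Pool.Agent.LAV
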