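import Pool.Agent.LAV.VDefs
import Pool.Agent.LAV.BITS

set_option autoImplicit false

/-!
# Project LAV: choice of the next set of the vortex
-/

namespace Pool.Agent.LAV

open Finset

/-- the fourth root -/
noncomputable def rt (x : ℝ) : ℝ := √(√x)

theorem rt_nonneg (x : ℝ) : 0 ≤ rt x := Real.sqrt_nonneg _

theorem rt_mono {x y : ℝ} (h : x ≤ y) : rt x ≤ rt y :=
  Real.sqrt_le_sqrt (Real.sqrt_le_sqrt h)

theorem rt_pow {x : ℝ} (hx : 0 ≤ x) : rt x ^ 4 = x := by
  unfold rt
  have h1 : (√(√x)) ^ 2 = √x := Real.sq_sqrt (Real.sqrt_nonneg _)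
  have h2 : (√x) ^ 2 = x := Real.sq_sqrt hx
  calc (√(√x)) ^ 4 = ((√(√x)) ^ 2) ^ 2 := by ring
    _ = x := by rw [h1, h2]

theorem rt_pos {x : ℝ} (hx : 0 < x) : 0 < rt x := Real.sqrt_pos.2 (Real.sqrt_pos.2 hx)

theorem rt_half {x y : ℝ} (h : 16 * y ≤ x) : 2 * rt y ≤ rt x := by
  unfold rt
  have h1 : √(16 * y) = 4 * √y := by
    rw [Real.sqrt_mul (by norm_num)]
    congr 1
    rw [show (16 : ℝ) = 4 ^ 2 by norm_num]
    exact Real.sqrt_sq (by norm_num)
  have h2 : √(4 * √y) = 2 * √(√y) := by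
    rw [Real.sqrt_mul (by norm_num)]
    congr 1
    rw [show (4 : ℝ) = 2 ^ 2 by norm_num]
    exact Real.sqrt_sq (by norm_num)
  rw [← h2, ← h1]
  exact Real.sqrt_le_sqrt (Real.sqrt_le_sqrt h)

theorem tendsto_rt : Filter.Tendsto (fun n : ℕ => rt n) Filter.atTop Filter.atTop :=
  (Real.tendsto_sqrt_atTop.comp Real.tendsto_sqrt_atTop).comp tendsto_natCast_atTop_atTop

/-- **Choice of the next set.** -/
theorem exists_next (t : ℕ) (ht : 2 ≤ t) : ∃ N0 : ℕ, ∀ {α : Type} [Fintype α] [DecidableEq α]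
    (A : Tri α → Prop) [DecidablePred A] (U : Finset α) (β : ℝ), β ≤ 1 → N0 ≤ U.card →
    Spa A U U β → ∃ U' ⊆ U, (U.card : ℝ) ≤ 2 * t * U'.card ∧ (t : ℝ) * U'.card ≤ 2 * U.card ∧
      Spa A U U' (β + 3 * t / rt U.card) := by
  have ht0 : (0 : ℝ) < t := by
    have : (2 : ℝ) ≤ t := by exact_mod_cast ht
    linarith
  have hev1 : ∀ᶠ n : ℕ in Filter.atTop, (3 * t : ℝ) ≤ rt n :=
    tendsto_rt.eventually_ge_atTop _
  have hev2 : ∀ᶠ n : ℕ in Filter.atTop,
      2 * (1 + 9 * (n : ℝ) ^ 2) * Real.exp (-(2 * √(n : ℝ))) < 1 := by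
    have h1 : Filter.Tendsto (fun x : ℝ => 2 * (1 + 9 * (x ^ 2) ^ 2) * Real.exp (-(2 * x)))
        Filter.atTop (nhds 0) := by
      have h2 : Filter.Tendsto (fun x : ℝ => (x ^ 4) * Real.exp (-x)) Filter.atTop (nhds 0) :=
        Real.tendsto_pow_mul_exp_neg_atTop_nhds_zero 4
      have h3 : Filter.Tendsto (fun x : ℝ => (x ^ 0) * Real.exp (-x)) Filter.atTop (nhds 0) :=
        Real.tendsto_pow_mul_exp_neg_atTop_nhds_zero 0
      have h4 : Filter.Tendsto (fun x : ℝ => 2 * ((x ^ 0) * Real.exp (-x)) +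
          18 * ((x ^ 4) * Real.exp (-x))) Filter.atTop (nhds (2 * 0 + 18 * 0)) :=
        (h3.const_mul 2).add (h2.const_mul 18)
      rw [mul_zero, mul_zero, add_zero] at h4
      refine squeeze_zero' (Filter.Eventually.of_forall fun x => by positivity) ?_ h4
      filter_upwards [Filter.eventually_ge_atTop (0 : ℝ)] with x hx
      have h5 : Real.exp (-(2 * x)) ≤ Real.exp (-x) := Real.exp_le_exp.2 (by linarith)
      calc 2 * (1 + 9 * (x ^ 2) ^ 2) * Real.exp (-(2 * x))
          ≤ 2 * (1 + 9 * (x ^ 2) ^ 2) * Real.exp (-x) :=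
            mul_le_mul_of_nonneg_left h5 (by positivity)
        _ = 2 * ((x ^ 0) * Real.exp (-x)) + 18 * ((x ^ 4) * Real.exp (-x)) := by ring
    have h6 := (h1.comp (Real.tendsto_sqrt_atTop.comp
      (tendsto_natCast_atTop_atTop (R := ℝ)))).eventually (gt_mem_nhds (show (0 : ℝ) < 1 by norm_num))
    filter_upwards [h6] with n hn
    have h7 : (√(n : ℝ)) ^ 2 = n := Real.sq_sqrt (Nat.cast_nonneg n)
    simp only [Function.comp_apply] at hn
    rw [h7] at hn
    exact hn
  obtain ⟨N0, hN0⟩ := Filter.eventually_atTop.1 (hev1.and (hev2.and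
    (Filter.eventually_ge_atTop 1)))
  refine ⟨N0, ?_⟩
  intro α _ _ A _ U β hβ hU hspa
  classical
  obtain ⟨e1, e2, e3⟩ := hN0 U.card hU
  set N : ℝ := (U.card : ℝ) with hN
  set q : ℝ := rt N with hq
  have hNpos : 0 < N := by
    rw [hN]
    exact_mod_cast e3
  have hqpos : 0 < q := rt_pos hNpos
  have hqq : q ^ 2 = √N := by
    rw [hq]
    unfold rt
    exact Real.sq_sqrt (Real.sqrt_nonneg _)
  have hsq : √N ^ 2 = N := Real.sq_sqrt hNpos.le
  have hJc : (Fintype.card (Option (Fin 3 × Fin 3 × {x // x ∈ U} × {x // x ∈ U})) : ℝ) =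
      1 + 9 * N ^ 2 := by
    simp only [Fintype.card_option, Fintype.card_prod, Fintype.card_fin, Fintype.card_coe]
    push_cast
    rw [← hN]
    ring
  obtain ⟨S, hS⟩ := bits (K := α)
    (J := Option (Fin 3 × Fin 3 × {x // x ∈ U} × {x // x ∈ U})) (ι := α) (ρ := 1 / t) (by positivity)
    (by
      rw [div_le_one ht0]
      have : (2 : ℝ) ≤ t := by exact_mod_cast ht
      linarith)
    (fun j => match j with
      | none => U
      | some (a, c, x, y) => U.filter fun u => ¬ A (tr a c x.1 y.1 u))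
    (fun _ u => {u})
    (fun j x _ y _ hxy => by
      simpa [Function.onFun] using hxy)
    (m := N) (ε := 1 / q) (by positivity)
    (fun j => by
      match j with
      | none => exact le_rfl
      | some (a, c, x, y) =>
        rw [hN]
        exact_mod_cast card_filter_le _ _)
    (by
      rw [hJc]
      have h1 : 2 * (1 / q) ^ 2 * N = 2 * √N := by
        rw [div_pow, one_pow, hqq]
        have h2 : 0 < √N := Real.sqrt_pos.2 hNpos
        field_simp
        rw [hsq]
      rw [h1]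
      exact e2)
  have hfil : ∀ T : Finset α, (T.filter fun u => ({u} : Finset α) ⊆ S) = T.filter (· ∈ S) := by
    intro T
    refine filter_congr fun u _ => ?_
    rw [singleton_subset_iff]
  have hcard1 : ∀ T : Finset α, ∑ u ∈ T, (1 / (t : ℝ)) ^ ({u} : Finset α).card = T.card / t := by
    intro T
    simp only [card_singleton, pow_one, sum_const, nsmul_eq_mul]
    ring
  refine ⟨U.filter (· ∈ S), filter_subset _ _, ?_⟩
  have h0 := hS none
  simp only at h0
  rw [hfil, hcard1] at h0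
  obtain ⟨h0a, h0b⟩ := abs_le.1 h0
  set N' : ℝ := ((U.filter (· ∈ S)).card : ℝ) with hN'
  have ht2 : (2 : ℝ) ≤ t := by exact_mod_cast ht
  have hq3 : 3 * t ≤ q := e1
  -- basic estimates
  have hNt : t * (N / t) = N := by field_simp
  have hNq : q * (1 / q * N) = N := by field_simp
  have hNq0 : 0 ≤ 1 / q * N := by positivity
  have hkey : 3 * t * (1 / q * N) ≤ N := by
    calc 3 * t * (1 / q * N) ≤ q * (1 / q * N) := mul_le_mul_of_nonneg_right hq3 hNq0
      _ = N := hNq
  have hA1 : N ≤ 2 * t * N' := by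
    have h1 : t * (N' - N / t) ≥ t * (-(1 / q * N)) :=
      mul_le_mul_of_nonneg_left (by linarith) ht0.le
    nlinarith
  have hA2 : t * N' ≤ 2 * N := by
    have h1 : t * (N' - N / t) ≤ t * (1 / q * N) :=
      mul_le_mul_of_nonneg_left h0b ht0.le
    nlinarith
  refine ⟨hA1, hA2, ?_⟩
  intro a c hac x hx y hy
  have h1 := hS (some (a, c, ⟨x, hx⟩, ⟨y, hy⟩))
  simp only at h1
  rw [hfil, hcard1] at h1
  have h2 : ((U.filter (· ∈ S)).filter fun u => ¬ A (tr a c x y u)) =
      (U.filter fun u => ¬ A (tr a c x y u)).filter (· ∈ S) := by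
    rw [filter_filter, filter_filter]
    exact filter_congr fun u _ => and_comm
  rw [h2]
  have h3 := hspa a c hac x hx y hy
  set F : ℝ := ((U.filter fun u => ¬ A (tr a c x y u)).card : ℝ) with hF
  have h4 := (abs_le.1 h1).2
  have h5 : F / t ≤ β * N / t := by
    gcongr
  have h6 : (((U.filter fun u => ¬ A (tr a c x y u)).filter (· ∈ S)).card : ℝ) ≤
      β * N / t + 1 / q * N := by linarith
  refine h6.trans ?_
  -- `N' ≥ N/t - N/q`
  have h7 : N / t - 1 / q * N ≤ N' := by linarith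
  have hβ0 : 0 ≤ β := by
    by_contra hcon
    push Not at hcon
    have : (0 : ℝ) ≤ F := by rw [hF]; positivity
    have : β * N < 0 := mul_neg_of_neg_of_pos hcon hNpos
    linarith
  have h8 : 0 ≤ β + 3 * t / q := by positivity
  have h9 : (β + 3 * t / q) * (N / t - 1 / q * N) ≤ (β + 3 * t / q) * N' :=
    mul_le_mul_of_nonneg_left h7 h8
  refine le_trans ?_ h9
  have h10 : (β + 3 * t / q) * (N / t - 1 / q * N) =
      β * N / t + (3 - β) * (1 / q * N) - 3 * t / q * (1 / q * N) := by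
    field_simp
    ring
  rw [h10]
  have h11 : 3 * t / q ≤ 1 := by rw [div_le_one hqpos]; exact hq3
  have h12 : 3 * t / q * (1 / q * N) ≤ 1 * (1 / q * N) :=
    mul_le_mul_of_nonneg_right h11 hNq0
  have h13 : β * (1 / q * N) ≤ 1 * (1 / q * N) := mul_le_mul_of_nonneg_right hβ hNq0
  nlinarith

end Pool.Agent.LAV
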