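import Pool.Agent.LAV.VSE
import Pool.Agent.LAV.STP

set_option autoImplicit false

/-!
# Project LAV: the vortex
-/

namespace Pool.Agent.LAV

open Finset

section

variable {α : Type}

theorem Spa.mono {A : Tri α → Prop} [DecidablePred A] {V V' W : Finset α} {b b' : ℝ}
    (h : Spa A V W b) (hV : V' ⊆ V) (hb : b ≤ b') : Spa A V' W b' := fun a c hac x hx y hy =>
  (h a c hac x (hV hx) y (hV hy)).trans (mul_le_mul_of_nonneg_right hb (Nat.cast_nonneg _))

end

/-- the property of the constants of a level which is supplied by `one_step` -/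
def StepProp (b θ ζ ε : ℝ) (t N2 : ℕ) : Prop :=
  ∀ {α : Type} [Fintype α] [DecidableEq α] (A : Tri α → Prop) [DecidablePred A]
    (U U' E : Finset α) (Z' : Gr α), N2 ≤ U.card → U' ⊆ U →
    (U.card : ℝ) ≤ 2 * t * U'.card → (t : ℝ) * U'.card ≤ 2 * U.card → E ⊆ U' →
    (E.card : ℝ) ≤ ε * U'.card → Spa A U U b → Spa A U U' b →
    (∀ i, Z' i ⊆ U' ×ˢ U') → Deg Z' U' (ζ * U'.card) →
    ∃ R : Gr α, StepOK A U U' (fun i => (U' ×ˢ U') ∪ R i) Z' θ ∧
      (∀ a c : Fin 3, a ≠ c → ∀ x y, Adj R a c x y →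
        (x ∈ U \ U' ∧ y ∈ U' \ E) ∨ (x ∈ U' \ E ∧ y ∈ U \ U')) ∧
      Deg (fun i => (U' ×ˢ U') ∪ R i) U (ζ * U.card)

/-- a finished vortex which starts at `U` -/
def Vortex {α : Type} [DecidableEq α] (A : Tri α → Prop) (U : Finset α) (θ ζ : ℝ) (N3 : ℕ) :
    Prop :=
  ∃ (l : ℕ) (V : ℕ → Finset α) (Z : ℕ → Gr α), V 0 = U ∧
    (∀ i < l, StepOK A (V i) (V (i + 1)) (Z i) (Z (i + 1)) θ) ∧
    (∀ i < l, ∀ t, Z (i + 1) t ⊆ V (i + 1) ×ˢ V (i + 1)) ∧
    (∀ i < l, ∀ t, V (i + 1) ×ˢ V (i + 1) ⊆ Z i t) ∧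
    (∀ t, Z 0 t ⊆ V 0 ×ˢ V 0) ∧ (V l).card ≤ N3 ∧ V l ⊆ U ∧ Deg (Z 0) U (ζ * U.card)

theorem deg_empty {α : Type} [DecidableEq α] (U : Finset α) {m : ℝ} (hm : 0 ≤ m) :
    Deg (fun _ => ∅) U m := by
  intro a b _ v _
  have h1 : (U.filter fun w => Adj (fun _ : Fin 3 => (∅ : Finset (α × α))) a b v w) = ∅ := by
    refine filter_eq_empty_iff.2 fun w _ h => ?_
    unfold Adj at h
    split_ifs at h <;> exact absurd h (notMem_empty _)
  rw [h1, card_empty]
  exact_mod_cast hm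

/-- reservoir pairs between `U ∖ U'` and `U' ∖ E` are pairs of `U` -/
theorem gr_sub_of_adj {α : Type} [DecidableEq α] {R : Gr α} {S : Finset (α × α)}
    (h : ∀ a c : Fin 3, a ≠ c → ∀ x y, Adj R a c x y → (x, y) ∈ S) (t : Fin 3) : R t ⊆ S := by
  rintro ⟨x, y⟩ hp
  fin_cases t
  · exact h 1 2 (by decide) x y hp
  · exact h 0 2 (by decide) x y hp
  · exact h 0 1 (by decide) x y hp

/-- a sequence with a new first term -/
def shift {τ : Type*} (a : τ) (f : ℕ → τ) : ℕ → τ
  | 0 => a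
  | i + 1 => f i

theorem shift_zero {τ : Type*} (a : τ) (f : ℕ → τ) : shift a f 0 = a := rfl

theorem shift_succ {τ : Type*} (a : τ) (f : ℕ → τ) (i : ℕ) : shift a f (i + 1) = f i := rfl

/-- **Adding one level on top of a vortex.** -/
theorem Vortex.cons {α : Type} [DecidableEq α] {A : Tri α → Prop}
    {U U' : Finset α} {θ ζ : ℝ} {N3 l : ℕ} {V : ℕ → Finset α} {Z : ℕ → Gr α} {Y : Gr α}
    (hU' : U' ⊆ U) (h0 : V 0 = U')
    (h1 : ∀ i < l, StepOK A (V i) (V (i + 1)) (Z i) (Z (i + 1)) θ)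
    (h2 : ∀ i < l, ∀ t, Z (i + 1) t ⊆ V (i + 1) ×ˢ V (i + 1))
    (h3 : ∀ i < l, ∀ t, V (i + 1) ×ˢ V (i + 1) ⊆ Z i t)
    (h4 : ∀ t, Z 0 t ⊆ V 0 ×ˢ V 0) (h5 : (V l).card ≤ N3) (h6 : V l ⊆ U')
    (hs : StepOK A U U' Y (Z 0) θ) (hY : ∀ t, U' ×ˢ U' ⊆ Y t) (hY2 : ∀ t, Y t ⊆ U ×ˢ U)
    (hd : Deg Y U (ζ * U.card)) :
    ∃ (V' : ℕ → Finset α) (Z' : ℕ → Gr α), V' 0 = U ∧ Z' 0 = Y ∧ V' (l + 1) = V l ∧
      (∀ i < l + 1, StepOK A (V' i) (V' (i + 1)) (Z' i) (Z' (i + 1)) θ) ∧
      (∀ i < l + 1, ∀ t, Z' (i + 1) t ⊆ V' (i + 1) ×ˢ V' (i + 1)) ∧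
      (∀ i < l + 1, ∀ t, V' (i + 1) ×ˢ V' (i + 1) ⊆ Z' i t) ∧
      (∀ t, Z' 0 t ⊆ V' 0 ×ˢ V' 0) ∧ (V' (l + 1)).card ≤ N3 ∧ V' (l + 1) ⊆ U ∧
      Deg (Z' 0) U (ζ * U.card) := by
  refine ⟨shift U V, shift Y Z, shift_zero _ _, shift_zero _ _, shift_succ _ _ _, ?_, ?_, ?_, ?_,
    ?_, ?_, ?_⟩
  · intro i hi
    cases i with
    | zero =>
      rw [shift_succ, shift_succ, shift_zero, shift_zero, h0]
      exact hs
    | succ i =>
      rw [shift_succ, shift_succ, shift_succ, shift_succ]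
      exact h1 i (by omega)
  · intro i hi t
    rw [shift_succ, shift_succ]
    cases i with
    | zero => exact h4 t
    | succ i => exact h2 i (by omega) t
  · intro i hi t
    rw [shift_succ]
    cases i with
    | zero =>
      rw [shift_zero, h0]
      exact hY t
    | succ i =>
      rw [shift_succ]
      exact h3 i (by omega) t
  · intro t
    rw [shift_zero, shift_zero]
    exact hY2 t
  · rw [shift_succ]
    exact h5
  · rw [shift_succ]
    exact h6.trans hU'
  · rw [shift_zero]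
    exact hd

/-- the union of the complete graph on `U'` and a reservoir lies inside `U` -/
theorem union_res_sub {α : Type} [DecidableEq α] {U U' E : Finset α} {R : Gr α} (hU' : U' ⊆ U)
    (r2 : ∀ a c : Fin 3, a ≠ c → ∀ x y, Adj R a c x y →
        (x ∈ U \ U' ∧ y ∈ U' \ E) ∨ (x ∈ U' \ E ∧ y ∈ U \ U')) (t : Fin 3) :
    (U' ×ˢ U') ∪ R t ⊆ U ×ˢ U := by
  refine union_subset (product_subset_product hU' hU') ?_
  refine gr_sub_of_adj (fun a c hac x y h => ?_) t
  rw [mem_product]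
  rcases r2 a c hac x y h with ⟨h1, h2⟩ | ⟨h1, h2⟩
  · exact ⟨(mem_sdiff.1 h1).1, hU' (mem_sdiff.1 h2).1⟩
  · exact ⟨hU' (mem_sdiff.1 h1).1, (mem_sdiff.1 h2).1⟩

/-- **The vortex.** -/
theorem vortex {β b θ ζ ε : ℝ} {t N2 : ℕ} (hβb : β < b) (hb1 : b ≤ 1) (ht : 32 ≤ t)
    (hζ : 0 < ζ) (hε : 0 < ε) (hstep : StepProp b θ ζ ε t N2) :
    ∃ N3 : ℕ, ∀ {α : Type} [Fintype α] [DecidableEq α] (A : Tri α → Prop) [DecidablePred A]
      (U : Finset α), Spa A U U (β + 3 * t / rt U.card) → Vortex A U θ ζ N3 := by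
  obtain ⟨NE, hNE⟩ := exists_next t (by omega)
  have ht0 : (0 : ℝ) < t := by
    have : (32 : ℝ) ≤ t := by exact_mod_cast ht
    linarith
  have hev : ∀ᶠ n : ℕ in Filter.atTop, 3 * t / (b - β) ≤ rt n :=
    tendsto_rt.eventually_ge_atTop _
  obtain ⟨N4, hN4⟩ := Filter.eventually_atTop.1 hev
  refine ⟨max N2 (max NE (max (2 * t * (N4 + 1)) 1)), ?_⟩
  intro α _ _ A _
  suffices key : ∀ n : ℕ, ∀ U : Finset α, U.card = n → Spa A U U (β + 3 * t / rt U.card) →
      Vortex A U θ ζ (max N2 (max NE (max (2 * t * (N4 + 1)) 1))) from fun U => key _ U rfl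
  intro n
  induction n using Nat.strong_induction_on with
  | _ n ih =>
    intro U hn hspa
    by_cases hsmall : U.card ≤ max N2 (max NE (max (2 * t * (N4 + 1)) 1))
    · refine ⟨0, fun _ => U, fun _ _ => ∅, rfl, ?_, ?_, ?_, fun t => empty_subset _, hsmall,
        subset_rfl, deg_empty U (by positivity)⟩
      · intro i hi; omega
      · intro i hi; omega
      · intro i hi; omega
    · push Not at hsmall
      have s2 : N2 ≤ U.card := (le_max_left _ _).trans hsmall.le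
      have s3 : NE ≤ U.card := ((le_max_left _ _).trans (le_max_right _ _)).trans hsmall.le
      have s4 : 2 * t * (N4 + 1) ≤ U.card :=
        (((le_max_left _ _).trans (le_max_right _ _)).trans (le_max_right _ _)).trans hsmall.le
      have hUpos : (0 : ℝ) < U.card := by
        have : 1 ≤ U.card :=
          (((le_max_right _ _).trans (le_max_right _ _)).trans (le_max_right _ _)).trans hsmall.le
        exact_mod_cast this
      have hbound : ∀ m : ℕ, N4 ≤ m → 0 < m → β + 3 * t / rt m ≤ b := by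
        intro m hm hm0
        have h1 := hN4 m hm
        have h2 : 0 < rt m := rt_pos (by exact_mod_cast hm0)
        have h3 : 0 < b - β := by linarith
        have h4 : 3 * t / rt m ≤ b - β := by
          rw [div_le_iff₀ h2]
          rw [div_le_iff₀ h3] at h1
          linarith
        linarith
      have hN4U : N4 ≤ U.card := by
        have h1 : N4 + 1 ≤ 2 * t * (N4 + 1) := Nat.le_mul_of_pos_left _ (by omega)
        omega
      have hUb : β + 3 * t / rt U.card ≤ b := hbound _ hN4U (by exact_mod_cast hUpos)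
      obtain ⟨U', hU', u1, u2, u3⟩ := hNE A U (β + 3 * t / rt U.card) (hUb.trans hb1) s3 hspa
      have hU'pos : (0 : ℝ) < U'.card := by
        by_contra hcon
        push Not at hcon
        have : 2 * t * (U'.card : ℝ) ≤ 0 := mul_nonpos_of_nonneg_of_nonpos (by positivity) hcon
        linarith
      have hU'4 : N4 + 1 ≤ U'.card := by
        by_contra hcon
        push Not at hcon
        have h1 : (U.card : ℝ) < 2 * t * (N4 + 1 : ℕ) := by
          refine u1.trans_lt ?_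
          have : (U'.card : ℝ) < (N4 + 1 : ℕ) := by exact_mod_cast hcon
          exact mul_lt_mul_of_pos_left this (by positivity)
        have h2 : U.card < 2 * t * (N4 + 1) := by exact_mod_cast h1
        omega
      have h16 : 16 * (U'.card : ℝ) ≤ U.card := by
        have h32 : (32 : ℝ) ≤ t := by exact_mod_cast ht
        have : 32 * (U'.card : ℝ) ≤ t * U'.card := mul_le_mul_of_nonneg_right h32 hU'pos.le
        linarith
      have hrt := rt_half h16
      have hrtpos : 0 < rt U'.card := rt_pos hU'pos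
      have hrtpos2 : 0 < rt U.card := rt_pos hUpos
      have hspa' : Spa A U U' (β + 3 * t / rt U'.card) := by
        refine u3.mono subset_rfl ?_
        have h1 : 3 * t / rt U.card ≤ 3 * t / (2 * rt U'.card) :=
          div_le_div_of_nonneg_left (by positivity) (by positivity) hrt
        have h2 : 3 * t / (2 * rt U'.card) = 3 * t / rt U'.card / 2 := by
          field_simp
        linarith
      have hU'b : β + 3 * t / rt U'.card ≤ b := hbound _ (by omega) (by exact_mod_cast hU'pos)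
      have hlt : U'.card < n := by
        have h1 : (U'.card : ℝ) < U.card := by linarith
        rw [← hn]
        exact_mod_cast h1
      obtain ⟨l, V, Z, v0, v1, v2, v3, v4, v5, v6, v7⟩ := ih U'.card hlt U' rfl
        (hspa'.mono hU' le_rfl)
      obtain ⟨R, r1, r2, r3⟩ := hstep A U U' ∅ (Z 0) s2 hU' u1 u2 (empty_subset _)
        (by rw [card_empty]; push_cast; positivity) (hspa.mono subset_rfl hUb)
        (hspa'.mono subset_rfl hU'b) (fun i => by rw [← v0]; exact v4 i) v7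
      obtain ⟨V', Z', w0, w1, w2, w3, w4, w5, w6, w7, w8, w9⟩ := Vortex.cons (ζ := ζ) hU' v0 v1 v2
        v3 v4 v5 v6 r1 (fun t => subset_union_left) (fun t => union_res_sub hU' r2 t) r3
      exact ⟨l + 1, V', Z', w0, w3, w4, w5, w6, w7, w8, w9⟩

end Pool.Agent.LAV
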